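import Pool.Agent.MP_f65396_co.h15n.SpecB

/-! The colours inside the blocks. -/

set_option autoImplicit false

namespace Pool.Agent.MP_f65396_co.h15n

open Finset

namespace Block

theorem one (hv : VizS) (he : EqS) {V : Type} [DecidableEq V] {h m k : ℕ} {A L : Finset (V × V)}
    {col : V × V → ℕ} (dj : Disjoint A L) (h1 : ∀ p ∈ A, col p < m)
    (h2 : ∀ c < m, (A.filter fun p => col p = c).card = h)
    (h3 : ∀ p ∈ A, ∀ p' ∈ A, col p = col p' → p.1 = p'.1) (h4 : ∀ u v, (u, v) ∈ L → (v, u) ∉ L)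
    (h5 : L.card = h * k) (h6 : ∀ v, (A.filter fun p => p.2 = v).card +
      (L.filter fun p => p.1 = v ∨ p.2 = v).card < h) :
    ∃ c : V × V → ℕ, ((∀ p ∈ A, c p < h) ∧ ∀ p ∈ L, c p < h) ∧
      (∀ p ∈ A, ∀ p' ∈ A, c p = c p' → (col p = col p' ∨ p.2 = p'.2) → p = p') ∧
      (∀ p ∈ A, ∀ p' ∈ L, c p = c p' → p.2 ≠ p'.1 ∧ p.2 ≠ p'.2) ∧
      (∀ p ∈ L, ∀ p' ∈ L, c p = c p' → p ≠ p' → p.1 ≠ p'.1 ∧ p.1 ≠ p'.2 ∧ p.2 ≠ p'.2) ∧
      ∀ t < h, (L.filter fun p => c p = t).card = k := by
  obtain ⟨en, eA, eL⟩ : ∃ en : V × V → Finset (V ⊕ ℕ),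
      (∀ p ∈ A, en p = {.inl p.2, .inr (col p)}) ∧ ∀ p ∈ L, en p = {.inl p.1, .inl p.2} :=
    ⟨fun p => if p ∈ A then {.inl p.2, .inr (col p)} else {.inl p.1, .inl p.2},
      fun p hp => if_pos hp, fun p hp => if_neg (disjoint_right.1 dj hp)⟩
  have two : ∀ e ∈ A ∪ L, (en e).card = 2 := fun e hp => by
    rcases mem_union.1 hp with hp | hp
    · rw [eA e hp]
      exact card_pair (by simp)
    · rw [eL e hp]
      refine card_pair fun q => ?_
      obtain ⟨u, v⟩ := e
      obtain rfl : u = v := Sum.inl.inj q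
      exact h4 u u hp hp
  have dl : ∀ w, ((A ∪ L).filter fun e => Sum.inl w ∈ en e).card < h := fun w => by
    refine lt_of_le_of_lt ((card_le_card fun e hp => ?_).trans (card_union_le _ _)) (h6 w)
    obtain ⟨a, b⟩ := mem_filter.1 hp
    rcases mem_union.1 a with a | a
    · rw [eA e a] at b
      exact mem_union_left _ (mem_filter.2 ⟨a, by simpa [eq_comm] using b⟩)
    · rw [eL e a] at b
      exact mem_union_right _ (mem_filter.2 ⟨a, by simpa [eq_comm] using b⟩)
  obtain ⟨c0, p0⟩ := hv _ _ (A ∪ L) en h (fun x => x.isRight) two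
    (fun e hp e' hp' q => by
      rcases mem_union.1 hp with hp | hp <;> rcases mem_union.1 hp' with hp' | hp'
      · rw [eA e hp, eA e' hp'] at q
        have a := Finset.ext_iff.1 q (.inl e.2)
        have b := Finset.ext_iff.1 q (.inr (col e))
        exact Prod.ext (h3 e hp e' hp' (by simpa using b)) (by simpa using a)
      · rw [eA e hp, eL e' hp'] at q
        simpa using Finset.ext_iff.1 q (.inr (col e))
      · rw [eL e hp, eA e' hp'] at q
        simpa using Finset.ext_iff.1 q (.inr (col e'))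
      · rw [eL e hp, eL e' hp'] at q
        obtain ⟨u, v⟩ := e
        obtain ⟨u', v'⟩ := e'
        have a : u = u' ∨ u = v' := by simpa using Finset.ext_iff.1 q (.inl u)
        have b : v = u' ∨ v = v' := by simpa using Finset.ext_iff.1 q (.inl v)
        rcases a with rfl | rfl <;> rcases b with rfl | rfl
        exacts [(h4 _ _ hp hp).elim, rfl, (h4 _ _ hp hp').elim, (h4 _ _ hp hp).elim])
    (fun x => by
      rcases x with w | c
      · exact (dl w).le
      · have a : ((A ∪ L).filter fun e => Sum.inr c ∈ en e) ⊆ A.filter fun p => col p = c := by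
          intro e hp
          obtain ⟨a, b⟩ := mem_filter.1 hp
          rcases mem_union.1 a with a | a
          · rw [eA e a] at b
            exact mem_filter.2 ⟨a, by simpa [eq_comm] using b⟩
          · simp [eL e a] at b
        refine (card_le_card a).trans ?_
        by_cases hc : c < m
        · exact (h2 c hc).le
        · rw [filter_false_of_mem fun p hp (q : col p = c) => hc (q ▸ h1 p hp), card_empty]
          exact h.zero_le)
    (fun x hx => by
      rcases x with w | c
      · exact dl w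
      · simp at hx)
    (fun e hp u hu v hv' a b => by
      rcases mem_union.1 hp with hp | hp
      · rw [eA e hp, mem_insert, mem_singleton] at hu hv'
        rcases hu with rfl | rfl <;> rcases hv' with rfl | rfl <;> simp_all
      · rw [eL e hp, mem_insert, mem_singleton] at hu
        rcases hu with rfl | rfl <;> simp at a)
  have cA : A.card = h * m := by
    rw [card_eq_sum_card_fiberwise (f := col) (t := range m) fun p hp =>
      mem_coe.2 (mem_range.2 (h1 p hp)), sum_congr rfl fun c hc => h2 c (mem_range.1 hc), sum_const,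
      card_range, smul_eq_mul, mul_comm]
  obtain ⟨c, p1, p2⟩ := he _ _ (A ∪ L) en h (m + k) c0 two p0
    (by rw [card_union_of_disjoint dj, cA, h5, mul_add])
  have d2 : ∀ p ∈ A, ∀ p' ∈ A, c p = c p' → (col p = col p' ∨ p.2 = p'.2) → p = p' :=
    fun p hp p' hp' q r => by_contra fun n => by
      have := p1.dj p (mem_union_left _ hp) p' (mem_union_left _ hp') n q
      rw [eA p hp, eA p' hp'] at this
      rcases r with r | r <;> simp [r] at this
  refine ⟨c, ⟨fun p hp => p1.lt p (mem_union_left _ hp), fun p hp => p1.lt p (mem_union_right _ hp)⟩,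
    d2, fun p hp p' hp' q => ?_, fun p hp p' hp' q n => ?_, fun t ht => ?_⟩
  · have := p1.dj p (mem_union_left _ hp) p' (mem_union_right _ hp')
      (fun n => disjoint_left.1 dj hp (n ▸ hp')) q
    rw [eA p hp, eL p' hp'] at this
    exact ⟨fun r => by simp [r] at this, fun r => by simp [r] at this⟩
  · have := p1.dj p (mem_union_right _ hp) p' (mem_union_right _ hp') n q
    rw [eL p hp, eL p' hp'] at this
    exact ⟨fun r => by simp [r] at this, fun r => by simp [r] at this, fun r => by simp [r] at this⟩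
  · have a : (A.filter fun p => c p = t).card = m := by
      rw [← card_range m]
      refine card_nbij col (fun p hp => mem_coe.2 (mem_range.2 (h1 p (mem_filter.1 hp).1)))
        (fun p hp p' hp' q => d2 p (mem_filter.1 hp).1 p' (mem_filter.1 hp').1
          ((mem_filter.1 hp).2.trans (mem_filter.1 hp').2.symm) (Or.inl q)) fun j hj => ?_
      have b : (A.filter fun p => col p = j).image c = range h := by
        refine eq_of_subset_of_card_le (fun s hs => ?_) ?_
        · obtain ⟨p, hp, rfl⟩ := mem_image.1 hs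
          exact mem_range.2 (p1.lt p (mem_union_left _ (mem_filter.1 hp).1))
        · rw [card_range, card_image_of_injOn fun p hp p' hp' q => d2 p (mem_filter.1 hp).1 p'
            (mem_filter.1 hp').1 q (Or.inl ((mem_filter.1 hp).2.trans (mem_filter.1 hp').2.symm)),
            h2 j (mem_range.1 hj)]
      obtain ⟨p, hp, e⟩ := mem_image.1 (b ▸ mem_range.2 ht : t ∈ _)
      exact ⟨p, mem_coe.2 (mem_filter.2 ⟨(mem_filter.1 hp).1, e⟩), (mem_filter.1 hp).2⟩
    have b := p2 t ht
    rw [filter_union, card_union_of_disjoint (disjoint_filter_filter dj), a] at b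
    omega

end Block

theorem block (hv : VizS) (he : EqS) : BlockS := by
  intro V _ h Λ mc kk Ds L blk col bl dj h1 h2 h3 h4 h5 h6 h7
  have key := fun J (hJ : J < Λ) => Block.one hv he (h := h) (m := mc J) (k := kk J)
    (A := Ds.filter fun p => blk p = J) (L := L.filter fun p => bl p = J) (col := col)
    (disjoint_filter_filter dj) (fun p hp => (mem_filter.1 hp).2 ▸ (h1 p (mem_filter.1 hp).1).2)
    (fun c hc => by rw [filter_filter, h2 J hJ c hc])
    (fun p hp p' hp' => h3 p (mem_filter.1 hp).1 p' (mem_filter.1 hp').1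
      ((mem_filter.1 hp).2.trans (mem_filter.1 hp').2.symm))
    (fun u v a b => h4 u v (mem_filter.1 a).1 (mem_filter.1 b).1) (h6 J hJ)
    fun v => by rw [filter_filter, filter_filter]; exact h7 v J hJ
  choose! c k1 k2 k3 k4 k5 using key
  obtain ⟨dp, e1, e2⟩ : ∃ dp : V × V → ℕ, (∀ p ∈ Ds, dp p = c (blk p) p) ∧
      ∀ p ∈ L, dp p = c (bl p) p := ⟨fun p => if p ∈ Ds then c (blk p) p else c (bl p) p,
    fun p hp => if_pos hp, fun p hp => if_neg (disjoint_right.1 dj hp)⟩
  refine ⟨dp, ⟨fun p hp => ?_, fun p hp => ?_⟩, fun p hp p' hp' q r => ?_,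
    fun p hp p' hp' q r => ?_, fun p hp p' hp' q r => ?_, fun J hJ t ht => ?_⟩
  · exact e1 p hp ▸ (k1 _ (h1 p hp).1).1 p (mem_filter.2 ⟨hp, rfl⟩)
  · exact e2 p hp ▸ (k1 _ (h5 p hp)).2 p (mem_filter.2 ⟨hp, rfl⟩)
  · rw [e1 p hp, e1 p' hp', ← q] at r
    exact k2 _ (h1 p hp).1 p (mem_filter.2 ⟨hp, rfl⟩) p' (mem_filter.2 ⟨hp', q.symm⟩) r
  · rw [e1 p hp, e2 p' hp', ← q] at r
    exact k3 _ (h1 p hp).1 p (mem_filter.2 ⟨hp, rfl⟩) p' (mem_filter.2 ⟨hp', q.symm⟩) r
  · rw [e2 p hp, e2 p' hp', ← q] at r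
    exact k4 _ (h5 p hp) p (mem_filter.2 ⟨hp, rfl⟩) p' (mem_filter.2 ⟨hp', q.symm⟩) r
  · rw [← k5 J hJ t ht, filter_filter]
    exact congrArg _ (filter_congr fun p hp => and_congr_right fun q => by rw [e2 p hp, q])

end Pool.Agent.MP_f65396_co.h15n
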