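import Pool.Agent.MP_f65396_co.h15n.SpecA

/-! Independent uniform choices meeting all tests, and random cyclic shifts. -/

set_option autoImplicit false

namespace Pool.Agent.MP_f65396_co.h15n

open Finset

namespace Chern

/-- Some choice is at most the average. -/
lemma derand {ι σ : Type} [DecidableEq ι] (N : ι → ℕ) (S : Finset σ) (g : σ → ι → ℕ → ℝ)
    (I : Finset ι) : (∀ i ∈ I, 0 < N i) → ∀ c : σ → ℝ, ∃ ω : ι → ℕ, (∀ i ∈ I, ω i < N i) ∧
      ∑ s ∈ S, c s * ∏ i ∈ I, g s i (ω i) ≤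
        ∑ s ∈ S, c s * ∏ i ∈ I, (∑ x ∈ range (N i), g s i x) / N i := by
  induction I using Finset.induction_on with
  | empty => intro _ c; exact ⟨fun _ => 0, by simp, by simp⟩
  | insert a I ha ih =>
    intro hN c
    have hNa : 0 < N a := hN a (mem_insert_self a I)
    have hNa' : (0 : ℝ) < N a := by exact_mod_cast hNa
    set P : σ → ℝ := fun s => ∏ i ∈ I, (∑ x ∈ range (N i), g s i x) / N i with hP
    have hsum : ∑ x ∈ range (N a), ∑ s ∈ S, (c s * g s a x) * P s ≤
        ∑ _x ∈ range (N a), ∑ s ∈ S, c s * ((∑ x ∈ range (N a), g s a x) / N a * P s) := by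
      rw [sum_comm, sum_const, card_range, nsmul_eq_mul, mul_sum]
      refine le_of_eq (sum_congr rfl fun s _ => ?_)
      rw [← sum_mul, ← mul_sum]
      field_simp
    obtain ⟨x, hx, hle⟩ := exists_le_of_sum_le (nonempty_range_iff.2 hNa.ne') hsum
    obtain ⟨ω, hω, hb⟩ := ih (fun i hi => hN i (mem_insert_of_mem hi)) (fun s => c s * g s a x)
    refine ⟨Function.update ω a x, fun i hi => ?_, ?_⟩
    · rcases mem_insert.1 hi with rfl | hi
      · simpa using mem_range.1 hx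
      · have : i ≠ a := fun e => ha (e ▸ hi)
        rw [Function.update_of_ne this]
        exact hω i hi
    · have e1 : ∀ s, ∏ i ∈ insert a I, g s i (Function.update ω a x i) =
          g s a x * ∏ i ∈ I, g s i (ω i) := by
        intro s
        rw [prod_insert ha, Function.update_self]
        congr 1
        refine prod_congr rfl fun i hi => ?_
        have : i ≠ a := fun e => ha (e ▸ hi)
        rw [Function.update_of_ne this]
      simp only [e1, prod_insert ha]
      calc ∑ s ∈ S, c s * (g s a x * ∏ i ∈ I, g s i (ω i))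
          = ∑ s ∈ S, (c s * g s a x) * ∏ i ∈ I, g s i (ω i) :=
            sum_congr rfl fun s _ => by ring
        _ ≤ ∑ s ∈ S, (c s * g s a x) * P s := hb
        _ ≤ _ := hle

lemma exp_le {y f : ℝ} (hy : |y| ≤ 1) (h0 : 0 ≤ f) (h1 : f ≤ 1) :
    Real.exp (y * f) ≤ 1 + (y + y ^ 2) * f := by
  have h2 : |y * f| ≤ 1 := by
    rw [abs_mul, abs_of_nonneg h0]
    exact mul_le_one₀ hy h0 h1
  have h3 := (abs_le.1 (Real.abs_exp_sub_one_sub_id_le h2)).2
  have h4 : (y * f) ^ 2 ≤ y ^ 2 * f := by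
    have : f ^ 2 ≤ f := by nlinarith
    calc (y * f) ^ 2 = y ^ 2 * f ^ 2 := by ring
      _ ≤ y ^ 2 * f := mul_le_mul_of_nonneg_left this (sq_nonneg y)
  linarith

lemma avg_le {n : ℕ} (hn : 0 < n) {y : ℝ} (hy : |y| ≤ 1) (f : ℕ → ℝ)
    (hf : ∀ x < n, 0 ≤ f x ∧ f x ≤ 1) :
    (∑ x ∈ range n, Real.exp (y * f x)) / n ≤
      Real.exp ((y + y ^ 2) * ((∑ x ∈ range n, f x) / n)) := by
  have hn' : (0 : ℝ) < n := by exact_mod_cast hn
  have h1 : ∑ x ∈ range n, Real.exp (y * f x) ≤ ∑ x ∈ range n, (1 + (y + y ^ 2) * f x) :=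
    sum_le_sum fun x hx => exp_le hy (hf x (mem_range.1 hx)).1 (hf x (mem_range.1 hx)).2
  rw [sum_add_distrib, sum_const, card_range, nsmul_eq_mul, mul_one, ← mul_sum] at h1
  refine le_trans ?_ (Real.add_one_le_exp _)
  rw [div_le_iff₀ hn']
  refine h1.trans (le_of_eq ?_)
  field_simp
  ring

end Chern

theorem chern : ChernS := by
  classical
  intro ι τ _ I N T f l D hN hf hl0 hl1 hT
  set m : τ → ℝ := fun t => ∑ i ∈ I, (∑ x ∈ range (N i), f t i x) / N i with hm
  obtain ⟨ω, hω, hb⟩ := Chern.derand N (T ×ˢ ({l, -l} : Finset ℝ))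
    (fun s i x => Real.exp (s.2 * f s.1 i x)) I hN
    (fun s => Real.exp (-((s.2 + l ^ 2) * m s.1 + l * D)))
  refine ⟨ω, hω, fun t ht => ?_⟩
  have habs : ∀ y ∈ ({l, -l} : Finset ℝ), |y| ≤ 1 ∧ y ^ 2 = l ^ 2 := by
    intro y hy
    rcases mem_insert.1 hy with rfl | hy
    · exact ⟨by rw [abs_of_pos hl0]; exact hl1, rfl⟩
    · rw [mem_singleton.1 hy, abs_neg, abs_of_pos hl0]
      exact ⟨hl1, by ring⟩
  have h1 : ∑ s ∈ T ×ˢ ({l, -l} : Finset ℝ), Real.exp (-((s.2 + l ^ 2) * m s.1 + l * D)) *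
      ∏ i ∈ I, (∑ x ∈ range (N i), Real.exp (s.2 * f s.1 i x)) / N i ≤
      ∑ _s ∈ T ×ˢ ({l, -l} : Finset ℝ), Real.exp (-(l * D)) := by
    refine sum_le_sum fun s hs => ?_
    obtain ⟨hs1, hs2⟩ := mem_product.1 hs
    obtain ⟨ha, hq⟩ := habs _ hs2
    have h2 : ∏ i ∈ I, (∑ x ∈ range (N i), Real.exp (s.2 * f s.1 i x)) / N i ≤
        ∏ i ∈ I, Real.exp ((s.2 + s.2 ^ 2) * ((∑ x ∈ range (N i), f s.1 i x) / N i)) :=
      prod_le_prod (fun i _ => div_nonneg (sum_nonneg fun x _ => (Real.exp_pos _).le)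
        (Nat.cast_nonneg _)) (fun i hi => Chern.avg_le (hN i hi) ha _ (hf s.1 hs1 i hi))
    rw [← Real.exp_sum, ← mul_sum, hq] at h2
    refine (mul_le_mul_of_nonneg_left h2 (Real.exp_pos _).le).trans (le_of_eq ?_)
    rw [← Real.exp_add]
    congr 1
    simp only [hm]
    ring
  have h3 : ∑ _s ∈ T ×ˢ ({l, -l} : Finset ℝ), Real.exp (-(l * D)) < 1 := by
    rw [sum_const, nsmul_eq_mul, card_product, Real.exp_neg, ← div_eq_mul_inv,
      div_lt_one (Real.exp_pos _)]
    refine lt_of_le_of_lt ?_ hT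
    have : (({l, -l} : Finset ℝ).card : ℝ) ≤ 2 := by exact_mod_cast card_le_two
    push_cast
    rw [mul_comm]
    exact mul_le_mul_of_nonneg_right this (Nat.cast_nonneg _)
  have h4 : ∀ y ∈ ({l, -l} : Finset ℝ),
      y * ∑ i ∈ I, f t i (ω i) - ((y + l ^ 2) * m t + l * D) < 0 := by
    intro y hy
    have h5 := single_le_sum (s := T ×ˢ ({l, -l} : Finset ℝ))
      (f := fun s : τ × ℝ => Real.exp (-((s.2 + l ^ 2) * m s.1 + l * D)) *
        ∏ i ∈ I, Real.exp (s.2 * f s.1 i (ω i)))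
      (fun s _ => mul_nonneg (Real.exp_pos _).le (prod_nonneg fun i _ => (Real.exp_pos _).le))
      (a := (t, y)) (mem_product.2 ⟨ht, hy⟩)
    have h6 := lt_of_le_of_lt (h5.trans (hb.trans h1)) h3
    simp only at h6
    rw [← Real.exp_sum, ← mul_sum, ← Real.exp_add, Real.exp_lt_one_iff] at h6
    linarith
  have h7 := h4 l (mem_insert_self _ _)
  have h8 := h4 (-l) (mem_insert_of_mem (mem_singleton_self _))
  change |∑ i ∈ I, f t i (ω i) - m t| ≤ l * m t + D
  refine abs_le.2 ⟨?_, ?_⟩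
  · have : l * (-(l * m t + D)) < l * (∑ i ∈ I, f t i (ω i) - m t) := by nlinarith
    exact (lt_of_mul_lt_mul_left this hl0.le).le
  · have : l * (∑ i ∈ I, f t i (ω i) - m t) < l * (l * m t + D) := by nlinarith
    exact (lt_of_mul_lt_mul_left this hl0.le).le

namespace Chern

lemma idx {V : Type} [DecidableEq V] (X : Finset V) :
    ∃ e : V → ℕ, Set.BijOn e X (range X.card : Finset ℕ) := by
  refine ⟨fun w => if h : w ∈ X then (X.equivFin ⟨w, h⟩ : ℕ) else 0, fun w hw => ?_,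
    fun w hw w' hw' e => ?_, fun i hi => ?_⟩
  · have hw1 : w ∈ X := hw
    simp [hw1]
  · have hw1 : w ∈ X := hw
    have hw2 : w' ∈ X := hw'
    simp only [dif_pos hw1, dif_pos hw2] at e
    exact congrArg Subtype.val (X.equivFin.injective (Fin.ext e))
  · have hi1 : i < X.card := mem_range.1 hi
    refine ⟨(X.equivFin.symm ⟨i, hi1⟩ : V), (X.equivFin.symm ⟨i, hi1⟩).2, ?_⟩
    simp

lemma rot (c a : ℕ) : Set.BijOn (fun x => (x + a) % c) (range c : Finset ℕ) (range c : Finset ℕ) := by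
  have hm : Set.MapsTo (fun x => (x + a) % c) (range c : Finset ℕ) (range c : Finset ℕ) := by
    intro x hx
    have : x < c := mem_range.1 hx
    exact mem_range.2 (Nat.mod_lt _ (by omega))
  have hi : Set.InjOn (fun x => (x + a) % c) (range c : Finset ℕ) := by
    intro x hx y hy e
    have h1 : x ≡ y [MOD c] := Nat.ModEq.add_right_cancel' a e
    exact Nat.ModEq.eq_of_lt_of_lt h1 (mem_range.1 hx) (mem_range.1 hy)
  exact ⟨hm, hi, surjOn_of_injOn_of_card_le _ hm hi le_rfl⟩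

lemma cnt (c a : ℕ) (p : ℕ → Prop) [DecidablePred p] :
    ((range c).filter (fun x => p ((a + x) % c))).card = ((range c).filter p).card := by
  have h := rot c a
  refine card_bij (fun x _ => (x + a) % c) (fun x hx => ?_) (fun x hx y hy e => ?_)
    (fun y hy => ?_)
  · obtain ⟨h1, h2⟩ := mem_filter.1 hx
    exact mem_filter.2 ⟨h.mapsTo h1, by rwa [add_comm]⟩
  · exact h.injOn (mem_filter.1 hx).1 (mem_filter.1 hy).1 e
  · obtain ⟨h1, h2⟩ := mem_filter.1 hy
    obtain ⟨x, hx, e⟩ := h.surjOn h1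
    have e' : (x + a) % c = y := e
    exact ⟨x, mem_filter.2 ⟨hx, by rw [add_comm, e']; exact h2⟩, e'⟩

end Chern

theorem shift (hc : ChernS) : ShiftS := by
  intro V _ Sh Wt X lab Ls l D hl0 hl1 hT
  choose e he using fun u => Chern.idx (X u)
  obtain ⟨ω, -, hb⟩ := hc V (V × ℕ) Sh (fun u => max 1 (X u).card) (Wt ×ˢ Ls)
    (fun s u x => if s.1 ∈ X u ∧ lab u ((e u s.1 + x) % (X u).card) = s.2 then 1 else 0) l D
    (fun u _ => by omega)
    (fun s _ u _ x _ => by split_ifs <;> norm_num) hl0 hl1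
    (by rw [card_product]; push_cast; exact hT)
  refine ⟨fun u w => (e u w + ω u) % (X u).card, fun u _ => ?_, fun w hw J hJ => ?_⟩
  · exact (Chern.rot (X u).card (ω u)).comp (he u)
  · have h1 := (abs_le.1 (hb (w, J) (mem_product.2 ⟨hw, hJ⟩))).2
    simp only at h1
    rw [sum_boole] at h1
    have h2 : ∑ u ∈ Sh, (∑ x ∈ range (max 1 (X u).card),
        if w ∈ X u ∧ lab u ((e u w + x) % (X u).card) = J then (1 : ℝ) else 0) /
          ((max 1 (X u).card : ℕ) : ℝ) = ∑ u ∈ Sh.filter (fun u => w ∈ X u),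
          (((range (X u).card).filter (fun i => lab u i = J)).card : ℝ) / (X u).card := by
      rw [sum_filter]
      refine sum_congr rfl fun u _ => ?_
      by_cases hx : w ∈ X u
      · have h3 : max 1 (X u).card = (X u).card := max_eq_right (card_pos.2 ⟨w, hx⟩)
        rw [if_pos hx, h3, sum_boole, ← Chern.cnt (X u).card (e u w) (fun i => lab u i = J)]
        simp only [hx, true_and]
      · simp [hx]
    rw [h2] at h1
    linarith

end Pool.Agent.MP_f65396_co.h15n
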