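import Pool.Agent.MP_f65396_co.h15n.SpecB

/-! The centres of the complete stars. -/

set_option autoImplicit false

namespace Pool.Agent.MP_f65396_co.h15n

open Finset

namespace Ctr

theorem sum_bu {V : Type} [DecidableEq V] (B : Finset ℕ) (F : ℕ → Finset V) (f : V → ℝ)
    (hf : ∀ u, 0 ≤ f u) : ∑ u ∈ B.biUnion F, f u ≤ ∑ c ∈ B, ∑ u ∈ F c, f u := by
  induction B using Finset.induction_on with
  | empty => simp
  | insert c B hc ih =>
    rw [biUnion_insert, sum_insert hc]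
    have h1 := sum_union_inter (s₁ := F c) (s₂ := B.biUnion F) (f := f)
    have h0 : 0 ≤ ∑ u ∈ F c ∩ B.biUnion F, f u := sum_nonneg fun u _ => hf u
    linarith

theorem ceil_le (X B c : ℕ) (hB : 0 < B) (h : X ≤ B * c) : (X + (B - 1)) / B ≤ c := by
  apply Nat.le_of_lt_succ
  rw [Nat.div_lt_iff_lt_mul hB, Nat.succ_mul, mul_comm c B]
  omega

end Ctr

theorem ctrS (ht : TabS) (hw : WrapS) (hl : LoadS) : CtrS := by
  intro V _ n h k K R z a g β Sh D r ρ b U1 U2 par m0 pm m1 mu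
  have hK : 10000 ≤ K := by
    have h1 := par.hk
    have h2 := par.hK
    omega
  have hK0 : 0 < K := by omega
  have hh : 0 < h := lt_of_lt_of_le (pow_pos hK0 60) par.hh
  have hn : 0 < n := lt_of_lt_of_le (pow_pos hh 4) par.h1
  have hR : 10 ≤ R := by
    rw [pm.hR]
    nlinarith
  have hR0 : 0 < R := by omega
  have ha : 0 < a := by
    rw [pm.ha]
    positivity
  have hg : 2 ≤ g := by
    rw [pm.hg]
    exact le_trans (by omega) (Nat.le_self_pow (by norm_num) K)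
  have hβ : 0 < β := by
    rw [pm.hβ]
    have : 0 < g := by omega
    positivity
  obtain ⟨Nt, hNt⟩ : ∃ Nt, Nt = ∑ u ∈ Sh, r u := ⟨_, rfl⟩
  have hN : K ^ 21 * h ≤ Nt := by
    refine m0.many.trans ?_
    rw [hNt, card_eq_sum_ones]
    exact sum_le_sum fun u hu => (pm.r1 u hu).1
  obtain ⟨v0, -⟩ : Sh.Nonempty := card_pos.1 (lt_of_lt_of_le (by positivity) m0.many)
  have : Nonempty V := ⟨v0⟩
  rw [← hNt] at mu
  obtain ⟨μ, hμ⟩ : ∃ μ, μ = ((20 * R - 1) * Nt + (20 * R ^ 2 * β - 1)) / (20 * R ^ 2 * β) :=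
    ⟨_, rfl⟩
  have hm : ∀ J, kJ U1 h J / a * a * n ≤ 6 * n + 2 * (z * Nt) := by
    intro J
    have h1 : kJ U1 h J / a * a ≤ U1.card :=
      (Nat.div_mul_le_self _ _).trans (card_filter_le _ _)
    have h2 : ∑ y ∈ U1, y ≤ z * Nt := by
      rw [mu.e1]
      exact Nat.div_le_of_le_mul (Nat.mul_le_mul_right _ (Nat.sub_le _ _))
    have h3 := mu.c1
    have h4 := Nat.mul_le_mul_right n h1
    omega
  have L := fun J I hI => hl n h k K R z a g β Nt (kJ U1 h J / a) μ I par pm.hR pm.hz pm.ha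
    pm.hg pm.hβ hN hμ (hm J) hI
  have L0 := fun J => L J 0 (by simp)
  have W := fun e (he : e < R) => hw V (Sh.filter (fun u => ρ u = e)) r b (32 * K ^ 6) g β μ
    ((range (n / h)).filter (fun J => J % R = e)) (fun J => kJ U1 h J / a) v0 pm.hβ hg (L0 0).1 hβ
    (fun u hu => (pm.r1 u (mem_filter.1 hu).1).2)
    (fun c hc => by
      rw [filter_filter, hμ, hNt]
      exact Ctr.ceil_le _ _ _ (by positivity) (m1.t2 e he c hc))
    (fun J _ => (L0 J).2.1)
  choose! C hC using W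
  have hP : ∀ J < n / h, J ∈ (range (n / h)).filter (fun J' => J' % R = J % R) :=
    fun J hJ => mem_filter.2 ⟨mem_range.2 hJ, rfl⟩
  have c1 : ∀ J < n / h, ∀ i < kJ U1 h J / a, C (J % R) J i ∈ Sh ∧ ρ (C (J % R) J i) = J % R ∧
      ∀ j < kJ U1 h J / a, C (J % R) J i = C (J % R) J j → i = j := by
    intro J hJ i hi
    obtain ⟨h1, h2⟩ := (hC _ (Nat.mod_lt J hR0)).1 J (hP J hJ) i hi
    exact ⟨(mem_filter.1 h1).1, (mem_filter.1 h1).2, h2⟩
  refine ⟨fun J => C (J % R) J, c1, fun u hu => ?_, fun w J hJ => ?_⟩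
  · have he := (m1.lt u).1
    have hE : (range (n / h)).filter (fun J => ∃ i < kJ U1 h J / a, C (J % R) J i = u) =
        ((range (n / h)).filter (fun J => J % R = ρ u)).filter
          (fun J => ∃ i < kJ U1 h J / a, C (ρ u) J i = u) := by
      ext J
      simp only [mem_filter, mem_range]
      constructor
      · rintro ⟨hJ, i, hi, hu'⟩
        have h1 := (c1 J hJ i hi).2.1
        rw [hu'] at h1
        exact ⟨⟨hJ, h1.symm⟩, i, hi, by rw [h1]; exact hu'⟩
      · rintro ⟨⟨hJ, h1⟩, i, hi, hu'⟩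
        exact ⟨hJ, i, hi, by rw [h1]; exact hu'⟩
    obtain ⟨w1, w2⟩ := (hC _ he).2.1 u (mem_filter.2 ⟨hu, rfl⟩)
    have t3 := m1.t3 _ he
    rw [← hNt] at t3
    obtain ⟨b1, b2⟩ := ht n h a R z Nt _ _ D.card (ρ u) U1 U2 mu he hn hR ha (L0 0).2.2.2.2.1
      (L0 0).2.2.1 (L0 0).2.2.2.1 t3.1 t3.2 rfl
    simp only [hE]
    generalize (((range (n / h)).filter (fun J => J % R = ρ u)).filter
      (fun J => ∃ i < kJ U1 h J / a, C (ρ u) J i = u)).card = cnt at w1 w2 ⊢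
    generalize (∑ J ∈ (range (n / h)).filter (fun J => J % R = ρ u), kJ U1 h J / a) /
      ∑ v ∈ Sh.filter (fun v => ρ v = ρ u), r v = Q at w1 w2 b1 b2
    constructor
    · calc cnt * (h * a) ≤ r u * (Q + 1) * (h * a) := Nat.mul_le_mul_right _ w2
        _ = (Q + 1) * (h * a) * r u := by ring
        _ ≤ z * r u := Nat.mul_le_mul_right _ b1
    · calc (R - 1) * (z * r u) = (R - 1) * z * r u := by ring
        _ ≤ R * (Q * (h * a)) * r u := Nat.mul_le_mul_right _ b2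
        _ = R * (r u * Q * (h * a)) := by ring
        _ ≤ R * (cnt * (h * a)) := Nat.mul_le_mul_left _ (Nat.mul_le_mul_right _ w1)
  · obtain ⟨Bs, hB, hBs⟩ := (hC _ (Nat.mod_lt J hR0)).2.2 J (hP J hJ)
    refine le_trans ?_ (L J _ (m0.i1 w)).2.2.2.2.2
    have e1 : ∀ u, (h * a / (z * r u) : ℝ) = (h * a / z : ℝ) * (1 / r u) := fun u => by ring
    simp only [e1]
    rw [← mul_sum]
    refine mul_le_mul_of_nonneg_left ?_ (by positivity)
    have hf : ∀ u, (0 : ℝ) ≤ 1 / r u := fun u => by positivity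
    have s1 : Sh.filter (fun u => (u, w) ∈ D ∧ ∃ i < kJ U1 h J / a, C (J % R) J i = u) ⊆
        Bs.biUnion (fun c => Sh.filter (fun u => (u, w) ∈ D ∧ ρ u = J % R ∧ tok g β r b u c)) := by
      intro u hu
      obtain ⟨h1, h2, i, hi, rfl⟩ := mem_filter.1 hu
      obtain ⟨c, hc, h3⟩ := hBs i hi
      exact mem_biUnion.2 ⟨c, hc, mem_filter.2 ⟨h1, h2, (c1 J hJ i hi).2.1, h3⟩⟩
    refine (sum_le_sum_of_subset_of_nonneg s1 fun u _ _ => hf u).trans ?_
    refine (Ctr.sum_bu _ _ _ hf).trans ?_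
    refine (sum_le_card_nsmul _ _ _ fun c _ => m1.t1 w (J % R) c).trans ?_
    rw [nsmul_eq_mul]
    exact mul_le_mul_of_nonneg_right (Nat.cast_le.2 hB) (by positivity)

end Pool.Agent.MP_f65396_co.h15n
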