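import Pool.Agent.MP_f65396_co.h15n.SpecA

/-! Adding the stars of the owners to a labelling. -/

set_option autoImplicit false

namespace Pool.Agent.MP_f65396_co.h15n

open Finset
open Pool.Agent.MP_f65396_co.h32 (cells mem_cells card_cells depth_le)

namespace Own

variable {V : Type} [DecidableEq V] {n : ℕ} {U B : Finset ℕ}

theorem mem_cl {x : ℕ × ℕ} : x ∈ cl n U ↔ (x.2 < x.1 ∧ x.1 ≤ n) ∧ x.1 ∈ U := by
  rw [cl, mem_filter, mem_cells]

theorem card_cl (h : U ⊆ Icc 1 n) : (cl n U).card = ∑ y ∈ U, y := by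
  rw [cl, card_cells n U (fun y hy => (mem_Icc.1 (h hy)).2) _ fun _ _ e => e]
  exact sum_congr rfl fun y hy => by rw [filter_true_of_mem fun _ _ => hy, card_range]

theorem mem_ud (φ : ℕ × ℕ → V × V) {x : ℕ × ℕ} (hx : x ∈ cl n U) :
    x.2 ∈ ud n U φ (φ x).1 ∧ x.2 ∈ ud n U φ (φ x).2 :=
  ⟨mem_image_of_mem _ (mem_filter.2 ⟨hx, Or.inl rfl⟩),
    mem_image_of_mem _ (mem_filter.2 ⟨hx, Or.inr rfl⟩)⟩

theorem busy_le (n : ℕ) (U : Finset ℕ) (φ : ℕ × ℕ → V × V) (s : ℕ) :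
    ∃ T : Finset V, T.card ≤ 2 * U.card ∧ ∀ v, s ∈ ud n U φ v → v ∈ T := by
  have a := depth_le (Y := cl n U) (U := U) (s := s) fun x hx _ => (mem_cl.1 hx).2
  refine ⟨((cl n U).filter fun x => x.2 = s).image (fun x => (φ x).1) ∪
    ((cl n U).filter fun x => x.2 = s).image fun x => (φ x).2, (card_union_le _ _).trans
      ((Nat.add_le_add card_image_le card_image_le).trans (by omega)), fun v hv => ?_⟩
  obtain ⟨x, hx, e⟩ := mem_image.1 hv
  obtain ⟨h1, h2 | h2⟩ := mem_filter.1 hx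
  · exact mem_union_left _ (mem_image.2 ⟨x, mem_filter.2 ⟨h1, e⟩, h2⟩)
  · exact mem_union_right _ (mem_image.2 ⟨x, mem_filter.2 ⟨h1, e⟩, h2⟩)

theorem bij_union {α β : Type} [DecidableEq α] [DecidableEq β] {f f1 f2 : α → β}
    {s1 s2 : Finset α} {t1 t2 : Finset β} (h1 : Set.BijOn f1 s1 t1) (h2 : Set.BijOn f2 s2 t2)
    (e1 : ∀ x ∈ s1, f x = f1 x) (e2 : ∀ x ∈ s2, f x = f2 x) (d : Disjoint t1 t2) :
    Set.BijOn f (s1 ∪ s2 : Finset α) (t1 ∪ t2 : Finset β) := by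
  have a1 : Set.BijOn f s1 t1 := h1.congr fun x hx => (e1 x hx).symm
  have a2 : Set.BijOn f s2 t2 := h2.congr fun x hx => (e2 x hx).symm
  rw [coe_union, coe_union]
  refine a1.union a2 ?_
  rintro x (hx | hx) y (hy | hy) e
  · exact a1.injOn hx hy e
  · exact absurd (e ▸ a1.mapsTo hx : f y ∈ t1) (disjoint_right.1 d (a2.mapsTo hy))
  · exact absurd (e ▸ a2.mapsTo hx : f y ∈ t2) (disjoint_left.1 d (a1.mapsTo hy))
  · exact a2.injOn hx hy e

theorem glue {D0 D1 : Finset (V × V)} {φ0 φ1 : ℕ × ℕ → V × V} {arm0 arm1 : ℕ → ℕ}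
    (l0 : Lab n U D0 φ0 arm0) (l1 : Lab n B D1 φ1 arm1) (hU : Disjoint U B) (hD : Disjoint D0 D1)
    (h : ∀ x ∈ cl n B, x.2 ∉ ud n U φ0 (φ1 x).1 ∧ x.2 ∉ ud n U φ0 (φ1 x).2) :
    ∃ φ arm, Lab n (U ∪ B) (D0 ∪ D1) φ arm ∧ (∀ x ∈ cl n U, φ x = φ0 x) ∧
      ∀ x ∈ cl n B, φ x = φ1 x := by
  obtain ⟨φ, p0, p1⟩ : ∃ φ : ℕ × ℕ → V × V, (∀ x ∈ cl n U, φ x = φ0 x) ∧
      ∀ x ∈ cl n B, φ x = φ1 x := ⟨fun x => if x.1 ∈ U then φ0 x else φ1 x,
    fun x hx => if_pos (mem_cl.1 hx).2, fun x hx => if_neg (disjoint_right.1 hU (mem_cl.1 hx).2)⟩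
  obtain ⟨arm, a0, a1⟩ : ∃ arm : ℕ → ℕ, (∀ y ∈ U, arm y = arm0 y) ∧ ∀ y ∈ B, arm y = arm1 y :=
    ⟨fun y => if y ∈ U then arm0 y else arm1 y, fun y hy => if_pos hy,
      fun y hy => if_neg (disjoint_right.1 hU hy)⟩
  have e : cl n (U ∪ B) = cl n U ∪ cl n B := by
    ext x
    simp only [mem_union, mem_cl, and_or_left]
  have m : ∀ x ∈ cl n U, ∀ y ∈ cl n B, x.2 = y.2 → arm x.1 ≠ arm y.1 ∧ (φ x).1 ≠ (φ y).1 ∧
      (φ x).2 ≠ (φ y).1 ∧ (φ x).1 ≠ (φ y).2 ∧ (φ x).2 ≠ (φ y).2 := fun x hx y hy s => by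
    have b := mem_ud φ0 hx
    have c := h y hy
    rw [s] at b
    rw [p0 x hx, p1 y hy, a0 _ (mem_cl.1 hx).2, a1 _ (mem_cl.1 hy).2]
    exact ⟨fun q => disjoint_left.1 hU (l0.am _ (mem_cl.1 hx).2) (q ▸ l1.am _ (mem_cl.1 hy).2),
      fun q => c.1 (q ▸ b.1), fun q => c.1 (q ▸ b.2), fun q => c.2 (q ▸ b.1),
      fun q => c.2 (q ▸ b.2)⟩
  refine ⟨φ, arm, ⟨e ▸ bij_union l0.bij l1.bij p0 p1 hD, fun y hy => ?_, ?_, ?_, ?_⟩, p0, p1⟩
  · rcases mem_union.1 hy with hy | hy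
    · exact mem_union_left _ (a0 y hy ▸ l0.am y hy)
    · exact mem_union_right _ (a1 y hy ▸ l1.am y hy)
  all_goals
    rw [e]
    intro x hx y hy s
    rcases mem_union.1 hx with hx | hx <;> rcases mem_union.1 hy with hy | hy
  · rw [p0 x hx, p0 y hy, a0 _ (mem_cl.1 hx).2, a0 _ (mem_cl.1 hy).2]
    exact l0.e4 x hx y hy s
  · exact iff_of_false (m x hx y hy s).1 (m x hx y hy s).2.1
  · exact iff_of_false (m y hy x hx s.symm).1.symm (m y hy x hx s.symm).2.1.symm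
  · rw [p1 x hx, p1 y hy, a1 _ (mem_cl.1 hx).2, a1 _ (mem_cl.1 hy).2]
    exact l1.e4 x hx y hy s
  · rw [p0 x hx, p0 y hy]
    exact l0.e5 x hx y hy s
  · exact (m x hx y hy s).2.2.1
  · exact (m y hy x hx s.symm).2.2.2.1.symm
  · rw [p1 x hx, p1 y hy]
    exact l1.e5 x hx y hy s
  · rw [p0 x hx, p0 y hy]
    exact l0.e6 x hx y hy s
  · exact fun q => absurd q (m x hx y hy s).2.2.2.2
  · exact fun q => absurd q.symm (m y hy x hx s.symm).2.2.2.2
  · rw [p1 x hx, p1 y hy]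
    exact l1.e6 x hx y hy s

end Own

open Own in
theorem own (hs : SwapS) : OwnS := by
  classical
  intro V _ n Q Y0 Y1 F U D0 D1 φ0 arm0 o W η l0 ow ht hD hW hY hF hQ
  set B := (range Q).biUnion W with hB
  obtain ⟨gi, g1⟩ : ∃ gi : ℕ → ℕ, ∀ i < Q, ∀ y ∈ W i, gi y = i :=
    ⟨fun y => if h : ∃ i < Q, y ∈ W i then h.choose else 0, fun i hi y hy => by
      have h : ∃ i < Q, y ∈ W i := ⟨i, hi, hy⟩
      simp only [dif_pos h]
      exact by_contra fun e => disjoint_left.1 (ht.dj _ h.choose_spec.1 i hi e) h.choose_spec.2 hy⟩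
  obtain ⟨ix, x1⟩ : ∃ ix : V → ℕ, ∀ i < Q, ix (o i) = i :=
    ⟨fun v => if h : ∃ i < Q, o i = v then h.choose else 0, fun i hi => by
      have h : ∃ j < Q, o j = o i := ⟨i, hi, rfl⟩
      simp only [dif_pos h]
      exact ow.inj _ h.choose_spec.1 i hi h.choose_spec.2⟩
  have g2 : ∀ y ∈ B, gi y < Q ∧ y ∈ W (gi y) := fun y hy => by
    obtain ⟨i, hi, hy⟩ := mem_biUnion.1 hy
    rw [g1 i (mem_range.1 hi) y hy]
    exact ⟨mem_range.1 hi, hy⟩
  have g3 : ∀ i < Q, ∀ y ∈ W i, y ∈ B := fun i hi y hy => mem_biUnion.2 ⟨i, mem_range.2 hi, hy⟩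
  have g4 : ∀ i < Q, gi (η i) = i := fun i hi => g1 i hi _ (ht.top i hi)
  have x2 : ∀ p ∈ D1, ix p.1 < Q ∧ o (ix p.1) = p.1 := fun p hp => by
    obtain ⟨i, hi, e, -⟩ := ow.tl p hp
    rw [e, x1 i hi]
    exact ⟨hi, rfl⟩
  set A := D1.filter fun p => ∃ j < Q, o j = p.2 with hA
  let pc : V × V → ℕ × ℕ := fun p => (η (ix p.1), η (ix p.2) + (ix p.2 - ix p.1))
  have a1 : ∀ p ∈ A, ∃ i j, i < j ∧ j < Q ∧ p = (o i, o j) ∧ pc p = (η i, η j + (j - i)) := by
    intro p hp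
    obtain ⟨h1, j, hj, e⟩ := mem_filter.1 hp
    obtain ⟨i, hi, e', h2⟩ := ow.tl p h1
    exact ⟨i, j, h2 j hj e.symm, hj, Prod.ext e' e.symm, by
      simp only [pc, e', ← e, x1 i hi, x1 j hj]⟩
  have a2 : Set.InjOn pc A := fun p hp p' hp' e => by
    obtain ⟨i, j, b1, b2, rfl, b3⟩ := a1 p hp
    obtain ⟨i', j', c1, c2, rfl, c3⟩ := a1 p' hp'
    obtain ⟨e1, e2⟩ := Prod.ext_iff.1 (b3.symm.trans (e.trans c3))
    obtain rfl : i = i' := by rw [← g4 i (by omega), ← g4 i' (by omega)]; exact congrArg gi e1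
    obtain rfl : j = j' := by
      rcases lt_trichotomy j j' with h | h | h
      · have := ht.gap j' c2 j h
        simp only at e2
        omega
      · exact h
      · have := ht.gap j b2 j' h
        simp only at e2
        omega
    rfl
  have a3 : ∀ i j, i < j → j < Q → (η i, η j + (j - i)) ∈ cl n B := fun i j b1 b2 => by
    have c1 := ht.gap j b2 i b1
    have c2 := ht.top i (by omega)
    exact mem_cl.2 ⟨⟨by simp only; omega, (mem_Icc.1 (ht.sub i (by omega) c2)).2⟩,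
      g3 i (by omega) _ c2⟩
  have a4 : A.image pc ⊆ cl n B := fun x hx => by
    obtain ⟨p, hp, rfl⟩ := mem_image.1 hx
    obtain ⟨i, j, b1, b2, -, b3⟩ := a1 p hp
    exact b3 ▸ a3 i j b1 b2
  set X := cl n B \ A.image pc with hX
  have xB : ∀ x ∈ X, x.1 ∈ B := fun x hx => (mem_cl.1 (mem_sdiff.1 hx).1).2
  have eN : ∀ e ∈ D1 \ A, ∀ i < Q, o i ≠ e.2 := fun e he i hi q =>
    (mem_sdiff.1 he).2 (mem_filter.2 ⟨(mem_sdiff.1 he).1, i, hi, q⟩)
  have eI : ∀ e ∈ D1 \ A, ∀ e' ∈ D1 \ A, ix e.1 = ix e'.1 → e.2 = e'.2 → e = e' :=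
    fun e he e' he' q q' => Prod.ext (by
      rw [← (x2 e (mem_sdiff.1 he).1).2, q, (x2 e' (mem_sdiff.1 he').1).2]) q'
  obtain ⟨ψ, s1, s2, s3⟩ := hs _ _ _ _ V X (D1 \ A) (fun x => gi x.1) (fun p => ix p.1) Prod.snd
    (fun p => {p.2}) (fun v s => s ∈ ud n U φ0 v) (fun i => (W i).card) Q B.card 1 (φ0 (0, 0))
    (fun g => by
      have c1 : ((cl n B).filter fun x => gi x.1 = g).card =
          (D1.filter fun p => ix p.1 = g).card := by
        by_cases hg : g < Q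
        · have d1 : ((cl n B).filter fun x => gi x.1 = g) = cl n (W g) := by
            ext x
            simp only [mem_filter, mem_cl]
            exact ⟨fun h => ⟨h.1.1, h.2 ▸ (g2 _ h.1.2).2⟩,
              fun h => ⟨⟨h.1, g3 g hg _ h.2⟩, g1 g hg _ h.2⟩⟩
          rw [d1, card_cl (ht.sub g hg), (hW g hg).2, dout]
          exact congrArg _ (filter_congr fun p hp =>
            ⟨fun h => by rw [h, x1 g hg], fun h => by rw [← h, (x2 p hp).2]⟩)
        · rw [filter_false_of_mem fun x hx (q : gi x.1 = g) => hg (q ▸ (g2 _ (mem_cl.1 hx).2).1),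
            filter_false_of_mem fun p hp (q : ix p.1 = g) => hg (q ▸ (x2 p hp).1), card_empty,
            card_empty]
      have c2 : ((A.image pc).filter fun x => gi x.1 = g).card =
          (A.filter fun p => ix p.1 = g).card := by
        rw [filter_image, card_image_of_injOn (a2.mono (coe_subset.2 (filter_subset _ _)))]
        exact congrArg _ (filter_congr fun p hp => by
          simp only [pc, g4 _ (x2 p (mem_filter.1 hp).1).1])
      have c3 : ∀ {α : Type} [DecidableEq α] (s t : Finset α) (r : α → Prop) [DecidablePred r],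
          t ⊆ s → ((s \ t).filter r).card = (s.filter r).card - (t.filter r).card :=
        fun s t r _ h => by
          rw [← card_sdiff_of_subset (filter_subset_filter r h)]
          congr 1
          ext x
          simp only [mem_filter, mem_sdiff]
          tauto
      rw [c3 _ _ _ a4, c3 _ _ _ (filter_subset _ _), c1, c2])
    (fun y _ g => (card_le_card fun x hx => mem_filter.2 ⟨mem_filter.2 ⟨(mem_filter.1 hx).1,
      (mem_filter.1 hx).2.1⟩, (mem_filter.1 hx).2.2.2⟩).trans (depth_le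
        (Y := X.filter fun x => gi x.1 = g) fun x hx _ =>
          (mem_filter.1 hx).2 ▸ (g2 _ (xB x (mem_filter.1 hx).1)).2))
    (fun y _ => (card_le_card fun x hx => mem_filter.2 ⟨(mem_filter.1 hx).1,
      (mem_filter.1 hx).2.2⟩).trans (depth_le (Y := X) fun x hx _ => xB x hx))
    (fun e _ => by
      rw [← card_range Q]
      refine card_le_card_of_injOn (fun p => ix p.1) (fun p hp => mem_coe.2 (mem_range.2
        (x2 p (mem_sdiff.1 (mem_filter.1 hp).1).1).1)) fun p hp p' hp' q => ?_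
      have b := mem_filter.1 hp
      have c := mem_filter.1 hp'
      simp only [disjoint_singleton, not_not] at b c
      exact eI p b.1 p' c.1 q (b.2.2.trans c.2.2.symm))
    (fun e _ g => card_le_one.2 fun p hp p' hp' => by
      have b := mem_filter.1 hp
      have c := mem_filter.1 hp'
      simp only [disjoint_singleton, not_not] at b c
      exact eI p b.1 p' c.1 (b.2.1.trans c.2.1.symm) (b.2.2.2.trans c.2.2.2.symm))
    (fun e he y _ _ => by
      have hg := (x2 e (mem_sdiff.1 he).1).1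
      obtain ⟨S, c1, c2⟩ := exists_subset_card_eq (hF e.2 (eN e he))
      obtain ⟨T, c3, c4⟩ := busy_le n U φ0 y.2
      have c5 := hQ _ hg
      generalize ix e.1 = g at hg c5 ⊢
      have d1 : ((D1 \ A).filter fun e' => ix e'.1 = g ∧
          ∃ v ∈ ({e'.2} : Finset V), y.2 ∈ ud n U φ0 v).card ≤ T.card := by
        refine card_le_card_of_injOn Prod.snd (fun p hp => ?_) fun p hp p' hp' q => ?_
        · obtain ⟨v, b1, b2⟩ := (mem_filter.1 hp).2.2
          exact mem_coe.2 (c4 _ (mem_singleton.1 b1 ▸ b2))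
        · have b := mem_filter.1 hp
          have c := mem_filter.1 hp'
          exact eI p b.1 p' c.1 (b.2.1.trans c.2.1.symm) q
      have d2 : (X.filter fun x => gi x.1 = g ∧ ∃ v ∈ ({e.2} : Finset V), x.2 ∈ ud n U φ0 v).card +
          ((((W g).filter fun y => Y1 ≤ y).erase (η g)) ×ˢ S).card ≤
            (X.filter fun x => gi x.1 = g).card := by
        rw [← card_union_of_disjoint (disjoint_left.2 fun x h1 h2 => by
          obtain ⟨v, b1, b2⟩ := (mem_filter.1 h1).2.2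
          exact (mem_sdiff.1 (c1 (mem_product.1 h2).2)).2 (mem_singleton.1 b1 ▸ b2))]
        refine card_le_card (union_subset (fun x hx => mem_filter.2 ⟨(mem_filter.1 hx).1,
          (mem_filter.1 hx).2.1⟩) fun x hx => ?_)
        obtain ⟨b1, b2⟩ := mem_product.1 hx
        obtain ⟨b3, b4⟩ := mem_erase.1 b1
        obtain ⟨b5, b6⟩ := mem_filter.1 b4
        have b7 := mem_range.1 (mem_sdiff.1 (c1 b2)).1
        refine mem_filter.2 ⟨mem_sdiff.2 ⟨mem_cl.2 ⟨⟨by omega, (mem_Icc.1 (ht.sub g hg b5)).2⟩,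
          g3 g hg _ b5⟩, fun h => ?_⟩, g1 g hg _ b5⟩
        obtain ⟨p, hp, rfl⟩ := mem_image.1 h
        have b8 := g1 g hg _ b5
        rw [g4 _ (x2 p (mem_filter.1 hp).1).1] at b8
        exact b3 (congrArg η b8)
      have d3 := Nat.mul_le_mul_right F
        (pred_card_le_card_erase (s := (W g).filter fun y => Y1 ≤ y) (a := η g))
      rw [card_product, c2] at d2
      rw [Nat.sub_mul, one_mul, mul_comm _ F] at d3
      rw [add_mul] at c5
      omega)
  have : Nonempty (V × V) := ⟨φ0 (0, 0)⟩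
  have r0 : Set.BijOn pc A (A.image pc) := by
    rw [coe_image]
    exact a2.bijOn_image
  obtain ⟨φ, p0, p1⟩ : ∃ φ : ℕ × ℕ → V × V,
      (∀ x ∈ A.image pc, φ x = Function.invFunOn pc A x) ∧ ∀ x ∈ X, φ x = ψ x :=
    ⟨fun x => if x ∈ A.image pc then Function.invFunOn pc A x else ψ x, fun x hx => if_pos hx,
      fun x hx => if_neg (mem_sdiff.1 hx).2⟩
  have r1 := bij_union (r0.symm r0.invOn_invFunOn.symm) s1 p0 p1 disjoint_sdiff
  rw [union_sdiff_of_subset a4, union_sdiff_of_subset (filter_subset _ _)] at r1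
  have r2 : ∀ x ∈ cl n B, (∃ i j, i < j ∧ j < Q ∧ x = (η i, η j + (j - i)) ∧ φ x = (o i, o j)) ∨
      x ∈ X ∧ φ x = ψ x := fun x hx => by
    by_cases h : x ∈ A.image pc
    · obtain ⟨p, hp, rfl⟩ := mem_image.1 h
      obtain ⟨i, j, b1, b2, b3, b4⟩ := a1 p hp
      exact Or.inl ⟨i, j, b1, b2, b4, (p0 _ h).trans ((r0.invOn_invFunOn.1 hp).trans b3)⟩
    · exact Or.inr ⟨mem_sdiff.2 ⟨hx, h⟩, p1 _ (mem_sdiff.2 ⟨hx, h⟩)⟩
  have r3 : ∀ x ∈ cl n B, (φ x).1 = o (gi x.1) := fun x hx => by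
    rcases r2 x hx with ⟨i, j, b1, b2, rfl, b4⟩ | ⟨b1, b2⟩
    · rw [b4, g4 i (by omega)]
    · rw [b2, ← (s2 x b1).1, (x2 _ (mem_sdiff.1 (s1.mapsTo b1)).1).2]
  have r4 : ∀ x ∈ cl n B, ∀ i < Q, x.2 ∉ ud n U φ0 (o i) := fun x hx i hi h => by
    have b1 := mem_cl.1 hx
    have b2 := g2 _ b1.2
    have b3 := (hY _ b2.1).1 _ b2.2
    have b4 := (hY i hi).2 _ h
    omega
  obtain ⟨φ', arm, l, q0, q1⟩ := glue (φ1 := φ) (arm1 := fun y => η (gi y)) l0
    ⟨r1, fun y hy => g3 _ (g2 y hy).1 _ (ht.top _ (g2 y hy).1), fun x hx y hy _ => by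
      have b1 := (g2 _ (mem_cl.1 hx).2).1
      have b2 := (g2 _ (mem_cl.1 hy).2).1
      rw [r3 x hx, r3 y hy]
      exact ⟨fun q => by rw [← g4 _ b1, q, g4 _ b2], fun q => by rw [ow.inj _ b1 _ b2 q]⟩,
    fun x hx y hy s => by
      have b0 := mem_cl.1 hy
      have b5 := g2 _ b0.2
      rw [r3 y hy]
      rcases r2 x hx with ⟨i, j, b1, b2, rfl, b4⟩ | ⟨b1, b2⟩
      · rw [b4]
        intro q
        obtain rfl := ow.inj _ b2 _ b5.1 q
        have := ht.le _ b2 (by omega) _ b5.2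
        simp only at s
        omega
      · rw [b2]
        exact (eN _ (s1.mapsTo b1) _ b5.1).symm,
    fun x hx y hy s q => by
      rcases r2 x hx with ⟨i, j, b1, b2, rfl, b4⟩ | ⟨b1, b2⟩ <;>
        rcases r2 y hy with ⟨i', j', c1, c2, rfl, c4⟩ | ⟨c1, c2⟩
      · rw [b4, c4] at q
        obtain rfl := ow.inj _ b2 _ c2 q
        obtain rfl : i = i' := by
          simp only at s
          omega
        rfl
      · rw [b4, c2] at q
        exact absurd q (eN _ (s1.mapsTo c1) _ b2)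
      · rw [b2, c4] at q
        exact absurd q.symm (eN _ (s1.mapsTo b1) _ c2)
      · rw [b2, c2] at q
        exact by_contra fun h => disjoint_singleton.1 (s3 x b1 y c1 h s) q⟩
    ((disjoint_biUnion_right _ _ _).2 fun i hi => (hW i (mem_range.1 hi)).1) hD fun x hx => by
      refine ⟨r3 x hx ▸ r4 x hx _ (g2 _ (mem_cl.1 hx).2).1, ?_⟩
      rcases r2 x hx with ⟨i, j, -, b2, -, b4⟩ | ⟨b1, b2⟩
      · rw [b4]
        exact r4 x hx j b2
      · rw [b2]
        exact (s2 x b1).2 _ (mem_singleton_self _)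
  refine ⟨φ', arm, l, q0, fun i hi x hx => ?_⟩
  have b1 := mem_cl.1 hx
  have b2 : x ∈ cl n B := mem_cl.2 ⟨b1.1, g3 i hi _ b1.2⟩
  rw [q1 x b2, r3 x b2, g1 i hi _ b1.2]
  exact ⟨r1.mapsTo b2, rfl⟩

end Pool.Agent.MP_f65396_co.h15n
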