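import Pool.Agent.MP_f65396_co.h15n.SpecB
import Pool.Agent.MP_f65396_co.h15n.Own

/-! Few owners of medium degree and many single edges. -/

set_option autoImplicit false

namespace Pool.Agent.MP_f65396_co.h15n

open Finset

namespace Fa

variable {V : Type} [DecidableEq V]

theorem ud_le {n : ℕ} {U : Finset ℕ} {D : Finset (V × V)} {φ : ℕ × ℕ → V × V}
    (h1 : ∀ x ∈ cl n U, φ x ∈ D) (h2 : Set.InjOn φ (cl n U)) (v : V) :
    (ud n U φ v).card ≤ dtot D v := by
  refine card_image_le.trans (card_le_card_of_injOn φ (fun x hx => ?_) fun x hx y hy e => ?_)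
  · have := mem_filter.1 (mem_coe.1 hx)
    exact mem_coe.2 (mem_filter.2 ⟨h1 x this.1, this.2⟩)
  · exact h2 (mem_filter.1 (mem_coe.1 hx)).1 (mem_filter.1 (mem_coe.1 hy)).1 e

theorem dtot_le {Q : ℕ} {o : ℕ → V} {D : Finset (V × V)} (h : Ow Q o D) {v : V}
    (hv : ∀ i < Q, v ≠ o i) : dtot D v ≤ Q := by
  have : D.filter (fun p => p.1 = v ∨ p.2 = v) ⊆ (range Q).image fun i => (o i, v) := by
    intro p hp
    obtain ⟨h1, h2⟩ := mem_filter.1 hp
    obtain ⟨i, hi, e, -⟩ := h.tl p h1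
    rcases h2 with h2 | h2
    · exact absurd (h2.symm.trans e) (hv i hi)
    · exact mem_image.2 ⟨i, mem_range.2 hi, Prod.ext e.symm h2.symm⟩
  exact (card_le_card this).trans (card_image_le.trans (card_range Q).le)

theorem touch {L : Finset (V × V)} {Δ : ℕ} (h : ∀ v, dtot L v ≤ Δ) (T : Finset V)
    (b : V → Prop) [DecidablePred b] (hb : ∀ v, b v → v ∈ T) :
    (L.filter fun p => b p.1 ∨ b p.2).card ≤ T.card * Δ := by
  have : L.filter (fun p => b p.1 ∨ b p.2) ⊆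
      T.biUnion fun v => L.filter fun p => p.1 = v ∨ p.2 = v := by
    intro p hp
    obtain ⟨h1, h2 | h2⟩ := mem_filter.1 hp
    · exact mem_biUnion.2 ⟨_, hb _ h2, mem_filter.2 ⟨h1, Or.inl rfl⟩⟩
    · exact mem_biUnion.2 ⟨_, hb _ h2, mem_filter.2 ⟨h1, Or.inr rfl⟩⟩
  exact (card_le_card this).trans (card_biUnion_le_card_mul _ _ _ fun v _ => h v)

theorem num {n h k K Q : ℕ} (hp : Par n h k K) (hQ : Q ≤ K ^ 21 * h + 1) :
    10000 ≤ K ∧ Q * (1000 * K ^ 2) + 1000 * K ^ 2 + 2 ≤ K ^ 24 * h ∧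
      200 * K * (500 * (K ^ 24 * h)) ≤ n := by
  have hK : 10000 ≤ K := by
    have := hp.hk
    have := hp.hK
    omega
  have hK1 : 1 ≤ K := by omega
  have h1 : 1 ≤ h := (Nat.one_le_pow _ _ hK1).trans hp.hh
  have a1 : 1 ≤ K ^ 21 * h := Nat.mul_pos (Nat.one_le_pow _ _ hK1) h1
  have a2 : 1 ≤ K ^ 2 := Nat.one_le_pow _ _ hK1
  refine ⟨hK, ?_, ?_⟩
  · calc _ ≤ (2 * (K ^ 21 * h)) * (1000 * K ^ 2) + K ^ 21 * h * (1000 * K ^ 2) +
          K ^ 21 * h * (2 * K ^ 2) := by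
          refine Nat.add_le_add (Nat.add_le_add (Nat.mul_le_mul_right _ (by omega))
            (Nat.le_mul_of_pos_left _ a1)) ?_
          exact le_trans (by omega) (Nat.le_mul_of_pos_left _ a1)
      _ = 3002 * (K ^ 23 * h) := by ring
      _ ≤ K * (K ^ 23 * h) := Nat.mul_le_mul_right _ (by omega)
      _ = _ := by ring
  · calc _ = 100000 * (K ^ 25 * h) := by ring
      _ ≤ K * K * (K ^ 25 * h) :=
          Nat.mul_le_mul_right _ (le_trans (by norm_num) (Nat.mul_le_mul hK hK))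
      _ = K ^ 27 * h := by ring
      _ ≤ h * h := Nat.mul_le_mul_right _ ((Nat.pow_le_pow_right hK1 (by norm_num)).trans hp.hh)
      _ = h ^ 2 := by ring
      _ ≤ h ^ 4 := Nat.pow_le_pow_right h1 (by norm_num)
      _ ≤ n := hp.h1

end Fa

open Fa

theorem fa (hm : MedS) (ho : OwnS) (ht : TwoS) (hp : PlanAS) : FaS := by
  intro V _ n h k K q Q Y oh o Dm L D1 par hg fd hT
  obtain ⟨hK, n1, n2⟩ := num par fd.hQ
  have eT : K ^ 25 * h * n = K * (K ^ 24 * h * n) := by ring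
  rw [eT] at hT
  have hJ : ∀ y, K * (200 * K * y) = 1000 * K ^ 2 * y / 5 := fun y => by
    rw [show 1000 * K ^ 2 * y = 5 * (K * (200 * K * y)) by ring]
    omega
  have hJ1 : 1 ≤ 1000 * K ^ 2 := Nat.mul_pos (by norm_num) (Nat.one_le_pow _ _ (by omega))
  generalize K ^ 24 * h = M at n1 n2 hT
  generalize 1000 * K ^ 2 = J at n1 hJ hJ1
  have y1 : 500 * M ≤ Y := Nat.le_of_mul_le_mul_left (n2.trans fd.y1) (by omega)
  have y2 : 40000 * Y ≤ n := le_trans (Nat.mul_le_mul_right _ (by omega)) fd.y2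
  have q1 : Q ≤ Q * J := Nat.le_mul_of_pos_right _ hJ1
  obtain ⟨W, η, hts, hW⟩ := hm n Q Y J 0 (fun j => dout Dm (o j)) (fun j hj => ⟨(fd.lo j hj).1, by
    refine (fd.lo j hj).2.trans ((Nat.mul_le_mul_left K fd.y1).trans ?_)
    have : J * Y ≤ J * (5 * (Y / 4)) := Nat.mul_le_mul_left _ (by omega)
    rw [hJ]
    rw [Nat.mul_left_comm] at this
    omega⟩) (by omega) (by omega) (by omega)
  set U := (range Q).biUnion W with hU
  have u1 : U.card ≤ Q * J := by
    have := card_biUnion_le_card_mul (range Q) W J fun j hj => (hW j (mem_range.1 hj)).2.2.2.2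
    rwa [card_range] at this
  have u2 : ∀ y ∈ U, 1 ≤ y ∧ y ≤ Y := fun y hy => by
    obtain ⟨j, hj, hy⟩ := mem_biUnion.1 hy
    exact ⟨(mem_Icc.1 (hts.sub j (mem_range.1 hj) hy)).1, ((hW j (mem_range.1 hj)).2.2.1 y hy).2⟩
  have c0 : cl n ∅ = ∅ := by simp [cl]
  have d0 : ∀ v, ud n ∅ (fun _ => (o 0, o 0)) v = ∅ := fun v => by simp [ud, c0]
  obtain ⟨φ, arm, lab, -, -⟩ := ho V n Q n (Y / 4) (Y / 4) ∅ ∅ Dm (fun _ => (o 0, o 0)) id o W η
    ⟨by simp [c0], by simp, by simp [c0], by simp [c0], by simp [c0]⟩ fd.ow hts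
    (disjoint_empty_left _) (fun i hi => ⟨disjoint_empty_left _, (hW i hi).1⟩)
    (fun i hi => ⟨fun y hy => (mem_Icc.1 (hts.sub i hi hy)).2, by simp [d0]⟩)
    (fun v _ => by simp [d0]) fun i hi => by
      obtain ⟨-, -, a1, a2, a3⟩ := hW i hi
      rw [filter_true_of_mem fun y hy => (a1 y hy).1, card_empty, ← hU]
      have b1 : (Q + 1) * (W i).card ≤ (Q + 1) * J := Nat.mul_le_mul_left _ a3
      have b2 : Y / 4 * 2 ≤ Y / 4 * (W i).card := Nat.mul_le_mul_left _ a2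
      rw [Nat.add_mul Q 1 J] at b1
      omega
  rw [empty_union, empty_union] at lab
  have dj : Disjoint Dm L := disjoint_left.2 fun p h1 h2 => by
    obtain ⟨i, hi, e, -⟩ := fd.ow.tl p h1
    exact ((fd.av p h2).2 i hi).1 e
  have s1 : ∑ y ∈ U, y = Dm.card := by
    rw [← Own.card_cl (n := n) fun y hy => mem_Icc.2 ⟨(u2 y hy).1, by have := (u2 y hy).2; omega⟩]
    exact lab.bij.finsetCard_eq _
  have t1 : 10000 * (M * n) ≤ L.card := (Nat.mul_le_mul_right _ hK).trans hT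
  have t2 : (U.card + 7) * (n + 1) ≤ 16 * (M * n) := by
    calc _ ≤ (8 * M) * (2 * n) := Nat.mul_le_mul (by omega) (by omega)
      _ = _ := by ring
  obtain ⟨U2, v1, v2, v3, v4, ext⟩ := hp V n K q L.card oh (Dm ∪ L) D1 U hg
    (fun y hy => mem_Icc.2 ⟨(u2 y hy).1, by have := (u2 y hy).2; omega⟩) (by omega)
    (by rw [s1, card_union_of_disjoint dj]) (by omega)
  have v5 : U2.card * n ≤ 3 * L.card := by
    have : (U.card + 6) * n ≤ (U.card + 7) * (n + 1) := Nat.mul_le_mul (by omega) (by omega)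
    omega
  have hΔ : ∀ v, dtot L v ≤ n / K := fun v =>
    (Nat.le_div_iff_mul_le (by omega)).2 (Nat.mul_comm K _ ▸ fd.dl v)
  have δ1 : n / K * K ≤ n := Nat.div_mul_le_self n K
  have δ2 : n / K * 10000 ≤ n := (Nat.mul_le_mul_left _ hK).trans δ1
  obtain ⟨φ', arm', lab', -, hφ⟩ := ht V n (n / K) U U2 Dm L φ arm (ud n U φ) lab v1 v2 dj
    (fun p hp => (fd.av p hp).1) v3 hΔ (fun _ _ => ⟨Subset.rfl, Subset.rfl⟩)
    (Or.inr fun p hp s => by
      have b0 : ∀ v, (ud n U φ v).card ≤ dtot Dm v :=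
        ud_le (fun x hx => mem_coe.1 (lab.bij.mapsTo hx)) lab.bij.injOn
      have b1 := (b0 p.1).trans (dtot_le fd.ow fun i hi => ((fd.av p hp).2 i hi).1)
      have b2 := (b0 p.2).trans (dtot_le fd.ow fun i hi => ((fd.av p hp).2 i hi).2)
      obtain ⟨T, b3, b4⟩ := Own.busy_le n U φ s
      have b5 := touch hΔ T (fun v => s ∈ ud n U φ v) b4
      have b6 : T.card * (n / K) ≤ 2 * M * n := Nat.mul_le_mul (by omega) (by omega)
      have b7 : U2.card * (12 * ((ud n U φ p.1).card + (ud n U φ p.2).card + 1)) ≤ U2.card * n :=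
        Nat.mul_le_mul_left _ (by omega)
      have b8 : (U2.card - 1) * (48 * (n / K)) ≤ U2.card * n :=
        Nat.mul_le_mul (by omega) (by omega)
      have b9 : 1 * 1 ≤ M * n := Nat.mul_le_mul (by omega) (by omega)
      generalize U2.card - 1 = u at b8 ⊢
      nlinarith)
  refine ext φ' arm' lab' fun v => ?_
  have e1 : ud n (U ∪ U2) φ' v ⊆ range Y ∪ ud n U2 φ' v := by
    intro s hs
    obtain ⟨x, hx, rfl⟩ := mem_image.1 hs
    obtain ⟨h1, h2⟩ := mem_filter.1 hx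
    obtain ⟨h3, h4⟩ := Own.mem_cl.1 h1
    rcases mem_union.1 h4 with h4 | h4
    · exact mem_union_left _ (mem_range.2 (h3.1.trans_le (u2 _ h4).2))
    · exact mem_union_right _ (mem_image_of_mem _ (mem_filter.2 ⟨Own.mem_cl.2 ⟨h3, h4⟩, h2⟩))
  have e2 := (ud_le (fun x hx => (hφ x hx).1) (lab'.bij.injOn.mono fun x hx =>
    mem_coe.2 (Own.mem_cl.2 ⟨(Own.mem_cl.1 hx).1, mem_union_right _ (Own.mem_cl.1 hx).2⟩)) v).trans
    (hΔ v)
  have e3 := (card_le_card e1).trans (card_union_le _ _)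
  have e4 := le_card_sdiff (ud n (U ∪ U2) φ' v) (range (n / 2))
  rw [card_range] at e3 e4
  refine le_trans ?_ (Nat.mul_le_mul_left _ hK)
  omega

end Pool.Agent.MP_f65396_co.h15n
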