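import Pool.Agent.MP_f65396_co.h15n.SpecB

/-! Few owners of medium degree and few single edges. -/

set_option autoImplicit false

namespace Pool.Agent.MP_f65396_co.h15n

open Finset
open Pool.Agent.MP_f65396_co.h32 (cells rk mem_cells card_cells)

namespace Fb

variable {V : Type} [DecidableEq V]

theorem card_cl {n : ℕ} {U : Finset ℕ} (h : U ⊆ Icc 1 n) : (cl n U).card = ∑ y ∈ U, y := by
  rw [cl, card_cells n U (fun y hy => (mem_Icc.1 (h hy)).2) _ fun _ _ k => k]
  exact sum_congr rfl fun y hy => by simp [hy]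

theorem ud_le {n : ℕ} {U : Finset ℕ} {D : Finset (V × V)} {φ : ℕ × ℕ → V × V} {arm : ℕ → ℕ}
    (h : Lab n U D φ arm) (v : V) : (ud n U φ v).card ≤ dtot D v := by
  refine card_image_le.trans (card_le_card_of_injOn φ (fun x hx => ?_) fun x hx y hy e => ?_)
  · have := mem_filter.1 (mem_coe.1 hx)
    exact mem_coe.2 (mem_filter.2 ⟨h.bij.mapsTo this.1, this.2⟩)
  · exact h.bij.injOn (mem_filter.1 (mem_coe.1 hx)).1 (mem_filter.1 (mem_coe.1 hy)).1 e

theorem sum_dtot (L : Finset (V × V)) (S : Finset V) : ∑ v ∈ S, dtot L v ≤ 2 * L.card := by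
  have h : ∀ v ∈ S, dtot L v ≤ (L.filter fun p => p.1 = v).card + (L.filter fun p => p.2 = v).card :=
    fun v _ => by
      rw [dtot, filter_or]
      exact card_union_le _ _
  refine (sum_le_sum h).trans ?_
  rw [sum_add_distrib, sum_card_fiberwise_eq_card_filter, sum_card_fiberwise_eq_card_filter,
    two_mul]
  exact add_le_add (card_filter_le _ _) (card_filter_le _ _)

/-- Reserved depths for the vertices with many single edges. -/
theorem zones (L : Finset (V × V)) (Y w m : ℕ) (hY : 0 < Y) (hm : 16 * L.card ≤ m * Y) :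
    ∃ Bz : V → Finset ℕ, (∀ v, (8 * dtot L v ≤ Y ∧ Bz v = ∅) ∨
      (Y < 8 * dtot L v ∧ (Bz v).card = w ∧ Bz v ⊆ range (m * w))) ∧
      ∀ s u v, s ∈ Bz u → s ∈ Bz v → u = v := by
  let S := (L.image Prod.fst ∪ L.image Prod.snd).filter fun v => Y < 8 * dtot L v
  have h1 : S.card ≤ m := by
    have a := card_nsmul_le_sum S (fun v => 8 * dtot L v) Y fun v hv => (mem_filter.1 hv).2.le
    rw [← mul_sum, smul_eq_mul] at a
    have b := sum_dtot L S
    exact Nat.le_of_mul_le_mul_right (by omega : S.card * Y ≤ m * Y) hY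
  refine ⟨fun v => if h : v ∈ S then Ico (S.equivFin ⟨v, h⟩ * w) (S.equivFin ⟨v, h⟩ * w + w) else ∅,
    fun v => ?_, fun s u v hu hv => ?_⟩
  · by_cases h : v ∈ S
    · refine Or.inr ⟨(mem_filter.1 h).2, by simp [h], fun s hs => ?_⟩
      simp only [h, dif_pos, mem_Ico] at hs
      have a : (S.equivFin ⟨v, h⟩ + 1) * w ≤ m * w :=
        Nat.mul_le_mul_right w ((S.equivFin ⟨v, h⟩).2.trans_le h1)
      rw [add_one_mul] at a
      exact mem_range.2 (hs.2.trans_le a)
    · refine Or.inl ⟨not_lt.1 fun k => h (mem_filter.2 ⟨?_, k⟩), dif_neg h⟩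
      obtain ⟨p, hp⟩ := card_pos.1 (show 0 < dtot L v by omega)
      obtain ⟨a, b | b⟩ := mem_filter.1 hp
      · exact mem_union_left _ (mem_image.2 ⟨p, a, b⟩)
      · exact mem_union_right _ (mem_image.2 ⟨p, a, b⟩)
  · by_cases a : u ∈ S
    · by_cases b : v ∈ S
      · simp only [a, b, dif_pos, mem_Ico] at hu hv
        have c : (S.equivFin ⟨u, a⟩ : ℕ) = S.equivFin ⟨v, b⟩ :=
          (Nat.div_eq_of_lt_le hu.1 (by rw [add_one_mul]; exact hu.2)).symm.trans
            (Nat.div_eq_of_lt_le hv.1 (by rw [add_one_mul]; exact hv.2))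
        exact congrArg Subtype.val (S.equivFin.injective (Fin.ext c))
      · simp [b] at hv
    · simp [a] at hu

theorem num1 {n h K Y : ℕ} (hK : 10000 ≤ K) (hh : K ^ 60 ≤ h) (h1 : h ^ 4 ≤ n)
    (y1 : n ≤ 200 * K * Y) : 12800 * (K ^ 26 * h * (K ^ 26 * h)) ≤ Y := by
  have a : 2560000 ≤ K ^ 7 :=
    le_trans (by norm_num) ((Nat.pow_le_pow_left hK 2).trans
      (Nat.pow_le_pow_right (by omega) (by norm_num)))
  have b : 2560000 * K ^ 53 ≤ h ^ 2 :=
    calc 2560000 * K ^ 53 ≤ K ^ 7 * K ^ 53 := Nat.mul_le_mul_right _ a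
      _ = K ^ 60 := by ring
      _ ≤ h := hh
      _ ≤ h ^ 2 := Nat.le_self_pow two_ne_zero h
  refine Nat.le_of_mul_le_mul_left ?_ (show 0 < 200 * K by omega)
  calc 200 * K * (12800 * (K ^ 26 * h * (K ^ 26 * h))) = 2560000 * K ^ 53 * h ^ 2 := by ring
    _ ≤ h ^ 2 * h ^ 2 := Nat.mul_le_mul_right _ b
    _ = h ^ 4 := by ring
    _ ≤ 200 * K * Y := h1.trans y1

theorem num2 {h K Q : ℕ} (hK : 10000 ≤ K) (hh : 1 ≤ h) (hQ : Q ≤ K ^ 21 * h + 1) :
    2 * Q + 18 * (K ^ 25 * h) + Q * (1000 * K ^ 2) + 1000 * K ^ 2 + 5 ≤ K ^ 26 * h := by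
  have a : 1 ≤ K ^ 21 * h := Nat.mul_pos (Nat.pow_pos (by omega)) hh
  have e1 : K ^ 25 * h = K ^ 4 * (K ^ 21 * h) := by ring
  have e2 : K ^ 26 * h = K * (K ^ 4 * (K ^ 21 * h)) := by ring
  rw [e1, e2]
  generalize K ^ 21 * h = b at *
  have c : K ^ 2 * b ≤ K ^ 4 * b :=
    Nat.mul_le_mul_right _ (Nat.pow_le_pow_right (by omega) (by norm_num))
  have d : b ≤ K ^ 2 * b := Nat.le_mul_of_pos_left _ (Nat.pow_pos (by omega))
  have f : Q * (1000 * K ^ 2) ≤ 2000 * (K ^ 2 * b) :=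
    (Nat.mul_le_mul_right _ (show Q ≤ 2 * b by omega)).trans_eq (by ring)
  have g : K ^ 2 ≤ K ^ 2 * b := Nat.le_mul_of_pos_right _ a
  have i := Nat.mul_le_mul_right (K ^ 4 * b) hK
  omega

/-- The heights of the single edges. -/
theorem heights (hk : PickS) {n a T : ℕ} (hT : T < a * n) (h1 : 100 * (9 * a + 1) ≤ n / 8) :
    ∃ U : Finset ℕ, U ⊆ Icc 1 (n / 2) ∧ ∑ y ∈ U, y = T ∧ U.card ≤ 9 * a ∧
      (∀ y ∈ U, y = T ∨ n / 8 ≤ y) ∧ (n / 2 ≤ T → 1 ≤ U.card ∧ U.card * (n / 8) ≤ T) ∧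
      (T < n / 2 → U.card ≤ 1) := by
  have ha : 1 ≤ a := Nat.pos_of_ne_zero fun e => by simp [e] at hT
  rcases le_or_gt (n / 2) T with h | h
  · have b : T ≤ 9 * a * (n / 8) :=
      hT.le.trans ((Nat.mul_le_mul_left a (show n ≤ 9 * (n / 8) by omega)).trans_eq (by ring))
    obtain ⟨S, s1, -, s2⟩ := hk (n / 8) T (9 * a) ∅ (by omega) b (by simpa using h1)
    have c := card_nsmul_le_sum S (fun y => y) (n / 8) fun y hy => (mem_Ico.1 (s1 hy)).1
    rw [smul_eq_mul, s2] at c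
    refine ⟨S, fun y hy => ?_, s2, Nat.le_of_mul_le_mul_right (c.trans b) (by omega),
      fun y hy => Or.inr (mem_Ico.1 (s1 hy)).1, fun _ => ⟨card_pos.2 (nonempty_iff_ne_empty.2
        fun e => ?_), c⟩, fun k => by omega⟩
    · have := mem_Ico.1 (s1 hy)
      exact mem_Icc.2 (by omega)
    · rw [e, sum_empty] at s2
      omega
  · rcases Nat.eq_zero_or_pos T with rfl | h0
    · exact ⟨∅, empty_subset _, rfl, Nat.zero_le _, by simp, fun k => by omega, fun _ => by simp⟩
    · exact ⟨{T}, singleton_subset_iff.2 (mem_Icc.2 ⟨h0, h.le⟩), sum_singleton _ _,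
        by rw [card_singleton]; omega, fun y hy => Or.inl (mem_singleton.1 hy), fun k => by omega,
        fun _ => by simp⟩

end Fb

theorem fb (hk : PickS) (hm : MedS) (ho : OwnS) (ht : TwoS) (hp : PlanBS) : FbS := by
  intro V _ n h k K q Q Y oh o Dm L D1 par hg fd hT alt
  have hK := hg.hK
  have hh : 1 ≤ h := (Nat.pow_pos (by omega)).trans_le par.hh
  have n1 := Fb.num1 hK par.hh par.h1 fd.y1
  have n2 := Fb.num2 hK hh fd.hQ
  have n3 : 40000 * Y ≤ n :=
    (Nat.mul_le_mul_right Y (show 40000 ≤ 4 * K by omega)).trans fd.y2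
  have n4 : 16 * L.card ≤ 3200 * (K ^ 26 * h) * Y :=
    calc 16 * L.card ≤ 16 * (K ^ 25 * h * (200 * K * Y)) :=
          Nat.mul_le_mul_left _ (hT.le.trans (Nat.mul_le_mul_left _ fd.y1))
      _ = _ := by ring
  have n6 : Y ≤ 5 * (Y / 4) → K * n ≤ 1000 * K ^ 2 * (Y / 4) := fun e =>
    calc K * n ≤ K * (200 * K * (5 * (Y / 4))) :=
          Nat.mul_le_mul_left _ (fd.y1.trans (Nat.mul_le_mul_left _ e))
      _ = _ := by ring
  have hΔ : ∀ v, dtot L v ≤ n / K := fun v =>
    (Nat.le_div_iff_mul_le (by omega)).2 (by rw [mul_comm]; exact fd.dl v)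
  have n7 : 10000 * (n / K) ≤ n :=
    (Nat.mul_le_mul_right _ hK).trans (Nat.mul_div_le n K)
  generalize K ^ 26 * h = w at *
  generalize K ^ 25 * h = a at *
  generalize 1000 * K ^ 2 = J at *
  generalize n / K = Δ at *
  have n8 : w ≤ w * w := Nat.le_mul_self w
  obtain ⟨U, u1, u2, u3, u4, u5, u6⟩ := Fb.heights hk hT (by omega)
  obtain ⟨W, η, hts, hW⟩ := hm n Q Y J L.card (fun j => dout Dm (o j))
    (fun j hj => ⟨(fd.lo j hj).1, (fd.lo j hj).2.trans (n6 (by omega))⟩) (by omega) (by omega)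
    (by omega)
  obtain ⟨Bz, z1, z2⟩ := Fb.zones L Y w (3200 * w) (by omega) n4
  have z3 : ∀ v, (Bz v).card ≤ w := fun v => by
    rcases z1 v with e | e
    · simp [e.2]
    · exact e.2.1.le
  have z4 : ∀ s, (L.filter fun p => s ∈ Bz p.1 ∨ s ∈ Bz p.2).card = 0 ∨ ∃ v, Y < 8 * dtot L v ∧
      (L.filter fun p => s ∈ Bz p.1 ∨ s ∈ Bz p.2).card ≤ dtot L v := fun s => by
    by_cases e : ∃ v, s ∈ Bz v
    · obtain ⟨v, hv⟩ := e
      refine Or.inr ⟨v, ((z1 v).resolve_left fun c => by simp [c.2] at hv).1,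
        card_le_card (monotone_filter_right _ fun p _ c =>
          c.imp (fun c => z2 s _ _ c hv) fun c => z2 s _ _ c hv)⟩
    · exact Or.inl (card_eq_zero.2 (filter_eq_empty_iff.2 fun p _ c =>
        e (c.elim (fun c => ⟨_, c⟩) fun c => ⟨_, c⟩)))
  have hU : U ⊆ Icc 1 n := u1.trans (Icc_subset_Icc_right (Nat.div_le_self _ _))
  have l0 : Lab n ∅ (∅ : Finset (V × V)) (fun _ => (o 0, o 0)) id :=
    ⟨by simp [cl], by simp, by simp [cl], by simp [cl], by simp [cl]⟩
  obtain ⟨φ1, arm1, l1, -, p1⟩ := ht V n Δ ∅ U ∅ L _ _ Bz l0 hU (disjoint_empty_left _)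
    (disjoint_empty_left _) (fun p hp => (fd.av p hp).1) u2 hΔ (by simp [ud, cl]) (by
      rcases le_or_gt (n / 2) L.card with c | c
      · refine Or.inr fun p _ s => ?_
        obtain ⟨c1, c2⟩ := u5 c
        have d1 : (L.filter fun p => s ∈ Bz p.1 ∨ s ∈ Bz p.2).card ≤ Δ := by
          rcases z4 s with e | ⟨v, -, e⟩
          · omega
          · exact e.trans (hΔ v)
        have d2 := Nat.mul_le_mul_right U.card (add_le_add (z3 p.1) (z3 p.2))
        obtain ⟨m, e⟩ : ∃ m, U.card = m + 1 := ⟨U.card - 1, by omega⟩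
        have d3 := Nat.mul_le_mul_left (m + 1) (show 2 * w + 4 * Δ + 2 ≤ n / 8 by omega)
        rw [e] at c2 d2 ⊢
        rw [Nat.add_sub_cancel]
        nlinarith
      · have c1 := u6 c
        have c2 := alt.resolve_left (not_le.2 c)
        by_cases e : ∃ v, Y < 8 * dtot L v
        · refine Or.inr fun p _ s => ?_
          have d1 : (L.filter fun p => s ∈ Bz p.1 ∨ s ∈ Bz p.2).card + 2 * w + 1 < L.card := by
            rcases z4 s with f | ⟨v, f1, f2⟩
            · obtain ⟨v, hv⟩ := e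
              have := c2 v
              omega
            · have := c2 v
              omega
          have d2 := Nat.mul_le_mul (add_le_add (z3 p.1) (z3 p.2)) c1
          rw [show U.card - 1 = 0 by omega]
          omega
        · have f : ∀ v, Bz v = ∅ := fun v => ((z1 v).resolve_right fun c => e ⟨v, c.1⟩).2
          exact Or.inl ⟨c1, fun p _ => ⟨f _, f _⟩⟩)
  rw [empty_union, empty_union] at l1
  have hB : ((range Q).biUnion W).card ≤ Q * J :=
    (card_biUnion_le_card_mul _ _ J fun i hi => (hW i (mem_range.1 hi)).2.2.2.2).trans_eq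
      (by rw [card_range])
  obtain ⟨φ, arm, l2, p2, -⟩ := ho V n Q n (Y / 4) w U L Dm φ1 arm1 o W η l1 fd.ow hts
    (disjoint_left.2 fun p a b => by
      obtain ⟨i, hi, e, -⟩ := fd.ow.tl p b
      exact ((fd.av p a).2 i hi).1 e)
    (fun i hi => ⟨disjoint_left.2 fun y a b => by
      have := ((hW i hi).2.2.1 y b).2
      rcases u4 y a with e | e
      · exact (hW i hi).2.1 (e ▸ b)
      · omega, (hW i hi).1⟩)
    (fun i hi => ⟨fun y hy => (mem_Icc.1 (hts.sub i hi hy)).2, fun s hs => by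
      obtain ⟨x, hx, -⟩ := mem_image.1 hs
      obtain ⟨a, b⟩ := mem_filter.1 hx
      have := (fd.av _ (p1 x a).1).2 i hi
      exact (b.elim this.1 this.2).elim⟩)
    (fun v _ => by
      rcases z1 v with e | e
      · have a := Fb.ud_le l1 v
        have b := le_card_sdiff (ud n U φ1 v) (range (Y / 4))
        rw [card_range] at b
        omega
      · refine e.2.1.symm.trans_le (card_le_card fun s hs => mem_sdiff.2 ⟨mem_range.2 ?_,
          fun c => ?_⟩)
        · have := mem_range.1 (e.2.2 hs)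
          rw [mul_assoc] at this
          omega
        · obtain ⟨x, hx, rfl⟩ := mem_image.1 c
          obtain ⟨a, b | b⟩ := mem_filter.1 hx
          · exact (p1 x a).2.1 (b ▸ hs)
          · exact (p1 x a).2.2 (b ▸ hs))
    (fun i hi => by
      rw [filter_true_of_mem fun y hy => ((hW i hi).2.2.1 y hy).1]
      obtain ⟨m, e⟩ : ∃ m, (W i).card = m + 2 := ⟨(W i).card - 2, by
        have := (hW i hi).2.2.2.1
        omega⟩
      have d := Nat.mul_le_mul_right m (show Q + 1 ≤ w by omega)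
      rw [e, mul_add, mul_add]
      omega)
  rw [union_comm L] at l2
  have hU2 : U ∪ (range Q).biUnion W ⊆ Icc 1 (n / 2) := union_subset u1 fun y hy => by
    obtain ⟨i, hi, b⟩ := mem_biUnion.1 hy
    have := ((hW i (mem_range.1 hi)).2.2.1 y b).2
    exact mem_Icc.2 ⟨(mem_Icc.1 (hts.sub i (mem_range.1 hi) b)).1, by omega⟩
  refine hp V n K q oh (Dm ∪ L) D1 _ hg hU2 ?_ ?_ φ arm l2 fun v => ?_
  · have := card_union_le U ((range Q).biUnion W)
    omega
  · rw [← Fb.card_cl (hU2.trans (Icc_subset_Icc_right (Nat.div_le_self _ _)))]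
    exact l2.bij.finsetCard_eq _
  · have a : ud n (U ∪ (range Q).biUnion W) φ v ⊆ ud n U φ1 v ∪ range Y := fun s hs => by
      obtain ⟨x, hx, rfl⟩ := mem_image.1 hs
      obtain ⟨a, b⟩ := mem_filter.1 hx
      obtain ⟨c, d⟩ := mem_filter.1 a
      rcases mem_union.1 d with d | d
      · have e : x ∈ cl n U := mem_filter.2 ⟨c, d⟩
        exact mem_union_left _ (mem_image_of_mem _ (mem_filter.2 ⟨e, p2 x e ▸ b⟩))
      · obtain ⟨i, hi, f⟩ := mem_biUnion.1 d
        exact mem_union_right _ (mem_range.2 ((mem_cells.1 c).1.trans_le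
          ((hW i (mem_range.1 hi)).2.2.1 _ f).2))
    have b := (card_le_card a).trans (card_union_le _ _)
    have c := Fb.ud_le l1 v
    have d := le_card_sdiff (ud n (U ∪ (range Q).biUnion W) φ v) (range (n / 2))
    rw [card_range] at b d
    have e := hΔ v
    have f := Nat.mul_le_mul_left (range (n / 2) \ ud n (U ∪ (range Q).biUnion W) φ v).card hK
    omega

end Pool.Agent.MP_f65396_co.h15n
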