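import Pool.Agent.MP_f65396_co.h15n.SpecB

/-! The case of few vertices of medium degree. -/

set_option autoImplicit false

namespace Pool.Agent.MP_f65396_co.h15n

open Finset

namespace Few

variable {V : Type} [Fintype V] [DecidableEq V] {G : SimpleGraph V} [DecidableRel G.Adj]

/-- The output of the orientation step. -/
def Od (G : SimpleGraph V) [DecidableRel G.Adj] (O : Finset V) (o : ℕ → V)
    (Dm L : Finset (V × V)) : Prop :=
  Orn G (Dm ∪ L) ∧ Ow O.card o Dm ∧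
    (∀ v, v ∈ O ↔ ∃ i < O.card, o i = v) ∧ (∀ p ∈ L, p.1 ∉ O ∧ p.2 ∉ O) ∧
    (∀ u ∈ O, dout Dm u ≤ G.degree u ∧ G.degree u ≤ dout Dm u + O.card) ∧
    ∀ v ∉ O, dtot L v = ((G.neighborFinset v) \ O).card

variable {O O' : Finset V} {o o' : ℕ → V} {Dm L Dm' L' : Finset (V × V)}

theorem Od.zero (h : Od G O o Dm L) {v : V} (hv : v ∈ O) : dtot L v = 0 :=
  card_eq_zero.2 (filter_eq_empty_iff.2 fun p hp q =>
    q.elim (fun r => (h.2.2.2.1 p hp).1 (r ▸ hv)) fun r => (h.2.2.2.1 p hp).2 (r ▸ hv))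

theorem Od.le (h : Od G O o Dm L) (v : V) : dtot L v ≤ G.degree v := by
  by_cases hv : v ∈ O
  · rw [h.zero hv]
    exact Nat.zero_le _
  · rw [h.2.2.2.2.2 v hv]
    exact card_le_card sdiff_subset

theorem Od.fd (h : Od G O o Dm L) {n m K Y : ℕ} (h1 : ∀ v, G.degree v ≤ K * n)
    (h2 : ∀ u ∈ O, 2 * Y + O.card ≤ G.degree u) (h3 : ∀ v ∉ O, K * G.degree v ≤ n)
    (h4 : O.card ≤ K ^ 21 * m + 1) (h5 : n ≤ 200 * K * Y) (h6 : 4 * K * Y ≤ n) :
    FD n m K O.card Y o Dm L := by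
  have a : ∀ i < O.card, o i ∈ O := fun i hi => (h.2.2.1 _).2 ⟨i, hi, rfl⟩
  refine ⟨h.2.1, fun p hp => ⟨(h.1.adj p (mem_union_right _ hp)).ne, fun i hi =>
    ⟨fun q => (h.2.2.2.1 p hp).1 (q ▸ a i hi), fun q => (h.2.2.2.1 p hp).2 (q ▸ a i hi)⟩⟩,
    fun j hj => ?_, h4, h5, h6, fun v => ?_⟩
  · have := h.2.2.2.2.1 _ (a j hj)
    have := h2 _ (a j hj)
    have := h1 (o j)
    omega
  · by_cases hv : v ∈ O
    · rw [h.zero hv]
      exact Nat.zero_le _
    · exact (Nat.mul_le_mul_left _ (h.le v)).trans (h3 v hv)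

theorem Od.card {v : V} (h : Od G O o Dm L) (h' : Od G (insert v O) o' Dm' L') :
    L'.card + dtot L v ≤ L.card := by
  have a : ∀ p ∈ Dm ∪ L, p.1 ∉ insert v O → p ∈ L := fun p hp q =>
    (mem_union.1 hp).resolve_left fun r => by
      obtain ⟨i, hi, e, -⟩ := h.2.1.tl p r
      exact q (mem_insert_of_mem ((h.2.2.1 _).2 ⟨i, hi, e.symm⟩))
  have b : L'.card ≤ (L.filter fun p => ¬(p.1 = v ∨ p.2 = v)).card := by
    refine card_le_card_of_injOn (fun p => if p ∈ L then p else p.swap) (fun p hp => ?_)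
      fun p hp p' hp' q => ?_
    · obtain ⟨c1, c2⟩ := h'.2.2.2.1 p hp
      have d1 : p.1 ≠ v := fun r => c1 (r ▸ mem_insert_self _ _)
      have d2 : p.2 ≠ v := fun r => c2 (r ▸ mem_insert_self _ _)
      refine mem_coe.2 (mem_filter.2 ?_)
      beta_reduce
      split_ifs with r
      · exact ⟨r, not_or.2 ⟨d1, d2⟩⟩
      · exact ⟨(h.1.cov _ _ (h'.1.adj p (mem_union_right _ hp))).elim
          (fun s => (r (a _ s c1)).elim) fun s => a _ s c2, not_or.2 ⟨d2, d1⟩⟩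
    · beta_reduce at q
      split_ifs at q
      · exact q
      · subst q
        exact (h'.1.asy _ _ (mem_union_right _ hp) (mem_union_right _ hp')).elim
      · subst q
        exact (h'.1.asy _ _ (mem_union_right _ hp) (mem_union_right _ hp')).elim
      · exact Prod.swap_injective q
  have c := card_filter_add_card_filter_not (s := L) fun p => p.1 = v ∨ p.2 = v
  unfold dtot
  omega

theorem num {n h k K : ℕ} (p : Par n h k K) :
    0 < K ∧ 1000 * (K ^ 26 * h + 1) ≤ n / (4 * K) ∧ K ^ 21 * h ≤ K ^ 26 * h := by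
  have a : 10000 ≤ K := by have := p.hk; have := p.hK; omega
  have b : K ^ 28 ≤ h := (Nat.pow_le_pow_right (by omega) (by norm_num)).trans p.hh
  have c : 0 < h := (pow_pos (by omega) _).trans_le b
  have d : 1 ≤ K ^ 26 * h := Nat.mul_pos (pow_pos (by omega) _) c
  refine ⟨by omega, (Nat.le_div_iff_mul_le (by omega)).2 ?_,
    Nat.mul_le_mul_right _ (Nat.pow_le_pow_right (by omega) (by norm_num))⟩
  calc _ ≤ K * (K ^ 26 * h) * K := by
        rw [show ∀ x, 1000 * x * (4 * K) = 4000 * x * K from fun x => by ring]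
        exact Nat.mul_le_mul_right _ (le_trans (by omega) (Nat.mul_le_mul_right _ a))
    _ = K ^ 28 * h := by ring
    _ ≤ h ^ 2 := by rw [sq h]; exact Nat.mul_le_mul_right _ b
    _ ≤ n := (Nat.pow_le_pow_right c (by norm_num)).trans p.h1

end Few

open Few in
theorem few (ho : OrdS) (ha : FaS) (hb : FbS) : FewS := by
  intro V _ _ G _ n h k K q oh D1 p hg hd hc
  obtain ⟨O, hO⟩ : ∃ O, O = univ.filter fun v => n < K * G.degree v := ⟨_, rfl⟩
  rw [← hO] at hc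
  have m : ∀ v, v ∈ O ↔ n < K * G.degree v := fun v => by simp [hO]
  obtain ⟨k0, t1, t2⟩ := num p
  obtain ⟨Y, hY⟩ : ∃ Y, Y = n / (4 * K) := ⟨_, rfl⟩
  have y2 : 4 * K * Y ≤ n := hY ▸ Nat.mul_div_le _ _
  have y1 : n ≤ 4 * K * (Y + 1) := hY ▸ (Nat.lt_mul_div_succ n (by omega)).le
  rw [← hY] at t1
  have y3 : ∀ Z, Y + 1 ≤ 50 * Z → n ≤ 200 * K * Z := fun Z hZ =>
    y1.trans ((Nat.mul_le_mul_left _ hZ).trans_eq (by ring))
  have y4 : ∀ u ∈ O, 4 * Y < G.degree u := fun u hu => Nat.lt_of_mul_lt_mul_left (a := K)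
    ((le_of_eq_of_le (by ring) y2).trans_lt ((m u).1 hu))
  obtain ⟨o, Dm, L, (d : Od G O o Dm L)⟩ := ho V G O (oh 0)
  have f := d.fd (m := h) (Y := Y) hd (fun u hu => by have := y4 u hu; omega)
    (fun v hv => not_lt.1 (mt (m v).2 hv)) (by omega) (y3 Y (by omega)) y2
  by_cases c1 : K ^ 25 * h * n ≤ L.card
  · obtain ⟨φ, arm, r⟩ := ha V n h k K q _ Y oh o Dm L D1 p (hg _ d.1) f c1
    exact ⟨_, φ, arm, d.1, r⟩
  by_cases c2 : ∀ v, 8 * dtot L v ≤ Y ∨ dtot L v + 2 * (K ^ 26 * h) + 1 < L.card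
  · obtain ⟨φ, arm, r⟩ := hb V n h k K q _ Y oh o Dm L D1 p (hg _ d.1) f (not_le.1 c1) (Or.inr c2)
    exact ⟨_, φ, arm, d.1, r⟩
  obtain ⟨v, hv⟩ := not_forall.1 c2
  obtain ⟨o', Dm', L', (d' : Od G (insert v O) o' Dm' L')⟩ := ho V G (insert v O) (oh 0)
  have e1 := card_insert_le v O
  have e2 := d.card d'
  have e3 := d.le v
  have f' := d'.fd (m := h) (Y := Y / 32) hd (fun u hu => by
      rcases mem_insert.1 hu with rfl | hu
      · omega
      · have := y4 u hu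
        omega)
    (fun w hw => not_lt.1 (mt (fun r => mem_insert_of_mem ((m w).2 r)) hw)) (by omega)
    (y3 _ (by omega)) ((Nat.mul_le_mul_left _ (Nat.div_le_self _ _)).trans y2)
  obtain ⟨φ, arm, r⟩ := hb V n h k K q _ _ oh o' Dm' L' D1 p (hg _ d'.1) f' (by omega)
    (Or.inr fun w => Or.inl (by
      have : dtot L' w ≤ L'.card := card_filter_le _ _
      omega))
  exact ⟨_, φ, arm, d'.1, r⟩

end Pool.Agent.MP_f65396_co.h15n
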