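import Pool.Agent.MP_f65396_co.h15n.SpecB
import Mathlib.Data.Set.Card

/-! The labelling in the main case. -/

set_option autoImplicit false

namespace Pool.Agent.MP_f65396_co.h15n

open Finset
open Pool.Agent.MP_f65396_co.h32 (cells mem_cells rk rk_inj rk_surj)

namespace Glue

theorem mem_cl {n : ℕ} {U : Finset ℕ} {x : ℕ × ℕ} :
    x ∈ cl n U ↔ (x.2 < x.1 ∧ x.1 ≤ n) ∧ x.1 ∈ U := by
  rw [cl, mem_filter, mem_cells]

theorem full {U : Finset ℕ} {h J y : ℕ} (k : rk U y < kJ U h J) : (J + 1) * h ≤ y := by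
  by_contra c
  exact k.not_ge (card_le_card fun z hz => mem_filter.2 ⟨(mem_filter.1 hz).1,
    (not_le.1 c).trans_le (mem_filter.1 hz).2⟩)

theorem dm {h J t : ℕ} (k : t < h) : (J * h + t) / h = J ∧ (J * h + t) % h = t := by
  rw [Nat.add_comm, Nat.add_mul_div_right _ _ (by omega), Nat.add_mul_mod_self_right,
    Nat.div_eq_of_lt k, Nat.mod_eq_of_lt k]
  omega

theorem dm2 {h s t : ℕ} (a : s / h = t / h) (b : s % h = t % h) : s = t := by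
  rw [← Nat.div_add_mod s h, a, b, Nat.div_add_mod]

theorem onto {β : Type} (F : Finset β) (dp : β → ℕ) {h t : ℕ} (c : F.card = h)
    (l : ∀ p ∈ F, dp p < h) (i : Set.InjOn dp F) (ht : t < h) : ∃ p ∈ F, dp p = t := by
  have : F.image dp = range h := eq_of_subset_of_card_le
    (image_subset_iff.2 fun p hp => mem_range.2 (l p hp))
    (by rw [card_range, card_image_of_injOn i, c])
  exact mem_image.1 (this ▸ mem_range.2 ht)

end Glue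

open Glue in
theorem glue : GlueS := by
  intro V _ n h k K R z a Sh D r ρ U1 U2 ctr Ds L blk col bl dp ψ h0 a0 u1 u2 ud lp m2 m3 m4 hL m5 m6
  have : Nonempty (V × V) := ⟨ψ 0⟩
  have nU : ∀ y ∈ U1, y ∉ U2 := fun y hy => disjoint_left.1 ud hy
  have mL : ∀ p, p ∈ L ↔ p ∈ D ∧ p ∉ Ds ∧ p ∉ (hc n h a U1 U2).image ψ := fun p => by
    rw [hL, mem_sdiff, mem_union, not_or]
  have mH : ∀ x, x ∈ hc n h a U1 U2 ↔ x ∈ cl n (U1 ∪ U2) ∧
      ((x.1 ∈ U1 ∧ a * (kJ U1 h (x.2 / h) / a) ≤ rk U1 x.1) ∨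
        (x.1 ∈ U2 ∧ x.1 < (x.2 / h + 1) * h)) := fun x => mem_filter
  have sD : ∀ p ∈ Ds, col p / a < kJ U1 h (blk p) / a ∧ ρ p.1 = blk p % R := fun p hp => by
    obtain ⟨b1, b2, b3, -⟩ := m3.s2 p hp
    have := Nat.div_lt_of_lt_mul b2
    exact ⟨this, b3 ▸ (m2.c1 _ b1 _ this).2.1⟩
  have e1 : ∀ x : ℕ × ℕ, ∃ p, x.1 ≤ n → rk U1 x.1 < a * (kJ U1 h (x.2 / h) / a) →
      p ∈ Ds ∧ blk p = x.2 / h ∧ col p = rk U1 x.1 ∧ dp p = x.2 % h := fun x => by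
    by_cases c : x.1 ≤ n ∧ rk U1 x.1 < a * (kJ U1 h (x.2 / h) / a)
    · obtain ⟨p, p1, p2⟩ := onto _ dp (m3.s3 (x.2 / h) ((Nat.le_div_iff_mul_le h0).2
        ((full (c.2.trans_le (Nat.mul_div_le _ _))).trans c.1)) _ c.2)
        (fun p hp => m6.d1.1 p (mem_filter.1 hp).1) (fun p hp q hq e => by
          have b := mem_filter.1 (mem_coe.1 hp)
          have d := mem_filter.1 (mem_coe.1 hq)
          exact m6.d2 p b.1 q d.1 (b.2.1.trans d.2.1.symm) e (Or.inl (b.2.2.trans d.2.2.symm)))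
        (Nat.mod_lt x.2 h0)
      have := mem_filter.1 p1
      exact ⟨p, fun _ _ => ⟨this.1, this.2.1, this.2.2, p2⟩⟩
    · exact ⟨ψ 0, fun b d => absurd ⟨b, d⟩ c⟩
  have e2 : ∀ s : ℕ, ∃ g : ℕ → V × V, s / h < n / h →
      Set.BijOn g (U2.filter fun y => (s / h + 1) * h ≤ y : Finset ℕ)
        (L.filter fun p => bl p = s / h ∧ dp p = s % h : Finset (V × V)) := fun s => by
    by_cases c : s / h < n / h
    · obtain ⟨g, k⟩ := (U2.filter fun y => (s / h + 1) * h ≤ y).finite_toSet.exists_bijOn_of_encard_eq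
        (t := ((L.filter fun p => bl p = s / h ∧ dp p = s % h : Finset (V × V)) : Set (V × V)))
        (by rw [Set.encard_coe_eq_coe_finsetCard, Set.encard_coe_eq_coe_finsetCard,
          m6.d5 _ c _ (Nat.mod_lt s h0), kJ])
      exact ⟨g, fun _ => k⟩
    · exact ⟨fun _ => ψ 0, fun b => absurd b c⟩
  choose f hf using e1
  choose g hg using e2
  obtain ⟨φ, hφ⟩ : ∃ φ : ℕ × ℕ → V × V, ∀ x, φ x =
      if x ∈ hc n h a U1 U2 then ψ x else if x.1 ∈ U1 then f x else g x.2 x.1 := ⟨_, fun _ => rfl⟩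
  have tri : ∀ x ∈ cl n (U1 ∪ U2), (x ∈ hc n h a U1 U2 ∧ φ x = ψ x ∧ ρ (φ x).1 = x.2 / h % R ∧
        ρ (φ x).2 = x.2 / h % R) ∨
      ((x.1 ∈ U1 ∧ φ x ∈ Ds ∧ blk (φ x) = x.2 / h ∧ col (φ x) = rk U1 x.1 ∧ dp (φ x) = x.2 % h) ∧
        rk U1 x.1 / a < kJ U1 h (x.2 / h) / a ∧ (φ x).1 = ctr (x.2 / h) (rk U1 x.1 / a) ∧
        ρ (φ x).1 = x.2 / h % R ∧ ρ (φ x).2 ≠ x.2 / h % R) ∨
      ((x ∉ hc n h a U1 U2 ∧ x.1 ∉ U1 ∧ φ x = g x.2 x.1 ∧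
        x.1 ∈ U2.filter fun y => (x.2 / h + 1) * h ≤ y) ∧
        (φ x ∈ L ∧ bl (φ x) = x.2 / h ∧ dp (φ x) = x.2 % h) ∧
        ρ (φ x).1 ≠ x.2 / h % R ∧ ρ (φ x).2 ≠ x.2 / h % R) := fun x hx => by
    have x1 := mem_cl.1 hx
    by_cases c : x ∈ hc n h a U1 U2
    · have e : φ x = ψ x := by rw [hφ, if_pos c]
      exact Or.inl ⟨c, e, e ▸ (m4.p1 x c).2.1, e ▸ (m4.p1 x c).2.2.1⟩
    have c' := not_or.1 fun b => c ((mH x).2 ⟨hx, b⟩)
    by_cases d : x.1 ∈ U1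
    · have e : φ x = f x := by rw [hφ, if_neg c, if_pos d]
      obtain ⟨b1, b2, b3, b4⟩ := e ▸ hf x x1.1.2 (not_le.1 fun b => c'.1 ⟨d, b⟩)
      have s := sD _ b1
      have t := (m3.s2 _ b1).2.2
      rw [b2, b3] at s t
      exact Or.inr (Or.inl ⟨⟨d, b1, b2, b3, b4⟩, s.1, t.1, s.2, t.2⟩)
    · have e : φ x = g x.2 x.1 := by rw [hφ, if_neg c, if_neg d]
      have x2 := (mem_union.1 x1.2).resolve_left d
      have x3 : (x.2 / h + 1) * h ≤ x.1 := not_lt.1 fun b => c'.2 ⟨x2, b⟩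
      have x4 : x.1 ∈ U2.filter fun y => (x.2 / h + 1) * h ≤ y := mem_filter.2 ⟨x2, x3⟩
      have b := e ▸ mem_filter.1 (mem_coe.1 ((hg x.2 ((Nat.le_div_iff_mul_le h0).2
        (x3.trans x1.1.2))).mapsTo x4))
      have s := (m5.l1 _ b.1).2
      rw [b.2.1] at s
      exact Or.inr (Or.inr ⟨⟨c, d, e, x4⟩, b, s⟩)
  have nD : ∀ x ∈ hc n h a U1 U2, ψ x ∉ Ds := fun x hx c => (m3.s2 _ c).2.2.2 (by
    rw [← (sD _ c).2, (m4.p1 x hx).2.1, (m4.p1 x hx).2.2.1])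
  have inj : Set.InjOn φ (cl n (U1 ∪ U2)) := fun x hx y hy e => by
    rcases tri x hx with b | ⟨b, -⟩ | ⟨b, b', -⟩ <;> rcases tri y hy with d | ⟨d, -⟩ | ⟨d, d', -⟩
    · exact m4.p2 b.1 d.1 (b.2.1.symm.trans (e.trans d.2.1))
    · exact absurd (b.2.1 ▸ e ▸ d.2.1) (nD x b.1)
    · exact absurd (mem_image.2 ⟨x, b.1, b.2.1.symm.trans e⟩) ((mL _).1 d'.1).2.2
    · exact absurd (d.2.1 ▸ e ▸ b.2.1) (nD y d.1)
    · rw [e] at b
      exact Prod.ext (rk_inj b.1 d.1 (b.2.2.2.1.symm.trans d.2.2.2.1))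
        (dm2 (b.2.2.1.symm.trans d.2.2.1) (b.2.2.2.2.symm.trans d.2.2.2.2))
    · exact absurd (e ▸ b.2.1) ((mL _).1 d'.1).2.1
    · exact absurd (mem_image.2 ⟨y, d.1, d.2.1.symm.trans e.symm⟩) ((mL _).1 b'.1).2.2
    · exact absurd (e ▸ d.2.1) ((mL _).1 b'.1).2.1
    · have s := (m5.l1 _ b'.1).1
      rw [b'.2.1] at s
      rw [e] at b'
      have t := dm2 (b'.2.1.symm.trans d'.2.1) (b'.2.2.symm.trans d'.2.2)
      refine Prod.ext ((hg x.2 s).injOn b.2.2.2 (t ▸ d.2.2.2) ?_) t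
      rw [← b.2.2.1, e, d.2.2.1, t]
  have k1 : ∀ x ∈ hc n h a U1 U2, ∀ y : ℕ × ℕ, x.2 = y.2 → y.1 ∈ U1 →
      rk U1 y.1 / a < kJ U1 h (y.2 / h) / a → ky a U1 x.1 ≠ ky a U1 y.1 :=
    fun x hx y e b d c => by
      rw [ky, ky, if_pos b] at c
      split_ifs at c with t
      · rcases ((mH x).1 hx).2 with s | s
        · have := (Nat.le_div_iff_mul_le a0).2 (Nat.mul_comm _ _ ▸ s.2)
          have := (Prod.ext_iff.1 c).1
          rw [← e] at d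
          simp only at this
          omega
        · exact nU _ t s.1
      · simp at c
  have k2 : ∀ x y : ℕ × ℕ, x.2 = y.2 → y.1 ∉ U1 → ky a U1 x.1 = ky a U1 y.1 → x = y :=
    fun x y e b c => by
      rw [ky, ky, if_neg b] at c
      split_ifs at c with t
      · simp at c
      · exact Prod.ext (Prod.ext_iff.1 c).1 e
  have ar : ∀ y ∈ U1 ∪ U2, ∃ w ∈ ((U1 ∪ U2 : Finset ℕ) : Set ℕ), ky a U1 w = ky a U1 y :=
    fun y hy => ⟨y, hy, rfl⟩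
  refine ⟨φ, fun y => Function.invFunOn (ky a U1) (U1 ∪ U2 : Finset ℕ) (ky a U1 y),
    ⟨⟨fun x hx => ?_, inj, fun p hp => ?_⟩, fun y hy => Function.invFunOn_mem (ar y hy),
      fun x hx y hy e => ?_, fun x hx y hy e => ?_, fun x hx y hy e c => ?_⟩,
    fun x hx v hv c => ?_⟩
  · rcases tri x hx with b | ⟨b, -⟩ | ⟨-, b, -⟩
    exacts [b.2.1 ▸ (m4.p1 x b.1).1, m3.s1 b.2.1, ((mL _).1 b.1).1]
  · by_cases c : p ∈ Ds
    · have b := (m3.s2 p c).2.1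
      have b2 := b.trans_le (Nat.mul_div_le _ _)
      obtain ⟨y, y1, y2⟩ := rk_surj U1 (b2.trans_le (card_filter_le _ _))
      have y3 := full (y2 ▸ b2)
      have t := m6.d1.1 p c
      have s := dm (J := blk p) t
      have hx : (y, blk p * h + dp p) ∈ cl n (U1 ∪ U2) := mem_cl.2 ⟨⟨by
        rw [add_one_mul] at y3
        simp only
        omega, (mem_Icc.1 (u1 y1)).2⟩, mem_union_left _ y1⟩
      refine ⟨_, hx, ?_⟩
      rcases tri _ hx with d | ⟨d, -⟩ | ⟨d, -⟩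
      · rcases ((mH _).1 d.1).2 with w | w
        · simp only [s.1, y2] at w
          omega
        · exact absurd w.1 (nU _ y1)
      · exact m6.d2 _ d.2.1 p c (d.2.2.1.trans s.1) (d.2.2.2.2.trans s.2)
          (Or.inl (d.2.2.2.1.trans y2))
      · exact absurd y1 d.2.1
    by_cases d : p ∈ (hc n h a U1 U2).image ψ
    · obtain ⟨x, x1, x2⟩ := mem_image.1 d
      exact ⟨x, ((mH x).1 x1).1, by rw [hφ, if_pos x1, x2]⟩
    have b := (mL p).2 ⟨hp, c, d⟩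
    have t := m6.d1.2 p b
    have s := dm (J := bl p) t
    obtain ⟨y, y1, y2⟩ := (hg (bl p * h + dp p) (s.1.symm ▸ (m5.l1 p b).1)).surjOn
      (mem_coe.2 (mem_filter.2 ⟨b, s.1.symm, s.2.symm⟩))
    obtain ⟨y1, y3⟩ := mem_filter.1 (mem_coe.1 y1)
    have y4 : y ∉ U1 := fun w => nU _ w y1
    refine ⟨(y, bl p * h + dp p), mem_cl.2 ⟨⟨by
      rw [s.1, add_one_mul] at y3
      simp only
      omega, (mem_Icc.1 (u2 y1)).2⟩, mem_union_right _ y1⟩, ?_⟩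
    rw [hφ, if_neg fun w => ((mH _).1 w).2.elim (fun w => y4 w.1) fun w => w.2.not_ge y3,
      if_neg y4, y2]
  · refine Iff.trans (b := ky a U1 x.1 = ky a U1 y.1) ⟨fun c => ?_, fun c => by rw [c]⟩ ?_
    · rw [← Function.invFunOn_eq (ar _ (mem_cl.1 hx).2), c,
        Function.invFunOn_eq (ar _ (mem_cl.1 hy).2)]
    rcases tri x hx with b | ⟨b, b'⟩ | ⟨b, b', b''⟩ <;>
      rcases tri y hy with d | ⟨d, d'⟩ | ⟨d, d', d''⟩
    · rw [b.2.1, d.2.1]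
      exact (m4.p3 x b.1 y d.1 e).1
    · refine iff_of_false (k1 x b.1 y e d.1 d'.1) fun c => ?_
      rw [b.2.1, d'.2.1, ← e] at c
      exact ((m4.p1 x b.1).2.2.2 _ (e ▸ d'.1)).1 c.symm
    · exact iff_of_false (fun c => d.1 (k2 x y e d.2.1 c ▸ b.1)) fun c => d''.1 (e ▸ c ▸ b.2.2.1)
    · refine iff_of_false (k1 y d.1 x e.symm b.1 b'.1).symm fun c => ?_
      rw [d.2.1, b'.2.1, e] at c
      exact ((m4.p1 y d.1).2.2.2 _ (e ▸ b'.1)).1 c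
    · rw [ky, ky, if_pos b.1, if_pos d.1, b'.2.1, d'.2.1, ← e]
      exact ⟨fun c => congrArg _ (Prod.ext_iff.1 c).1, fun c => Prod.ext
        ((m2.c1 _ (b.2.2.1 ▸ (m3.s2 _ b.2.1).1) _ b'.1).2.2 _ (e ▸ d'.1) c) rfl⟩
    · exact iff_of_false (fun c => d.2.1 (k2 x y e d.2.1 c ▸ b.1))
        fun c => d''.1 (e ▸ c ▸ b'.2.2.1)
    · exact iff_of_false (fun c => b.1 (k2 y x e.symm b.2.1 c.symm ▸ d.1))
        fun c => b''.1 (e ▸ c ▸ d.2.2.1)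
    · exact iff_of_false (fun c => b.2.1 (k2 y x e.symm b.2.1 c.symm ▸ d.1))
        fun c => b''.1 (e ▸ c ▸ d'.2.2.1)
    · refine ⟨fun c => by rw [k2 x y e d.2.1 c], fun c => ?_⟩
      rw [inj hx hy (by_contra fun w => (m6.d4 _ b'.1 _ d'.1 (by rw [b'.2.1, d'.2.1, e])
        (by rw [b'.2.2, d'.2.2, e]) w).1 c)]
  · intro c
    rcases tri x hx with b | ⟨b, b'⟩ | ⟨b, b', b''⟩ <;>
      rcases tri y hy with d | ⟨d, d'⟩ | ⟨d, d', d''⟩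
    · rw [b.2.1, d.2.1] at c
      exact (m4.p3 x b.1 y d.1 e).2.1 c
    · rw [b.2.1, d'.2.1, ← e] at c
      exact ((m4.p1 x b.1).2.2.2 _ (e ▸ d'.1)).2 c.symm
    · exact d''.1 (e ▸ c ▸ b.2.2.2)
    · exact b'.2.2.2 (e ▸ c ▸ d.2.2.1)
    · exact b'.2.2.2 (e ▸ c ▸ d'.2.2.1)
    · exact (m6.d3 _ b.2.1 _ d'.1 (by rw [b.2.2.1, d'.2.1, e])
        (by rw [b.2.2.2.2, d'.2.2, e])).1 c
    · exact b''.2 (e ▸ c ▸ d.2.2.1)
    · exact b''.2 (e ▸ c ▸ d'.2.2.1)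
    · by_cases w : φ y = φ x
      · exact lp _ ((mL _).1 b'.1).1 (w ▸ c.symm)
      · exact (m6.d4 _ d'.1 _ b'.1 (by rw [b'.2.1, d'.2.1, e])
          (by rw [b'.2.2, d'.2.2, e]) w).2.1 c.symm
  · rcases tri x hx with b | ⟨b, b'⟩ | ⟨b, b', b''⟩ <;>
      rcases tri y hy with d | ⟨d, d'⟩ | ⟨d, d', d''⟩
    · rw [b.2.1, d.2.1] at c
      exact (m4.p3 x b.1 y d.1 e).2.2 c
    · exact absurd (e ▸ c ▸ b.2.2.2) d'.2.2.2
    · exact absurd (e ▸ c ▸ b.2.2.2) d''.2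
    · exact absurd (e ▸ c ▸ d.2.2.2) b'.2.2.2
    · exact inj hx hy (m6.d2 _ b.2.1 _ d.2.1 (by rw [b.2.2.1, d.2.2.1, e])
        (by rw [b.2.2.2.2, d.2.2.2.2, e]) (Or.inr c))
    · exact absurd c (m6.d3 _ b.2.1 _ d'.1 (by rw [b.2.2.1, d'.2.1, e])
        (by rw [b.2.2.2.2, d'.2.2, e])).2
    · exact absurd (e ▸ c ▸ d.2.2.2) b''.2
    · exact absurd c.symm (m6.d3 _ d.2.1 _ b'.1 (by rw [d.2.2.1, b'.2.1, e])
        (by rw [d.2.2.2.2, b'.2.2, e])).2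
    · exact inj hx hy (by_contra fun w => (m6.d4 _ b'.1 _ d'.1 (by rw [b'.2.1, d'.2.1, e])
        (by rw [b'.2.2, d'.2.2, e]) w).2.2 c)
  · rcases tri x hx with b | ⟨b, b'⟩ | ⟨-, b, -⟩
    · exact absurd (c.elim (fun c => c ▸ b.2.2.1) fun c => c ▸ b.2.2.2) hv
    · exact Or.inl ⟨b.2.1, b.2.2.1, c.resolve_left fun c => hv (c ▸ b'.2.2.1)⟩
    · exact Or.inr ⟨b.1, b.2.1⟩

end Pool.Agent.MP_f65396_co.h15n
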