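import Pool.Agent.MP_f65396_co.h15n.SpecA
import Mathlib.Combinatorics.Hall.Basic
import Mathlib.Data.Set.Card

/-! Orientations with bounded in-degrees, arc counts and the final assembly. -/

set_option autoImplicit false

namespace Pool.Agent.MP_f65396_co.h15n

open Finset
open Pool.Agent.MP_f65396_co.h32 (cells)

namespace Hak

/-- The slots of a vertex. -/
def slot {V : Type} (cap : V → ℕ) (v : V) : Finset (V × ℕ) := ({v} : Finset V) ×ˢ range (cap v)

lemma mem_slot {V : Type} {cap : V → ℕ} {v : V} {x : V × ℕ} :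
    x ∈ slot cap v ↔ x.1 = v ∧ x.2 < cap v := by
  rw [slot, mem_product, mem_singleton, mem_range]

lemma card_slots {V : Type} [DecidableEq V] (cap : V → ℕ) (S : Finset V) :
    (S.biUnion (slot cap)).card = ∑ v ∈ S, cap v := by
  rw [card_biUnion]
  · refine sum_congr rfl fun v _ => ?_
    simp [slot]
  · intro u _ v _ huv
    refine disjoint_left.2 fun x hx hy => huv ?_
    exact (mem_slot.1 hx).1.symm.trans (mem_slot.1 hy).1

lemma two_le {V : Type} [DecidableEq V] (G : SimpleGraph V) [DecidableRel G.Adj] (r : V → ℕ)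
    (F : Finset (V × V)) (S : Finset V)
    (hF : ∀ p ∈ F, G.Adj p.1 p.2 ∧ r p.1 < r p.2 ∧ p.1 ∈ S ∧ p.2 ∈ S) :
    2 * F.card ≤ ein G S := by
  have h1 : (F.image Prod.swap).card = F.card :=
    card_image_of_injective _ Prod.swap_injective
  have h2 : Disjoint F (F.image Prod.swap) := by
    refine disjoint_left.2 fun p hp hq => ?_
    obtain ⟨q, hq, e⟩ := mem_image.1 hq
    have a := (hF p hp).2.1
    have b := (hF q hq).2.1
    rw [← e] at a
    simp only [Prod.fst_swap, Prod.snd_swap] at a
    omega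
  have h3 : F ∪ F.image Prod.swap ⊆ (S ×ˢ S).filter (fun p => G.Adj p.1 p.2) := by
    intro p hp
    rw [mem_filter, mem_product]
    rcases mem_union.1 hp with hp | hp
    · exact ⟨⟨(hF p hp).2.2.1, (hF p hp).2.2.2⟩, (hF p hp).1⟩
    · obtain ⟨q, hq, rfl⟩ := mem_image.1 hp
      exact ⟨⟨(hF q hq).2.2.2, (hF q hq).2.2.1⟩, (hF q hq).1.symm⟩
  have h4 := card_le_card h3
  rw [card_union_of_disjoint h2, h1] at h4
  unfold ein
  omega

end Hak

open Hak

theorem hak : HakS := by
  intro V _ _ G _ cap h
  let r : V → ℕ := fun v => (Fintype.equivFin V v).val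
  have hr : Function.Injective r := fun u v e => (Fintype.equivFin V).injective (Fin.ext e)
  let ι := {p : V × V // G.Adj p.1 p.2 ∧ r p.1 < r p.2}
  let t : ι → Finset (V × ℕ) := fun p => slot cap p.1.1 ∪ slot cap p.1.2
  have hall : ∀ s : Finset ι, s.card ≤ (s.biUnion t).card := by
    intro s
    let S : Finset V := s.biUnion (fun p => {p.1.1, p.1.2})
    have e : s.biUnion t = S.biUnion (slot cap) := by
      ext x
      simp only [t, S, mem_biUnion, mem_union, mem_insert, mem_singleton]
      constructor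
      · rintro ⟨p, hp, hx | hx⟩
        · exact ⟨_, ⟨p, hp, Or.inl rfl⟩, hx⟩
        · exact ⟨_, ⟨p, hp, Or.inr rfl⟩, hx⟩
      · rintro ⟨v, ⟨p, hp, rfl | rfl⟩, hx⟩
        · exact ⟨p, hp, Or.inl hx⟩
        · exact ⟨p, hp, Or.inr hx⟩
    have h2 := two_le G r (s.image Subtype.val) S (by
      intro p hp
      obtain ⟨q, hq, rfl⟩ := mem_image.1 hp
      refine ⟨q.2.1, q.2.2, ?_, ?_⟩
      · exact mem_biUnion.2 ⟨q, hq, by simp⟩
      · exact mem_biUnion.2 ⟨q, hq, by simp⟩)
    rw [card_image_of_injective _ Subtype.val_injective] at h2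
    rw [e, card_slots]
    have h3 := h S
    omega
  obtain ⟨f, hf, hft⟩ := (all_card_le_biUnion_card_iff_exists_injective t).1 hall
  let o : ι → V × V := fun p => if (f p).1 = p.1.2 then p.1 else p.1.swap
  have ho : ∀ p, o p = p.1 ∨ o p = p.1.swap := by
    intro p
    by_cases c : (f p).1 = p.1.2
    · exact Or.inl (if_pos c)
    · exact Or.inr (if_neg c)
  have hh : ∀ p, (o p).2 = (f p).1 ∧ (f p).2 < cap (f p).1 := by
    intro p
    have m := mem_union.1 (hft p)
    constructor
    · by_cases c : (f p).1 = p.1.2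
      · have : o p = p.1 := if_pos c
        rw [this, c]
      · have : o p = p.1.swap := if_neg c
        rw [this]
        rcases m with m | m
        · exact (mem_slot.1 m).1.symm
        · exact absurd (mem_slot.1 m).1 c
    · rcases m with m | m
      · rw [(mem_slot.1 m).1]; exact (mem_slot.1 m).2
      · rw [(mem_slot.1 m).1]; exact (mem_slot.1 m).2
  have oadj : ∀ p, G.Adj (o p).1 (o p).2 := by
    intro p
    rcases ho p with e | e <;> rw [e]
    · exact p.2.1
    · exact p.2.1.symm
  refine ⟨univ.image o, ⟨?_, ?_, ?_⟩, ?_⟩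
  · intro p hp
    obtain ⟨q, -, rfl⟩ := mem_image.1 hp
    exact oadj q
  · intro u v huv
    have ne : r u ≠ r v := fun e => huv.ne (hr e)
    rcases lt_or_gt_of_ne ne with c | c
    · rcases ho ⟨(u, v), huv, c⟩ with e | e
      · exact Or.inl (mem_image.2 ⟨_, mem_univ _, e⟩)
      · exact Or.inr (mem_image.2 ⟨_, mem_univ _, e⟩)
    · rcases ho ⟨(v, u), huv.symm, c⟩ with e | e
      · exact Or.inr (mem_image.2 ⟨_, mem_univ _, e⟩)
      · exact Or.inl (mem_image.2 ⟨_, mem_univ _, e⟩)
  · intro u v h1 h2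
    obtain ⟨p, -, ep⟩ := mem_image.1 h1
    obtain ⟨q, -, eq⟩ := mem_image.1 h2
    have huv : G.Adj u v := by
      have := oadj p
      rwa [ep] at this
    have hp := p.2.2
    have hq := q.2.2
    have pq : p = q := by
      apply Subtype.ext
      rcases ho p with a | a <;> rcases ho q with b | b
      · have a1 : p.1 = (u, v) := a.symm.trans ep
        have b1 : q.1 = (v, u) := b.symm.trans eq
        rw [a1] at hp
        rw [b1] at hq
        exact absurd hp (not_lt.2 hq.le)
      · have a1 : p.1 = (u, v) := a.symm.trans ep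
        have b1 : q.1 = (u, v) := Prod.swap_injective (b.symm.trans eq)
        rw [a1, b1]
      · have a1 : p.1 = (v, u) := Prod.swap_injective (a.symm.trans ep)
        have b1 : q.1 = (v, u) := b.symm.trans eq
        rw [a1, b1]
      · have a1 : p.1 = (v, u) := Prod.swap_injective (a.symm.trans ep)
        have b1 : q.1 = (u, v) := Prod.swap_injective (b.symm.trans eq)
        rw [a1] at hp
        rw [b1] at hq
        exact absurd hp (not_lt.2 hq.le)
    rw [pq, eq] at ep
    exact huv.ne (Prod.ext_iff.1 ep).2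
  · intro v
    have s1 : (univ.image o).filter (fun p => p.2 = v) ⊆
        (univ.filter (fun p : ι => (f p).1 = v)).image o := by
      intro p hp
      obtain ⟨hp, e⟩ := mem_filter.1 hp
      obtain ⟨q, -, rfl⟩ := mem_image.1 hp
      exact mem_image.2 ⟨q, mem_filter.2 ⟨mem_univ _, (hh q).1.symm.trans e⟩, rfl⟩
    refine (card_le_card s1).trans (card_image_le.trans ?_)
    rw [← card_range (cap v)]
    refine card_le_card_of_injOn (fun p => (f p).2) (fun p hp => ?_) (fun p hp q hq e => ?_)
    · have a := (mem_filter.1 (mem_coe.1 hp)).2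
      have b := (hh p).2
      rw [a] at b
      exact mem_coe.2 (mem_range.2 b)
    · have a := (mem_filter.1 (mem_coe.1 hp)).2
      have b := (mem_filter.1 (mem_coe.1 hq)).2
      exact hf (Prod.ext (a.trans b.symm) e)

namespace Hak

lemma sym_inj {V : Type} {G : SimpleGraph V} {D : Finset (V × V)} (h : Orn G D) {p q : V × V}
    (hp : p ∈ D) (hq : q ∈ D) (e : s(p.1, p.2) = s(q.1, q.2)) : p = q := by
  rcases Sym2.eq_iff.1 e with a | a
  · exact Prod.ext a.1 a.2
  · have b : (p.2, p.1) = q := Prod.ext a.2 a.1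
    exact absurd (b ▸ hq) (h.asy p.1 p.2 hp)

lemma cl_Icc (n : ℕ) : cl n (Icc 1 n) = cells n := by
  refine filter_true_of_mem fun x hx => ?_
  have := h32.mem_cells.1 hx
  exact mem_Icc.2 ⟨by omega, this.2⟩

end Hak

theorem cardS : CardS := by
  intro V _ _ G _ D h
  constructor
  · have e : G.edgeSet = (fun p : V × V => s(p.1, p.2)) '' (D : Set (V × V)) := by
      ext x
      induction x using Sym2.ind with
      | h u v =>
        rw [SimpleGraph.mem_edgeSet]
        constructor
        · intro a
          rcases h.cov u v a with b | b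
          · exact ⟨(u, v), b, rfl⟩
          · exact ⟨(v, u), b, Sym2.eq_swap⟩
        · rintro ⟨p, hp, e⟩
          have a := h.adj p hp
          rcases Sym2.eq_iff.1 e with b | b
          · rw [← b.1, ← b.2]; exact a
          · rw [← b.1, ← b.2]; exact a.symm
    rw [e, Set.InjOn.ncard_image (fun p hp q hq e => sym_inj h hp hq e), Set.ncard_coe_finset]
  · intro v
    rw [← SimpleGraph.card_neighborFinset_eq_degree]
    unfold dtot
    refine card_bij (fun p _ => if p.1 = v then p.2 else p.1) (fun p hp => ?_)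
      (fun p hp q hq e => ?_) (fun w hw => ?_)
    · obtain ⟨hp, c⟩ := mem_filter.1 hp
      have a := h.adj p hp
      rw [SimpleGraph.mem_neighborFinset]
      by_cases d : p.1 = v
      · rw [if_pos d, ← d]; exact a
      · rw [if_neg d, ← c.resolve_left d]; exact a.symm
    · obtain ⟨hp, c⟩ := mem_filter.1 hp
      obtain ⟨hq, c'⟩ := mem_filter.1 hq
      refine sym_inj h hp hq (Sym2.eq_iff.2 ?_)
      by_cases d : p.1 = v <;> by_cases d' : q.1 = v
      · simp only [if_pos d, if_pos d'] at e
        exact Or.inl ⟨d.trans d'.symm, e⟩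
      · simp only [if_pos d, if_neg d'] at e
        exact Or.inr ⟨d.trans (c'.resolve_left d').symm, e⟩
      · simp only [if_neg d, if_pos d'] at e
        exact Or.inr ⟨e, (c.resolve_left d).trans d'.symm⟩
      · simp only [if_neg d, if_neg d'] at e
        exact Or.inl ⟨e, (c.resolve_left d).trans (c'.resolve_left d').symm⟩
    · have a := (SimpleGraph.mem_neighborFinset G v w).1 hw
      rcases h.cov v w a with b | b
      · exact ⟨(v, w), mem_filter.2 ⟨b, Or.inl rfl⟩, if_pos rfl⟩
      · exact ⟨(w, v), mem_filter.2 ⟨b, Or.inr rfl⟩, if_neg a.ne'⟩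

theorem finS : FinS := by
  intro V _ G n D φ arm h L
  have b := L.bij
  have e4 := L.e4
  have e5 := L.e5
  have e6 := L.e6
  rw [cl_Icc] at b e4 e5 e6
  refine h32.assemble G n (fun x => (φ x).1) (fun x => (φ x).2) arm (fun x hx => ?_)
    (fun u v a => ?_) (fun x hx y hy e => ?_) e4 e5 e6
  · exact h.adj _ (b.mapsTo (mem_coe.2 hx))
  · rcases h.cov u v a with c | c
    · obtain ⟨x, hx, e⟩ := b.surjOn (mem_coe.2 c)
      exact ⟨x, hx, by simp only [e]⟩
    · obtain ⟨x, hx, e⟩ := b.surjOn (mem_coe.2 c)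
      exact ⟨x, hx, by simp only [e]; exact Sym2.eq_swap⟩
  · exact b.injOn (mem_coe.2 hx) (mem_coe.2 hy)
      (sym_inj h (b.mapsTo (mem_coe.2 hx)) (b.mapsTo (mem_coe.2 hy)) e)

end Pool.Agent.MP_f65396_co.h15n
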