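import Pool.Agent.MP_f65396_co.h15n.SpecA

/-! Greedy choice from lists; centres and private leaves. -/

set_option autoImplicit false

namespace Pool.Agent.MP_f65396_co.h15n

open Finset

theorem greedy : GreedyS := by
  intro ι C _ _ I L bad _ wt c0 sy
  induction I using Finset.induction_on with
  | empty => exact fun _ _ => ⟨fun _ => c0, by simp, by simp⟩
  | insert a I ha ih =>
    intro h1 h2
    obtain ⟨f, f1, f2⟩ := ih (fun i hi j hj => h1 i (mem_insert_of_mem hi) j (mem_insert_of_mem hj))
      fun i hi => (sum_le_sum_of_subset (erase_subset_erase _ (subset_insert _ _))).trans_lt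
        (h2 i (mem_insert_of_mem hi))
    have ne : ∀ j ∈ I, j ≠ a := fun j hj e => ha (e ▸ hj)
    obtain ⟨c, c1, c2⟩ := exists_mem_notMem_of_card_lt_card
      (s := I.biUnion fun j => (L a).filter fun c => bad a c j (f j))
      ((card_biUnion_le.trans (sum_le_sum fun j hj => h1 a (mem_insert_self _ _) j
        (mem_insert_of_mem hj) (ne j hj).symm _)).trans_lt
          (erase_insert ha ▸ h2 a (mem_insert_self _ _)))
    have c3 : ∀ j ∈ I, ¬ bad a c j (f j) := fun j hj b =>
      c2 (mem_biUnion.2 ⟨j, hj, mem_filter.2 ⟨c1, b⟩⟩)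
    have u : ∀ j ∈ I, Function.update f a c j = f j := fun j hj =>
      Function.update_of_ne (ne j hj) _ _
    refine ⟨Function.update f a c, fun i hi => ?_, fun i hi j hj e => ?_⟩
    · rcases mem_insert.1 hi with rfl | hi
      · rwa [Function.update_self]
      · rw [u i hi]
        exact f1 i hi
    · rcases mem_insert.1 hi with k | hi <;> rcases mem_insert.1 hj with l | hj
      · exact (e (k.trans l.symm)).elim
      · rw [k, Function.update_self, u j hj]
        exact c3 j hj
      · rw [l, Function.update_self, u i hi]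
        exact fun b => c3 i hi (sy _ _ _ _ b)
      · rw [u i hi, u j hj]
        exact f2 i hi j hj e

theorem hand (hg : GreedyS) : HandS := by
  intro α γ V _ _ _ H blk key Cn Lf hb hk I x v0 h1 h2 h3 h4 h5 h6
  obtain ⟨bk, hbk⟩ : ∃ bk : γ → ℕ, ∀ a ∈ H, bk (key a) = blk a := by
    have : ∀ g, ∃ J, ∀ a ∈ H, key a = g → J = blk a := fun g => by
      by_cases h : ∃ a ∈ H, key a = g
      · obtain ⟨a, ha, rfl⟩ := h
        exact ⟨blk a, fun b hb e => h1 a ha b hb e.symm⟩
      · exact ⟨0, fun a ha e => (h ⟨a, ha, e⟩).elim⟩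
    choose bk k using this
    exact ⟨bk, fun a ha => k _ a ha rfl⟩
  have fib : ∀ p : α → Prop, ∀ [DecidablePred p], ∀ m, ((H.filter p).image key).card ≤ m →
      (H.filter p).card ≤ m * hk := fun p _ m h =>
    (card_le_mul_card_image (f := key) _ hk fun g _ => (card_le_card
      (filter_subset_filter _ (filter_subset _ _))).trans (h3 g)).trans
        (mul_comm m hk ▸ Nat.mul_le_mul_left _ h)
  obtain ⟨f, f1, f2⟩ := hg γ (V × ℕ) (H.image key) (fun g => Cn (bk g) ×ˢ range x)
    (fun g c g' c' => c = c' ∨ (bk g = bk g' ∧ c.1 = c'.1))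
    (fun g g' => (if bk g = bk g' then x else 0) + 1) (v0, 0)
    (fun _ _ _ _ b => b.imp Eq.symm fun b => ⟨b.1.symm, b.2.symm⟩) (fun g _ g' _ _ d => by
      split_ifs with e
      · refine (card_le_card (t := {d.1} ×ˢ range x) fun c hc => ?_).trans (by simp)
        obtain ⟨a, b⟩ := mem_filter.1 hc
        exact mem_product.2 ⟨mem_singleton.2 (b.elim (congrArg _) And.right), (mem_product.1 a).2⟩
      · exact card_le_card (t := {d}) fun c hc =>
          mem_singleton.2 ((mem_filter.1 hc).2.resolve_right fun b => e b.1)) (fun g hg => by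
      obtain ⟨a, ha, rfl⟩ := mem_image.1 hg
      rw [card_product, card_range, hbk a ha]
      refine ((sum_le_sum_of_subset (erase_subset _ _)).trans ?_).trans_lt (h5 a ha)
      rw [sum_add_distrib, ← sum_filter, sum_const, ← card_eq_sum_ones]
      refine add_le_add (Nat.mul_le_mul_right _ ((card_le_card fun g hg => ?_).trans
        (h2 (blk a)))) h4
      obtain ⟨k, e⟩ := mem_filter.1 hg
      obtain ⟨b, hb, rfl⟩ := mem_image.1 k
      exact mem_image_of_mem _ (mem_filter.2 ⟨hb, (e.trans (hbk b hb)).symm⟩))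
  obtain ⟨d, d1, d2⟩ := hg α V H (fun a => Lf (f (key a)).1 (blk a) \
      ((H.filter fun b => blk b = blk a).image key).image fun g => (f g).1)
    (fun a c b d => c = d ∧ (blk b = blk a ∨ (f (key b)).1 = (f (key a)).1))
    (fun a b => if blk b = blk a ∨ (f (key b)).1 = (f (key a)).1 then 1 else 0) v0
    (fun _ _ _ _ b => ⟨b.1.symm, b.2.imp Eq.symm Eq.symm⟩) (fun a _ b _ _ d => by
      split_ifs with e
      · exact card_le_card (t := {d}) fun c hc => mem_singleton.2 (mem_filter.1 hc).2.1
      · simp [e]) (fun a ha => by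
      have m := (mem_product.1 (f1 _ (mem_image_of_mem key ha))).1
      rw [hbk a ha] at m
      have a1 := h6 a ha _ m
      have a2 := le_card_sdiff (((H.filter fun b => blk b = blk a).image key).image fun g => (f g).1)
        (Lf (f (key a)).1 (blk a))
      have a3 := (card_image_le (f := fun g => (f g).1)).trans (h2 (blk a))
      have a4 := fib _ _ (h2 (blk a))
      have a5 := fib (fun b => (f (key b)).1 = (f (key a)).1) x (by
        rw [← card_range x]
        refine card_le_card_of_injOn (fun g => (f g).2) (fun g hg => ?_) fun g hg g' hg' e => ?_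
        · exact (mem_product.1 (f1 g (image_subset_image (filter_subset _ _) hg))).2
        · obtain ⟨b, hb, rfl⟩ := mem_image.1 hg
          obtain ⟨c, hc, rfl⟩ := mem_image.1 hg'
          rw [mem_filter] at hb hc
          by_contra n
          exact f2 _ (mem_image_of_mem key hb.1) _ (mem_image_of_mem key hc.1) n
            (Or.inl (Prod.ext (hb.2.trans hc.2.symm) e)))
      refine (sum_le_sum_of_subset (erase_subset _ _)).trans_lt ?_
      rw [← card_filter, filter_or]
      exact (card_union_le _ _).trans_lt (by omega))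
  refine ⟨fun a => (f (key a)).1, d, fun a ha => ⟨hbk a ha ▸
    (mem_product.1 (f1 _ (mem_image_of_mem key ha))).1, (mem_sdiff.1 (d1 a ha)).1⟩,
    fun a ha b hb e e' => by_contra fun n => d2 a ha b hb n ⟨e', Or.inr e.symm⟩,
    fun a ha b hb e => ⟨⟨fun k => by simp only [k], fun k => by_contra fun n => ?_⟩, fun k => ?_,
      fun e' => by_contra fun n => d2 a ha b hb n ⟨e', Or.inl e.symm⟩⟩⟩
  · exact f2 _ (mem_image_of_mem key ha) _ (mem_image_of_mem key hb) n
      (Or.inr ⟨by rw [hbk a ha, hbk b hb, e], k⟩)
  · exact (mem_sdiff.1 (d1 a ha)).2 (mem_image.2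
      ⟨_, mem_image_of_mem key (mem_filter.2 ⟨hb, e.symm⟩), k.symm⟩)

end Pool.Agent.MP_f65396_co.h15n
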