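import Pool.Agent.MP_f65396_co.h15n.SpecB

/-! The arcs of the irregular cells. -/

set_option autoImplicit false

namespace Pool.Agent.MP_f65396_co.h15n

open Finset
open Pool.Agent.MP_f65396_co.h32 (cells rk mem_cells rk_inj)

namespace Irr

lemma pw {K h : ℕ} (hK : 10000 ≤ K) (hh : K ^ 60 ≤ h) {j : ℕ} (hj : j ≤ 59) :
    10000 * K ^ j ≤ h := by
  calc 10000 * K ^ j ≤ K * K ^ 59 :=
        Nat.mul_le_mul hK (Nat.pow_le_pow_right (by omega) hj)
    _ = K ^ 60 := by ring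
    _ ≤ h := hh

lemma num0 {K h n Nt R z c m C : ℕ} (hK : 10000 ≤ K) (hh : 0 < h) (hn : 0 < n)
    (hNt : K ^ 21 * h ≤ Nt) (hR : R = 4 * K ^ 2)
    (ht : (20 * R - 1) * Nt ≤ 20 * R ^ 2 * (32 * K ^ 6 * c))
    (hm : m * K ^ 6 * n ≤ 6 * n + 2 * (z * Nt)) (hz : z * (16 * K ^ 5) ≤ n) (hC : c ≤ C + m) :
    K ^ 13 * h ≤ 512 * C := by
  have hK0 : 0 < K := by omega
  have hR0 : 0 < R := by rw [hR]; positivity
  have s1 : Nt ≤ 256 * K ^ 8 * c := by
    have a1 : (10 * R) * Nt ≤ (20 * R - 1) * Nt := Nat.mul_le_mul_right _ (by omega)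
    have a2 : 20 * R ^ 2 * (32 * K ^ 6 * c) = (10 * R) * (256 * K ^ 8 * c) := by
      rw [hR]; ring
    exact Nat.le_of_mul_le_mul_left (a2 ▸ a1.trans ht) (by omega)
  have s2 : 8 * K ^ 11 * m ≤ 48 * K ^ 5 + Nt := by
    have a1 : n * (8 * K ^ 11 * m) ≤ n * (48 * K ^ 5 + Nt) := by
      calc n * (8 * K ^ 11 * m) = 8 * K ^ 5 * (m * K ^ 6 * n) := by ring
        _ ≤ 8 * K ^ 5 * (6 * n + 2 * (z * Nt)) := Nat.mul_le_mul_left _ hm
        _ = n * (48 * K ^ 5) + z * (16 * K ^ 5) * Nt := by ring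
        _ ≤ n * (48 * K ^ 5) + n * Nt := Nat.add_le_add_left (Nat.mul_le_mul_right _ hz) _
        _ = n * (48 * K ^ 5 + Nt) := by ring
    exact Nat.le_of_mul_le_mul_left a1 hn
  have s3 : 48 * K ^ 5 ≤ Nt := by
    calc 48 * K ^ 5 ≤ K * K ^ 20 :=
          Nat.mul_le_mul (by omega) (Nat.pow_le_pow_right hK0 (by norm_num))
      _ = K ^ 21 * 1 := by ring
      _ ≤ K ^ 21 * h := Nat.mul_le_mul_left _ hh
      _ ≤ Nt := hNt
  have s4 : 128 * (K ^ 8 * m) ≤ K ^ 11 * m := by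
    calc 128 * (K ^ 8 * m) ≤ K ^ 3 * (K ^ 8 * m) := by
          refine Nat.mul_le_mul_right _ ?_
          calc 128 ≤ K := by omega
            _ = K ^ 1 := (pow_one K).symm
            _ ≤ K ^ 3 := Nat.pow_le_pow_right hK0 (by norm_num)
      _ = K ^ 11 * m := by ring
  have s5 : 256 * K ^ 8 * c ≤ 256 * (K ^ 8 * C) + 256 * (K ^ 8 * m) := by
    calc 256 * K ^ 8 * c ≤ 256 * K ^ 8 * (C + m) := Nat.mul_le_mul_left _ hC
      _ = _ := by ring
  have s6 : 8 * K ^ 11 * m = 8 * (K ^ 11 * m) := by ring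
  have s7 : K ^ 8 * (K ^ 13 * h) ≤ K ^ 8 * (512 * C) := by
    have a1 : K ^ 8 * (K ^ 13 * h) = K ^ 21 * h := by ring
    have a2 : K ^ 8 * (512 * C) = 512 * (K ^ 8 * C) := by ring
    omega
  exact Nat.le_of_mul_le_mul_left s7 (by positivity)

lemma hle {h n : ℕ} (hh : 0 < h) (h1 : h ^ 4 ≤ n) : h * h ≤ n := by
  calc h * h = h ^ 2 := by ring
    _ ≤ h ^ 4 := Nat.pow_le_pow_right hh (by norm_num)
    _ ≤ n := h1

lemma num1 {K h n C x : ℕ} (hK : 10000 ≤ K) (hh : K ^ 60 ≤ h) (h1 : h ^ 4 ≤ n)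
    (hC : K ^ 13 * h ≤ 512 * C) (hx : x = n / (128 * K ^ 11 * h)) :
    (K ^ 6 + h) * x + (n / h + 1) * (K ^ 6 + h) < C * x := by
  have hK0 : 0 < K := by omega
  have p6 := pw hK hh (j := 6) (by norm_num)
  have p11 := pw hK hh (j := 11) (by norm_num)
  have q11 : 0 < K ^ 11 := by positivity
  have h0 : 0 < h := by omega
  have h2 := hle h0 h1
  have s1 : 1 ≤ n / h := by
    rw [Nat.le_div_iff_mul_le h0]
    nlinarith
  have s2 : (n / h + 1) * (K ^ 6 + h) ≤ 4 * n := by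
    calc (n / h + 1) * (K ^ 6 + h) ≤ (2 * (n / h)) * (2 * h) :=
          Nat.mul_le_mul (by omega) (by omega)
      _ = 4 * (n / h * h) := by ring
      _ ≤ 4 * n := Nat.mul_le_mul_left _ (Nat.div_mul_le_self n h)
  have d0 : 0 < 128 * K ^ 11 * h := by positivity
  have s3 : 1 ≤ x := by
    rw [hx, Nat.le_div_iff_mul_le d0, one_mul]
    exact (Nat.mul_le_mul_right h (by omega)).trans h2
  have s4 : n < 256 * (K ^ 11 * (h * x)) := by
    calc n < 128 * K ^ 11 * h * (x + 1) := by rw [hx]; exact Nat.lt_mul_div_succ n d0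
      _ ≤ 128 * K ^ 11 * h * (2 * x) := Nat.mul_le_mul_left _ (by omega)
      _ = _ := by ring
  have s5 : 100000000 * (K ^ 11 * (h * x)) ≤ 512 * (C * x) := by
    calc 100000000 * (K ^ 11 * (h * x)) ≤ (K * K) * (K ^ 11 * (h * x)) :=
          Nat.mul_le_mul_right _ (Nat.mul_le_mul hK hK)
      _ = K ^ 13 * h * x := by ring
      _ ≤ 512 * C * x := Nat.mul_le_mul_right _ hC
      _ = _ := by ring
  have s6 : h * x ≤ K ^ 11 * (h * x) := Nat.le_mul_of_pos_left _ q11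
  have s7 : (K ^ 6 + h) * x ≤ 2 * (h * x) := by
    calc (K ^ 6 + h) * x ≤ (2 * h) * x := Nat.mul_le_mul_right _ (by omega)
      _ = _ := by ring
  omega

lemma num2 {K h n R d c m L x : ℕ} (hK : 10000 ≤ K) (hh : K ^ 60 ≤ h) (h1 : h ^ 4 ≤ n)
    (hR : R = 4 * K ^ 2) (hd : n ≤ 4 * K ^ 3 * d) (hc : d ≤ 2 * R * c) (hL : c ≤ L + m)
    (hm : m * K ^ 6 ≤ n) (hx : x = n / (128 * K ^ 11 * h)) :
    x * (K ^ 6 * h) + (K ^ 6 + h) + (K ^ 6 + h) * (K ^ 6 * h) < L := by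
  have hK0 : 0 < K := by omega
  have p6 := pw hK hh (j := 6) (by norm_num)
  have p12 := pw hK hh (j := 12) (by norm_num)
  have q6 : 0 < K ^ 6 := by positivity
  have h0 : 0 < h := by omega
  have hn : 0 < n := lt_of_lt_of_le (by positivity) h1
  have s1 : 4 * (K * n) ≤ 128 * (K ^ 6 * L) + 128 * n := by
    calc 4 * (K * n) ≤ 4 * (K * (4 * K ^ 3 * (2 * R * (L + m)))) :=
          Nat.mul_le_mul_left _ (Nat.mul_le_mul_left _ (hd.trans (Nat.mul_le_mul_left _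
            (hc.trans (Nat.mul_le_mul_left _ hL)))))
      _ = 128 * (K ^ 6 * L) + 128 * (m * K ^ 6) := by rw [hR]; ring
      _ ≤ _ := by omega
  have s2 : 128 * (K ^ 6 * (x * (K ^ 6 * h))) ≤ K * n := by
    calc 128 * (K ^ 6 * (x * (K ^ 6 * h))) = K * (x * (128 * K ^ 11 * h)) := by ring
      _ ≤ K * n := by rw [hx]; exact Nat.mul_le_mul_left _ (Nat.div_mul_le_self _ _)
  have s3 : 128 * (K ^ 6 * ((K ^ 6 + h) + (K ^ 6 + h) * (K ^ 6 * h))) ≤ n := by
    have a1 : 1 ≤ K ^ 6 * h := Nat.mul_pos q6 h0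
    calc 128 * (K ^ 6 * ((K ^ 6 + h) + (K ^ 6 + h) * (K ^ 6 * h)))
        = 128 * (K ^ 6 * ((K ^ 6 + h) * (1 + K ^ 6 * h))) := by ring
      _ ≤ 128 * (K ^ 6 * ((2 * h) * (2 * (K ^ 6 * h)))) :=
          Nat.mul_le_mul_left _ (Nat.mul_le_mul_left _ (Nat.mul_le_mul (by omega) (by omega)))
      _ = (512 * K ^ 12) * h ^ 2 := by ring
      _ ≤ h * h ^ 2 := Nat.mul_le_mul_right _ (by omega)
      _ = h ^ 3 := by ring
      _ ≤ h ^ 4 := Nat.pow_le_pow_right h0 (by norm_num)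
      _ ≤ n := h1
  have s4 : 10000 * n ≤ K * n := Nat.mul_le_mul_right _ hK
  have s5 : K ^ 6 * (x * (K ^ 6 * h) + (K ^ 6 + h) + (K ^ 6 + h) * (K ^ 6 * h)) < K ^ 6 * L := by
    have a1 : K ^ 6 * (x * (K ^ 6 * h) + (K ^ 6 + h) + (K ^ 6 + h) * (K ^ 6 * h)) =
        K ^ 6 * (x * (K ^ 6 * h)) + K ^ 6 * ((K ^ 6 + h) + (K ^ 6 + h) * (K ^ 6 * h)) := by ring
    omega
  exact lt_of_mul_lt_mul_left s5 (Nat.zero_le _)

/-- Few arms of irregular cells in a block. -/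
lemma blockKeys {n h a : ℕ} (U1 U2 : Finset ℕ) (h0 : 0 < h) (a0 : 0 < a) (J : ℕ) :
    (((hc n h a U1 U2).filter (fun x => x.2 / h = J)).image
      (fun x : ℕ × ℕ => (x.2 / h, ky a U1 x.1))).card ≤ a + h := by
  have s1 : ((hc n h a U1 U2).filter (fun x => x.2 / h = J)).image
      (fun x : ℕ × ℕ => (x.2 / h, ky a U1 x.1)) ⊆
      (U1.filter (fun y => rk U1 y ∈ Ico (a * (kJ U1 h J / a)) (a * (kJ U1 h J / a) + a)) ∪
        Ico (J * h) (J * h + h)).image (fun y => (J, ky a U1 y)) := by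
    intro g hg
    obtain ⟨x, hx, rfl⟩ := mem_image.1 hg
    obtain ⟨hx1, hJ⟩ := mem_filter.1 hx
    obtain ⟨hx2, hx3⟩ := mem_filter.1 hx1
    have hx4 := (mem_cells.1 (mem_filter.1 hx2).1).1
    refine mem_image.2 ⟨x.1, ?_, by rw [hJ]⟩
    have e1 : J * h ≤ x.2 := by rw [← hJ]; exact Nat.div_mul_le_self _ _
    have e2 : (J + 1) * h = J * h + h := by ring
    rw [hJ] at hx3
    by_cases c : x.1 < J * h + h
    · exact mem_union_right _ (mem_Ico.2 ⟨by omega, c⟩)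
    · rcases hx3 with ⟨b1, b2⟩ | ⟨-, b2⟩
      · refine mem_union_left _ (mem_filter.2 ⟨b1, mem_Ico.2 ⟨b2, ?_⟩⟩)
        have e3 : rk U1 x.1 ≤ kJ U1 h J := by
          refine card_le_card fun y hy => ?_
          obtain ⟨y1, y2⟩ := mem_filter.1 hy
          exact mem_filter.2 ⟨y1, by omega⟩
        have e4 := Nat.lt_mul_div_succ (kJ U1 h J) a0
        rw [mul_add, mul_one] at e4
        omega
      · omega
  refine (card_le_card s1).trans (card_image_le.trans ((card_union_le _ _).trans ?_))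
  have s2 : (U1.filter (fun y =>
      rk U1 y ∈ Ico (a * (kJ U1 h J / a)) (a * (kJ U1 h J / a) + a))).card ≤
      (Ico (a * (kJ U1 h J / a)) (a * (kJ U1 h J / a) + a)).card :=
    card_le_card_of_injOn (rk U1) (fun y hy => (mem_filter.1 hy).2)
      (fun y hy y' hy' e => rk_inj (mem_filter.1 hy).1 (mem_filter.1 hy').1 e)
  rw [Nat.card_Ico] at s2
  rw [Nat.card_Ico]
  omega

/-- Few cells with the same arm in a block. -/
lemma keyCells {h a : ℕ} (H : Finset (ℕ × ℕ)) (U1 : Finset ℕ) (h0 : 0 < h) (a0 : 0 < a)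
    (g : ℕ × ℕ × ℕ) :
    (H.filter (fun x : ℕ × ℕ => (x.2 / h, ky a U1 x.1) = g)).card ≤ a * h := by
  have s1 : (H.filter (fun x : ℕ × ℕ => (x.2 / h, ky a U1 x.1) = g)).card ≤
      (range a ×ˢ range h).card := by
    refine card_le_card_of_injOn (fun x => (rk U1 x.1 % a, x.2 % h))
      (fun x _ => mem_coe.2 (mem_product.2
        ⟨mem_range.2 (Nat.mod_lt _ a0), mem_range.2 (Nat.mod_lt _ h0)⟩))
      (fun x hx y hy e => ?_)
    have e1 := (mem_filter.1 hx).2.trans (mem_filter.1 hy).2.symm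
    obtain ⟨e2, e3⟩ := Prod.ext_iff.1 e1
    obtain ⟨e4, e5⟩ := Prod.ext_iff.1 e
    simp only at e2 e3 e4 e5
    refine Prod.ext ?_ ?_
    · unfold ky at e3
      by_cases c1 : x.1 ∈ U1 <;> by_cases c2 : y.1 ∈ U1 <;> simp only [c1, c2, if_true, if_false,
        Prod.mk.injEq, and_true] at e3
      · refine rk_inj c1 c2 ?_
        rw [← Nat.div_add_mod (rk U1 x.1) a, ← Nat.div_add_mod (rk U1 y.1) a, e3, e4]
      · omega
      · omega
      · exact e3
    · rw [← Nat.div_add_mod x.2 h, ← Nat.div_add_mod y.2 h, e2, e5]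
  rwa [card_product, card_range, card_range] at s1

lemma allKeys {n h a : ℕ} (U1 U2 : Finset ℕ) (h0 : 0 < h) (a0 : 0 < a) :
    ((hc n h a U1 U2).image (fun x : ℕ × ℕ => (x.2 / h, ky a U1 x.1))).card ≤
      (n / h + 1) * (a + h) := by
  have s1 : (hc n h a U1 U2).image (fun x : ℕ × ℕ => (x.2 / h, ky a U1 x.1)) ⊆
      (range (n / h + 1)).biUnion (fun J => ((hc n h a U1 U2).filter (fun x => x.2 / h = J)).image
        (fun x : ℕ × ℕ => (x.2 / h, ky a U1 x.1))) := by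
    intro g hg
    obtain ⟨x, hx, rfl⟩ := mem_image.1 hg
    have hx4 := mem_cells.1 (mem_filter.1 (mem_filter.1 hx).1).1
    refine mem_biUnion.2 ⟨x.2 / h, mem_range.2 (Nat.lt_succ_of_le (Nat.div_le_div_right
      (by omega))), mem_image.2 ⟨x, mem_filter.2 ⟨hx, rfl⟩, rfl⟩⟩
  refine (card_le_card s1).trans (card_biUnion_le.trans ?_)
  refine (sum_le_card_nsmul _ _ (a + h) fun J _ => blockKeys U1 U2 h0 a0 J).trans ?_
  rw [card_range, smul_eq_mul]

end Irr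

theorem irr (hh : HandS) : IrrS := by
  intro V _ n h k K R z a g β Sh D r ρ b U1 U2 ctr hP h0 hm h1 hU
  have hK : 10000 ≤ K := by have := hP.hk; have := hP.hK; omega
  have hK0 : 0 < K := by omega
  have hh0 : 0 < h := lt_of_lt_of_le (by positivity) hP.hh
  have hn0 : 0 < n := lt_of_lt_of_le (by positivity) hP.h1
  have ha := hm.ha
  have a0 : 0 < a := by rw [ha]; positivity
  have R0 : 0 < R := by rw [hm.hR]; positivity
  obtain ⟨v0, -⟩ : Sh.Nonempty := card_pos.1 (lt_of_lt_of_le (by positivity) h0.many)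
  have hNt : K ^ 21 * h ≤ ∑ u ∈ Sh, r u := by
    refine h0.many.trans ?_
    rw [card_eq_sum_ones]
    exact sum_le_sum fun u hu => (hm.r1 u hu).1
  have hma : ∀ J, kJ U1 h J / a * K ^ 6 ≤ U1.card := fun J => by
    rw [← ha]
    exact (Nat.div_mul_le_self _ _).trans (card_le_card (filter_subset _ _))
  have hUn : U1.card ≤ n := by simpa using card_le_card hU.s1
  have hUz : U1.card * n ≤ 6 * n + 2 * (z * ∑ u ∈ Sh, r u) := by
    refine hU.c1.trans (Nat.add_le_add_left (Nat.mul_le_mul_left _ ?_) _)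
    rw [hU.e1]
    exact Nat.div_le_of_le_mul (Nat.mul_le_mul_right _ (by omega))
  have hcc : ∀ J, ((range (kJ U1 h J / a)).image (ctr J)).card ≤ kJ U1 h J / a := fun J =>
    card_image_le.trans (card_range _).le
  obtain ⟨tl, hd, q1, q2, q3⟩ := hh (ℕ × ℕ) (ℕ × ℕ × ℕ) V (hc n h a U1 U2) (fun x => x.2 / h)
    (fun x => (x.2 / h, ky a U1 x.1))
    (fun J => Sh.filter (fun u => ρ u = J % R) \ (range (kJ U1 h J / a)).image (ctr J))
    (fun u J => (D.filter (fun p => p.1 = u ∧ ρ p.2 = J % R)).image Prod.snd \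
      (range (kJ U1 h J / a)).image (ctr J))
    (a + h) (a * h) ((n / h + 1) * (a + h)) (n / (128 * K ^ 11 * h)) v0
    (fun x _ y _ e => (Prod.ext_iff.1 e).1) (Irr.blockKeys U1 U2 hh0 a0)
    (Irr.keyCells _ U1 hh0 a0) (Irr.allKeys U1 U2 hh0 a0)
    (fun x _ => by
      have t := (h1.t3 (x.2 / h % R) (Nat.mod_lt _ R0)).1
      have t' : ∑ u ∈ Sh.filter (fun u => ρ u = x.2 / h % R), r u ≤
          32 * K ^ 6 * (Sh.filter (fun u => ρ u = x.2 / h % R)).card := by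
        rw [mul_comm, ← smul_eq_mul]
        exact sum_le_card_nsmul _ _ _ fun u hu => (hm.r1 u (mem_filter.1 hu).1).2
      have hz : z * (16 * K ^ 5) ≤ n := by rw [hm.hz]; exact Nat.div_mul_le_self _ _
      have hC := Irr.num0 hK hh0 hn0 hNt hm.hR (t.trans (Nat.mul_le_mul_left _ t'))
        ((Nat.mul_le_mul_right n (hma (x.2 / h))).trans hUz) hz
        ((card_le_card_sdiff_add_card (t := (range (kJ U1 h (x.2 / h) / a)).image
          (ctr (x.2 / h)))).trans (Nat.add_le_add_left (hcc _) _))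
      have := Irr.num1 hK hP.hh hP.h1 hC rfl
      rw [← ha] at this
      exact this)
    (fun x _ u hu => by
      have hu1 : u ∈ Sh := (mem_filter.1 (mem_sdiff.1 hu).1).1
      have t := (h1.t4 u hu1 (x.2 / h % R) (Nat.mod_lt _ R0)).1
      have e : ((D.filter (fun p => p.1 = u ∧ ρ p.2 = x.2 / h % R)).image Prod.snd).card =
          (D.filter (fun p => p.1 = u ∧ ρ p.2 = x.2 / h % R)).card :=
        card_image_of_injOn fun p hp p' hp' e =>
          Prod.ext ((mem_filter.1 hp).2.1.trans (mem_filter.1 hp').2.1.symm) e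
      rw [← e] at t
      have := Irr.num2 hK hP.hh hP.h1 hm.hR (h0.o1 u hu1).1 t
        ((card_le_card_sdiff_add_card (t := (range (kJ U1 h (x.2 / h) / a)).image
          (ctr (x.2 / h)))).trans (Nat.add_le_add_left (hcc _) _))
        ((hma (x.2 / h)).trans hUn) rfl
      rw [← ha] at this
      exact this)
  refine ⟨fun x => (tl x, hd x), fun x hx => ?_, fun x hx y hy e => ?_, fun x hx y hy e => ?_⟩
  · obtain ⟨c1, c2⟩ := q1 x hx
    obtain ⟨c3, c4⟩ := mem_sdiff.1 c1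
    obtain ⟨c5, c6⟩ := mem_sdiff.1 c2
    obtain ⟨p, hp, e⟩ := mem_image.1 c5
    obtain ⟨p1, p2, p3⟩ := mem_filter.1 hp
    refine ⟨?_, (mem_filter.1 c3).2, e ▸ p3, fun i hi => ⟨fun e' => c4 ?_, fun e' => c6 ?_⟩⟩
    · rw [← p2, ← e]
      exact p1
    · exact mem_image.2 ⟨i, mem_range.2 hi, e'⟩
    · exact mem_image.2 ⟨i, mem_range.2 hi, e'⟩
  · exact q2 x hx y hy (Prod.ext_iff.1 e).1 (Prod.ext_iff.1 e).2
  · obtain ⟨c1, c2, c3⟩ := q3 x hx y hy (by simp only [e])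
    refine ⟨Iff.trans ?_ c1, c2, c3⟩
    simp only [e, Prod.mk.injEq, true_and]

end Pool.Agent.MP_f65396_co.h15n
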