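import Pool.Agent.MP_f65396_co.h15n.SpecA

/-! Components of a set of edges and equal colour classes. -/

set_option autoImplicit false

namespace Pool.Agent.MP_f65396_co.h15n

open Finset

theorem kempe : KempeS := by
  intro α β _ _ F en
  induction F using Finset.induction_on with
  | empty => exact fun _ => ⟨fun _ => 0, by simp, by simp⟩
  | insert e F he ih =>
    intro h2
    obtain ⟨cp, h3, h4⟩ := ih fun x hx => h2 x (mem_insert_of_mem hx)
    let M : Finset ℕ := (F.filter fun x => ¬ Disjoint (en e) (en x)).image cp
    let N : ℕ := F.sup cp + 1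
    have hN : ∀ x ∈ F, cp x ≠ N := fun x hx => (Nat.lt_succ_of_le (le_sup (f := cp) hx)).ne
    have hne : ∀ x ∈ F, x ≠ e := fun x hx k => he (k ▸ hx)
    refine ⟨fun x => if x = e ∨ cp x ∈ M then N else cp x, fun x hx x' hx' hd => ?_, fun i => ?_⟩
    · rcases mem_insert.1 hx with q | q <;> rcases mem_insert.1 hx' with q' | q'
      · rw [q, q']
      · have : cp x' ∈ M := mem_image_of_mem _ (mem_filter.2 ⟨q', q ▸ hd⟩)
        simp [this, q]
      · have : cp x ∈ M := mem_image_of_mem _ (mem_filter.2 ⟨q, fun k => hd (q' ▸ k.symm)⟩)
        simp [this, q']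
      · simp [hne x q, hne x' q', h3 x q x' q' hd]
    · by_cases hi : i = N
      · subst hi
        have e1 : (insert e F).filter (fun x => (if x = e ∨ cp x ∈ M then N else cp x) = N) =
            insert e (F.filter fun x => cp x ∈ M) := by
          ext x
          simp only [mem_filter, mem_insert]
          constructor
          · rintro ⟨rfl | hx, k⟩
            · exact Or.inl rfl
            · split_ifs at k with q
              · exact q.imp id fun q => ⟨hx, q⟩
              · exact absurd k (hN x hx)
          · rintro (rfl | ⟨hx, k⟩)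
            · simp
            · simp [hx, k]
        rw [e1, card_insert_of_notMem fun k => he (mem_filter.1 k).1,
          ← sum_card_fiberwise_eq_card_filter]
        have e2 : (insert e (F.filter fun x => cp x ∈ M)).biUnion en ⊆
            en e ∪ M.biUnion fun m => (F.filter fun x => cp x = m).biUnion en \ en e := by
          intro v hv
          by_cases q : v ∈ en e
          · exact mem_union_left _ q
          obtain ⟨x, hx, hw⟩ := mem_biUnion.1 hv
          rcases mem_insert.1 hx with r | r
          · exact absurd (r ▸ hw) q
          · rw [mem_filter] at r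
            exact mem_union_right _ (mem_biUnion.2 ⟨_, r.2, mem_sdiff.2
              ⟨mem_biUnion.2 ⟨x, mem_filter.2 ⟨r.1, rfl⟩, hw⟩, q⟩⟩)
        have e3 : ∑ m ∈ M, ((F.filter fun x => cp x = m).biUnion en \ en e).card ≤
            ∑ m ∈ M, (F.filter fun x => cp x = m).card := by
          refine sum_le_sum fun m hm => ?_
          obtain ⟨x, hx, rfl⟩ := mem_image.1 hm
          rw [mem_filter] at hx
          obtain ⟨v, v1, v2⟩ := not_disjoint_iff.1 hx.2
          have := card_lt_card (s := (F.filter fun y => cp y = cp x).biUnion en \ en e)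
            (t := (F.filter fun y => cp y = cp x).biUnion en) ⟨sdiff_subset, fun k =>
              (mem_sdiff.1 (k (mem_biUnion.2 ⟨x, mem_filter.2 ⟨hx.1, rfl⟩, v2⟩))).2 v1⟩
          have := h4 (cp x)
          omega
        have e4 := (card_le_card e2).trans (card_union_le _ _)
        have e5 := card_biUnion_le.trans e3
        have := h2 e (mem_insert_self _ _)
        omega
      · by_cases hm : i ∈ M
        · rw [filter_false_of_mem fun x _ k => ?_]
          · simp
          · beta_reduce at k
            split_ifs at k with q
            · exact hi k.symm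
            · exact q (Or.inr (k ▸ hm))
        · have e1 : (insert e F).filter (fun x => (if x = e ∨ cp x ∈ M then N else cp x) = i) =
              F.filter fun x => cp x = i := by
            ext x
            simp only [mem_filter, mem_insert]
            constructor
            · rintro ⟨hx, k⟩
              split_ifs at k with q
              · exact absurd k.symm hi
              · exact ⟨hx.resolve_left fun r => q (Or.inl r), k⟩
            · rintro ⟨hx, k⟩
              exact ⟨Or.inr hx, by rw [if_neg (by rw [k]; simp [hne x hx, hm]), k]⟩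
          rw [e1]
          exact h4 i

namespace Kempe

variable {α β : Type} [DecidableEq α] [DecidableEq β]

theorem step (hk : KempeS) {E : Finset β} {en : β → Finset α} {k a b : ℕ} {c : β → ℕ}
    (h2 : ∀ e ∈ E, (en e).card = 2) (hc : Prp E en k c) (ha : a < k) (hb : b < k)
    (hab : (E.filter fun e => c e = b).card < (E.filter fun e => c e = a).card) :
    ∃ c', Prp E en k c' ∧
      (E.filter fun e => c' e = a).card + 1 = (E.filter fun e => c e = a).card ∧
      (E.filter fun e => c' e = b).card = (E.filter fun e => c e = b).card + 1 ∧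
      ∀ t, t ≠ a → t ≠ b → (E.filter fun e => c' e = t) = E.filter fun e => c e = t := by
  have ne : a ≠ b := fun q => by rw [q] at hab; omega
  let F := E.filter fun e => c e = a ∨ c e = b
  obtain ⟨cp, h3, h4⟩ := hk α β F en fun e he => h2 e (mem_filter.1 he).1
  obtain ⟨i, -, hi⟩ : ∃ i ∈ E.image cp, ((E.filter fun e => c e = b).filter fun e => cp e = i).card <
      ((E.filter fun e => c e = a).filter fun e => cp e = i).card := by
    refine exists_lt_of_sum_lt ?_
    rwa [← card_eq_sum_card_fiberwise fun e he => mem_coe.2 (mem_image_of_mem _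
      (mem_filter.1 (mem_coe.1 he)).1), ← card_eq_sum_card_fiberwise fun e he => mem_coe.2
        (mem_image_of_mem _ (mem_filter.1 (mem_coe.1 he)).1)]
  set A := (E.filter fun e => c e = a).filter fun e => cp e = i with hA
  set B := (E.filter fun e => c e = b).filter fun e => cp e = i with hB
  have e1 : F.filter (fun e => cp e = i) = A ∪ B := by
    ext e
    simp only [F, A, B, mem_filter, mem_union]
    tauto
  have e2 : (A.biUnion en).card = 2 * A.card := by
    rw [card_biUnion, sum_congr rfl fun e he => h2 e (mem_filter.1 (mem_filter.1 he).1).1,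
      sum_const, smul_eq_mul, mul_comm]
    intro x hx y hy hxy
    have hx := mem_filter.1 (mem_filter.1 (mem_coe.1 hx)).1
    have hy := mem_filter.1 (mem_filter.1 (mem_coe.1 hy)).1
    exact hc.dj x hx.1 y hy.1 hxy (hx.2.trans hy.2.symm)
  have e3 := h4 i
  rw [e1] at e3
  have e4 := card_le_card (biUnion_subset_biUnion_of_subset_left en
    (subset_union_left (s₁ := A) (s₂ := B)))
  have e5 := card_union_le A B
  let c' : β → ℕ := fun e => if cp e = i then Equiv.swap a b (c e) else c e
  have sp : ∀ (d : β → ℕ) (t : ℕ), ((E.filter fun e => d e = t).filter fun e => cp e = i).card +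
      ((E.filter fun e => d e = t).filter fun e => ¬ cp e = i).card =
        (E.filter fun e => d e = t).card := fun d t => card_filter_add_card_filter_not _
  have s1 : ∀ t, ((E.filter fun e => c' e = t).filter fun e => ¬ cp e = i) =
      (E.filter fun e => c e = t).filter fun e => ¬ cp e = i := fun t => by
    ext e
    simp only [mem_filter, c']
    exact and_congr_left fun q => by rw [if_neg q]
  have s2 : ∀ t, ((E.filter fun e => c' e = t).filter fun e => cp e = i) =
      (E.filter fun e => c e = Equiv.swap a b t).filter fun e => cp e = i := fun t => by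
    ext e
    simp only [mem_filter, c']
    exact and_congr_left fun q => by rw [if_pos q, Equiv.swap_apply_eq_iff]
  have key : ∀ e ∈ E, ∀ e' ∈ E, e ≠ e' → cp e = i → ¬ cp e' = i →
      Equiv.swap a b (c e) = c e' → Disjoint (en e) (en e') := by
    intro e he e' he' hne q q' r
    by_cases w : c e = a ∨ c e = b
    · have w' : c e' = a ∨ c e' = b := by
        rcases w with w | w <;> rw [w] at r <;> simp at r <;> simp [r]
      by_contra z
      exact q' ((h3 e (mem_filter.2 ⟨he, w⟩) e' (mem_filter.2 ⟨he', w'⟩) z).symm.trans q)
    · rw [Equiv.swap_apply_of_ne_of_ne (fun z => w (Or.inl z)) fun z => w (Or.inr z)] at r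
      exact hc.dj e he e' he' hne r
  refine ⟨c', ⟨fun e he => ?_, fun e he e' he' hne r => ?_⟩, ?_, ?_, fun t ta tb => ?_⟩
  · have := hc.lt e he
    simp only [c', Equiv.swap_apply_def]
    split_ifs <;> assumption
  · simp only [c'] at r
    split_ifs at r with q q' q'
    · exact hc.dj e he e' he' hne ((Equiv.swap a b).injective r)
    · exact key e he e' he' hne q q' r
    · exact (key e' he' e he hne.symm q' q r.symm).symm
    · exact hc.dj e he e' he' hne r
  · rw [← sp c' a, ← sp c a, s1, s2, Equiv.swap_apply_left, ← hA, ← hB]
    omega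
  · rw [← sp c' b, ← sp c b, s1, s2, Equiv.swap_apply_right, ← hA, ← hB]
    omega
  · refine filter_congr fun e _ => ?_
    simp only [c']
    split_ifs
    · rw [Equiv.swap_apply_eq_iff, Equiv.swap_apply_of_ne_of_ne ta tb]
    · rfl

end Kempe

theorem eqz (hk : KempeS) : EqS := by
  intro α β _ _ E en k y c h2 hc hE
  induction hm : ∑ t ∈ range k, ((E.filter fun e => c e = t).card - y)
    using Nat.strong_induction_on generalizing c with
  | _ m ih =>
    have hs : ∑ t ∈ range k, (E.filter fun e => c e = t).card = ∑ t ∈ range k, y := by
      rw [← card_eq_sum_card_fiberwise fun e he => mem_coe.2 (mem_range.2 (hc.lt e he)), hE,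
        sum_const, card_range, smul_eq_mul]
    by_cases h : ∀ t ∈ range k, (E.filter fun e => c e = t).card ≤ y
    · exact ⟨c, hc, fun t ht => (sum_eq_sum_iff_of_le h).1 hs t (mem_range.2 ht)⟩
    push Not at h
    obtain ⟨a, ha, ha'⟩ := h
    obtain ⟨b, hb, hb'⟩ : ∃ b ∈ range k, (E.filter fun e => c e = b).card < y := by
      by_contra q
      push Not at q
      exact (sum_lt_sum q ⟨a, ha, ha'⟩).ne hs.symm
    obtain ⟨c', h3, h4, h5, h6⟩ := Kempe.step hk h2 hc (mem_range.1 ha) (mem_range.1 hb)
      (hb'.trans ha')
    refine ih _ (hm ▸ sum_lt_sum (fun t _ => ?_) ⟨a, ha, by omega⟩) c' h3 rfl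
    by_cases ta : t = a
    · subst ta; omega
    by_cases tb : t = b
    · subst tb; omega
    rw [h6 t ta tb]

end Pool.Agent.MP_f65396_co.h15n
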