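import Pool.Agent.MP_f65396_co.h15n.LabelA

/-! Random classes and buckets exist. -/

set_option autoImplicit false

namespace Pool.Agent.MP_f65396_co.h15n

open Finset

namespace Label

theorem numA {K h : ℕ} (hK : 10000 ≤ K) :
    40 * (4 * K ^ 2) * (4 * K ^ 2 * (32 * K ^ 6 * K ^ 5)) * h ≤ K ^ 21 * h ∧
      40 * (4 * K ^ 2) * (4 * K ^ 2) * h * (32 * K ^ 6) ≤ K ^ 21 * h := by
  have h1 : 20480 ≤ K ^ 6 := le_trans (by norm_num) (Nat.pow_le_pow_left hK 6)
  have h2 : 20480 ≤ K ^ 11 := le_trans (by norm_num) (Nat.pow_le_pow_left hK 11)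
  constructor
  · calc _ = 20480 * (K ^ 15 * h) := by ring
      _ ≤ K ^ 6 * (K ^ 15 * h) := Nat.mul_le_mul_right _ h1
      _ = _ := by ring
  · calc _ = 20480 * (K ^ 10 * h) := by ring
      _ ≤ K ^ 11 * (K ^ 10 * h) := Nat.mul_le_mul_right _ h2
      _ = _ := by ring

theorem numB {K h n d : ℕ} (hK : 10000 ≤ K) (hh : K ^ 60 ≤ h) (h1 : h ^ 4 ≤ n)
    (h2 : n ≤ 4 * K ^ 3 * d) : 40 * (4 * K ^ 2) * (4 * K ^ 2) * h ≤ d := by
  have h3 : 2560 ≤ K ^ 53 := le_trans (by norm_num) (Nat.pow_le_pow_left hK 53)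
  have h4 : h ≤ h ^ 3 := Nat.le_self_pow (by norm_num) h
  refine Nat.le_of_mul_le_mul_left (c := 4 * K ^ 3) ?_ (by positivity)
  calc _ = 2560 * K ^ 7 * h := by ring
    _ ≤ K ^ 53 * K ^ 7 * h := by gcongr
    _ = K ^ 60 * h := by ring
    _ ≤ h ^ 3 * h := Nat.mul_le_mul_right _ (hh.trans h4)
    _ = h ^ 4 := by ring
    _ ≤ _ := h1.trans h2

theorem numC {K n w : ℕ} (hK : 10000 ≤ K) (hn : 1 ≤ n) (hw : w ≤ 9 * n ^ 2) :
    2 * (2 * (w * (4 * K ^ 2 * (32 * K ^ 6 * K ^ 5)))) ≤ 8 * n ^ 3 * K ^ 14 := by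
  calc _ ≤ 2 * (2 * (9 * n ^ 2 * (4 * K ^ 2 * (32 * K ^ 6 * K ^ 5)))) := by gcongr
    _ = 8 * (1 * 576) * (n ^ 2 * K ^ 13) := by ring
    _ ≤ 8 * (n * K) * (n ^ 2 * K ^ 13) := by gcongr; omega
    _ = _ := by ring

end Label

open Label

theorem label (hc : ChernS) : LabelS := by
  classical
  intro V _ n h k K R z a g β Sh D r hP hM hm
  have hK : 10000 ≤ K := by have := hP.hk; have := hP.hK; omega
  have hK0 : 0 < K := by omega
  have hh : 0 < h := lt_of_lt_of_le (by positivity) hP.hh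
  have hn : 0 < n := lt_of_lt_of_le (by positivity) hP.h1
  have hR : 0 < R := by rw [hm.hR]; positivity
  have hg : 0 < g := by rw [hm.hg]; positivity
  have hβ : 0 < β := by rw [hm.hβ]; positivity
  have hRr : (1 : ℝ) ≤ R := by exact_mod_cast hR
  have hR0 : (0 : ℝ) < R := by linarith
  have hβ0 : (0 : ℝ) < β := by exact_mod_cast hβ
  have hn0 : (0 : ℝ) < n := by exact_mod_cast hn
  obtain ⟨I, hI⟩ : ∃ I, I = D.image Prod.fst ∪ D.image Prod.snd := ⟨_, rfl⟩
  have hD : ∀ p ∈ D, p.1 ∈ I ∧ p.2 ∈ I := fun p hp => by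
    rw [hI]
    exact ⟨mem_union_left _ (mem_image_of_mem _ hp), mem_union_right _ (mem_image_of_mem _ hp)⟩
  have hS : Sh ⊆ I := fun u hu => by
    have h1 := (hM.o1 u hu).1
    have h2 : 0 < dout D u := Nat.pos_of_ne_zero fun h0 => by rw [h0] at h1; omega
    obtain ⟨p, hp⟩ := card_pos.1 h2
    rw [mem_filter] at hp
    exact hp.2 ▸ (hD p hp.1).1
  have hIc : I.card ≤ 2 * n ^ 2 := by
    have h1 : I.card ≤ D.card + D.card :=
      hI ▸ (card_union_le _ _).trans (Nat.add_le_add card_image_le card_image_le)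
    have h2 := hM.tot
    have h3 : n * (n + 1) ≤ 2 * n ^ 2 := by nlinarith
    omega
  obtain ⟨L, hL⟩ : ∃ L, L = D.filter (fun p => p.1 ∉ Sh) := ⟨_, rfl⟩
  have hLd : ∀ v, K * dtot L v ≤ n := fun v => by
    by_cases hv : v ∈ Sh
    · have : dtot L v = 0 := by
        rw [dtot, card_eq_zero, filter_eq_empty_iff]
        intro p hp h1
        rw [hL, mem_filter] at hp
        rcases h1 with h1 | h1
        · exact hp.2 (h1 ▸ hv)
        · exact hp.2 (hM.hd p hp.1 (h1 ▸ hv))
      simp [this]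
    · refine le_trans (Nat.mul_le_mul_left _ ?_) (hM.lw v hv)
      exact card_le_card (filter_subset_filter _ (hL ▸ filter_subset _ _))
  let W0 : V → V → ℝ := fun w v => if (v, w) ∈ D then 1 / r v else 0
  let W2 : V → V → ℝ := fun u v => if (u, v) ∈ D then 1 else 0
  let W4 : V → V → ℝ := fun w v => if (v, w) ∈ D ∧ v ∈ Sh then 1 else 0
  let W3 : V → ℝ := fun v => K * dtot L v / n
  let W5 : V → ℝ := fun v => if v ∈ Sh then r v / (32 * K ^ 6) else 0
  obtain ⟨Ws, hWs⟩ : ∃ Ws : Finset (V → ℝ),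
    Ws = I.image W0 ∪ I.image W2 ∪ I.image W4 ∪ {fun _ => 1, W3, W5} := ⟨_, rfl⟩
  have hWc : Ws.card ≤ 9 * n ^ 2 := by
    have h1 : Ws.card ≤ I.card + I.card + I.card + 3 := by
      rw [hWs]
      refine (card_union_le _ _).trans (Nat.add_le_add ((card_union_le _ _).trans
        (Nat.add_le_add ((card_union_le _ _).trans (Nat.add_le_add card_image_le card_image_le))
          card_image_le)) card_le_three)
    have h2 : 0 < n ^ 2 := by positivity
    omega
  have hl1 : (1 / (40 * R) : ℝ) ≤ 1 := by rw [div_le_one (by positivity)]; linarith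
  obtain ⟨ρ, b, hlt, hA, hB⟩ := wrap hc hS (r := r) hR hβ hg
    (fun u hu => hm.hβ ▸ Nat.mul_le_mul_right _ (hm.r1 u hu).2) Ws (l := 1 / (40 * R)) (d := h)
    (fun W hW v _ => by
      simp only [hWs, mem_union, mem_image, mem_insert, mem_singleton] at hW
      rcases hW with ((⟨w, -, rfl⟩ | ⟨w, -, rfl⟩) | ⟨w, -, rfl⟩) | rfl | rfl | rfl
      · simp only [W0]
        split_ifs
        · exact ⟨by positivity, by rw [one_div]; exact Nat.cast_inv_le_one _⟩
        · exact ⟨le_rfl, zero_le_one⟩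
      · simp only [W2]
        split_ifs <;> simp
      · simp only [W4]
        split_ifs <;> simp
      · simp
      · exact ⟨by positivity, (div_le_one hn0).2 (by exact_mod_cast hLd v)⟩
      · simp only [W5]
        split_ifs with hv
        · exact ⟨by positivity,
            (div_le_one (by positivity)).2 (by exact_mod_cast (hm.r1 v hv).2)⟩
        · exact ⟨le_rfl, zero_le_one⟩) (by positivity) hl1 (by
      have e : (1 / (40 * R) * h : ℝ) = h / (160 * K ^ 2) := by
        rw [hm.hR]; push_cast; field_simp; norm_num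
      rw [e]
      refine lt_of_le_of_lt ?_ hP.ex
      rw [hm.hR, hm.hβ, hm.hg]
      exact_mod_cast numC hK hn hWc)
  have hNt : K ^ 21 * h ≤ ∑ u ∈ Sh, r u :=
    hM.many.trans (by simpa using sum_le_sum fun u hu => (hm.r1 u hu).1)
  have hA1 := numA (h := h) hK
  rw [← hm.hR, ← hm.hg, ← hm.hβ] at hA1
  refine ⟨ρ, b, hlt, fun w e c => ?_, fun e he c hcβ => ?_, fun e he => ?_, fun u hu e he => ?_,
    fun e => ?_, fun w e => ?_⟩
  · by_cases h0 : w ∈ I ∧ e < R ∧ c < β
    · have h1 := (abs_le.1 (hA (W0 w) (by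
        simp only [hWs, mem_union]
        exact Or.inl (Or.inl (Or.inl (mem_image_of_mem _ h0.1)))) e h0.2.1 c h0.2.2)).2
      have e1 : ∑ v ∈ Sh.filter (fun v => ρ v = e ∧ tok g β r b v c), W0 w v =
          ∑ u ∈ Sh.filter (fun u => (u, w) ∈ D ∧ ρ u = e ∧ tok g β r b u c), (1 / r u : ℝ) := by
        simp only [W0]
        rw [← sum_filter, filter_filter]
        exact sum_congr (filter_congr fun v _ => and_comm) fun _ _ => rfl
      have e2 : ∑ v ∈ Sh, W0 w v * r v = (D.filter (fun p => p.2 = w ∧ p.1 ∈ Sh)).card := by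
        rw [card_in (I := Sh) w (· ∈ Sh) (fun _ _ h => h), card_filter]
        push_cast
        refine sum_congr rfl fun v hv => ?_
        have : (r v : ℝ) ≠ 0 := by have := (hm.r1 v hv).1; positivity
        simp only [W0, hv, and_true]
        split_ifs
        · field_simp
        · simp
      rw [e1, e2] at h1
      rw [mul_div_assoc]
      linarith
    · rw [filter_eq_empty_iff.2, sum_empty]
      · positivity
      · rintro u - ⟨h1, h2, j, -, h3⟩
        exact h0 ⟨(hD _ h1).2, h2 ▸ (hlt u).1, h3 ▸ Nat.mod_lt _ hβ⟩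
  · have h1 := hA (fun _ => 1) (by simp [hWs]) e he c hcβ
    simp only [sum_const, nsmul_eq_mul, mul_one, one_mul] at h1
    have h2 := (two (by positivity) hR0 h1 (by exact_mod_cast hA1.1.trans hNt)).1
    have h3 : 1 ≤ 20 * R := by omega
    rw [← Nat.cast_le (α := ℝ)]
    push_cast [Nat.cast_sub h3]
    linarith
  · have h1 := hB W5 (by simp [hWs]) e he
    have e1 : ∑ v ∈ I.filter (fun v => ρ v = e), W5 v =
        (∑ u ∈ Sh.filter (fun u => ρ u = e), (r u : ℝ)) / (32 * K ^ 6) := by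
      simp only [W5]
      rw [← sum_filter, sum_div]
      refine sum_congr (ext fun v => ?_) fun _ _ => rfl
      have := @hS v
      simp only [mem_filter]
      tauto
    have e2 : ∑ v ∈ I, W5 v = (∑ u ∈ Sh, (r u : ℝ)) / (32 * K ^ 6) := by
      simp only [W5]
      rw [← sum_filter, sum_div, filter_mem_eq_inter, inter_eq_right.2 hS]
    have h0 : (0 : ℝ) < 32 * K ^ 6 := by positivity
    rw [e1, e2] at h1
    have h2 := two hR0 hR0 h1 ((le_div_iff₀ h0).2 (by exact_mod_cast hA1.2.trans hNt))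
    simp only [← mul_div_assoc, div_le_div_iff_of_pos_right h0] at h2
    have h3 : 1 ≤ 20 * R := by omega
    rw [← Nat.cast_le (α := ℝ), ← Nat.cast_le (α := ℝ)]
    push_cast [Nat.cast_sub h3]
    constructor <;> linarith [h2.1, h2.2]
  · have h1 := hB (W2 u) (by
      simp only [hWs, mem_union]
      exact Or.inl (Or.inl (Or.inr (mem_image_of_mem _ (hS hu))))) e he
    have e1 : ∑ v ∈ I.filter (fun v => ρ v = e), W2 u v =
        (D.filter (fun p => p.1 = u ∧ ρ p.2 = e)).card := by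
      rw [card_out (I := I) u (fun v => ρ v = e) (fun p hp => (hD p hp).2)]
      simp only [W2, sum_boole, filter_filter, and_comm]
    have e2 : ∑ v ∈ I, W2 u v = dout D u := by
      have := card_out (I := I) u (fun _ => True) (fun p hp => (hD p hp).2)
      simp only [and_true] at this
      simp only [W2, sum_boole, dout, this]
    rw [e1, e2] at h1
    have h3 := numB hK hP.hh hP.h1 (hM.o1 u hu).1
    rw [← hm.hR] at h3
    obtain ⟨h4, h5⟩ := two hR0 hR0 h1 (by exact_mod_cast h3)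
    have h6 : (0 : ℝ) ≤ dout D u := by positivity
    have h7 := mul_le_mul_of_nonneg_right hRr h6
    rw [← Nat.cast_le (α := ℝ), ← Nat.cast_le (α := ℝ)]
    push_cast
    constructor
    · refine le_of_mul_le_mul_left ?_ (show (0 : ℝ) < 10 * R by positivity)
      linarith
    · refine le_of_mul_le_mul_left ?_ (show (0 : ℝ) < 20 * R by positivity)
      linarith
  · have e0 : D.filter (fun p => p.1 ∉ Sh ∧ (ρ p.1 = e ∨ ρ p.2 = e)) =
        L.filter (fun p => ρ p.1 = e ∨ ρ p.2 = e) := by rw [hL, filter_filter]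
    rw [e0, ← hL]
    by_cases he : e < R
    · have h1 := up hR0 (sum_nonneg fun v _ => by positivity) hl1 (hB W3 (by simp [hWs]) e he)
      simp only [W3, ← sum_div, ← mul_sum] at h1
      have h2 : ((L.filter (fun p => ρ p.1 = e ∨ ρ p.2 = e)).card : ℝ) ≤
          ∑ v ∈ I.filter (fun v => ρ v = e), (dtot L v : ℝ) := by
        exact_mod_cast le_sum_dtot L I (fun v => ρ v = e)
          (fun p hp => hD p (filter_subset _ _ (hL ▸ hp)))
      have h3 : ∑ v ∈ I, (dtot L v : ℝ) ≤ 2 * L.card := by exact_mod_cast sum_dtot L I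
      have h4 := mul_le_mul_of_nonneg_right h1 hn0.le
      have e1 : ∀ x y : ℝ, x * (y / n) * n = x * y := fun x y => by field_simp
      rw [add_mul, e1, e1] at h4
      have h5 := mul_le_mul_of_nonneg_left h2 (show (0 : ℝ) ≤ R * K by positivity)
      have h6 := mul_le_mul_of_nonneg_left h3 (show (0 : ℝ) ≤ 2 * K by positivity)
      rw [← Nat.cast_le (α := ℝ)]
      push_cast
      linarith
    · rw [filter_eq_empty_iff.2, card_empty, mul_zero]
      · exact Nat.zero_le _
      · rintro p - (h1 | h1)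
        · exact he (h1 ▸ (hlt _).1)
        · exact he (h1 ▸ (hlt _).1)
  · by_cases h0 : w ∈ I ∧ e < R
    · have h1 := up hR0 (sum_nonneg fun v _ => by simp only [W4]; positivity) hl1 (hB (W4 w) (by
        simp only [hWs, mem_union]
        exact Or.inl (Or.inr (mem_image_of_mem _ h0.1))) e h0.2)
      have e1 : ∑ v ∈ I.filter (fun v => ρ v = e), W4 w v =
          (D.filter (fun p => p.2 = w ∧ p.1 ∈ Sh ∧ ρ p.1 = e)).card := by
        rw [card_in (I := I) w (fun v => v ∈ Sh ∧ ρ v = e) (fun p hp _ => (hD p hp).1)]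
        simp only [W4, sum_boole, filter_filter]
        exact congrArg _ (congrArg _ (filter_congr fun v _ => by tauto))
      have e2 : ∑ v ∈ I, W4 w v = (D.filter (fun p => p.2 = w ∧ p.1 ∈ Sh)).card := by
        rw [card_in (I := I) w (fun v => v ∈ Sh) (fun p hp _ => (hD p hp).1)]
        simp only [W4, sum_boole]
      rw [e1, e2] at h1
      have h2 : (D.filter (fun p => p.2 = w ∧ p.1 ∈ Sh)).card ≤ n := by
        refine Nat.le_of_mul_le_mul_left (c := 4 * k) ((hM.i1 w).trans ?_) (by have := hP.hk; omega)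
        exact Nat.mul_le_mul_right _ (by omega)
      have h3 : R * (D.filter (fun p => p.2 = w ∧ p.1 ∈ Sh ∧ ρ p.1 = e)).card ≤
          2 * (D.filter (fun p => p.2 = w ∧ p.1 ∈ Sh)).card + R * h := by exact_mod_cast h1
      omega
    · rw [filter_eq_empty_iff.2, card_empty, mul_zero]
      · exact Nat.zero_le _
      · rintro p hp ⟨h1, -, h2⟩
        exact h0 ⟨h1 ▸ (hD p hp).2, h2 ▸ (hlt _).1⟩

end Pool.Agent.MP_f65396_co.h15n
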