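import Pool.Agent.MP_f65396_co.h15n.SpecB
import Mathlib.Algebra.BigOperators.Field

/-! Random classes and buckets: the general tests. -/

set_option autoImplicit false

namespace Pool.Agent.MP_f65396_co.h15n.Label

open Finset

theorem cntA {R β e : ℕ} (he : e < R) (Q : ℕ → Prop) [DecidablePred Q] :
    ((range (R * β)).filter (fun x => x % R = e ∧ Q (x / R % β))).card =
      ((range β).filter Q).card := by
  have hR : 0 < R := by omega
  refine card_nbij' (fun x => x / R) (fun y => e + R * y) ?_ ?_ ?_ ?_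
  · intro x hx
    simp only [coe_filter, mem_range, Set.mem_ofPred_eq] at hx ⊢
    have h1 : x / R < β := Nat.div_lt_of_lt_mul hx.1
    rw [Nat.mod_eq_of_lt h1] at hx
    exact ⟨h1, hx.2.2⟩
  · intro y hy
    simp only [coe_filter, mem_range, Set.mem_ofPred_eq] at hy ⊢
    have h1 := Nat.mul_le_mul_left R (Nat.succ_le_of_lt hy.1)
    rw [Nat.add_mul_mod_self_left, Nat.add_mul_div_left _ _ hR, Nat.mod_eq_of_lt he,
      Nat.div_eq_of_lt he, zero_add, Nat.mod_eq_of_lt hy.1]
    rw [Nat.mul_succ] at h1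
    exact ⟨by omega, rfl, hy.2⟩
  · intro x hx
    simp only [coe_filter, mem_range, Set.mem_ofPred_eq] at hx
    simp only [← hx.2.1]
    exact Nat.mod_add_div x R
  · intro y _
    simp only
    rw [Nat.add_mul_div_left _ _ hR, Nat.div_eq_of_lt he, zero_add]

theorem mod_two {a β : ℕ} (h : a < 2 * β) :
    (a < β ∧ a % β = a) ∨ (β ≤ a ∧ a % β + β = a) := by
  rcases lt_or_ge a β with h1 | h1
  · exact Or.inl ⟨h1, Nat.mod_eq_of_lt h1⟩
  · refine Or.inr ⟨h1, ?_⟩
    rw [Nat.mod_eq_sub_mod h1, Nat.mod_eq_of_lt (by omega)]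
    omega

theorem cntB {β g r c : ℕ} (hg : 0 < g) (hr : r * g ≤ β) (hc : c < β) :
    ((range β).filter (fun y => ∃ j < r, (y + j * g) % β = c)).card = r := by
  have h0 : ∀ j < r, j * g < β := fun j hj =>
    lt_of_lt_of_le (Nat.mul_lt_mul_of_pos_right hj hg) hr
  have e : (range β).filter (fun y => ∃ j < r, (y + j * g) % β = c) =
      (range r).image (fun j => (c + β - j * g) % β) := by
    ext y
    simp only [mem_filter, mem_range, mem_image]
    constructor
    · rintro ⟨hy, j, hj, h⟩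
      refine ⟨j, hj, ?_⟩
      have h1 := h0 j hj
      have h2 := mod_two (a := y + j * g) (β := β) (by omega)
      have h3 := mod_two (a := c + β - j * g) (β := β) (by omega)
      omega
    · rintro ⟨j, hj, h⟩
      have h1 := h0 j hj
      have h3 := mod_two (a := c + β - j * g) (β := β) (by omega)
      have hy : y < β := by omega
      have h2 := mod_two (a := y + j * g) (β := β) (by omega)
      exact ⟨hy, j, hj, by omega⟩
  rw [e, card_image_of_injOn, card_range]
  intro i hi j hj h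
  simp only [coe_range, Set.mem_Iio] at hi hj h
  have h1 := h0 i hi
  have h2 := h0 j hj
  have h3 := mod_two (a := c + β - i * g) (β := β) (by omega)
  have h4 := mod_two (a := c + β - j * g) (β := β) (by omega)
  exact Nat.eq_of_mul_eq_mul_right hg (by omega)

theorem wrap (hc : ChernS) {V : Type} [DecidableEq V] {I Sh : Finset V} (hS : Sh ⊆ I)
    {R β g : ℕ} {r : V → ℕ} (hR : 0 < R) (hβ : 0 < β) (hg : 0 < g) (hr : ∀ u ∈ Sh, r u * g ≤ β)
    (Ws : Finset (V → ℝ)) (hW : ∀ W ∈ Ws, ∀ v ∈ I, 0 ≤ W v ∧ W v ≤ 1) {l d : ℝ} (hl : 0 < l)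
    (hl1 : l ≤ 1) (hex : 2 * ((2 * (Ws.card * (R * β)) : ℕ) : ℝ) < Real.exp (l * d)) :
    ∃ ρ b : V → ℕ, (∀ v, ρ v < R ∧ b v < β) ∧
      (∀ W ∈ Ws, ∀ e < R, ∀ c < β,
        |∑ v ∈ Sh.filter (fun v => ρ v = e ∧ tok g β r b v c), W v -
          (∑ v ∈ Sh, W v * r v) / (R * β)| ≤ l * ((∑ v ∈ Sh, W v * r v) / (R * β)) + d) ∧
      ∀ W ∈ Ws, ∀ e < R, |∑ v ∈ I.filter (fun v => ρ v = e), W v - (∑ v ∈ I, W v) / R| ≤
        l * ((∑ v ∈ I, W v) / R) + d := by
  obtain ⟨ω, -, hω⟩ := hc V (Bool × (V → ℝ) × ℕ × ℕ) I (fun _ => R * β)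
    (univ ×ˢ Ws ×ˢ range R ×ˢ range β)
    (fun t v x => if x % R = t.2.2.1 ∧
      (t.1 = true → v ∈ Sh ∧ ∃ j < r v, (x / R % β + j * g) % β = t.2.2.2) then t.2.1 v else 0)
    l d (fun _ _ => Nat.mul_pos hR hβ) (fun t ht v hv x _ => by
      simp only [mem_product] at ht
      split_ifs
      · exact hW _ ht.2.1 v hv
      · exact ⟨le_rfl, zero_le_one⟩) hl hl1 (by simpa using hex)
  refine ⟨fun v => ω v % R, fun v => ω v / R % β,
    fun v => ⟨Nat.mod_lt _ hR, Nat.mod_lt _ hβ⟩, fun W hW e he c hcβ => ?_, fun W hW e he => ?_⟩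
  · have h := hω (true, W, e, c) (by simp [hW, he, hcβ])
    have e1 : ∑ v ∈ I, (if ω v % R = e ∧
        (v ∈ Sh ∧ ∃ j < r v, (ω v / R % β + j * g) % β = c) then W v else 0) =
        ∑ v ∈ Sh.filter (fun v => ω v % R = e ∧ tok g β r (fun v => ω v / R % β) v c), W v := by
      rw [← sum_filter]
      refine sum_congr (ext fun v => ?_) fun _ _ => rfl
      have := @hS v
      rw [mem_filter, mem_filter, tok]
      tauto
    have e2 : ∑ v ∈ I, (∑ x ∈ range (R * β), if x % R = e ∧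
        (v ∈ Sh ∧ ∃ j < r v, (x / R % β + j * g) % β = c) then W v else 0) /
        ((R * β : ℕ) : ℝ) = (∑ v ∈ Sh, W v * r v) / (R * β) := by
      rw [← sum_div, Nat.cast_mul, ← sum_subset hS]
      · refine congrArg (· / _) (sum_congr rfl fun v hv => ?_)
        rw [← sum_filter, sum_const, nsmul_eq_mul, mul_comm,
          cntA he (fun y => v ∈ Sh ∧ ∃ j < r v, (y + j * g) % β = c)]
        simp only [hv, true_and]
        rw [cntB hg (hr v hv) hcβ]
      · intro v _ hv
        simp [hv]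
    simp only [forall_const] at h
    rwa [e1, e2] at h
  · have h := hω (false, W, e, 0) (by simp [hW, he, hβ])
    have e2 : ∑ v ∈ I, (∑ x ∈ range (R * β), if x % R = e then W v else 0) /
        ((R * β : ℕ) : ℝ) = (∑ v ∈ I, W v) / R := by
      rw [sum_div]
      refine sum_congr rfl fun v _ => ?_
      have h1 := cntA (β := β) he (fun _ => True)
      simp only [and_true, filter_true, card_range] at h1
      have h2 : (β : ℝ) ≠ 0 := by positivity
      rw [← sum_filter, sum_const, nsmul_eq_mul, h1, Nat.cast_mul]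
      field_simp
    simp only [Bool.false_eq_true, false_imp_iff, and_true] at h
    rwa [e2, ← sum_filter] at h

theorem two {X S M R h : ℝ} (hM : 0 < M) (hR : 0 < R)
    (h1 : |X - S / M| ≤ 1 / (40 * R) * (S / M) + h) (h2 : 40 * R * M * h ≤ S) :
    (20 * R - 1) * S ≤ 20 * R * M * X ∧ 20 * R * M * X ≤ (20 * R + 1) * S := by
  obtain ⟨y, rfl⟩ : ∃ y, S = 40 * R * M * y := ⟨S / (40 * R * M), by field_simp⟩
  have e1 : 40 * R * M * y / M = 40 * R * y := by field_simp
  have e2 : 1 / (40 * R) * (40 * R * y) = y := by field_simp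
  rw [e1, e2, abs_le] at h1
  have h3 : 0 < 40 * R * M := by positivity
  have h4 : h ≤ y := le_of_mul_le_mul_left h2 h3
  have h5 : 0 < 20 * R * M := by positivity
  have h6 := mul_le_mul_of_nonneg_left (show 40 * R * y - 2 * y ≤ X by linarith [h1.1]) h5.le
  have h7 := mul_le_mul_of_nonneg_left (show X ≤ 40 * R * y + 2 * y by linarith [h1.2]) h5.le
  constructor <;> nlinarith

theorem up {X S M l h : ℝ} (hM : 0 < M) (hS : 0 ≤ S) (hl : l ≤ 1)
    (h1 : |X - S / M| ≤ l * (S / M) + h) : M * X ≤ 2 * S + M * h := by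
  obtain ⟨y, rfl⟩ : ∃ y, S = M * y := ⟨S / M, by field_simp⟩
  have e1 : M * y / M = y := by field_simp
  rw [e1, abs_le] at h1
  have h2 : 0 ≤ y := nonneg_of_mul_nonneg_right hS hM
  have h3 := mul_le_mul_of_nonneg_right hl h2
  have h4 := mul_le_mul_of_nonneg_left (show X ≤ 2 * y + h by linarith [h1.2]) hM.le
  linarith

theorem card_in {V : Type} [DecidableEq V] {D : Finset (V × V)} {I : Finset V} (w : V)
    (P : V → Prop) [DecidablePred P] (h : ∀ p ∈ D, P p.1 → p.1 ∈ I) :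
    (D.filter (fun p => p.2 = w ∧ P p.1)).card = (I.filter (fun v => (v, w) ∈ D ∧ P v)).card := by
  refine card_nbij' Prod.fst (fun v => (v, w)) ?_ ?_ ?_ ?_
  · rintro ⟨a, b⟩ hp
    simp only [coe_filter, Set.mem_ofPred_eq] at hp ⊢
    exact ⟨h _ hp.1 hp.2.2, hp.2.1 ▸ hp.1, hp.2.2⟩
  · intro v hv
    simp only [coe_filter, Set.mem_ofPred_eq] at hv ⊢
    exact ⟨hv.2.1, trivial, hv.2.2⟩
  · rintro ⟨a, b⟩ hp
    simp only [coe_filter, Set.mem_ofPred_eq] at hp
    simp [hp.2.1]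
  · intro v _
    rfl

theorem card_out {V : Type} [DecidableEq V] {D : Finset (V × V)} {I : Finset V} (u : V)
    (P : V → Prop) [DecidablePred P] (h : ∀ p ∈ D, p.2 ∈ I) :
    (D.filter (fun p => p.1 = u ∧ P p.2)).card = (I.filter (fun v => (u, v) ∈ D ∧ P v)).card := by
  refine card_nbij' Prod.snd (fun v => (u, v)) ?_ ?_ ?_ ?_
  · rintro ⟨a, b⟩ hp
    simp only [coe_filter, Set.mem_ofPred_eq] at hp ⊢
    exact ⟨h _ hp.1, hp.2.1 ▸ hp.1, hp.2.2⟩
  · intro v hv
    simp only [coe_filter, Set.mem_ofPred_eq] at hv ⊢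
    exact ⟨hv.2.1, trivial, hv.2.2⟩
  · rintro ⟨a, b⟩ hp
    simp only [coe_filter, Set.mem_ofPred_eq] at hp
    simp [hp.2.1]
  · intro v _
    rfl

theorem sum_dtot {V : Type} [DecidableEq V] (L : Finset (V × V)) (I : Finset V) :
    ∑ v ∈ I, dtot L v ≤ 2 * L.card := by
  have h1 : ∀ v ∈ I, dtot L v ≤
      (L.filter (fun p => p.1 = v)).card + (L.filter (fun p => p.2 = v)).card := fun v _ => by
    rw [dtot, filter_or]
    exact card_union_le _ _
  refine (sum_le_sum h1).trans ?_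
  rw [sum_add_distrib, sum_card_fiberwise_eq_card_filter, sum_card_fiberwise_eq_card_filter,
    two_mul]
  exact Nat.add_le_add (card_filter_le _ _) (card_filter_le _ _)

theorem le_sum_dtot {V : Type} [DecidableEq V] (L : Finset (V × V)) (I : Finset V) (P : V → Prop)
    [DecidablePred P] (h : ∀ p ∈ L, p.1 ∈ I ∧ p.2 ∈ I) :
    (L.filter (fun p => P p.1 ∨ P p.2)).card ≤ ∑ v ∈ I.filter P, dtot L v := by
  refine le_trans (card_le_card fun p hp => ?_) card_biUnion_le
  simp only [mem_filter, mem_biUnion] at hp ⊢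
  rcases hp.2 with h1 | h1
  · exact ⟨p.1, ⟨(h p hp.1).1, h1⟩, hp.1, Or.inl rfl⟩
  · exact ⟨p.2, ⟨(h p hp.1).2, h1⟩, hp.1, Or.inr rfl⟩

end Pool.Agent.MP_f65396_co.h15n.Label
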