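import Pool.Agent.MP_f65396_co.h15n.SpecB

/-! The expected load of a leaf and the free depths. -/

set_option autoImplicit false

namespace Pool.Agent.MP_f65396_co.h15n

open Finset
open Pool.Agent.MP_f65396_co.h32 (cells rk)

namespace Load

lemma key (k K R β a z t μ m I n N h : ℝ) (hk : 1 ≤ k) (hK : K = 10000 * k) (hR : K ≤ R)
    (hβ : 0 < β) (ha : 0 < a) (hz : 0 < z) (ht : 0 ≤ t) (hI : 0 ≤ I) (hn : 0 < n) (hN : 0 < N)
    (hh : 0 ≤ h) (h1 : t * μ ≤ m) (h2 : (20 * R - 1) * N ≤ 20 * R ^ 2 * β * μ)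
    (h3 : m * a * n ≤ 6 * n + 2 * (z * N)) (h4 : 4 * k * I ≤ (2 * k - 1) * n)
    (h5 : 6 * K * I ≤ z * N) (h6 : a * (t + 2) * h * K ≤ z) (h7 : 4 * a * I * K ≤ z * (R * β)) :
    h * a / z * ((t + 2) * ((1 + 1 / (40 * R)) * I / (R * β) + h)) ≤ (1 - 2 / (5 * k)) * h := by
  have hK0 : 0 < K := by linarith
  have hR0 : 0 < R := by linarith
  have hk0 : 0 < k := by linarith
  obtain ⟨w, hw⟩ : ∃ w, w = a * t * I / (z * (R * β)) := ⟨_, rfl⟩
  obtain ⟨u, hu⟩ : ∃ u, u = a * I / (z * (R * β)) := ⟨_, rfl⟩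
  obtain ⟨y, hy⟩ : ∃ y, y = a * (t + 2) * h / z := ⟨_, rfl⟩
  obtain ⟨δ, hδ⟩ : ∃ δ, δ = 1 / (20 * R) := ⟨_, rfl⟩
  obtain ⟨e, he⟩ : ∃ e, e = 1 / K := ⟨_, rfl⟩
  have e0 : 0 < e := by rw [he]; positivity
  have e1 : e ≤ 1 / 10000 := by
    rw [he]; exact one_div_le_one_div_of_le (by norm_num) (by linarith)
  have d0 : 0 < δ := by rw [hδ]; positivity
  have d1 : δ ≤ e := by
    rw [he, hδ]; exact one_div_le_one_div_of_le hK0 (by linarith)
  have w0 : 0 ≤ w := by rw [hw]; positivity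
  have u0 : 0 ≤ u := by rw [hu]; positivity
  have hy1 : y ≤ e := by
    rw [hy, he, div_le_div_iff₀ hz hK0]; linarith
  have hu1 : 4 * u ≤ e := by
    rw [hu, he, ← mul_div_assoc, div_le_div_iff₀ (by positivity) hK0]; linarith
  have s1 : w * (1 - δ) ≤ a * m * I / (z * N) := by
    have : w * (1 - δ) = a * t * I / z * ((20 * R - 1) / (20 * R ^ 2 * β)) := by
      rw [hw, hδ]; field_simp
    rw [this]
    have s : (20 * R - 1) / (20 * R ^ 2 * β) ≤ μ / N := by
      rw [div_le_div_iff₀ (by positivity) hN]; linarith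
    calc a * t * I / z * ((20 * R - 1) / (20 * R ^ 2 * β)) ≤ a * t * I / z * (μ / N) :=
          mul_le_mul_of_nonneg_left s (by positivity)
      _ = a * I / (z * N) * (t * μ) := by field_simp
      _ ≤ a * I / (z * N) * m := mul_le_mul_of_nonneg_left h1 (by positivity)
      _ = a * m * I / (z * N) := by ring
  have s2 : a * m * I / (z * N) ≤ 6 * I / (z * N) + 2 * I / n := by
    have : 6 * I / (z * N) + 2 * I / n = I / (z * N * n) * (6 * n + 2 * (z * N)) := by
      field_simp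
    rw [this]
    calc a * m * I / (z * N) = I / (z * N * n) * (m * a * n) := by field_simp
      _ ≤ _ := mul_le_mul_of_nonneg_left h3 (by positivity)
  have s3 : 6 * I / (z * N) ≤ e := by
    rw [he, div_le_div_iff₀ (by positivity) hK0]; linarith
  have s4 : 2 * I / n ≤ 1 - 5000 * e := by
    have : 1 - 5000 * e = (2 * k - 1) / (2 * k) := by rw [he, hK]; field_simp; ring
    rw [this, div_le_div_iff₀ hn (by positivity)]; linarith
  have s5 : w * δ ≤ w * (1 / 2) := mul_le_mul_of_nonneg_left (by linarith) w0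
  have s6 : w ≤ 2 := by linarith
  have s7 : w * δ ≤ 2 * δ := mul_le_mul_of_nonneg_right s6 d0.le
  have s8 : u * δ ≤ u * 1 := mul_le_mul_of_nonneg_left (by linarith) u0
  have l : h * a / z * ((t + 2) * ((1 + 1 / (40 * R)) * I / (R * β) + h)) =
      (w + w * δ / 2 + 2 * u + u * δ + y) * h := by
    rw [hw, hu, hy, hδ]; field_simp; ring
  have r : 2 / (5 * k) = 4000 * e := by rw [he, hK]; field_simp; ring
  rw [l, r]
  exact mul_le_mul_of_nonneg_right (by linarith) hh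

lemma pw {K : ℕ} (hK : 10000 ≤ K) {c i j : ℕ} (hc : c ≤ 10000) (hij : i < j) :
    c * K ^ i ≤ K ^ j :=
  calc c * K ^ i ≤ K * K ^ i := Nat.mul_le_mul_right _ (hc.trans hK)
    _ = K ^ (i + 1) := by ring
    _ ≤ K ^ j := Nat.pow_le_pow_right (by omega) hij

lemma base {n h k K : ℕ} (P : Par n h k K) : 10000 ≤ K ∧ 1 ≤ h ∧ K ^ 60 * h ≤ n := by
  have hK : 10000 ≤ K := by have := P.hk; have := P.hK; omega
  have hh : 1 ≤ h := (Nat.one_le_pow _ _ (by omega)).trans P.hh
  refine ⟨hK, hh, ?_⟩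
  calc K ^ 60 * h ≤ h * h := Nat.mul_le_mul_right _ P.hh
    _ = h ^ 2 := by ring
    _ ≤ h ^ 4 := Nat.pow_le_pow_right hh (by norm_num)
    _ ≤ n := P.h1

end Load

open Load

theorem load : LoadS := by
  intro n h k K R z a g β Nt m μ I P hR hz ha hg hβ hN hμ hm hI
  obtain ⟨hK, hh, hn⟩ := base P
  have hk := P.hk
  have K0 : 0 < K := by omega
  have kp : ∀ i, 0 < K ^ i := fun i => Nat.pow_pos K0
  have z1 : 16 * K ^ 5 * z ≤ n := by rw [hz]; exact Nat.mul_div_le _ _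
  have z2 : n < 16 * K ^ 5 * (z + 1) := by
    rw [hz]; exact Nat.lt_mul_div_succ _ (by have := kp 5; omega)
  have n1 : K ^ 60 ≤ n := (Nat.le_mul_of_pos_right _ hh).trans hn
  have n0 : 0 < n := (kp 60).trans_le n1
  have z0 : 1 ≤ z := by
    rw [hz]
    exact Nat.div_pos ((pw hK (by norm_num) (by norm_num)).trans n1) (by have := kp 5; omega)
  have z3 : n ≤ 32 * K ^ 5 * z := by
    have := Nat.mul_le_mul_left (16 * K ^ 5) z0
    linarith
  have z4 : n ≤ K ^ 6 * z :=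
    z3.trans (Nat.mul_le_mul_right _ (pw hK (by norm_num) (by norm_num)))
  have z5 : K ^ 54 * h ≤ z := by
    refine Nat.le_of_mul_le_mul_left ?_ (kp 6)
    calc K ^ 6 * (K ^ 54 * h) = K ^ 60 * h := by ring
      _ ≤ _ := hn.trans z4
  have N1 : K ^ 21 ≤ Nt := (Nat.le_mul_of_pos_right _ hh).trans hN
  have N0 : 0 < Nt := (kp 21).trans_le N1
  have zN : K ^ 5 * (h * n) ≤ z * Nt :=
    calc K ^ 5 * (h * n) ≤ K ^ 5 * (h * (K ^ 6 * z)) := by gcongr
      _ = z * (K ^ 11 * h) := by ring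
      _ ≤ z * (K ^ 21 * h) := by gcongr <;> omega
      _ ≤ z * Nt := by gcongr
  have I1 : 2 * I ≤ n := by
    refine Nat.le_of_mul_le_mul_left ?_ (show 0 < 2 * k by omega)
    calc 2 * k * (2 * I) = 4 * k * I := by ring
      _ ≤ (2 * k - 1) * n := hI
      _ ≤ 2 * k * n := Nat.mul_le_mul_right _ (Nat.sub_le _ _)
  have hD : 20 * R ^ 2 * β = 10240 * K ^ 15 := by rw [hR, hβ, hg]; ring
  have D0 : 0 < 20 * R ^ 2 * β := by rw [hD]; have := kp 15; omega
  have m1 : (20 * R - 1) * Nt ≤ 20 * R ^ 2 * β * μ := by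
    have := Nat.lt_mul_div_succ ((20 * R - 1) * Nt + (20 * R ^ 2 * β - 1)) D0
    rw [← hμ, mul_add, mul_one] at this
    omega
  have R1 : 2 * K ^ 2 ≤ 20 * R - 1 := by have := kp 2; omega
  have m2 : Nt ≤ K ^ 14 * μ := by
    refine Nat.le_of_mul_le_mul_left ?_ (show 0 < 2 * K ^ 2 by have := kp 2; omega)
    calc 2 * K ^ 2 * Nt ≤ 10240 * K ^ 15 * μ := by
          rw [← hD]; exact (Nat.mul_le_mul_right _ R1).trans m1
      _ = 2 * (5120 * K ^ 15) * μ := by ring
      _ ≤ 2 * K ^ 16 * μ := by gcongr; exact pw hK (by norm_num) (by norm_num)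
      _ = 2 * K ^ 2 * (K ^ 14 * μ) := by ring
  have μ1 : 1 ≤ μ := by
    rcases Nat.eq_zero_or_pos μ with e | e
    · rw [e] at m2; omega
    · exact e
  have m3 : 8 * K ^ 11 * m ≤ 48 * K ^ 5 + Nt := by
    refine Nat.le_of_mul_le_mul_right ?_ n0
    calc 8 * K ^ 11 * m * n = 8 * K ^ 5 * (m * a * n) := by rw [ha]; ring
      _ ≤ 8 * K ^ 5 * (6 * n + 2 * (z * Nt)) := by gcongr
      _ = 48 * K ^ 5 * n + 16 * K ^ 5 * z * Nt := by ring
      _ ≤ 48 * K ^ 5 * n + n * Nt := by gcongr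
      _ = (48 * K ^ 5 + Nt) * n := by ring
  have m4 : m ≤ K ^ 3 * μ := by
    refine Nat.le_of_mul_le_mul_left ?_ (kp 11)
    have : 48 * K ^ 5 ≤ Nt := (pw hK (by norm_num) (by norm_num)).trans N1
    have e : K ^ 11 * (K ^ 3 * μ) = K ^ 14 * μ := by ring
    rw [e]
    linarith [Nat.zero_le (K ^ 11 * m)]
  have g1 : 2 * K ^ 3 ≤ K ^ 5 := pw hK (by norm_num) (by norm_num)
  have m5 : m ≤ (g - 1) * μ :=
    m4.trans (Nat.mul_le_mul_right _ (by have := kp 3; omega))
  have t1 : m / μ + 2 ≤ K ^ 6 := by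
    have : m / μ ≤ K ^ 3 := Nat.div_le_of_le_mul (by rw [mul_comm]; exact m4)
    have g2 : 3 * K ^ 3 ≤ K ^ 6 := pw hK (by norm_num) (by norm_num)
    have := kp 3
    omega
  refine ⟨μ1, m5, ?_, ?_, ?_, ?_⟩
  · calc 100 * R ^ 2 * h * n = 1600 * K ^ 4 * (h * n) := by rw [hR]; ring
      _ ≤ K ^ 5 * (h * n) := Nat.mul_le_mul_right _ (pw hK (by norm_num) (by norm_num))
      _ ≤ _ := zN
  · calc 100 * R * h * a = 400 * K ^ 8 * h := by rw [hR, ha]; ring
      _ ≤ K ^ 54 * h := Nat.mul_le_mul_right _ (pw hK (by norm_num) (by norm_num))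
      _ ≤ _ := z5
  · rw [ha]; exact (Nat.pow_le_pow_right K0 (by norm_num)).trans P.hh
  have KR : K ≤ R := by rw [hR]; nlinarith
  have h5 : 6 * K * I ≤ z * Nt :=
    calc 6 * K * I ≤ 6 * K ^ 1 * (h * n) := by
          rw [pow_one]
          exact Nat.mul_le_mul_left _ (le_trans (by omega) (Nat.le_mul_of_pos_left _ hh))
      _ ≤ K ^ 5 * (h * n) := Nat.mul_le_mul_right _ (pw hK (by norm_num) (by norm_num))
      _ ≤ _ := zN
  have h6 : a * (m / μ + 2) * h * K ≤ z :=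
    calc a * (m / μ + 2) * h * K ≤ K ^ 6 * K ^ 6 * h * K := by rw [ha]; gcongr
      _ = K ^ 13 * h := by ring
      _ ≤ K ^ 54 * h := by gcongr <;> omega
      _ ≤ z := z5
  have h7 : 4 * a * I * K ≤ z * (R * β) :=
    calc 4 * a * I * K = 2 * K ^ 7 * (2 * I) := by rw [ha]; ring
      _ ≤ 2 * K ^ 7 * (32 * K ^ 5 * z) := Nat.mul_le_mul_left _ (I1.trans z3)
      _ = 64 * K ^ 12 * z := by ring
      _ ≤ 128 * K ^ 13 * z := by gcongr <;> omega
      _ = z * (R * β) := by rw [hR, hβ, hg]; ring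
  have c1 : ((20 * R - 1 : ℕ) : ℝ) = 20 * R - 1 := by
    rw [Nat.cast_sub (by omega)]; push_cast; ring
  have c2 : ((2 * k - 1 : ℕ) : ℝ) = 2 * k - 1 := by
    rw [Nat.cast_sub (by omega)]; push_cast; ring
  have β0 : 0 < β := by rw [hβ, hg]; positivity
  have a0 : 0 < a := by rw [ha]; exact kp 6
  have := key k K R β a z (m / μ : ℕ) μ m I n Nt h (by exact_mod_cast hk)
    (by exact_mod_cast P.hK) (by exact_mod_cast KR) (by exact_mod_cast β0) (by exact_mod_cast a0)
    (by exact_mod_cast z0) (Nat.cast_nonneg _) (Nat.cast_nonneg _) (by exact_mod_cast n0)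
    (by exact_mod_cast N0) (Nat.cast_nonneg _) (by exact_mod_cast Nat.div_mul_le_self m μ)
    (by rw [← c1]; exact_mod_cast m1) (by exact_mod_cast hm) (by rw [← c2]; exact_mod_cast hI)
    (by exact_mod_cast h5) (by exact_mod_cast h6) (by exact_mod_cast h7)
  rw [Nat.cast_add, Nat.cast_ofNat]
  exact this

theorem free : FreeS := by
  intro V _ n h k K R U D Ds L blk bl ρ φ arm P hR hL s4 l3 hx v
  obtain ⟨hK, hh, hn⟩ := base P
  have hk := P.hk
  set Fr := range (n / 2) \ ud n U φ v with hFr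
  set G := (range (n / 2 / h)).filter (fun J => ¬ J % R = ρ v) with hG
  have blkJ : ∀ J ∈ G, 3 * h ≤ 10 * k * (Fr.filter (fun s => s / h = J)).card := by
    intro J hJ
    obtain ⟨hJ1, hJ2⟩ := mem_filter.1 hJ
    set C := (cl n U).filter (fun x => ((φ x).1 = v ∨ (φ x).2 = v) ∧ x.2 / h = J) with hC
    have c1 : C.card ≤ (Ds.filter (fun p => blk p = J ∧ p.2 = v)).card +
        (L.filter (fun p => bl p = J ∧ (p.1 = v ∨ p.2 = v))).card := by
      refine le_trans (card_le_card_of_injOn φ ?_ ?_) (card_union_le _ _)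
      · intro x hxC
        obtain ⟨h1, h2, h3⟩ := mem_filter.1 (mem_coe.1 hxC)
        rcases hx x h1 v (by rw [h3]; exact fun e => hJ2 e.symm) h2 with o | o
        · exact mem_coe.2 (mem_union_left _ (mem_filter.2 ⟨o.1, o.2.1.trans h3, o.2.2⟩))
        · exact mem_coe.2 (mem_union_right _ (mem_filter.2 ⟨o.1, o.2.trans h3, h2⟩))
      · exact hL.bij.injOn.mono (coe_subset.2 (filter_subset _ _))
    have c2 : Ico (J * h) (J * h + h) ⊆ Fr.filter (fun s => s / h = J) ∪ C.image Prod.snd := by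
      intro s hs
      obtain ⟨h1, h2⟩ := mem_Ico.1 hs
      have e : s / h = J := Nat.div_eq_of_lt_le h1 (by rw [add_mul, one_mul]; exact h2)
      have h3 : (J + 1) * h ≤ n / 2 :=
        (Nat.mul_le_mul_right h (mem_range.1 hJ1)).trans (Nat.div_mul_le_self _ _)
      rw [add_mul, one_mul] at h3
      by_cases c : s ∈ ud n U φ v
      · obtain ⟨x, hx1, rfl⟩ := mem_image.1 c
        obtain ⟨h4, h5⟩ := mem_filter.1 hx1
        exact mem_union_right _ (mem_image_of_mem _ (mem_filter.2 ⟨h4, h5, e⟩))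
      · exact mem_union_left _ (mem_filter.2 ⟨mem_sdiff.2 ⟨mem_range.2 (by omega), c⟩, e⟩)
    have c3 := (card_le_card c2).trans (card_union_le _ _)
    rw [Nat.card_Ico, Nat.add_sub_cancel_left] at c3
    have c4 : (C.image Prod.snd).card ≤ C.card := card_image_le
    have a1 := s4 v J
    have a2 := l3 v J
    have a3 : (3 * k - 1) * h + h = 3 * k * h := by
      obtain ⟨j, rfl⟩ : ∃ j, k = j + 1 := ⟨k - 1, by omega⟩
      rw [show 3 * (j + 1) - 1 = 3 * j + 2 by omega]; ring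
    have a4 := Nat.mul_le_mul_left k (c3.trans (Nat.add_le_add_left (c4.trans c1) _))
    linarith
  have t1 : G.card * (3 * h) ≤ 10 * k * Fr.card := by
    calc G.card * (3 * h) ≤ ∑ J ∈ G, 10 * k * (Fr.filter (fun s => s / h = J)).card := by
          rw [← smul_eq_mul]; exact card_nsmul_le_sum _ _ _ blkJ
      _ = 10 * k * (Fr.filter (fun s => s / h ∈ G)).card := by
          rw [← mul_sum, sum_card_fiberwise_eq_card_filter]
      _ ≤ _ := Nat.mul_le_mul_left _ (card_filter_le _ _)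
  have R2 : 2 ≤ R := by rw [hR]; nlinarith
  have t2 : n / 2 / h ≤ 2 * G.card + 2 := by
    have e := card_filter_add_card_filter_not (s := range (n / 2 / h)) (fun J => J % R = ρ v)
    rw [card_range, ← hG] at e
    have b : ((range (n / 2 / h)).filter (fun J => J % R = ρ v)).card ≤ n / 2 / h / 2 + 1 := by
      by_cases c : ρ v < R
      · exact (h32.cnt_mod_le _ c).trans (Nat.add_le_add_right (Nat.div_le_div_left R2 two_pos) _)
      · rw [filter_false_of_mem, card_empty]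
        · omega
        · intro J _ e2
          exact c (e2 ▸ Nat.mod_lt _ (by omega))
    omega
  have t3 : n / 2 < h * (n / 2 / h + 1) := Nat.lt_mul_div_succ _ hh
  have t4 : h * (n / 2 / h + 1) ≤ h * (2 * G.card + 3) := Nat.mul_le_mul_left _ (by omega)
  have t5 : 100 * h ≤ n := by
    refine le_trans (Nat.mul_le_mul_right _ ?_) hn
    simpa using pw (c := 100) (i := 0) (j := 60) hK (by norm_num) (by norm_num)
  have t6 : n ≤ 2 * (n / 2) + 1 := by omega
  rw [P.hK]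
  nlinarith

end Pool.Agent.MP_f65396_co.h15n
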