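import Pool.Agent.MP_f65396_co.h15n.SpecB

/-! The case of many vertices of medium degree. -/

set_option autoImplicit false

namespace Pool.Agent.MP_f65396_co.h15n

open Finset

namespace Many

lemma nums {n h k K : ℕ} (P : Par n h k K) : 10000 ≤ K ∧ 0 < h ∧ 32 * K ^ 5 ≤ n ∧
    n ≤ 32 * K ^ 5 * (n / (16 * K ^ 5)) := by
  have a1 := P.hk
  have a2 := P.hK
  have k1 : 10000 ≤ K := by omega
  have k2 : K ^ 6 ≤ K ^ 60 := Nat.pow_le_pow_right (by omega) (by omega)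
  have k3 : 0 < K ^ 5 := Nat.pow_pos (by omega)
  have k4 : 32 * K ^ 5 ≤ K ^ 6 := by
    rw [pow_succ K 5, mul_comm]
    exact Nat.mul_le_mul_left _ (by omega)
  have h0 : 0 < h := by
    have := P.hh
    omega
  have h1 : h ≤ h ^ 4 := Nat.le_self_pow (by omega) h
  have n1 : 32 * K ^ 5 ≤ n := by
    have := P.hh
    have := P.h1
    omega
  refine ⟨k1, h0, n1, ?_⟩
  have b1 := Nat.div_add_mod n (16 * K ^ 5)
  have b2 := Nat.mod_lt n (show 0 < 16 * K ^ 5 by omega)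
  have b3 : 1 ≤ n / (16 * K ^ 5) := (Nat.le_div_iff_mul_le (by omega)).2 (by omega)
  have b4 := Nat.mul_le_mul_left (16 * K ^ 5) b3
  have b5 : 32 * K ^ 5 * (n / (16 * K ^ 5)) = 2 * (16 * K ^ 5 * (n / (16 * K ^ 5))) := by ring
  omega

lemma pm {V : Type} [DecidableEq V] {n h k K : ℕ} {Sh : Finset V} {D : Finset (V × V)}
    (P : Par n h k K) (M : M0 n h k K Sh D) :
    Pm n K (4 * K ^ 2) (n / (16 * K ^ 5)) (K ^ 6) (K ^ 5) (32 * K ^ 6 * K ^ 5) Sh D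
      (fun u => (4 * K ^ 2 - 10) * dout D u / (4 * K ^ 2 * (n / (16 * K ^ 5)))) := by
  obtain ⟨k1, -, n1, n2⟩ := nums P
  obtain ⟨z, hz⟩ : ∃ z, z = n / (16 * K ^ 5) := ⟨_, rfl⟩
  have z1 : 16 * K ^ 5 * z ≤ n := by
    rw [hz, mul_comm]
    exact Nat.div_mul_le_self _ _
  rw [← hz] at n2
  have k3 : 0 < K ^ 5 := Nat.pow_pos (by omega)
  have z0 : 0 < z := by
    rcases Nat.eq_zero_or_pos z with e | e
    · rw [e] at n2
      omega
    · exact e
  obtain ⟨R, hR⟩ : ∃ R, R = 4 * K ^ 2 := ⟨_, rfl⟩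
  have R1 : 12 ≤ R := by nlinarith
  have key : ∀ u ∈ Sh, R * (z * ((R - 10) * dout D u / (R * z))) ≤ (R - 10) * dout D u ∧
      (R - 11) * dout D u ≤ R * (z * ((R - 10) * dout D u / (R * z))) ∧ 0 < dout D u := by
    intro u hu
    have a1 := (M.o1 u hu).1
    have a2 : R * z ≤ dout D u := by
      refine Nat.le_of_mul_le_mul_left (c := 4 * K ^ 3) ?_ (by positivity)
      calc 4 * K ^ 3 * (R * z) = 16 * K ^ 5 * z := by rw [hR]; ring
        _ ≤ _ := z1.trans a1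
    have a3 := Nat.div_add_mod ((R - 10) * dout D u) (R * z)
    have a4 := Nat.mod_lt ((R - 10) * dout D u) (Nat.mul_pos (show 0 < R by omega) z0)
    have a5 : (R - 10) * dout D u = (R - 11) * dout D u + dout D u := by
      rw [show R - 10 = R - 11 + 1 by omega, add_mul, one_mul]
    have a6 := Nat.mul_pos (show 0 < R by omega) z0
    rw [mul_assoc] at a3
    omega
  rw [← hz, ← hR]
  refine ⟨hR, hz, rfl, rfl, rfl, fun u hu => ?_, fun u hu => ⟨(key u hu).1, (key u hu).2.1⟩⟩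
  obtain ⟨a1, a2, a3⟩ := key u hu
  generalize (R - 10) * dout D u / (R * z) = r at a1 a2
  constructor
  · rcases Nat.eq_zero_or_pos r with e | e
    · rw [e] at a2
      have := Nat.mul_pos (show 0 < R - 11 by omega) a3
      omega
    · exact e
  · have b1 : z * r ≤ dout D u := Nat.le_of_mul_le_mul_left
      (a1.trans (Nat.mul_le_mul_right _ (Nat.sub_le _ _))) (show 0 < R by omega)
    have b2 := (M.o1 u hu).2
    refine Nat.le_of_mul_le_mul_left (c := z) ?_ z0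
    calc z * r ≤ K * n := b1.trans b2
      _ ≤ K * (32 * K ^ 5 * z) := Nat.mul_le_mul_left _ n2
      _ = z * (32 * K ^ 6) := by ring

lemma targets {V : Type} [DecidableEq V] {n h k K R z a g β : ℕ} {Sh : Finset V}
    {D : Finset (V × V)} {r : V → ℕ} (P : Par n h k K) (M : M0 n h k K Sh D)
    (Q : Pm n K R z a g β Sh D r) :
    7 * (n + 1) ≤ (2 * R - 1) * (z * ∑ u ∈ Sh, r u) / (2 * R) ∧
      (2 * R - 1) * (z * ∑ u ∈ Sh, r u) / (2 * R) + 7 * (n + 1) ≤ D.card := by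
  obtain ⟨k1, h0, n1, n2⟩ := nums P
  rw [← Q.hz] at n2
  have hR := Q.hR
  have R1 : 12 ≤ R := by nlinarith
  have k3 : 0 < K ^ 5 := Nat.pow_pos (by omega)
  have w1 : ∑ u ∈ Sh, dout D u ≤ D.card := by
    unfold dout
    rw [← card_biUnion fun u _ v _ e => disjoint_left.2 fun p h1 h2 =>
      e ((mem_filter.1 h1).2.symm.trans (mem_filter.1 h2).2)]
    exact card_le_card (biUnion_subset.2 fun u _ => filter_subset _ _)
  have w2 : R * (z * ∑ u ∈ Sh, r u) ≤ (R - 10) * ∑ u ∈ Sh, dout D u := by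
    rw [mul_sum, mul_sum, mul_sum]
    exact sum_le_sum fun u hu => (Q.r2 u hu).1
  have w3 : Sh.card * n ≤ 4 * K ^ 3 * ∑ u ∈ Sh, dout D u := by
    rw [mul_sum, ← smul_eq_mul, ← sum_const]
    exact sum_le_sum fun u hu => (M.o1 u hu).1
  have w4 : Sh.card ≤ ∑ u ∈ Sh, r u := by
    rw [card_eq_sum_ones]
    exact sum_le_sum fun u hu => (Q.r1 u hu).1
  have w5 : 1000 * K ^ 5 ≤ Sh.card := by
    refine le_trans ?_ M.many
    calc 1000 * K ^ 5 ≤ K ^ 16 * K ^ 5 := Nat.mul_le_mul_right _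
          (le_trans (by omega) (Nat.le_self_pow (by omega) K))
      _ = K ^ 21 * 1 := by ring
      _ ≤ _ := Nat.mul_le_mul_left _ h0
  generalize ∑ u ∈ Sh, dout D u = W at w1 w2 w3
  generalize ∑ u ∈ Sh, r u = N at w2 w4 ⊢
  have x1 : 30 * n ≤ z * N := by
    refine Nat.le_of_mul_le_mul_left (c := 32 * K ^ 5) ?_ (by omega)
    calc 32 * K ^ 5 * (30 * n) = n * (960 * K ^ 5) := by ring
      _ ≤ (32 * K ^ 5 * z) * N := Nat.mul_le_mul n2 (by omega)
      _ = _ := by ring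
  have x2 : R * (14 * n) ≤ 10 * W := by
    refine Nat.le_of_mul_le_mul_left (c := 4 * K ^ 3) ?_ (by positivity)
    calc 4 * K ^ 3 * (R * (14 * n)) = 224 * K ^ 5 * n := by rw [hR]; ring
      _ ≤ (10 * Sh.card) * n := Nat.mul_le_mul_right _ (by omega)
      _ = 10 * (Sh.card * n) := by ring
      _ ≤ 10 * (4 * K ^ 3 * W) := Nat.mul_le_mul_left _ w3
      _ = _ := by ring
  generalize z * N = X at w2 x1 ⊢
  have y1 : (2 * R - 1) * X / (2 * R) ≤ X :=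
    Nat.div_le_of_le_mul (Nat.mul_le_mul_right _ (Nat.sub_le _ _))
  have y2 : 14 * n ≤ (2 * R - 1) * X / (2 * R) := by
    rw [Nat.le_div_iff_mul_le (by omega)]
    calc 14 * n * (2 * R) = R * (28 * n) := by ring
      _ ≤ (2 * R - 1) * X := Nat.mul_le_mul (by omega) (by omega)
  have y3 : X + 14 * n ≤ W := by
    refine Nat.le_of_mul_le_mul_left (c := R) ?_ (by omega)
    have : (R - 10) * W + 10 * W = R * W := by rw [← add_mul, Nat.sub_add_cancel (by omega)]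
    rw [mul_add]
    omega
  omega

end Many

open Many

theorem many (hp : PlanMS) (hl : LabelS) (hc : CtrS) (hs : StarS) (hi : IrrS) (hr : RestS)
    (hb : BlockS) (hg : GlueS) (hf : FreeS) : ManyS := by
  intro V _ n h k K q oh Sh D D1 P H M
  obtain ⟨k1, h0, -, -⟩ := nums P
  obtain ⟨R, z, a, g, β, r, Q⟩ : ∃ R z a g β r, Pm n K R z a g β Sh D r := ⟨_, _, _, _, _, _, pm P M⟩
  obtain ⟨ρ, b, M1⟩ := hl V n h k K R z a g β Sh D r P M Q
  obtain ⟨e1, e2⟩ := targets P M Q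
  obtain ⟨t, ht⟩ : ∃ t, t = (2 * R - 1) * (z * ∑ u ∈ Sh, r u) / (2 * R) := ⟨_, rfl⟩
  rw [← ht] at e1 e2
  obtain ⟨U1, U2, u1, u2, u3, u4, u5, u6, u7, X⟩ := hp V n K q t (D.card - t) oh D D1 H
    (by omega) e1 (by omega)
  have MU' : MU n R z (∑ u ∈ Sh, r u) D.card U1 U2 :=
    ⟨u1, u2, u3, by omega, u4.trans ht, u4 ▸ u6, u5 ▸ u7⟩
  obtain ⟨ctr, M2⟩ := hc V n h k K R z a g β Sh D r ρ b U1 U2 P M Q M1 MU'
  obtain ⟨Ds, blk, col, M3⟩ := hs V n h k K R z a g β Sh D r ρ b U1 ctr P M Q M1 M2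
  obtain ⟨ψ, M4⟩ := hi V n h k K R z a g β Sh D r ρ b U1 U2 ctr P M Q M1 MU'
  obtain ⟨bl, M5⟩ := hr V n h k K R z a g β Sh D r ρ b U1 U2 ctr Ds blk col ψ P M Q M1 MU' M2 M3 M4
  obtain ⟨L, hL⟩ : ∃ L, L = D \ (Ds ∪ (h15n.hc n h a U1 U2).image ψ) := ⟨_, rfl⟩
  rw [← hL] at M5
  have LD : L ⊆ D := hL ▸ sdiff_subset
  obtain ⟨dp, M6⟩ := hb V h (n / h) (fun J => a * (kJ U1 h J / a)) (kJ U2 h) Ds L blk col bl
    (disjoint_left.2 fun p h1 h2 => (mem_sdiff.1 (hL ▸ h2)).2 (mem_union_left _ h1))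
    (fun p hp => ⟨(M3.s2 p hp).1, (M3.s2 p hp).2.1⟩) M3.s3
    (fun p hp p' hp' e e' => by rw [(M3.s2 p hp).2.2.1, (M3.s2 p' hp').2.2.1, e, e'])
    (fun u v h1 h2 => M.asy u v (LD h1) (LD h2)) (fun p hp => (M5.l1 p hp).1) M5.l2 (by
      intro v J _
      have a1 := M3.s4 v J
      have a2 := M5.l3 v J
      have a3 := P.hk
      generalize (Ds.filter (fun p => blk p = J ∧ p.2 = v)).card = x at a1 ⊢
      generalize (L.filter (fun p => bl p = J ∧ (p.1 = v ∨ p.2 = v))).card = y at a2 ⊢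
      obtain ⟨j, rfl⟩ : ∃ j, k = j + 1 := ⟨k - 1, by omega⟩
      rw [show 3 * (j + 1) - 1 = 3 * j + 2 by omega] at a1
      by_contra c
      have a4 := Nat.mul_le_mul_left (30 * (j + 1)) (not_lt.1 c)
      nlinarith)
  have a0 : 0 < a := Q.ha ▸ Nat.pow_pos (by omega)
  obtain ⟨φ, arm, c1, c2⟩ := hg V n h k K R z a Sh D r ρ U1 U2 ctr Ds L blk col bl dp ψ h0 a0 u1 u2
    u3 (fun p hp e => M.asy p.1 p.2 hp (by
      have : (p.2, p.1) = p := Prod.ext e.symm e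
      rwa [this])) M2 M3 M4 hL M5 M6
  exact X φ arm c1 (hf V n h k K R (U1 ∪ U2) D Ds L blk bl ρ φ arm P Q.hR c1 M3.s4 M5.l3 c2)

end Pool.Agent.MP_f65396_co.h15n
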