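import Pool.Agent.MP_f65396_co.h15n.SpecA
import Mathlib.Data.Int.CardIntervalMod
import Mathlib.Analysis.SpecialFunctions.Exponential

/-! Orientation at a set of owners, sums along a residue class, and the size of parameters. -/

set_option autoImplicit false

namespace Pool.Agent.MP_f65396_co.h15n

open Finset

namespace Ord

theorem exists_idx {V : Type} [Fintype V] [DecidableEq V] (O : Finset V) (v0 : V) :
    ∃ (idx : V → ℕ) (o : ℕ → V), Function.Injective idx ∧ (∀ v, v ∈ O ↔ idx v < O.card) ∧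
      (∀ v ∈ O, o (idx v) = v) ∧ ∀ i < O.card, idx (o i) = i := by
  refine ⟨fun v => if h : v ∈ O then (O.equivFin ⟨v, h⟩ : ℕ) else O.card + Fintype.equivFin V v,
    fun i => if h : i < O.card then (O.equivFin.symm ⟨i, h⟩ : V) else v0, ?_, ?_, ?_, ?_⟩
  · intro u v huv
    by_cases hu : u ∈ O <;> by_cases hv : v ∈ O
    · simp only [hu, hv, dif_pos] at huv
      exact congrArg Subtype.val (O.equivFin.injective (Fin.ext huv))
    · simp only [hu, hv, dif_pos, dif_neg, not_false_iff] at huv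
      have := (O.equivFin ⟨u, hu⟩).2
      omega
    · simp only [hu, hv, dif_pos, dif_neg, not_false_iff] at huv
      have := (O.equivFin ⟨v, hv⟩).2
      omega
    · simp only [hu, hv, dif_neg, not_false_iff] at huv
      exact (Fintype.equivFin V).injective (Fin.ext (by omega))
  · intro v
    by_cases hv : v ∈ O
    · simp [hv]
    · simp [hv]
  · intro v hv
    simp [hv]
  · intro i hi
    simp [hi]

theorem abel (f u v : ℕ → ℕ) (R : ℕ) (hf : Antitone f)
    (h : ∀ m, ∑ J ∈ range m, u J ≤ ∑ J ∈ range m, v J + R) (m : ℕ) :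
    ∑ J ∈ range m, u J * f J ≤ ∑ J ∈ range m, v J * f J + R * f 0 := by
  have key : ∀ m, ∑ J ∈ range m, u J * f J + (∑ J ∈ range m, v J + R) * f m ≤
      ∑ J ∈ range m, v J * f J + R * f 0 + (∑ J ∈ range m, u J) * f m := by
    intro m
    induction m with
    | zero => simp
    | succ m ih =>
      have h1 := h (m + 1)
      obtain ⟨d, hd⟩ := Nat.exists_eq_add_of_le (hf (Nat.le_succ m))
      simp only [sum_range_succ] at h1 ⊢
      rw [hd] at ih ⊢
      have h2 := Nat.mul_le_mul_right d h1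
      nlinarith
  have h1 := key m
  have h2 := Nat.mul_le_mul_right (f m) (h m)
  omega

theorem cnt (R c m : ℕ) (hc : c < R) :
    ∑ J ∈ range m, (if J % R = c then R else 0) ≤ m + R ∧
      m ≤ ∑ J ∈ range m, (if J % R = c then R else 0) + R := by
  have hR : 0 < R := by omega
  have h1 : ∑ J ∈ range m, (if J % R = c then R else 0) =
      R * Nat.count (fun J => J ≡ c [MOD R]) m := by
    rw [← sum_filter, sum_const, smul_eq_mul, mul_comm, Nat.count_eq_card_filter_range]
    simp [Nat.ModEq, Nat.mod_eq_of_lt hc]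
  have h2 := Nat.div_add_mod m R
  have h3 := Nat.mod_lt m hR
  rw [h1, Nat.count_modEq_card m hR c]
  split_ifs
  · rw [mul_add, mul_one]
    omega
  · rw [add_zero]
    omega

end Ord

theorem ord : OrdS := by
  intro V _ _ G _ O v0
  obtain ⟨idx, o, hinj, hO, ho, hi⟩ := Ord.exists_idx O v0
  refine ⟨o, univ.filter (fun p => G.Adj p.1 p.2 ∧ idx p.1 < idx p.2 ∧ p.1 ∈ O),
    univ.filter (fun p => G.Adj p.1 p.2 ∧ idx p.1 < idx p.2 ∧ p.1 ∉ O), ⟨?_, ?_, ?_⟩, ⟨?_, ?_⟩,
    ?_, ?_, ?_, ?_⟩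
  · intro p hp
    simp only [mem_union, mem_filter, mem_univ, true_and] at hp
    tauto
  · intro u v huv
    simp only [mem_union, mem_filter, mem_univ, true_and]
    have h1 : idx u ≠ idx v := fun h => huv.ne (hinj h)
    have h2 := huv.symm
    rcases lt_or_gt_of_ne h1 with h | h <;> tauto
  · intro u v h1 h2
    simp only [mem_union, mem_filter, mem_univ, true_and] at h1 h2
    omega
  · intro i h1 j h2 h
    rw [← hi i h1, h, hi j h2]
  · intro p hp
    simp only [mem_filter, mem_univ, true_and] at hp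
    refine ⟨idx p.1, (hO _).1 hp.2.2, (ho _ hp.2.2).symm, fun j hj h => ?_⟩
    rw [← hi j hj, ← h]
    exact hp.2.1
  · intro v
    refine ⟨fun hv => ⟨idx v, (hO v).1 hv, ho v hv⟩, ?_⟩
    rintro ⟨i, h1, rfl⟩
    rw [hO, hi i h1]
    exact h1
  · intro p hp
    simp only [mem_filter, mem_univ, true_and] at hp
    refine ⟨hp.2.2, fun h => hp.2.2 ?_⟩
    rw [hO] at h ⊢
    omega
  · intro u hu
    rw [dout, ← G.card_neighborFinset_eq_degree]
    constructor
    · refine card_le_card_of_injOn Prod.snd (fun p hp => ?_) (fun p hp q hq h => ?_)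
      · simp only [coe_filter, mem_filter, mem_univ, true_and, Set.mem_ofPred_eq] at hp
        simpa [← hp.2] using hp.1.1
      · simp only [coe_filter, Set.mem_ofPred_eq] at hp hq
        exact Prod.ext (hp.2.trans hq.2.symm) h
    · refine le_trans (card_le_card_sdiff_add_card (t := O)) (Nat.add_le_add_right ?_ _)
      refine card_le_card_of_injOn (fun w => (u, w)) (fun w hw => ?_) (fun p _ q _ h => ?_)
      · simp only [coe_sdiff, Set.mem_sdiff, mem_coe, SimpleGraph.mem_neighborFinset] at hw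
        have h1 := (hO u).1 hu
        have h2 := (hO w).not.1 hw.2
        simp only [coe_filter, mem_filter, mem_univ, true_and, Set.mem_ofPred_eq, and_true]
        exact ⟨hw.1, by omega, hu⟩
      · exact (Prod.ext_iff.1 h).2
  · intro v hv
    rw [dtot]
    refine card_nbij' (fun p => if p.1 = v then p.2 else p.1)
      (fun w => if idx v < idx w then (v, w) else (w, v)) ?_ ?_ ?_ ?_
    · rintro ⟨a, b⟩ hp
      simp only [coe_filter, mem_filter, mem_univ, true_and, Set.mem_ofPred_eq] at hp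
      obtain ⟨⟨h1, h2, h3⟩, h4⟩ := hp
      have h5 : b ∉ O := fun h => h3 (by rw [hO] at h ⊢; omega)
      simp only [coe_sdiff, Set.mem_sdiff, mem_coe, SimpleGraph.mem_neighborFinset]
      split_ifs with h
      · exact ⟨h ▸ h1, h5⟩
      · exact ⟨(h4.resolve_left h) ▸ h1.symm, h3⟩
    · intro w hw
      simp only [coe_sdiff, Set.mem_sdiff, mem_coe, SimpleGraph.mem_neighborFinset] at hw
      have h1 : idx v ≠ idx w := fun h => hw.1.ne (hinj h)
      simp only [coe_filter, mem_filter, mem_univ, true_and, Set.mem_ofPred_eq]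
      split_ifs with h
      · exact ⟨⟨hw.1, h, hv⟩, Or.inl rfl⟩
      · exact ⟨⟨hw.1.symm, by simp only; omega, hw.2⟩, Or.inr rfl⟩
    · rintro ⟨a, b⟩ hp
      simp only [coe_filter, mem_filter, mem_univ, true_and, Set.mem_ofPred_eq] at hp
      obtain ⟨⟨h1, h2, h3⟩, h4⟩ := hp
      by_cases h : a = v
      · subst h
        simp [h2]
      · obtain rfl := h4.resolve_left h
        simp [h, h2.not_gt]
    · intro w hw
      simp only [coe_sdiff, Set.mem_sdiff, mem_coe, SimpleGraph.mem_neighborFinset] at hw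
      by_cases h : idx v < idx w
      · simp [h]
      · simp [h, hw.1.ne']

theorem anti : AntiS := by
  intro f R c m hf hc
  have e : R * ∑ J ∈ (range m).filter (fun J => J % R = c), f J =
      ∑ J ∈ range m, (if J % R = c then R else 0) * f J := by
    rw [mul_sum, sum_filter]
    exact sum_congr rfl fun J _ => by split_ifs <;> simp
  rw [e]
  constructor
  · simpa using Ord.abel f (fun J => if J % R = c then R else 0) (fun _ => 1) R hf
      (fun m => by simpa using (Ord.cnt R c m hc).1) m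
  · simpa using Ord.abel f (fun _ => 1) (fun J => if J % R = c then R else 0) R hf
      (fun m => by simpa using (Ord.cnt R c m hc).2) m

theorem num : NumS := by
  intro k hk
  refine ⟨((10000 * k) ^ 60) ^ 4, fun n hn => ⟨n.sqrt.sqrt, ?_⟩⟩
  obtain ⟨K, hK⟩ : ∃ K, K = 10000 * k := ⟨_, rfl⟩
  rw [← hK] at hn ⊢
  have hK1 : 10000 ≤ K := by omega
  have h1 : K ^ 60 ≤ n.sqrt.sqrt := by
    rw [Nat.le_sqrt', Nat.le_sqrt', ← pow_mul]
    exact hn
  have h2 : n.sqrt.sqrt ^ 4 ≤ n := by
    have := Nat.pow_le_pow_left (Nat.sqrt_le' n.sqrt) 2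
    rw [← pow_mul] at this
    exact this.trans (Nat.sqrt_le' n)
  have h3 : n ≤ (n.sqrt.sqrt + 1) ^ 4 := by
    have := Nat.pow_le_pow_left (Nat.succ_le_of_lt (Nat.lt_succ_sqrt' n.sqrt)) 2
    rw [← pow_mul] at this
    exact (Nat.lt_succ_sqrt' n).le.trans this
  generalize n.sqrt.sqrt = h at h1 h2 h3
  have h0 : 1 ≤ h := le_trans (Nat.one_le_pow _ _ (by omega)) h1
  have h4 : n ≤ 16 * h ^ 4 := by
    refine h3.trans ((Nat.pow_le_pow_left (by omega : h + 1 ≤ 2 * h) 4).trans_eq ?_)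
    ring
  refine ⟨hk, hK, h1, h2, h4, ?_⟩
  have hKr : (10000 : ℝ) ≤ K := by exact_mod_cast hK1
  have hK0 : (0 : ℝ) < K := by linarith
  have hh0 : (0 : ℝ) < h := by exact_mod_cast h0
  refine lt_of_lt_of_le ?_ (Real.pow_div_factorial_le_exp _ (by positivity) 13)
  rw [div_pow, div_div, lt_div_iff₀ (by positivity)]
  have h5 : (n : ℝ) ^ 3 ≤ (16 * (h : ℝ) ^ 4) ^ 3 :=
    pow_le_pow_left₀ (by positivity) (by exact_mod_cast h4) 3
  have h6 : (K : ℝ) ^ 60 ≤ h := by exact_mod_cast h1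
  have h7 : (10000 : ℝ) ^ 20 ≤ (K : ℝ) ^ 20 := pow_le_pow_left₀ (by norm_num) hKr 20
  have h8 : (8 * 16 ^ 3 * 160 ^ 13 * (Nat.factorial 13 : ℕ) : ℝ) < (K : ℝ) ^ 20 :=
    lt_of_lt_of_le (by norm_num [Nat.factorial]) h7
  calc (8 * (n : ℝ) ^ 3 * (K : ℝ) ^ 14) * ((160 * (K : ℝ) ^ 2) ^ 13 * (Nat.factorial 13 : ℕ))
      ≤ (8 * (16 * (h : ℝ) ^ 4) ^ 3 * (K : ℝ) ^ 14) *
          ((160 * (K : ℝ) ^ 2) ^ 13 * (Nat.factorial 13 : ℕ)) := by gcongr
    _ = (8 * 16 ^ 3 * 160 ^ 13 * (Nat.factorial 13 : ℕ) : ℝ) * ((K : ℝ) ^ 40 * (h : ℝ) ^ 12) := by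
        ring
    _ < (K : ℝ) ^ 20 * ((K : ℝ) ^ 40 * (h : ℝ) ^ 12) := by gcongr
    _ = (K : ℝ) ^ 60 * (h : ℝ) ^ 12 := by ring
    _ ≤ (h : ℝ) * (h : ℝ) ^ 12 := by gcongr
    _ = (h : ℝ) ^ 13 := by ring

end Pool.Agent.MP_f65396_co.h15n
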