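import Pool.Agent.MP_f65396_co.h15n.SpecA

/-! Distinct numbers with prescribed sums. -/

set_option autoImplicit false

namespace Pool.Agent.MP_f65396_co.h15n

open Finset

namespace Pick

theorem fresh (lo m : ℕ) (B : Finset ℕ) (h : B.card < m) : ∃ z, lo ≤ z ∧ z < lo + m ∧ z ∉ B := by
  obtain ⟨z, h1, h2⟩ := exists_mem_notMem_of_card_lt_card (s := B) (t := Ico lo (lo + m))
    (by rw [Nat.card_Ico]; omega)
  exact ⟨z, (mem_Ico.1 h1).1, (mem_Ico.1 h1).2, h2⟩

theorem aux (a j : ℕ) : ∀ (x : ℕ) (B : Finset ℕ), 5 * (a * (j + 2)) ≤ 4 * x →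
    4 * x ≤ 7 * (a * (j + 2)) → 100 * (B.card + j + 1) ≤ a →
    ∃ S ⊆ Ico a (2 * a), Disjoint S B ∧ ∑ y ∈ S, y = x := by
  induction j with
  | zero =>
    intro x B h1 h2 h3
    have c1 := card_union_le B (B.image fun y => x - y)
    have c2 := card_image_le (s := B) (f := fun y => x - y)
    obtain ⟨z, z1, z2, z3⟩ := fresh (x / 2 + 1) (a / 8) (B ∪ B.image fun y => x - y) (by omega)
    rw [mem_union, not_or] at z3
    refine ⟨{z, x - z}, fun y hy => ?_, ?_, ?_⟩
    · rw [mem_insert, mem_singleton] at hy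
      rw [mem_Ico]
      omega
    · rw [disjoint_insert_left, disjoint_singleton_left]
      exact ⟨z3.1, fun h => z3.2 (mem_image.2 ⟨_, h, by omega⟩)⟩
    · rw [sum_pair (by omega)]
      omega
  | succ j ih =>
    intro x B h1 h2 h3
    have e : a * (j + 1 + 2) = a * (j + 2) + a := by ring
    have l : a * 2 ≤ a * (j + 2) := Nat.mul_le_mul_left _ (by omega)
    rw [e] at h1 h2
    generalize a * (j + 2) = p at h1 h2 l ih
    obtain ⟨z, z1, z2, z3⟩ := fresh (max a (x - 7 * p / 4)) (a / 8) B (by omega)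
    obtain ⟨S, s1, s2, s3⟩ := ih (x - z) (insert z B) (by omega) (by omega)
      (by rw [card_insert_of_notMem z3]; omega)
    rw [disjoint_insert_right] at s2
    refine ⟨insert z S, insert_subset (mem_Ico.2 (by omega)) s1,
      disjoint_insert_left.2 ⟨z3, s2.2⟩, ?_⟩
    rw [sum_insert s2.1, s3]
    omega

theorem card_le {a J : ℕ} {S : Finset ℕ} (ha : 0 < a) (h : ∀ y ∈ S, a ≤ y)
    (k : ∑ y ∈ S, y ≤ J * a) : S.card ≤ J :=
  Nat.le_of_mul_le_mul_right ((card_nsmul_le_sum S (fun y => y) a h).trans k) ha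

theorem many (hp : PickS) (a J T Q : ℕ) (x : ℕ → ℕ) (hx : ∀ j < Q, 4 * a ≤ x j ∧ x j ≤ J * a)
    (h : 100 * (Q * J + J + 2) ≤ a) : ∃ S : ℕ → Finset ℕ,
      (∀ j < Q, S j ⊆ Ico a (2 * a) ∧ T ∉ S j ∧ ∑ y ∈ S j, y = x j) ∧
      ∀ i < Q, ∀ j < i, Disjoint (S i) (S j) := by
  induction Q with
  | zero => exact ⟨fun _ => ∅, by omega, by omega⟩
  | succ Q ih =>
    rw [Nat.succ_mul Q] at h
    obtain ⟨S, s1, s2⟩ := ih (fun j hj => hx j (by omega)) (by omega)
    have c1 : ((range Q).biUnion S).card ≤ Q * J := by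
      have := card_biUnion_le_card_mul (range Q) S J fun j hj => by
        obtain ⟨b1, -, b2⟩ := s1 j (mem_range.1 hj)
        exact card_le (a := a) (by omega) (fun y hy => (mem_Ico.1 (b1 hy)).1)
          (b2 ▸ (hx j (by have := mem_range.1 hj; omega)).2)
      rwa [card_range] at this
    have c2 := card_insert_le T ((range Q).biUnion S)
    obtain ⟨R, r1, r2, r3⟩ := hp a (x Q) J (insert T ((range Q).biUnion S)) (hx Q (by omega)).1
      (hx Q (by omega)).2 (by omega)
    rw [disjoint_insert_right, disjoint_biUnion_right] at r2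
    refine ⟨fun j => if j = Q then R else S j, fun j hj => ?_, fun i hi j hj => ?_⟩ <;>
      beta_reduce
    · split_ifs with e
      · exact ⟨r1, r2.1, e ▸ r3⟩
      · exact s1 j (by omega)
    · rw [if_neg (show j ≠ Q by omega)]
      split_ifs with e
      · exact r2.2 j (mem_range.2 (by omega))
      · exact s2 i (by omega) j hj

end Pick

theorem pick : PickS := by
  intro a x J B h1 h2 h3
  have ha : 0 < 5 * a := by omega
  have e1 := Nat.div_add_mod (4 * x) (5 * a)
  have e2 := Nat.mod_lt (4 * x) ha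
  have e3 : 3 ≤ 4 * x / (5 * a) := (Nat.le_div_iff_mul_le ha).2 (by omega)
  have e4 : 4 * x / (5 * a) ≤ J := Nat.div_le_of_le_mul (by nlinarith)
  obtain ⟨j, hj⟩ : ∃ j, 4 * x / (5 * a) = j + 2 := ⟨4 * x / (5 * a) - 2, by omega⟩
  rw [hj] at e1 e3 e4
  have l : a * 3 ≤ a * (j + 2) := Nat.mul_le_mul_left _ e3
  rw [mul_assoc] at e1
  exact Pick.aux a j x B (by omega) (by omega) (by omega)

theorem med (hp : PickS) : MedS := by
  intro n Q Y J T d hd h1 h2 h3
  obtain ⟨Z, z1, z2, z3⟩ : ∃ Z, Z ≤ Y ∧ Y ≤ Z + 2 * Q + 1 ∧ ∀ j < Q, Z - 2 * j ≠ T := by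
    by_cases c : Y ≤ T + 2 * Q ∧ T ≤ Y
    · exact ⟨Y - 2 * Q - 1, by omega, by omega, fun j hj => by omega⟩
    · exact ⟨Y, by omega, by omega, fun j hj => by omega⟩
  obtain ⟨S, s1, s2⟩ := Pick.many hp (Y / 4) J T Q (fun j => d j - (Z - 2 * j))
    (fun j hj => by have := hd j hj; omega) h1
  have m : ∀ j < Q, ∀ y ∈ S j, Y / 4 ≤ y ∧ y < 2 * (Y / 4) := fun j hj y hy =>
    mem_Ico.1 ((s1 j hj).1 hy)
  have m' : ∀ j < Q, ∀ y ∈ insert (Z - 2 * j) (S j), Y / 4 ≤ y ∧ y ≤ Z - 2 * j :=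
    fun j hj y hy => by
      rcases mem_insert.1 hy with e | e
      · omega
      · have := m j hj y e
        omega
  have nm : ∀ i < Q, ∀ j < Q, Z - 2 * i ∉ S j := fun i hi j hj e => by
    have := m j hj _ e
    omega
  have dj : ∀ i < Q, ∀ j < i, Disjoint (insert (Z - 2 * i) (S i)) (insert (Z - 2 * j) (S j)) :=
    fun i hi j hj => by
      rw [disjoint_insert_left, disjoint_insert_right, mem_insert, not_or]
      exact ⟨⟨by omega, nm i hi j (by omega)⟩, nm j (by omega) i hi, s2 i hi j hj⟩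
  refine ⟨fun j => insert (Z - 2 * j) (S j), fun j => Z - 2 * j,
    ⟨fun i hi y hy => ?_, fun i hi j hj e => ?_, fun i _ => mem_insert_self _ _,
      fun j hj _ y hy => (m' j hj y hy).2, fun j hj i hi => by omega⟩, fun j hj => ?_⟩
  · have := m' i hi y hy
    rw [mem_Icc]
    omega
  · rcases lt_or_gt_of_ne e with k | k
    exacts [(dj j hj i k).symm, dj i hi j k]
  · obtain ⟨-, b1, b2⟩ := s1 j hj
    have b3 := hd j hj
    have b4 : ∑ y ∈ insert (Z - 2 * j) (S j), y = d j := by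
      rw [sum_insert (nm j hj j hj), b2]
      omega
    refine ⟨b4, ?_, fun y hy => ?_, ?_,
      Pick.card_le (a := Y / 4) (by omega) (fun y hy => (m' j hj y hy).1) (b4 ▸ b3.2)⟩
    · rw [mem_insert, not_or]
      exact ⟨(z3 j hj).symm, b1⟩
    · have := m' j hj y hy
      omega
    · rw [card_insert_of_notMem (nm j hj j hj)]
      have : (S j).Nonempty := by
        rw [nonempty_iff_ne_empty]
        intro e
        rw [e, sum_empty] at b2
        omega
      have := card_pos.2 this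
      omega

end Pool.Agent.MP_f65396_co.h15n
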