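import Pool.Agent.MP_f65396_co.h15n.SpecB

/-! The three ways to distribute the heights. -/

set_option autoImplicit false

namespace Pool.Agent.MP_f65396_co.h15n

open Finset

namespace Plan

theorem cut (c : ℕ → ℕ) (q : ℕ) : ∀ M : Finset ℕ, M.card ≤ ∑ i ∈ range q, c i →
    ∃ A : ℕ → Finset ℕ, (range q).biUnion A = M ∧
      (∀ i < q, ∀ j < q, i ≠ j → Disjoint (A i) (A j)) ∧ ∀ i < q, (A i).card ≤ c i := by
  induction q with
  | zero =>
    intro M h
    exact ⟨fun _ => ∅, by simpa using (card_eq_zero.1 (by simpa using h)).symm, by simp, by simp⟩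
  | succ q ih =>
    intro M h
    rw [sum_range_succ] at h
    obtain ⟨T, t1, t2⟩ := exists_subset_card_eq (s := M) (n := min (c q) M.card) (min_le_right _ _)
    obtain ⟨A, a1, a2, a3⟩ := ih (M \ T) (by rw [card_sdiff_of_subset t1]; omega)
    have s : ∀ i < q, Disjoint (A i) T := fun i hi =>
      disjoint_of_subset_left (a1 ▸ subset_biUnion_of_mem A (mem_range.2 hi)) sdiff_disjoint
    refine ⟨fun i => if i = q then T else A i, ?_, fun i hi j hj hij => ?_, fun i hi => ?_⟩
    · rw [range_add_one, biUnion_insert, if_pos rfl,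
        biUnion_congr rfl (t₂ := A) fun i hi => if_neg (mem_range.1 hi).ne, a1,
        union_sdiff_of_subset t1]
    · beta_reduce
      split_ifs with e1 e2 e2
      · omega
      · exact (s j (by omega)).symm
      · exact s i (by omega)
      · exact a2 i (by omega) j (by omega) hij
    · beta_reduce
      split_ifs with e
      · rw [e, t2]; exact min_le_left _ _
      · exact a3 i (by omega)

theorem num {n q S d0 d1 : ℕ} (hn : 10000 ≤ n) (hq : 10000 * q ≤ n + 1) (hS : 100 * S ≤ n)
    (h0 : 200 * d0 ≤ n * n) (ht : d0 + d1 = n * (n + 1) / 2)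
    (h1 : d1 ≤ 2 * (n + 1) * (S + q)) : False := by
  have a : n * (n + 1) ≤ 2 * (d0 + d1) + 1 := by omega
  have b : (n + 1) * (10000 * (S + q)) ≤ (n + 1) * (101 * n + 1) :=
    Nat.mul_le_mul_left _ (by omega)
  nlinarith

end Plan

theorem planM (ht : TopS) : PlanMS := by
  intro V _ n K q t1 t2 o D0 D1 hG h h1 h2
  obtain ⟨W, w1, w2, w3⟩ := ht V n K q 2 o D0 D1 ∅ (fun c => if c = 0 then t1 else t2)
    (fun _ => ∅) (fun _ => ∅) hG (empty_subset _) (by simp) le_rfl (fun _ => two_pos)
    (by ext; simp) (by simp) (by simp) (by simp) (by simp)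
    (fun c _ => by split_ifs <;> simpa) (by simpa [sum_range_succ] using h)
  have a := w1 0 two_pos
  have b := w1 1 one_lt_two
  refine ⟨W 0, W 1, a.1, b.1, w2 0 two_pos 1 one_lt_two zero_ne_one, by simpa using a.2.2.1,
    by simpa using b.2.2.1, by simpa using a.2.2.2, by simpa using b.2.2.2, ?_⟩
  have e : ∅ ∪ (range 2).biUnion W = W 0 ∪ W 1 := by
    simp [range_add_one, union_comm]
  exact e ▸ w3

theorem planA (ht : TopS) : PlanAS := by
  intro V _ n K q t o D0 D1 U hG hU hc h h1
  have hM : ((U.filter (fun y => 2 * q < y)).image (fun y => 2 * (n / 2) + 1 - y)).card ≤ U.card :=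
    card_image_le.trans (card_filter_le _ _)
  obtain ⟨W, w1, -, w3⟩ := ht V n K q 1 o D0 D1 U (fun _ => t) (fun _ => ∅)
    (fun _ => (U.filter (fun y => 2 * q < y)).image (fun y => 2 * (n / 2) + 1 - y)) hG hU hc
    one_le_two (fun _ => one_pos) (by ext; simp) (by simp) (by simp)
    (fun c hc d hd e => by omega) (by simp)
    (fun _ _ => (Nat.mul_le_mul_right _ (by omega)).trans h1) (by simpa using h)
  have a := w1 0 one_pos
  refine ⟨W 0, a.1, a.2.1, a.2.2.1,
    a.2.2.2.trans (Nat.add_le_add_right (Nat.mul_le_mul_right _ (by omega)) _), ?_⟩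
  simpa using w3

theorem planB (ht : TopS) : PlanBS := by
  intro V _ n K q o D0 D1 U hG hU hc h
  have hM : ((U.filter (fun y => 2 * q < y)).image (fun y => 2 * (n / 2) + 1 - y)).card ≤ U.card :=
    card_image_le.trans (card_filter_le _ _)
  have hK := hG.hK
  have hn : 10000 ≤ n := by have := hG.hn; omega
  have hq : 10000 * q ≤ n + 1 := by
    have := Nat.mul_le_mul_left q hK
    have := hG.qn
    omega
  have h0 : 200 * D0.card ≤ n * n := by
    have a : ∑ y ∈ U, y ≤ U.card * (n / 2) := by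
      simpa using sum_le_card_nsmul U (fun y => y) (n / 2) fun y hy => (mem_Icc.1 (hU hy)).2
    have b := Nat.mul_le_mul hc (show 2 * (n / 2) ≤ n by omega)
    rw [← h]
    nlinarith
  have h1 : D1.card ≤ 2 * (n + 1) * (∑ i ∈ range q, dout D1 (o i) / (2 * (n + 1)) + q) := by
    have a : D1 ⊆ (range q).biUnion fun i => D1.filter fun p => p.1 = o i := fun p hp =>
      let ⟨i, hi, e, _⟩ := hG.ow.tl p hp
      mem_biUnion.2 ⟨i, mem_range.2 hi, mem_filter.2 ⟨hp, e⟩⟩
    refine ((card_le_card a).trans card_biUnion_le).trans ?_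
    calc _ ≤ ∑ i ∈ range q, 2 * (n + 1) * (dout D1 (o i) / (2 * (n + 1)) + 1) :=
          sum_le_sum fun i _ => (Nat.lt_mul_div_succ (dout D1 (o i)) (by omega)).le
      _ = _ := by rw [← mul_sum, sum_add_distrib]; simp
  have hS : U.card ≤ ∑ i ∈ range q, dout D1 (o i) / (2 * (n + 1)) := by
    by_contra k
    exact Plan.num hn hq (by omega) h0 hG.tot h1
  obtain ⟨A, a1, a2, a3⟩ := Plan.cut _ q _ (hM.trans hS)
  obtain ⟨W, -, -, w3⟩ := ht V n K q 0 o D0 D1 U (fun _ => 0) A (fun _ => ∅) hG hU hc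
    (Nat.zero_le _) (fun e => by
      subst e
      exact (Plan.num hn hq (by simp) h0 hG.tot h1).elim)
    (by simpa using a1) a2 (by simp) (by simp)
    (fun i hi => (Nat.mul_le_mul_left _ (a3 i hi)).trans (Nat.mul_div_le _ _)) (by simp)
    (by simpa using h)
  simpa using w3

end Pool.Agent.MP_f65396_co.h15n
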