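import Pool.Agent.MP_f65396_co.h15n.SpecB
import Mathlib.Tactic.Linarith
import Mathlib.Tactic.Ring

/-! The blocks of the single edges. -/

set_option autoImplicit false

namespace Pool.Agent.MP_f65396_co.h15n

open Finset

namespace Rest

lemma fib {V : Type} [DecidableEq V] (D : Finset (V × V)) (S : Finset V) (q : V × V → Prop)
    [DecidablePred q] : (D.filter (fun p => p.1 ∈ S ∧ q p)).card =
      ∑ u ∈ S, (D.filter (fun p => p.1 = u ∧ q p)).card := by
  rw [card_eq_sum_card_fiberwise (f := Prod.fst) (t := S)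
    (fun p hp => mem_coe.2 (mem_filter.1 (mem_coe.1 hp)).2.1)]
  refine sum_congr rfl fun u hu => ?_
  congr 1
  ext p
  simp only [mem_filter]
  constructor
  · rintro ⟨⟨a, -, c⟩, d⟩
    exact ⟨a, d, c⟩
  · rintro ⟨a, b, c⟩
    exact ⟨⟨a, b ▸ hu, c⟩, b⟩

lemma fib0 {V : Type} [DecidableEq V] (D : Finset (V × V)) (S : Finset V) :
    (D.filter (fun p => p.1 ∈ S)).card = ∑ u ∈ S, dout D u := by
  have := fib D S (fun _ => True)
  simpa only [and_true, dout] using this

lemma card_two {α : Type} (E : Finset α) (blk col : α → ℕ) (Λ h : ℕ) (m : ℕ → ℕ)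
    (h1 : ∀ p ∈ E, blk p < Λ ∧ col p < m (blk p))
    (h2 : ∀ J < Λ, ∀ c < m J, (E.filter (fun p => blk p = J ∧ col p = c)).card = h) :
    E.card = h * ∑ J ∈ range Λ, m J := by
  rw [card_eq_sum_card_fiberwise (f := blk) (t := range Λ)
    (fun p hp => mem_coe.2 (mem_range.2 (h1 p (mem_coe.1 hp)).1)), mul_sum]
  refine sum_congr rfl fun J hJ => ?_
  rw [card_eq_sum_card_fiberwise (f := col) (t := range (m J)) (fun p hp => by
    obtain ⟨a, b⟩ := mem_filter.1 (mem_coe.1 hp)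
    exact mem_coe.2 (mem_range.2 (b ▸ (h1 p a).2)))]
  rw [sum_congr rfl (g := fun _ => h) (fun c hc => by
    rw [filter_filter]
    exact h2 J (mem_range.1 hJ) c (mem_range.1 hc))]
  rw [sum_const, card_range, smul_eq_mul, mul_comm]

lemma anti (U : Finset ℕ) (h : ℕ) : Antitone (kJ U h) := by
  intro I J hIJ
  refine card_le_card fun y hy => ?_
  obtain ⟨a, b⟩ := mem_filter.1 hy
  exact mem_filter.2 ⟨a, le_trans (Nat.mul_le_mul_right h (by omega)) b⟩

lemma big2 {R W LL t1 t2 Z : ℕ} (hR : 10 ≤ R) (e : t1 + t2 = W + LL) (h1 : t1 ≤ Z)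
    (h2 : R * Z ≤ (R - 10) * W) : R * LL + 10 * W ≤ R * t2 := by
  obtain ⟨Q, rfl⟩ := Nat.exists_eq_add_of_le hR
  rw [Nat.add_sub_cancel_left] at h2
  have h3 : (10 + Q) * t1 ≤ (10 + Q) * Z := Nat.mul_le_mul_left _ h1
  have h4 : (10 + Q) * (t1 + t2) = (10 + Q) * (W + LL) := by rw [e]
  nlinarith

lemma big3 {K W t2 s x : ℕ} (hK : 10000 ≤ K) (h1 : 10 * W ≤ 4 * K ^ 2 * t2)
    (h2 : s ≤ 4 * K ^ 3 * W) (h3 : K ^ 21 * x ≤ s) : 100 * x ≤ t2 := by
  have a : 160 ≤ K ^ 16 := le_trans (by omega) (Nat.le_self_pow (by norm_num) K)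
  have b : 16 * K ^ 5 * (100 * x) ≤ 16 * K ^ 5 * t2 := by
    calc 16 * K ^ 5 * (100 * x) = 10 * (K ^ 5 * 160 * x) := by ring
      _ ≤ 10 * (K ^ 5 * K ^ 16 * x) := by gcongr
      _ = 10 * (K ^ 21 * x) := by ring
      _ ≤ 10 * (4 * K ^ 3 * W) := Nat.mul_le_mul_left _ (h3.trans h2)
      _ = 4 * K ^ 3 * (10 * W) := by ring
      _ ≤ 4 * K ^ 3 * (4 * K ^ 2 * t2) := by gcongr
      _ = 16 * K ^ 5 * t2 := by ring
  exact Nat.le_of_mul_le_mul_left b (by positivity)

lemma bigA {R K A LL t2 x : ℕ} (hR : 160 ≤ R) (hK : 1 ≤ K) (h1 : R * K * A ≤ 4 * K * LL + R * x)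
    (h2 : LL ≤ t2) (h3 : 100 * x ≤ t2) : 20 * A ≤ t2 := by
  have b : R * K * (40 * A) ≤ R * K * (2 * t2) := by
    calc R * K * (40 * A) = 40 * (R * K * A) := by ring
      _ ≤ 40 * (4 * K * LL + R * x) := by gcongr
      _ = 160 * K * LL + R * 1 * (40 * x) := by ring
      _ ≤ R * K * t2 + R * K * t2 := by gcongr; omega
      _ = R * K * (2 * t2) := by ring
  have := Nat.le_of_mul_le_mul_left b (by positivity)
  omega

lemma bigB {R B z Ne Nt W t2 : ℕ} (hR : 22 ≤ R) (h1 : (R - 11) * B ≤ R * (z * Ne))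
    (h2 : 20 * R ^ 2 * Ne ≤ (20 * R + 1) * Nt) (h3 : R * (z * Nt) ≤ (R - 10) * W)
    (h4 : 10 * W ≤ R * t2) : 100 * B ≤ 21 * t2 := by
  have p : 0 < R := by omega
  have a : B ≤ 2 * (z * Ne) := by
    refine Nat.le_of_mul_le_mul_left ?_ p
    calc R * B ≤ (2 * (R - 11)) * B := by gcongr; omega
      _ = 2 * ((R - 11) * B) := by ring
      _ ≤ 2 * (R * (z * Ne)) := by gcongr
      _ = R * (2 * (z * Ne)) := by ring
  have b : 20 * R * Ne ≤ 21 * Nt := by
    refine Nat.le_of_mul_le_mul_left ?_ p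
    calc R * (20 * R * Ne) = 20 * R ^ 2 * Ne := by ring
      _ ≤ (20 * R + 1) * Nt := h2
      _ ≤ (21 * R) * Nt := by gcongr; omega
      _ = R * (21 * Nt) := by ring
  have c : z * Nt ≤ W := by
    refine Nat.le_of_mul_le_mul_left (h3.trans ?_) p
    gcongr
    omega
  refine Nat.le_of_mul_le_mul_left ?_ p
  calc R * (100 * B) ≤ R * (100 * (2 * (z * Ne))) := by gcongr
    _ = 10 * z * (20 * R * Ne) := by ring
    _ ≤ 10 * z * (21 * Nt) := by gcongr
    _ = 21 * (10 * (z * Nt)) := by ring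
    _ ≤ 21 * (10 * W) := by gcongr
    _ ≤ 21 * (R * t2) := by gcongr
    _ = R * (21 * t2) := by ring

lemma bigX {n h k k0 t2 : ℕ} (hk : 1 ≤ k) (hh : 10000 * k ≤ h) (hn : 10000 * k ≤ n)
    (h1 : k0 * n ≤ 3 * t2) :
    10000 * ((4 * (4 * n / (10000 * k)) + 1) * (h * k0 / (h / (30 * k)))) ≤ 1581 * t2 := by
  have y1 : 30 ≤ h / (30 * k) := (Nat.le_div_iff_mul_le (by omega)).2 (by omega)
  have y2 : h < 30 * k * (h / (30 * k) + 1) := Nat.lt_mul_div_succ h (by omega)
  have y3 : h ≤ h / (30 * k) * (31 * k) := by nlinarith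
  have a : h * k0 / (h / (30 * k)) ≤ 31 * k * k0 := by
    refine Nat.div_le_of_le_mul ?_
    calc h * k0 ≤ h / (30 * k) * (31 * k) * k0 := by gcongr
      _ = h / (30 * k) * (31 * k * k0) := by ring
  have b : 10000 * k * (4 * n / (10000 * k)) ≤ 4 * n := Nat.mul_div_le _ _
  calc 10000 * ((4 * (4 * n / (10000 * k)) + 1) * (h * k0 / (h / (30 * k))))
      ≤ 10000 * ((4 * (4 * n / (10000 * k)) + 1) * (31 * k * k0)) := by gcongr
    _ = 31 * k0 * (4 * (10000 * k * (4 * n / (10000 * k))) + 10000 * k) := by ring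
    _ ≤ 31 * k0 * (4 * (4 * n) + n) := by gcongr
    _ = 527 * (k0 * n) := by ring
    _ ≤ 527 * (3 * t2) := by gcongr
    _ = 1581 * t2 := by ring

end Rest

open Rest

theorem rest (hs : SlotS) (hcn : CountS) : RestS := by
  intro V _ n h k K R z a g β Sh D r ρ b U1 U2 ctr Ds blk col ψ P m0 pm m1 mu m2 m3 m4
  have hk := P.hk
  have hK : 10000 ≤ K := by rw [P.hK]; omega
  have hKh : K ≤ h := (Nat.le_self_pow (by norm_num) K).trans P.hh
  have hh : 0 < h := by omega
  have h300 : 300 * h ≤ n := by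
    refine le_trans ?_ P.h1
    calc 300 * h ≤ h ^ 3 * h := by
          gcongr
          exact le_trans (by omega) (Nat.le_self_pow (by norm_num) h)
      _ = h ^ 4 := by ring
  have hn : 0 < n := by omega
  have hR : 160 ≤ R := by
    have := Nat.le_self_pow (n := 2) (by norm_num) K
    rw [pm.hR]
    omega
  have ha : 0 < a := by rw [pm.ha]; positivity
  obtain ⟨cn1, cn2⟩ := hcn n h a U1 U2 hh ha mu.s1 mu.s2 mu.dj
  set H := hc n h a U1 U2 with hH
  set L := D \ (Ds ∪ H.image ψ) with hL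
  have cDs : Ds.card = h * ∑ J ∈ range (n / h), a * (kJ U1 h J / a) :=
    card_two Ds blk col (n / h) h (fun J => a * (kJ U1 h J / a))
      (fun p hp => ⟨(m3.s2 p hp).1, (m3.s2 p hp).2.1⟩) m3.s3
  have cP : (H.image ψ).card = H.card := card_image_of_injOn m4.p2
  have dj : Disjoint Ds (H.image ψ) := by
    refine disjoint_left.2 fun p hp hq => ?_
    obtain ⟨x, hx, e⟩ := mem_image.1 hq
    obtain ⟨s1, s2, s3, s4⟩ := m3.s2 p hp
    have c := (m2.c1 _ s1 _ (Nat.div_lt_of_lt_mul s2)).2.1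
    obtain ⟨-, q1, q2, -⟩ := m4.p1 x hx
    rw [e] at q1 q2
    rw [← s3] at c
    exact s4 (q2.trans (q1.symm.trans c))
  have sub : Ds ∪ H.image ψ ⊆ D := by
    refine union_subset m3.s1 fun p hp => ?_
    obtain ⟨x, hx, rfl⟩ := mem_image.1 hp
    exact (m4.p1 x hx).1
  have cL : L.card = h * ∑ J ∈ range (n / h), kJ U2 h J := by
    have e1 := card_sdiff_add_card_eq_card sub
    rw [card_union_of_disjoint dj, cDs, cP, ← mu.tot, cn1] at e1
    rw [hL]
    omega
  have LD : L ⊆ D := sdiff_subset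
  have dL : ∀ v, dtot L v ≤ 4 * n / K := by
    intro v
    refine (Nat.le_div_iff_mul_le (by omega)).2 ?_
    refine le_trans ?_ (m3.s5 v)
    rw [mul_comm]
    refine Nat.mul_le_mul_left _ (card_le_card (filter_subset_filter _ ?_))
    exact sdiff_subset_sdiff (Subset.refl _) subset_union_left
  set t2 := ∑ y ∈ U2, y with ht2
  set Nt := ∑ u ∈ Sh, r u with hNt
  set W := ∑ u ∈ Sh, dout D u with hW
  set LL := (D.filter (fun p => p.1 ∉ Sh)).card with hLL
  have eD : ∑ y ∈ U1, y + t2 = W + LL := by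
    rw [mu.tot, hW, ← fib0, hLL, card_filter_add_card_filter_not]
  have t1le : ∑ y ∈ U1, y ≤ z * Nt := by
    rw [mu.e1]
    refine Nat.div_le_of_le_mul ?_
    gcongr
    omega
  have zN : R * (z * Nt) ≤ (R - 10) * W := by
    rw [hNt, hW, mul_sum, mul_sum, mul_sum]
    exact sum_le_sum fun u hu => (pm.r2 u hu).1
  have f2 := big2 (by omega) eD t1le zN
  have f2a : LL ≤ t2 := Nat.le_of_mul_le_mul_left (le_trans (by omega) f2) (by omega : 0 < R)
  have f2b : 10 * W ≤ R * t2 := le_trans (by omega) f2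
  have f3 : 100 * (h * n) ≤ t2 := by
    refine big3 (W := W) (s := Sh.card * n) hK (pm.hR ▸ f2b) ?_ ?_
    · rw [hW, mul_sum, ← smul_eq_mul, ← sum_const]
      exact sum_le_sum fun u hu => (m0.o1 u hu).1
    · rw [← mul_assoc]
      exact Nat.mul_le_mul_right _ m0.many
  have hn2 : n ≤ h * n := Nat.le_mul_of_pos_left n hh
  have f4 : U2.card * n ≤ 3 * t2 := by
    have := mu.c2
    omega
  have f5 : 100 * (h * U2.card) ≤ t2 := by
    refine Nat.le_of_mul_le_mul_left ?_ hn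
    calc n * (100 * (h * U2.card)) = 100 * h * (U2.card * n) := by ring
      _ ≤ 100 * h * (3 * t2) := by gcongr
      _ = 300 * h * t2 := by ring
      _ ≤ n * t2 := by gcongr
  have k0 : kJ U2 h 0 ≤ U2.card := card_filter_le _ _
  have f6 : h * kJ U2 h 0 ≤ h * U2.card := Nat.mul_le_mul_left _ k0
  have f7 := bigX (n := n) (h := h) (k0 := kJ U2 h 0) (t2 := t2) hk (P.hK ▸ hKh)
    (by rw [← P.hK]; omega) ((Nat.mul_le_mul_right _ k0).trans f4)
  rw [← P.hK] at f7
  have f8 : 100 * (L.card / R) ≤ L.card :=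
    le_trans (Nat.mul_le_mul_right _ (by omega)) (Nat.mul_div_le _ R)
  have tcb : ∀ e, (L.filter (fun p => ρ p.1 = e ∨ ρ p.2 = e)).card ≤ t2 / 2 := by
    intro e
    by_cases he : e < R
    · have fA := bigA (x := h * n) hR (by omega) (mul_assoc R h n ▸ m1.t5 e) f2a f3
      have fB : 100 * (D.filter (fun p => p.1 ∈ Sh.filter (fun u => ρ u = e))).card ≤ 21 * t2 := by
        refine bigB (by omega) ?_ (m1.t3 e he).2 zN f2b
        rw [fib0, mul_sum, mul_sum, mul_sum]
        exact sum_le_sum fun u hu => (pm.r2 u (mem_filter.1 hu).1).2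
      have fC : 5 * (D.filter (fun p => p.1 ∈ Sh ∧ ρ p.2 = e)).card ≤ t2 := by
        have c : R * (D.filter (fun p => p.1 ∈ Sh ∧ ρ p.2 = e)).card ≤ 2 * W := by
          rw [fib, hW, mul_sum, mul_sum]
          exact sum_le_sum fun u hu => (m1.t4 u hu e he).2
        refine Nat.le_of_mul_le_mul_left ?_ (by omega : 0 < R)
        calc R * (5 * (D.filter (fun p => p.1 ∈ Sh ∧ ρ p.2 = e)).card)
            = 5 * (R * (D.filter (fun p => p.1 ∈ Sh ∧ ρ p.2 = e)).card) := by ring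
          _ ≤ R * t2 := by omega
      have sb : L.filter (fun p => ρ p.1 = e ∨ ρ p.2 = e) ⊆
          D.filter (fun p => p.1 ∉ Sh ∧ (ρ p.1 = e ∨ ρ p.2 = e)) ∪
          D.filter (fun p => p.1 ∈ Sh.filter (fun u => ρ u = e)) ∪
          D.filter (fun p => p.1 ∈ Sh ∧ ρ p.2 = e) := by
        intro p hp
        obtain ⟨p1, p2⟩ := mem_filter.1 hp
        have p3 := LD p1
        simp only [mem_union, mem_filter]
        by_cases c : p.1 ∈ Sh
        · rcases p2 with p2 | p2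
          · exact Or.inl (Or.inr ⟨p3, c, p2⟩)
          · exact Or.inr ⟨p3, c, p2⟩
        · exact Or.inl (Or.inl ⟨p3, c, p2⟩)
      have c1 := (card_le_card sb).trans ((card_union_le _ _).trans
        (Nat.add_le_add_right (card_union_le _ _) _))
      omega
    · rw [filter_false_of_mem, card_empty]
      · omega
      · intro p _ c
        have a1 := (m1.lt p.1).1
        have a2 := (m1.lt p.2).1
        omega
  have ypos : 0 < h / (30 * k) := Nat.div_pos (by have := P.hK; omega) (by omega)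
  obtain ⟨bl, b1, b2, b3⟩ := hs V L ρ h R (n / h) (h / (30 * k)) (4 * n / K) (t2 / 2) (kJ U2 h)
    (ctr 0 0) (anti U2 h) (by omega) ypos cL dL tcb (by
      rw [← cL] at cn2
      have : 1 ≤ h * n := by omega
      omega)
  refine ⟨bl, b1, b2, fun v J => ?_⟩
  exact (Nat.mul_le_mul_left _ (b3 v J)).trans (Nat.mul_div_le _ _)

end Pool.Agent.MP_f65396_co.h15n
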