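import Pool.Agent.MP_f65396_co.h15n.SpecB

/-! Blocks for the single edges. -/

set_option autoImplicit false

namespace Pool.Agent.MP_f65396_co.h15n

open Finset

namespace Slot

/-- The cells of the blocks. -/
def cs (Λ : ℕ) (f : ℕ → ℕ) : Finset (ℕ × ℕ) := (range Λ).biUnion fun J => {J} ×ˢ range (f J)

theorem mem_cs {Λ : ℕ} {f : ℕ → ℕ} {x : ℕ × ℕ} : x ∈ cs Λ f ↔ x.1 < Λ ∧ x.2 < f x.1 := by
  simp only [cs, mem_biUnion, mem_range, mem_product, mem_singleton]
  exact ⟨fun ⟨J, a, b, c⟩ => b ▸ ⟨a, c⟩, fun ⟨a, b⟩ => ⟨_, a, rfl, b⟩⟩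

theorem card_fib {Λ : ℕ} (f : ℕ → ℕ) {J : ℕ} (hJ : J < Λ) :
    ((cs Λ f).filter fun x => x.1 = J).card = f J := by
  have : ((cs Λ f).filter fun x => x.1 = J) = {J} ×ˢ range (f J) := by
    ext x
    simp only [mem_filter, mem_cs, mem_product, mem_singleton, mem_range]
    exact ⟨fun ⟨⟨_, b⟩, c⟩ => ⟨c, c ▸ b⟩, fun ⟨a, b⟩ => ⟨⟨a ▸ hJ, a ▸ b⟩, a⟩⟩
  rw [this, card_product, card_singleton, card_range, one_mul]

theorem card_cls (Λ : ℕ) (f : ℕ → ℕ) (P : ℕ → Prop) [DecidablePred P] :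
    ((cs Λ f).filter fun x => P x.1).card = ∑ J ∈ (range Λ).filter P, f J := by
  rw [card_eq_sum_card_fiberwise (f := Prod.fst) (t := (range Λ).filter P) fun x hx => by
    have := mem_filter.1 (mem_coe.1 hx)
    exact mem_coe.2 (mem_filter.2 ⟨mem_range.2 (mem_cs.1 this.1).1, this.2⟩)]
  refine sum_congr rfl fun J hJ => ?_
  rw [← card_fib f (mem_range.1 (mem_filter.1 hJ).1), filter_filter]
  exact congrArg card (filter_congr fun x _ =>
    ⟨And.right, fun e => ⟨e ▸ (mem_filter.1 hJ).2, e⟩⟩)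

theorem card_cs (Λ : ℕ) (f : ℕ → ℕ) : (cs Λ f).card = ∑ J ∈ range Λ, f J := by
  simpa using card_cls Λ f fun _ => True

theorem cls_le (ha : AntiS) {Λ R : ℕ} {f : ℕ → ℕ} (hf : Antitone f) (hR : 0 < R) (c : ℕ) :
    ((cs Λ f).filter fun x => x.1 % R = c).card ≤ (∑ J ∈ range Λ, f J) / R + f 0 := by
  rw [card_cls Λ f fun J => J % R = c]
  by_cases hc : c < R
  · have h := (ha f R c Λ hf hc).1
    rw [← Nat.sub_le_iff_le_add, Nat.le_div_iff_mul_le hR, Nat.sub_mul, mul_comm _ R, mul_comm _ R]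
    omega
  · rw [filter_false_of_mem fun J _ (e : J % R = c) => hc (e ▸ Nat.mod_lt J hR), sum_empty]
    exact Nat.zero_le _

theorem lay_le {Λ y : ℕ} {f : ℕ → ℕ} (hf : Antitone f) {x0 : ℕ × ℕ} (h0 : x0 ∈ cs Λ f) :
    ((cs Λ f).filter fun x => x ≠ x0 ∧ (x.1, x.2 % y) = (x0.1, x0.2 % y)).card ≤ f 0 / y := by
  have b : ∀ x ∈ cs Λ f, x.2 / y ∈ range (f 0 / y + 1) := fun x hx =>
    mem_range.2 (Nat.lt_succ_of_le (Nat.div_le_div_right
      ((mem_cs.1 hx).2.le.trans (hf (Nat.zero_le _)))))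
  have inj : ∀ x x' : ℕ × ℕ, (x.1, x.2 % y) = (x'.1, x'.2 % y) → x.2 / y = x'.2 / y → x = x' :=
    fun x x' e e' => Prod.ext (Prod.mk.inj e).1 (by
      have e2 : x.2 % y = x'.2 % y := congrArg Prod.snd e
      rw [← Nat.div_add_mod x.2 y, ← Nat.div_add_mod x'.2 y, e', e2])
  refine (card_le_card_of_injOn (t := (range (f 0 / y + 1)).erase (x0.2 / y)) (fun x => x.2 / y)
    (fun x hx => ?_) fun x hx x' hx' e => ?_).trans ?_
  · have := mem_filter.1 (mem_coe.1 hx)
    exact mem_coe.2 (mem_erase.2 ⟨fun e => this.2.1 (inj _ _ this.2.2 e), b x this.1⟩)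
  · exact inj _ _ ((mem_filter.1 (mem_coe.1 hx)).2.2.trans
      (mem_filter.1 (mem_coe.1 hx')).2.2.symm) e
  · rw [card_erase_of_mem (b x0 h0), card_range]
    exact le_rfl

theorem nb_le {V : Type} [DecidableEq V] {L : Finset (V × V)} {Δ : ℕ} (h : ∀ v, dtot L v ≤ Δ)
    (e : V × V) :
    (L.filter fun p => ¬ Disjoint ({p.1, p.2} : Finset V) {e.1, e.2}).card ≤ 2 * Δ := by
  have h1 := h e.1
  have h2 := h e.2
  unfold dtot at h1 h2
  refine (card_le_card (t := L.filter (fun p => p.1 = e.1 ∨ p.2 = e.1) ∪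
    L.filter fun p => p.1 = e.2 ∨ p.2 = e.2) fun p hp => ?_).trans
    ((card_union_le _ _).trans (by omega))
  obtain ⟨a, b⟩ := mem_filter.1 hp
  obtain ⟨v, c, d⟩ := not_disjoint_iff.1 b
  simp only [mem_insert, mem_singleton] at c d
  simp only [mem_union, mem_filter, a, true_and]
  rcases c with rfl | rfl <;> tauto

end Slot

open Slot in
theorem slot (hs : SwapS) (ha : AntiS) : SlotS := by
  intro V _ L ρ h R Λ y Δ tc k v0 hk hR hy hL hΔ htc hlt
  have hf : Antitone fun J => h * k J := fun a b e => Nat.mul_le_mul_left h (hk e)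
  rw [mul_sum] at hL
  have hX := (card_cs Λ fun J => h * k J).trans hL.symm
  obtain ⟨ψ, b, p1, p2⟩ := hs (ℕ × ℕ) (V × V) Unit (ℕ × ℕ) V (cs Λ fun J => h * k J) L
    (fun _ => ()) (fun _ => ()) (fun x => (x.1, x.2 % y)) (fun p => {p.1, p.2})
    (fun v s => ρ v = s.1 % R) (fun _ => h * k 0 / y) (2 * Δ) (h * k 0 / y) (2 * Δ) (v0, v0)
    (fun _ => by simpa using hX)
    (fun x hx _ => le_trans (card_le_card fun _ hz => mem_filter.2
      ⟨(mem_filter.1 hz).1, (mem_filter.1 hz).2.2⟩) (lay_le hf hx))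
    (fun x hx => lay_le hf hx)
    (fun e _ => le_trans (card_le_card fun _ hz => mem_filter.2
      ⟨(mem_filter.1 hz).1, (mem_filter.1 hz).2.2⟩) (nb_le hΔ e))
    (fun e _ _ => le_trans (card_le_card fun _ hz => mem_filter.2
      ⟨(mem_filter.1 hz).1, (mem_filter.1 hz).2.2.2⟩) (nb_le hΔ e))
    (fun e _ x _ _ => by
      have a1 := cls_le ha (Λ := Λ) hf hR (ρ e.1)
      have a2 := cls_le ha (Λ := Λ) hf hR (ρ e.2)
      have a3 : ((cs Λ fun J => h * k J).filter fun x => () = () ∧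
          ∃ v ∈ ({e.1, e.2} : Finset V), ρ v = x.1 % R).card ≤ _ :=
        (card_le_card fun z hz => ?_).trans ((card_union_le _ _).trans (add_le_add a1 a2))
      · have a4 : (L.filter fun p => () = () ∧
            ∃ v ∈ ({p.1, p.2} : Finset V), ρ v = x.1 % R).card ≤ tc :=
          le_trans (card_le_card fun z hz => by simpa using hz) (htc (x.1 % R))
        have a5 : ((cs Λ fun J => h * k J).filter fun _ => () = ()).card = L.card := by
          simpa using hX
        rw [← hL] at a3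
        have a6 : (4 * Δ + 1) * (h * k 0 / y) =
            2 * Δ * (h * k 0 / y) + h * k 0 / y * (2 * Δ) + h * k 0 / y := by ring
        dsimp only at a3 ⊢
        omega
      · obtain ⟨c, -, v, d, e'⟩ := mem_filter.1 hz
        simp only [mem_insert, mem_singleton] at d
        simp only [mem_union, mem_filter, c, true_and]
        rcases d with rfl | rfl
        exacts [Or.inl e'.symm, Or.inr e'.symm])
  let g := Function.invFunOn ψ (cs Λ fun J => h * k J : Finset (ℕ × ℕ))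
  have g1 : ∀ p ∈ L, g p ∈ (cs Λ fun J => h * k J) ∧ ψ (g p) = p := fun p hp =>
    Function.invFunOn_pos (b.surjOn (mem_coe.2 hp))
  have g2 : ∀ x ∈ (cs Λ fun J => h * k J), g (ψ x) = x := fun x hx =>
    b.injOn.leftInvOn_invFunOn (mem_coe.2 hx)
  refine ⟨fun p => (g p).1, fun p hp => ?_, fun J hJ => ?_, fun v J => ?_⟩
  · obtain ⟨a, e⟩ := g1 p hp
    have := (p1 _ a).2
    rw [e] at this
    exact ⟨(mem_cs.1 a).1, this _ (by simp), this _ (by simp)⟩
  · rw [← card_fib (fun J => h * k J) hJ]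
    refine card_nbij' g ψ (fun p hp => ?_) (fun x hx => ?_) (fun p hp => ?_) fun x hx => ?_
    · have := mem_filter.1 (mem_coe.1 hp)
      exact mem_coe.2 (mem_filter.2 ⟨(g1 p this.1).1, this.2⟩)
    · have := mem_filter.1 (mem_coe.1 hx)
      exact mem_coe.2 (mem_filter.2 ⟨b.mapsTo (mem_coe.2 this.1), (congrArg Prod.fst (g2 x this.1)).trans this.2⟩)
    · exact (g1 p (mem_filter.1 (mem_coe.1 hp)).1).2
    · exact g2 x (mem_filter.1 (mem_coe.1 hx)).1
  · rw [← card_range y]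
    refine card_le_card_of_injOn (fun p => (g p).2 % y)
      (fun p _ => mem_coe.2 (mem_range.2 (Nat.mod_lt _ hy))) fun p hp p' hp' e => ?_
    obtain ⟨a, a1, a2⟩ := mem_filter.1 (mem_coe.1 hp)
    obtain ⟨c, c1, c2⟩ := mem_filter.1 (mem_coe.1 hp')
    by_contra n
    have := p2 _ (g1 p a).1 _ (g1 p' c).1
      (fun e => n ((g1 p a).2.symm.trans (e ▸ (g1 p' c).2))) (Prod.ext (a1.trans c1.symm) e)
    rw [(g1 p a).2, (g1 p' c).2] at this
    refine disjoint_left.1 this (show v ∈ _ from ?_) ?_ <;>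
      simp only [mem_insert, mem_singleton] <;> tauto

end Pool.Agent.MP_f65396_co.h15n
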