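import Pool.Agent.MP_f65396_co.h15n.SpecA

/-! Classes of heights with prescribed sums and prescribed parts. -/

set_option autoImplicit false

namespace Pool.Agent.MP_f65396_co.h15n

open Finset

namespace Split

theorem gauss (n : ℕ) : ∑ x ∈ Icc 1 n, x = n * (n + 1) / 2 := by
  have : 2 * ∑ x ∈ Icc 1 n, x = n * (n + 1) := by
    induction n with
    | zero => simp
    | succ n ih => rw [sum_Icc_succ_top (by omega), mul_add, ih]; ring
  omega

end Split

theorem splitS : SplitS := by
  intro ι _ n σ C big _ pre t c0 hσ hc0 hb0 hpre hdj hsum hsm hbg hroom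
  obtain ⟨E, hE, hE1, hE2⟩ : ∃ E : Finset ℕ, (∀ y, y ∈ E ↔ y = n ∧ n % 2 = 1) ∧ E.card ≤ 1 ∧
      ∑ y ∈ E, y ≤ σ := by
    by_cases h : n % 2 = 1
    · exact ⟨{n}, by simp [h], by simp, by rw [sum_singleton]; omega⟩
    · exact ⟨∅, by simp [h], by simp, by simp⟩
  let ex : ι → Finset ℕ := fun c => if c = c0 then E else ∅
  have hex : ∀ c y, y ∈ ex c ↔ c = c0 ∧ y ∈ E := fun c y => by
    by_cases h : c = c0 <;> simp [ex, h]
  have hex1 : ∀ c, (ex c).card ≤ 1 ∧ ∑ y ∈ ex c, y ≤ σ := fun c => by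
    by_cases h : c = c0 <;> simp [ex, h, hE1, hE2]
  have hI : Icc 1 n = Icc 1 (2 * (n / 2)) ∪ E := by
    ext y
    simp only [mem_union, mem_Icc, hE]
    omega
  have hID : Disjoint (Icc 1 (2 * (n / 2))) E := disjoint_left.2 fun y a b => by
    rw [mem_Icc] at a
    have := (hE y).1 b
    omega
  have e1 : σ - 2 * (n / 2) = 1 := by omega
  have hcard : (((C.filter big).disjSum C).filter fun x => x.isLeft = true).card =
      (C.filter big).card := by
    have : (((C.filter big).disjSum C).filter fun x => x.isLeft = true) =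
        (C.filter big).map Function.Embedding.inl := by
      ext x
      rcases x with c | c <;> simp
    rw [this, card_map]
  obtain ⟨cls, h1, h2⟩ := h32.split (2 * (n / 2)) σ (by omega) (by omega) (by omega)
    ((C.filter big).disjSum C) (fun x => x.isLeft = true)
    ⟨.inl c0, by simp [hc0, hb0], rfl⟩
    (Sum.elim (fun c => t c - ∑ y ∈ pre c, y - ∑ y ∈ ex c, y) fun c => ∑ y ∈ pre c, y)
    (Sum.elim (fun _ => ∅) pre) (C.biUnion pre)
    (by
      have a1 : ∑ c ∈ C.filter big, t c = ∑ c ∈ C.filter big,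
          ((t c - ∑ y ∈ pre c, y - ∑ y ∈ ex c, y) + ∑ y ∈ pre c, y + ∑ y ∈ ex c, y) :=
        sum_congr rfl fun c hc => by
          have := hbg c (mem_filter.1 hc).1 (mem_filter.1 hc).2
          have := (hex1 c).2
          omega
      have a2 : ∑ c ∈ C.filter big, ∑ y ∈ ex c, y = ∑ y ∈ E, y := by
        rw [sum_eq_single_of_mem c0 (mem_filter.2 ⟨hc0, hb0⟩) fun c _ h => by simp [ex, h]]
        simp [ex]
      have a3 : ∑ c ∈ C.filter (fun c => ¬ big c), ∑ y ∈ pre c, y =
          ∑ c ∈ C.filter (fun c => ¬ big c), t c :=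
        sum_congr rfl fun c hc => hsm c (mem_filter.1 hc).1 (mem_filter.1 hc).2
      have a4 := sum_filter_add_sum_filter_not C big t
      have a5 : ∑ c ∈ C.filter big, ∑ y ∈ pre c, y + ∑ c ∈ C.filter (fun c => ¬ big c),
          ∑ y ∈ pre c, y = ∑ c ∈ C, ∑ y ∈ pre c, y := sum_filter_add_sum_filter_not _ _ _
      have a6 := Split.gauss n
      rw [hI, sum_union hID] at a6
      simp only [sum_add_distrib] at a1
      rw [sum_disjSum, e1]
      simp only [Sum.elim_inl, Sum.elim_inr]
      rw [a2] at a1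
      rw [← a3, a1, hsum, ← a6] at a4
      rw [← a5]
      clear a1 a2 a3 a5 a6 hsum
      omega)
    (by
      rintro (c | c) hc hb
      · have hc' := mem_filter.1 (inl_mem_disjSum.1 hc)
        have := hbg c hc'.1 hc'.2
        have := (hex1 c).2
        simp only [Sum.elim_inl]
        omega
      · simp at hb)
    (by
      rintro (c | c) _ hb
      · simp at hb
      · exact ⟨le_rfl, Nat.ModEq.refl _⟩)
    (by simp)
    (fun x hx => by
      obtain ⟨c, hc, h⟩ := mem_biUnion.1 hx
      exact ⟨(hpre c hc x h).1, (hpre c hc x h).2.1⟩)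
    (by
      rintro (c | c) hc (d | d) hd a b e
      · simp at a
      · simp at a
      · simp at b
      · exact hdj c (inr_mem_disjSum.1 hc) d (inr_mem_disjSum.1 hd) fun h => e (by rw [h]))
    (by
      rw [sdiff_eq_empty_iff_subset.2, card_empty]
      · omega
      intro x hx
      obtain ⟨y, hy, rfl⟩ := mem_image.1 hx
      obtain ⟨c, hc, h⟩ := mem_biUnion.1 hy
      exact mem_biUnion.2 (hpre c hc y h).2.2)
    (by rw [hcard]; exact hroom)
  rw [e1] at h2
  let K : ι ⊕ ι → Finset ℕ := fun x => (Icc 1 (2 * (n / 2))).filter fun h => cls h = x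
  have k1 : ∀ c ∈ C, K (.inr c) = pre c := fun c hc => by
    obtain ⟨q, -, -, -, h⟩ := h2 (.inr c) (inr_mem_disjSum.2 hc)
    obtain ⟨a, b, d⟩ := h (by simp)
    simp only [Sum.elim_inr] at a b d
    have : q = 0 := by
      have : q * σ = 0 := by omega
      exact (Nat.mul_eq_zero.1 this).resolve_right (by omega)
    exact (eq_of_subset_of_card_le a (by omega)).symm
  have k2 : ∀ c, ¬ big c → K (.inl c) = ∅ := fun c hb =>
    filter_false_of_mem fun y _ e => hb (mem_filter.1 (inl_mem_disjSum.1 (e ▸ h1 y))).2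
  have k3 : ∀ c, ¬ big c → ex c = ∅ := fun c hb => if_neg fun e : c = c0 => hb (e ▸ hb0)
  have mem : ∀ c y, y ∈ K (.inl c) ∪ K (.inr c) ∪ ex c ↔ (y ∈ Icc 1 (2 * (n / 2)) ∧
      (cls y = .inl c ∨ cls y = .inr c)) ∨ (c = c0 ∧ y ∈ E) := fun c y => by
    simp only [mem_union, K, mem_filter, hex, and_or_left]
  have ks : ∀ c, ∑ y ∈ K (.inl c) ∪ K (.inr c) ∪ ex c, y =
      ∑ y ∈ K (.inl c), y + ∑ y ∈ K (.inr c), y + ∑ y ∈ ex c, y := fun c => by
    rw [sum_union, sum_union]
    · exact disjoint_left.2 fun y a b => by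
        have := (mem_filter.1 a).2.symm.trans (mem_filter.1 b).2
        simp at this
    · exact disjoint_left.2 fun y a b => disjoint_left.1 hID
        ((mem_union.1 a).elim (fun h => (mem_filter.1 h).1) fun h => (mem_filter.1 h).1)
        ((hex c y).1 b).2
  refine ⟨fun c => K (.inl c) ∪ K (.inr c) ∪ ex c, ?_, fun c _ d _ e => ?_,
    fun c hc => ⟨?_, ?_, fun e y hy => ?_⟩, fun c hc hb => ?_, fun c hc hb => ?_⟩
  · ext y
    rw [mem_biUnion, hI, mem_union]
    simp only [mem]
    constructor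
    · rintro ⟨c, -, h | h⟩
      exacts [Or.inl h.1, Or.inr h.2]
    · rintro (h | h)
      · have := h1 y
        rcases e : cls y with c | c <;> rw [e] at this
        · exact ⟨c, (mem_filter.1 (inl_mem_disjSum.1 this)).1, Or.inl ⟨h, Or.inl rfl⟩⟩
        · exact ⟨c, inr_mem_disjSum.1 this, Or.inl ⟨h, Or.inr rfl⟩⟩
      · exact ⟨c0, hc0, Or.inr ⟨rfl, h⟩⟩
  · refine disjoint_left.2 fun y a b => e ?_
    rcases (mem c y).1 a with a | a <;> rcases (mem d y).1 b with b | b
    · rcases a.2 with a | a <;> rcases b.2 with b | b <;> simp_all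
    · exact absurd b.2 (disjoint_left.1 hID a.1)
    · exact absurd a.2 (disjoint_left.1 hID b.1)
    · exact a.1.trans b.1.symm
  · exact fun y hy => mem_union_left _ (mem_union_right _ ((k1 c hc).symm ▸ hy))
  · rw [ks, k1 c hc]
    by_cases hb : big c
    · obtain ⟨q, a, -⟩ := h2 (.inl c) (inl_mem_disjSum.2 (mem_filter.2 ⟨hc, hb⟩))
      have := hbg c hc hb
      have := (hex1 c).2
      simp only [Sum.elim_inl] at a
      simp only [K]
      omega
    · rw [k2 c hb, k3 c hb, hsm c hc hb]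
      simp
  · rcases (mem c y).1 hy with h | h
    · have := mem_Icc.1 h.1
      omega
    · exact absurd h.1 e
  · change K (.inl c) ∪ K (.inr c) ∪ ex c = pre c
    rw [k1 c hc, k2 c hb, k3 c hb, empty_union, union_empty]
  · obtain ⟨q, -, a, b, -⟩ := h2 (.inl c) (inl_mem_disjSum.2 (mem_filter.2 ⟨hc, hb⟩))
    obtain ⟨b1, b2, b3⟩ := b rfl
    have := hbg c hc hb
    have := hex1 c
    simp only [Sum.elim_inl] at b2 b3
    refine ⟨q, ?_, by omega, by rw [add_mul]; omega, a.trans (card_le_card fun y hy => ?_)⟩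
    · change (K (.inl c) ∪ K (.inr c) ∪ ex c).card ≤ _
      have d1 := card_union_le (K (.inl c) ∪ K (.inr c)) (ex c)
      have d2 := card_union_le (K (.inl c)) (K (.inr c))
      have d3 := congrArg card (k1 c hc)
      have d4 : (K (.inl c)).card ≤ 5 + 2 * q := b1
      omega
    · have := (mem_filter.1 hy).2
      exact mem_filter.2 ⟨mem_union_left _ (mem_union_left _ (mem_filter.1 hy).1), by omega⟩

end Pool.Agent.MP_f65396_co.h15n
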