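import Pool.Agent.MP_f65396_co.h15n.SpecB

/-! The arcs of the complete stars. -/

set_option autoImplicit false

namespace Pool.Agent.MP_f65396_co.h15n

open Finset
open Pool.Agent.MP_f65396_co.h32 (rk rk_surj rk_inj rk_lt_card)

namespace StarA

theorem dv {x h y : ℕ} (h0 : 0 < h) : x / h = y ↔ x ∈ Ico (y * h) (y * h + h) := by
  rw [mem_Ico, Nat.div_eq_iff h0]
  omega

variable {n h k K : ℕ}

theorem num (p : Par n h k K) : 10000 ≤ K ∧ 0 < h ∧ 4 * K * h ≤ n := by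
  have a : 10000 ≤ K := by
    have := p.hk
    have := p.hK
    omega
  have b : K ^ 2 ≤ h := (Nat.pow_le_pow_right (by omega) (by norm_num)).trans p.hh
  have c : 0 < h := lt_of_lt_of_le (by positivity) b
  refine ⟨a, c, le_trans ?_ ((Nat.pow_le_pow_right c (by norm_num : 2 ≤ 4)).trans p.h1)⟩
  rw [sq h]
  exact Nat.mul_le_mul_right _ (le_trans (by nlinarith) b)

theorem expo (p : Par n h k K) {c : ℕ} (hc : c ≤ n * (n + 1) / 2) :
    2 * ((c : ℝ) * (range (n / h + 1)).card) < Real.exp (1 / (100 * k) * (h / (100 * k))) := by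
  obtain ⟨a, b, d⟩ := num p
  refine lt_of_le_of_lt ?_ (p.ex.trans_le (Real.exp_le_exp.2 ?_))
  · have n1 : 1 ≤ n := le_trans (Nat.succ_le_of_lt (by positivity)) d
    have c2 : c ≤ n * n := hc.trans (Nat.div_le_of_le_mul (by nlinarith))
    have : 2 * (c * (n / h + 1)) ≤ 8 * n ^ 3 * K ^ 14 :=
      calc _ ≤ 2 * (n * n * (4 * n)) * 1 := by
            have := Nat.div_le_self n h
            rw [mul_one]
            gcongr
            omega
        _ ≤ _ := Nat.mul_le_mul (le_of_eq (by ring)) (Nat.one_le_pow _ _ (by omega))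
    rw [card_range]
    exact_mod_cast this
  · have : (1 : ℝ) ≤ k := by exact_mod_cast p.hk
    rw [p.hK, div_mul_div_comm, one_mul]
    push_cast
    exact div_le_div_of_nonneg_left (by positivity) (by positivity) (by nlinarith)

theorem ar {R s x y q : ℕ} (hR : 11 ≤ R) (h1 : R * s ≤ 2 * (s + x)) (h2 : R * y ≤ (R - 10) * (s + x))
    (h3 : (R - 11) * (s + x) ≤ R * y) (h4 : (R - 1) * y ≤ R * q) :
    y ≤ x ∧ s ≤ x ∧ R * (s + x) ≤ R * q + 12 * (s + x) := by
  obtain ⟨T, rfl⟩ := Nat.exists_eq_add_of_le' hR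
  rw [show T + 11 - 10 = T + 1 from rfl] at h2
  rw [Nat.add_sub_cancel] at h3
  rw [show T + 11 - 1 = T + 10 from rfl] at h4
  refine ⟨Nat.le_of_mul_le_mul_left (c := T + 11) (by nlinarith) (by omega), by nlinarith,
    Nat.le_of_mul_le_mul_left (c := T + 11) ?_ (by omega)⟩
  nlinarith [Nat.mul_le_mul_left (T + 10) h3, Nat.mul_le_mul_left (T + 11) h4]

theorem f4 {N : ℕ} {S : ℝ} (hk : 1 ≤ k) (h1 : N ≤ (1 + 1 / (100 * k)) * S + h / (100 * k))
    (h2 : S ≤ (1 - 2 / (5 * k)) * h) : 3 * k * N ≤ (3 * k - 1) * h := by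
  have a : (1 : ℝ) ≤ k := by exact_mod_cast hk
  have b : (N : ℝ) ≤ (1 + 1 / (100 * k)) * ((1 - 2 / (5 * k)) * h) + h / (100 * k) :=
    h1.trans (by gcongr)
  have c : (3 * k * N : ℝ) ≤ (3 * k - 1) * h := by
    have h0 : (0 : ℝ) ≤ h := h.cast_nonneg
    field_simp at b
    nlinarith [mul_nonneg h0 (sub_nonneg.2 a)]
  zify [show 1 ≤ 3 * k by omega]
  exact_mod_cast c

theorem f5 {N c x y : ℕ} {S : ℝ} (p : Par n h k K)
    (h1 : N ≤ (1 + 1 / (100 * k)) * S + h / (100 * k)) (h2 : S ≤ c * (24 / (4 * K ^ 2 : ℕ)))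
    (h3 : 4 * k * c ≤ (2 * k - 1) * n) (h4 : 4 * K ^ 2 * x ≤ 2 * n + 4 * K ^ 2 * h)
    (h5 : 4 * K ^ 2 * y ≤ 12 * (K * n)) : K * (y + (x + N)) ≤ 4 * n := by
  obtain ⟨a, -, d⟩ := num p
  have k1 : (1 : ℝ) ≤ k := by exact_mod_cast p.hk
  have c1 : 2 * c ≤ n := Nat.le_of_mul_le_mul_left (c := 2 * k)
    ((le_of_eq (by ring)).trans (h3.trans (Nat.mul_le_mul_right _ (Nat.sub_le _ _))))
    (by have := p.hk; omega)
  have b : (N : ℝ) ≤ 2 * (c * (24 / (4 * K ^ 2 : ℕ))) + h := by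
    refine h1.trans (add_le_add ((mul_le_mul_of_nonneg_left h2 (by positivity)).trans
      (mul_le_mul_of_nonneg_right ?_ (by positivity))) (div_le_self h.cast_nonneg (by linarith)))
    linarith [div_le_self zero_le_one (show (1 : ℝ) ≤ 100 * k by linarith)]
  have e : 4 * K ^ 2 * N ≤ 48 * c + 4 * K ^ 2 * h := by
    have : (0 : ℝ) < (4 * K ^ 2 : ℕ) := by positivity
    field_simp at b
    have : ((4 * K ^ 2 : ℕ) * N : ℝ) ≤ 48 * c + (4 * K ^ 2 : ℕ) * h := by linarith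
    exact_mod_cast this
  refine Nat.le_of_mul_le_mul_left (c := 4 * K) ?_ (by omega)
  nlinarith [Nat.mul_le_mul_left (2 * K) d, Nat.mul_le_mul_right n a]

end StarA

open StarA in
theorem star (hs : ShiftS) : StarS := by
  intro V _ n h k K R z a g β Sh D r ρ b U1 ctr pa m0 pm m1 m2
  obtain ⟨hK, h0, -⟩ := num pa
  have a0 : 0 < a := by rw [pm.ha]; positivity
  have ha : 0 < h * a := mul_pos h0 a0
  have k1 : (1 : ℝ) ≤ k := by exact_mod_cast pa.hk
  obtain ⟨P, mP, cP⟩ : ∃ P : V → Finset ℕ,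
      (∀ u J, J ∈ P u ↔ J < n / h ∧ ∃ i < kJ U1 h J / a, ctr J i = u) ∧ ∀ u ∈ Sh,
        (P u).card * (h * a) ≤ z * r u ∧ (R - 1) * (z * r u) ≤ R * ((P u).card * (h * a)) :=
    ⟨_, fun u J => by rw [mem_filter, mem_range], m2.c2⟩
  obtain ⟨X, mX, cX⟩ : ∃ X : V → Finset V, (∀ u w, w ∈ X u ↔ (u, w) ∈ D ∧ ρ w ≠ ρ u) ∧ ∀ u ∈ Sh,
      z * r u ≤ (X u).card ∧ (X u).card ≤ dout D u ∧ dout D u ≤ 2 * (X u).card ∧
        R * dout D u ≤ R * ((P u).card * (h * a)) + 12 * dout D u := by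
    refine ⟨fun u => (D.filter fun p => p.1 = u ∧ ¬ ρ p.2 = ρ u).image Prod.snd,
      fun u w => by simp, fun u hu => ?_⟩
    have e : dout D u = (D.filter fun p => p.1 = u ∧ ρ p.2 = ρ u).card +
        ((D.filter fun p => p.1 = u ∧ ¬ ρ p.2 = ρ u).image Prod.snd).card := by
      rw [card_image_of_injOn fun p hp q hq e => Prod.ext
        ((mem_filter.1 hp).2.1.trans (mem_filter.1 hq).2.1.symm) e, ← filter_filter,
        ← filter_filter, card_filter_add_card_filter_not, dout]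
    have t := (m1.t4 u hu _ (m1.lt u).1).2
    obtain ⟨r1, r2⟩ := pm.r2 u hu
    rw [e] at t r1 r2 ⊢
    obtain ⟨x1, x2, x3⟩ := ar (by rw [pm.hR]; nlinarith) t r1 r2 (cP u hu).2
    exact ⟨x1, Nat.le_add_left _ _, (Nat.add_le_add_right x2 _).trans_eq (two_mul _).symm, x3⟩
  have : ∀ u i, ∃ J, (i < (P u).card * (h * a) → J ∈ P u ∧ rk (P u) J = i / (h * a)) ∧
      ((P u).card * (h * a) ≤ i → J = n / h) := fun u i => by
    rcases lt_or_ge i ((P u).card * (h * a)) with c | c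
    · obtain ⟨J, j⟩ := rk_surj (P u) ((Nat.div_lt_iff_lt_mul ha).2 c)
      exact ⟨J, fun _ => j, fun d => by omega⟩
    · exact ⟨_, fun d => by omega, fun _ => rfl⟩
  choose lab l1 l2 using this
  have : ∀ J u, ∃ i, J ∈ P u → i < kJ U1 h J / a ∧ ctr J i = u := fun J u => by
    by_cases c : J ∈ P u
    · exact ((mP u J).1 c).2.imp fun _ d _ => d
    · exact ⟨0, fun d => (c d).elim⟩
  choose ix hix using this
  obtain ⟨pos, p1, p2⟩ := hs V Sh (D.image Prod.snd) X lab (range (n / h + 1)) (1 / (100 * k))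
    (h / (100 * k)) (by positivity) (div_le_self zero_le_one (by linarith))
    (expo pa (card_image_le.trans m0.tot))
  have p3 := fun w J (hJ : J ≤ n / h) (p : V × V) (hp : p ∈ D) (e : p.2 = w) =>
    p2 w (mem_image.2 ⟨p, hp, e⟩) J (mem_range.2 (Nat.lt_succ_of_le hJ))
  obtain ⟨Ds, mD⟩ : ∃ Ds : Finset (V × V), ∀ p, p ∈ Ds ↔ p ∈ D ∧ p.1 ∈ Sh ∧ ρ p.2 ≠ ρ p.1 ∧
      pos p.1 p.2 < (P p.1).card * (h * a) := ⟨D.filter _, fun p => mem_filter⟩
  have s2 : ∀ p ∈ Ds, lab p.1 (pos p.1 p.2) ∈ P p.1 ∧ _ := fun p hp => l1 _ _ ((mD p).1 hp).2.2.2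
  have sj : ∀ u ∈ Sh, ∀ x < (P u).card * (h * a), ∃ w, (u, w) ∈ Ds ∧ pos u w = x :=
    fun u hu x hx => by
      obtain ⟨w, w1, w2⟩ := (p1 u hu).surjOn
        (mem_coe.2 (mem_range.2 (hx.trans_le ((cP u hu).1.trans (cX u hu).1))))
      exact ⟨w, (mD _).2 ⟨((mX u w).1 w1).1, hu, ((mX u w).1 w1).2, w2 ▸ hx⟩, w2⟩
  have cd : ∀ i x, (i * a + x % a) / a = i := fun i x => (dv a0).2
    (mem_Ico.2 ⟨Nat.le_add_right _ _, Nat.add_lt_add_left (Nat.mod_lt _ a0) _⟩)
  refine ⟨Ds, fun p => lab p.1 (pos p.1 p.2),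
    fun p => ix (lab p.1 (pos p.1 p.2)) p.1 * a + pos p.1 p.2 / h % a, fun p hp => ((mD p).1 hp).1,
    fun p hp => ?_, fun J hJ c hc => ?_, fun w J => ?_, fun v => ?_⟩
  · obtain ⟨i1, i2⟩ := hix _ _ (s2 p hp).1
    have j := ((mP _ _).1 (s2 p hp).1).1
    refine ⟨j, ?_, by rw [cd, i2], ?_⟩
    · rwa [mul_comm a, ← Nat.div_lt_iff_lt_mul a0, cd]
    · rw [← (m2.c1 _ j _ i1).2.1, i2]
      exact ((mD p).1 hp).2.2.1
  · have i1 : c / a < kJ U1 h J / a := Nat.div_lt_of_lt_mul hc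
    obtain ⟨u1, -, u3⟩ := m2.c1 J hJ _ i1
    have uP : J ∈ P (ctr J (c / a)) := (mP _ _).2 ⟨hJ, _, i1, rfl⟩
    have q : ∀ p ∈ Ds.filter fun p => lab p.1 (pos p.1 p.2) = J ∧
        ix (lab p.1 (pos p.1 p.2)) p.1 * a + pos p.1 p.2 / h % a = c, p.1 = ctr J (c / a) :=
      fun p hp => by
        obtain ⟨d, rfl, rfl⟩ := mem_filter.1 hp
        rw [cd, (hix _ _ (s2 p d).1).2]
    refine (card_nbij (t := Ico ((rk (P (ctr J (c / a))) J * a + c % a) * h)
      ((rk (P (ctr J (c / a))) J * a + c % a) * h + h)) (fun p => pos p.1 p.2) (fun p hp => ?_)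
      (fun p hp p' hp' e => ?_) fun x hx => ?_).trans (by simp)
    · rw [← q p hp]
      obtain ⟨d, rfl, rfl⟩ := mem_filter.1 hp
      refine (dv h0).1 ?_
      rw [(s2 p d).2, Nat.mul_add_mod', Nat.mod_mod, ← Nat.div_div_eq_div_mul, Nat.div_add_mod']
    · have e1 := (q p hp).trans (q p' hp').symm
      obtain ⟨d1, d2, d3, -⟩ := (mD p).1 (mem_filter.1 hp).1
      obtain ⟨d4, -, d5, -⟩ := (mD p').1 (mem_filter.1 hp').1
      exact Prod.ext e1 ((p1 _ d2).injOn ((mX _ _).2 ⟨d1, d3⟩)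
        ((mX _ _).2 (e1 ▸ ⟨d4, d5⟩)) (e.trans (by rw [e1])))
    · have x1 := (dv h0).2 hx
      have x2 : x / (h * a) = rk (P (ctr J (c / a))) J := by rw [← Nat.div_div_eq_div_mul, x1, cd]
      obtain ⟨w, w1, rfl⟩ := sj _ u1 x ((Nat.div_lt_iff_lt_mul ha).1 (x2 ▸ rk_lt_card uP))
      have x3 := rk_inj (s2 _ w1).1 uP ((s2 _ w1).2.trans x2)
      refine ⟨_, mem_filter.2 ⟨w1, x3, ?_⟩, rfl⟩
      rw [x3, x1, Nat.mul_add_mod', Nat.mod_mod, ← u3 _ (hix _ _ uP).1 (hix _ _ uP).2.symm,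
        Nat.div_add_mod']
  · rcases (Ds.filter fun p => lab p.1 (pos p.1 p.2) = J ∧ p.2 = w).eq_empty_or_nonempty with
      e | ⟨p, hp⟩
    · simp [e]
    obtain ⟨d, e1, e2⟩ := mem_filter.1 hp
    have j : J < n / h := e1 ▸ ((mP _ _).1 (s2 p d).1).1
    refine f4 pa.hk ((Nat.cast_le.2 (card_le_card_of_injOn Prod.fst (fun p hp => ?_)
      fun p hp p' hp' e => Prod.ext e ((mem_filter.1 hp).2.2.trans (mem_filter.1 hp').2.2.symm))).trans
        (p3 w J j.le p ((mD p).1 d).1 e2)) (le_trans ?_ (m2.c3 w J j))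
    · obtain ⟨d, e1, rfl⟩ := mem_filter.1 hp
      obtain ⟨d1, d2, d3, -⟩ := (mD p).1 d
      exact mem_filter.2 ⟨d2, (mX _ _).2 ⟨d1, d3⟩, e1⟩
    rw [sum_filter, sum_filter]
    refine sum_le_sum fun u hu => ?_
    have lt : ∀ i, lab u i = J → i < (P u).card * (h * a) := fun i e =>
      lt_of_not_ge fun c => j.ne (e.symm.trans (l2 u i c))
    split_ifs with c1 c2 c2
    · have := card_pos.2 ⟨J, (mP u J).2 ⟨j, c2.2⟩⟩
      have z0 : 0 < z * r u := lt_of_lt_of_le (by positivity) (cP u hu).1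
      refine div_le_div₀ (by positivity) ?_ (by exact_mod_cast z0) (by exact_mod_cast (cX u hu).1)
      norm_cast
      refine (card_le_card (t := Ico (rk (P u) J * (h * a)) (rk (P u) J * (h * a) + h * a))
        fun i hi => (dv ha).1 ?_).trans (by simp)
      rw [← (l1 u i (lt i (mem_filter.1 hi).2)).2, (mem_filter.1 hi).2]
    · rw [filter_eq_empty_iff.2 fun i _ (e : lab u i = J) =>
        c2 ⟨((mX _ _).1 c1).1, ((mP u J).1 (e ▸ (l1 u i (lt i e)).1)).2⟩]
      simp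
    · positivity
    · rfl
  · by_cases hv : v ∈ Sh
    swap
    · exact (Nat.mul_le_mul_left _ (card_le_card (filter_subset_filter _ sdiff_subset))).trans
        ((m0.lw v hv).trans (by omega))
    have t6 := m1.t6 v (ρ v)
    have R0 : (0 : ℝ) < R := by rw [pm.hR]; positivity
    have o : R * ((D \ Ds).filter fun p => p.1 = v).card ≤ 12 * (K * n) := by
      have o1 : (P v).card * (h * a) ≤ (Ds.filter fun p => p.1 = v).card := by
        rw [← card_range (_ * _)]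
        refine card_le_card_of_surjOn (fun p => pos p.1 p.2) fun x hx => ?_
        obtain ⟨w, w1, w2⟩ := sj v hv x (mem_range.1 hx)
        exact ⟨_, mem_filter.2 ⟨w1, rfl⟩, w2⟩
      have o2 : ((D \ Ds).filter fun p => p.1 = v).card + (Ds.filter fun p => p.1 = v).card =
          dout D v := by
        rw [← card_union_of_disjoint (disjoint_filter_filter sdiff_disjoint), ← filter_union,
          sdiff_union_of_subset fun p hp => ((mD p).1 hp).1, dout]
      nlinarith [(cX v hv).2.2.2, (m0.o1 v hv).2, Nat.mul_le_mul_left R o1]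
    have s : ∑ u ∈ Sh.filter (fun u => v ∈ X u), (((range (X u).card).filter
        fun i => lab u i = n / h).card : ℝ) / (X u).card ≤
          (D.filter fun p => p.2 = v ∧ p.1 ∈ Sh).card * (24 / R) := by
      refine (sum_le_card_nsmul _ _ (24 / R : ℝ) fun u hu => ?_).trans ?_
      · obtain ⟨hu, c⟩ := mem_filter.1 hu
        obtain ⟨x1, x2, x3, x4⟩ := cX u hu
        rw [div_le_div_iff₀ (by exact_mod_cast card_pos.2 ⟨v, c⟩) R0]
        norm_cast
        have y : ((range (X u).card).filter fun i => lab u i = n / h).card ≤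
            (X u).card - (P u).card * (h * a) := by
          rw [← Nat.card_Ico]
          refine card_le_card fun i hi => mem_Ico.2 ⟨le_of_not_gt fun c => ?_,
            mem_range.1 (mem_filter.1 hi).1⟩
          exact ((mP _ _).1 (l1 u i c).1).1.ne (mem_filter.1 hi).2
        have y2 := Nat.mul_le_mul_left R ((Nat.le_sub_iff_add_le ((cP u hu).1.trans x1)).1 y)
        nlinarith [Nat.mul_le_mul_left R x2]
      · rw [nsmul_eq_mul]
        refine mul_le_mul_of_nonneg_right (Nat.cast_le.2 (card_le_card_of_injOn (fun u => (u, v))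
          (fun u hu => ?_) fun _ _ _ _ e => congrArg Prod.fst e)) (by positivity)
        exact mem_filter.2 ⟨((mX _ _).1 (mem_filter.1 hu).2).1, rfl, (mem_filter.1 hu).1⟩
    rw [pm.hR] at o s t6
    refine le_trans (Nat.mul_le_mul_left _ ?_) (f5 (N := (Sh.filter fun u =>
      v ∈ X u ∧ lab u (pos u v) = n / h).card) pa ?_ s (m0.i1 v) t6 o)
    swap
    · rcases (Sh.filter fun u => v ∈ X u ∧ lab u (pos u v) = n / h).eq_empty_or_nonempty with
        e | ⟨u, hu⟩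
      · rw [e, card_empty, Nat.cast_zero]
        exact add_nonneg (mul_nonneg (by positivity) (sum_nonneg fun _ _ => by positivity))
          (by positivity)
      · exact p3 v _ le_rfl (u, v) ((mX _ _).1 (mem_filter.1 hu).2.1).1 rfl
    rw [dtot, filter_or, ← card_image_of_injective (Sh.filter _) (f := fun u => (u, v))
      fun _ _ e => congrArg Prod.fst e]
    refine (card_union_le _ _).trans (Nat.add_le_add_left
      ((card_le_card fun p hp => ?_).trans (card_union_le _ _)) _)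
    obtain ⟨d, rfl⟩ := mem_filter.1 hp
    obtain ⟨d1, d2⟩ := mem_sdiff.1 d
    have d3 := m0.hd p d1 hv
    by_cases c : ρ p.2 = ρ p.1
    · exact mem_union_left _ (mem_filter.2 ⟨d1, rfl, d3, c.symm⟩)
    · exact mem_union_right _ (mem_image.2 ⟨p.1, mem_filter.2 ⟨d3, (mX _ _).2 ⟨d1, c⟩,
        l2 _ _ (le_of_not_gt fun e => d2 ((mD p).2 ⟨d1, d3, c, e⟩))⟩, rfl⟩)

end Pool.Agent.MP_f65396_co.h15n
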