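import Pool.Agent.MP_f65396_co.h15n.SpecA

/-! Placing objects into cells without conflicts. -/

set_option autoImplicit false

namespace Pool.Agent.MP_f65396_co.h15n

open Finset

namespace Swap

variable {α β γ δ V : Type}

/-- Bijections that keep the groups. -/
def Adm (X : Finset α) (E : Finset β) (gx : α → γ) (ge : β → γ) (ψ : α → β) : Prop :=
  Set.BijOn ψ X E ∧ ∀ x ∈ X, ge (ψ x) = gx x

/-- Cells with a conflict. -/
def Bad (X : Finset α) (κ : α → δ) (en : β → Finset V) (busy : V → δ → Prop) (ψ : α → β)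
    (x : α) : Prop :=
  (∃ v ∈ en (ψ x), busy v (κ x)) ∨ ∃ y ∈ X, y ≠ x ∧ κ y = κ x ∧ ¬Disjoint (en (ψ y)) (en (ψ x))

variable {X : Finset α} {E : Finset β} {gx : α → γ} {ge : β → γ} {κ : α → δ}
  {en : β → Finset V} {busy : V → δ → Prop} {ψ : α → β}

theorem start [DecidableEq γ] (e0 : β)
    (h : ∀ g, (X.filter (fun x => gx x = g)).card = (E.filter (fun e => ge e = g)).card) :
    ∃ ψ, Adm X E gx ge ψ := by
  have : Nonempty β := ⟨e0⟩
  choose f hf using fun g => show ∃ f : α → β, Set.BijOn f (X.filter fun x => gx x = g)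
      (E.filter fun e => ge e = g) from (finite_toSet _).exists_bijOn_of_encard_eq
    (by rw [Set.encard_coe_eq_coe_finsetCard, Set.encard_coe_eq_coe_finsetCard, h])
  have a : ∀ x ∈ X, f (gx x) x ∈ E ∧ ge (f (gx x) x) = gx x := fun x hx =>
    mem_filter.1 (mem_coe.1 ((hf _).mapsTo (mem_coe.2 (mem_filter.2 ⟨hx, rfl⟩))))
  refine ⟨fun x => f (gx x) x, ⟨fun x hx => (a x hx).1, fun x hx y hy q => ?_, fun e he => ?_⟩,
    fun x hx => (a x hx).2⟩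
  · have q' : f (gx x) x = f (gx y) y := q
    have r : gx y = gx x := by rw [← (a x hx).2, q', (a y hy).2]
    rw [r] at q'
    exact (hf _).injOn (mem_coe.2 (mem_filter.2 ⟨hx, rfl⟩)) (mem_coe.2 (mem_filter.2 ⟨hy, r⟩)) q'
  · obtain ⟨x, hx, q⟩ := (hf (ge e)).surjOn (mem_coe.2 (mem_filter.2 ⟨he, rfl⟩))
    obtain ⟨b, c⟩ := mem_filter.1 (mem_coe.1 hx)
    exact ⟨x, b, by rw [← c] at q; exact q⟩

theorem tr (h : Adm X E gx ge ψ) (P : α → Prop) (Q : β → Prop) [DecidablePred P]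
    [DecidablePred Q] (q : ∀ x ∈ X, P x → Q (ψ x)) : (X.filter P).card ≤ (E.filter Q).card :=
  card_le_card_of_injOn ψ (fun x hx => by
    obtain ⟨a, b⟩ := mem_filter.1 (mem_coe.1 hx)
    exact mem_coe.2 (mem_filter.2 ⟨h.1.mapsTo a, q x a b⟩))
    (h.1.injOn.mono (coe_subset.2 (filter_subset _ _)))

/-- One exchange. -/
theorem exch [DecidableEq α] (h : Adm X E gx ge ψ) {x z : α} (hx : x ∈ X) (hz : z ∈ X)
    (hg : gx z = gx x) (hk : κ z ≠ κ x) (n1 : ¬∃ v ∈ en (ψ x), busy v (κ z))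
    (n2 : ∀ y ∈ X, ψ y ≠ ψ x → ¬Disjoint (en (ψ y)) (en (ψ x)) → z ≠ y → κ z ≠ κ y)
    (n3 : ¬∃ v ∈ en (ψ z), busy v (κ x))
    (n4 : ∀ y ∈ X, y ≠ x → κ y = κ x → ψ z ≠ ψ y → Disjoint (en (ψ z)) (en (ψ y))) :
    Adm X E gx ge (ψ ∘ Equiv.swap x z) ∧
      ∀ w, Bad X κ en busy (ψ ∘ Equiv.swap x z) w → Bad X κ en busy ψ w ∧ w ≠ x ∨ w ∉ X := by
  have e1 : (ψ ∘ Equiv.swap x z) x = ψ z := congrArg ψ (Equiv.swap_apply_left x z)
  have e2 : (ψ ∘ Equiv.swap x z) z = ψ x := congrArg ψ (Equiv.swap_apply_right x z)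
  have e3 : ∀ y, y ≠ x → y ≠ z → (ψ ∘ Equiv.swap x z) y = ψ y := fun y a b =>
    congrArg ψ (Equiv.swap_apply_of_ne_of_ne a b)
  have b1 : ¬Bad X κ en busy (ψ ∘ Equiv.swap x z) x := by
    rintro (q | ⟨y, a, b, c, d⟩)
    · exact n3 (e1 ▸ q)
    · have r : y ≠ z := fun r => hk (r ▸ c)
      rw [e1, e3 y b r] at d
      exact d (n4 y a b c fun s => r (h.1.injOn hz a s).symm).symm
  have b2 : ¬Bad X κ en busy (ψ ∘ Equiv.swap x z) z := by
    rintro (q | ⟨y, a, b, c, d⟩)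
    · exact n1 (e2 ▸ q)
    · have r : y ≠ x := fun r => hk (r ▸ c.symm)
      rw [e2, e3 y r b] at d
      exact n2 y a (fun s => r (h.1.injOn a hx s)) d b.symm c.symm
  refine ⟨⟨h.1.comp (Equiv.bijOn_swap hx hz), fun y hy => ?_⟩, fun w hw => ?_⟩
  · rcases eq_or_ne y x with rfl | a
    · rw [e1, h.2 z hz, hg]
    rcases eq_or_ne y z with rfl | b
    · rw [e2, h.2 x hx, hg]
    · rw [e3 y a b, h.2 y hy]
  refine (em (w ∈ X)).imp_left fun hw' => ?_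
  have a : w ≠ x := fun r => b1 (r ▸ hw)
  have b : w ≠ z := fun r => b2 (r ▸ hw)
  refine ⟨hw.imp (fun q => e3 w a b ▸ q) fun ⟨y, c1, c2, c3, c4⟩ => ⟨y, c1, c2, c3, ?_⟩, a⟩
  have f : ∀ u, ¬Bad X κ en busy (ψ ∘ Equiv.swap x z) u → y ≠ u := fun u q r =>
    q (Or.inr ⟨w, hw', r ▸ c2.symm, r ▸ c3.symm, fun s => c4 (r ▸ s.symm)⟩)
  rwa [e3 w a b, e3 y (f x b1) (f z b2)] at c4

end Swap

open Swap in
theorem swap : SwapS := by
  intro α β γ δ V _ _ _ _ _ X E gx ge κ en busy _ μ Δ c ν e0 h0 h1 h2 h3 h4 h5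
  classical
  obtain ⟨ψ, hψ, hm⟩ := exists_minimalFor_of_wellFoundedLT (Adm X E gx ge)
    (fun ψ => (X.filter (Bad X κ en busy ψ)).card) (start e0 h0)
  have key : ∀ x ∈ X, ¬Bad X κ en busy ψ x := fun x hx hb => by
    have he := hψ.1.mapsTo hx
    have h6 := h5 _ he x hx (hψ.2 x hx).symm
    have c2 := (card_biUnion_le_card_mul
      (X.filter fun y => ψ y ≠ ψ x ∧ ¬Disjoint (en (ψ y)) (en (ψ x)))
      (fun y => X.filter fun z => gx z = ge (ψ x) ∧ z ≠ y ∧ κ z = κ y) _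
      fun y hy => h1 y (mem_filter.1 hy).1 _).trans
      (Nat.mul_le_mul_right _ ((tr hψ _ _ fun y _ q => q).trans (h3 _ he)))
    have c3 := tr hψ (fun z => gx z = ge (ψ x) ∧ ∃ v ∈ en (ψ z), busy v (κ x))
      (fun e => ge e = ge (ψ x) ∧ ∃ v ∈ en e, busy v (κ x))
      fun z hz q => ⟨(hψ.2 z hz).trans q.1, q.2⟩
    have c4 := (card_biUnion_le_card_mul (X.filter fun y => y ≠ x ∧ κ y = κ x)
      (fun y => X.filter fun z => gx z = ge (ψ x) ∧ ψ z ≠ ψ y ∧ ¬Disjoint (en (ψ z)) (en (ψ y))) _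
      fun y hy => (tr hψ _ _ fun z hz q => ⟨(hψ.2 z hz).trans q.1, q.2⟩).trans
        (h4 _ (hψ.1.mapsTo (mem_filter.1 hy).1) (ge (ψ x)))).trans
      (Nat.mul_le_mul_right _ (h2 x hx))
    have c5 := (card_insert_le x _).trans (Nat.succ_le_succ (h1 x hx (ge (ψ x))))
    obtain ⟨z, hz, hn⟩ := exists_mem_notMem_of_card_lt_card (((card_union_le _ _).trans
      (add_le_add ((card_union_le _ _).trans (add_le_add ((card_union_le _ _).trans (add_le_add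
        ((card_union_le (X.filter fun z => gx z = ge (ψ x) ∧ ∃ v ∈ en (ψ x), busy v (κ z)) _).trans
          (add_le_add le_rfl c2)) c3)) c4)) c5)).trans_lt h6)
    obtain ⟨z1, z2⟩ := mem_filter.1 hz
    simp only [mem_union, mem_biUnion, mem_filter, mem_insert, not_or] at hn
    obtain ⟨⟨⟨⟨n1, n2⟩, n3⟩, n4⟩, n5, n6⟩ := hn
    obtain ⟨a, b⟩ := exch (κ := κ) (en := en) (busy := busy) hψ hx z1 (z2.trans (hψ.2 x hx))
      (fun q => n6 ⟨z1, z2, n5, q⟩) (fun q => n1 ⟨z1, z2, q⟩)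
      (fun y y1 y2 y3 y4 y5 => n2 ⟨y, ⟨y1, y2, y3⟩, z1, z2, y4, y5⟩) (fun q => n3 ⟨z1, z2, q⟩)
      fun y y1 y2 y3 y4 => by_contra fun q => n4 ⟨y, ⟨y1, y2, y3⟩, z1, z2, y4, q⟩
    refine (fun q => q.not_ge (hm a q.le)) (card_lt_card ((ssubset_iff_of_subset fun w hw => ?_).2
      ⟨x, mem_filter.2 ⟨hx, hb⟩, fun q => ?_⟩))
    · obtain ⟨w1, w2⟩ := mem_filter.1 hw
      exact mem_filter.2 ⟨w1, ((b w w2).resolve_right (not_not.2 w1)).1⟩
    · exact ((b x (mem_filter.1 q).2).resolve_right (not_not.2 hx)).2 rfl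
  exact ⟨ψ, hψ.1, fun x hx => ⟨hψ.2 x hx, fun v hv q => key x hx (Or.inl ⟨v, hv, q⟩)⟩,
    fun x hx y hy a b => by_contra fun q => key y hy (Or.inr ⟨x, hx, a, b, q⟩)⟩

end Pool.Agent.MP_f65396_co.h15n
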