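import Pool.Agent.MP_f65396_co.h15n.SpecB

/-! The number of uses of a token and the count of the cells. -/

set_option autoImplicit false

namespace Pool.Agent.MP_f65396_co.h15n

open Finset
open Pool.Agent.MP_f65396_co.h32 (cells rk)

namespace Tab

lemma div_iff {h : ℕ} (hh : 0 < h) (s J : ℕ) : s / h = J ↔ J * h ≤ s ∧ s < J * h + h := by
  rw [le_antisymm_iff, ← Nat.lt_succ_iff, Nat.div_lt_iff_lt_mul hh, Nat.le_div_iff_mul_le hh,
    Nat.succ_mul]
  exact and_comm

lemma blk {n h y : ℕ} (hh : 0 < h) (hy : y ≤ n) (P : ℕ → Prop) [DecidablePred P]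
    (hP : ∀ J, P J → (J + 1) * h ≤ y) :
    ((range y).filter (fun s => P (s / h))).card = h * ((range (n / h)).filter P).card := by
  rw [card_eq_sum_card_fiberwise (f := fun s => s / h) (t := (range (n / h)).filter P)]
  · rw [card_eq_sum_ones ((range (n / h)).filter P), mul_sum]
    refine sum_congr rfl fun J hJ => ?_
    have hJ' := (mem_filter.1 hJ).2
    have h1 := hP J hJ'
    have : ((range y).filter (fun s => P (s / h))).filter (fun s => s / h = J) =
        Ico (J * h) (J * h + h) := by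
      ext s
      simp only [mem_filter, mem_range, mem_Ico]
      constructor
      · exact fun a => (div_iff hh s J).1 a.2
      · intro a
        have e := (div_iff hh s J).2 a
        rw [Nat.succ_mul] at h1
        exact ⟨⟨by omega, e ▸ hJ'⟩, e⟩
    rw [this, Nat.card_Ico]
    omega
  · intro s hs
    have hs' := mem_filter.1 (mem_coe.1 hs)
    refine mem_coe.2 (mem_filter.2 ⟨mem_range.2 ?_, hs'.2⟩)
    exact (Nat.le_div_iff_mul_le hh).2 ((hP _ hs'.2).trans hy)

lemma kJ_le (U : Finset ℕ) (h J : ℕ) : kJ U h J ≤ U.card := card_filter_le _ _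

lemma kJ_anti (U : Finset ℕ) (h : ℕ) : Antitone (kJ U h) := fun _ _ hab =>
  card_le_card fun _ hy => mem_filter.2 ⟨(mem_filter.1 hy).1,
    (Nat.mul_le_mul_right h (Nat.succ_le_succ hab)).trans (mem_filter.1 hy).2⟩

lemma of_rk {U : Finset ℕ} {h J y : ℕ} (e : rk U y < kJ U h J) : (J + 1) * h ≤ y := by
  by_contra c
  refine absurd e (not_lt.2 (card_le_card fun z hz => ?_))
  exact mem_filter.2 ⟨(mem_filter.1 hz).1, (not_le.1 c).trans_le (mem_filter.1 hz).2⟩

lemma swap (U T : Finset ℕ) (P : ℕ → ℕ → Prop) [∀ y J, Decidable (P y J)] :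
    ∑ y ∈ U, (T.filter (fun J => P y J)).card = ∑ J ∈ T, (U.filter (fun y => P y J)).card := by
  simp only [card_filter]
  exact sum_comm

lemma sum_kJ {n h : ℕ} (hh : 0 < h) {U : Finset ℕ} (hU : U ⊆ Icc 1 n) :
    ∑ J ∈ range (n / h), kJ U h J = ∑ y ∈ U, y / h := by
  unfold kJ
  rw [← swap U (range (n / h)) (fun y J => (J + 1) * h ≤ y)]
  refine sum_congr rfl fun y hy => ?_
  have h1 : y / h ≤ n / h := Nat.div_le_div_right (mem_Icc.1 (hU hy)).2
  have : (range (n / h)).filter (fun J => (J + 1) * h ≤ y) = range (y / h) := by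
    ext J
    simp only [mem_filter, mem_range, ← Nat.le_div_iff_mul_le hh]
    omega
  rw [this, card_range]

lemma lo {n h : ℕ} (hh : 0 < h) {U : Finset ℕ} (hU : U ⊆ Icc 1 n) :
    h * ∑ J ∈ range (n / h), kJ U h J ≤ ∑ y ∈ U, y := by
  rw [sum_kJ hh hU, mul_sum]
  exact sum_le_sum fun y _ => Nat.mul_div_le y h

lemma up {n h : ℕ} (hh : 0 < h) {U : Finset ℕ} (hU : U ⊆ Icc 1 n) :
    ∑ y ∈ U, y ≤ h * ∑ J ∈ range (n / h), kJ U h J + h * U.card := by
  rw [sum_kJ hh hU, mul_sum, card_eq_sum_ones, mul_sum, ← sum_add_distrib]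
  refine sum_le_sum fun y _ => ?_
  have := Nat.div_add_mod y h
  have := Nat.mod_lt y hh
  omega

lemma arith {r P Q t H X Y : ℝ} (hr : 10 ≤ r) (hH : 1 ≤ H) (f1 : r * P ≤ t + r * H)
    (f2 : t ≤ r * P + (r + 2) * H) (f3 : 2 * r * t ≤ (2 * r - 1) * X)
    (f3' : (2 * r - 1) * X ≤ 2 * r * (t + 1)) (f4 : 100 * r ^ 2 * H ≤ X) (f5 : 100 * r * Q ≤ Y)
    (f6 : (20 * r - 1) * X ≤ 20 * r ^ 2 * Y) (f7 : 20 * r ^ 2 * Y ≤ (20 * r + 1) * X) :
    P + Q ≤ Y ∧ (r - 1) * Y + r * Q ≤ r * P := by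
  have r0 : 0 < r := by linarith
  have r2 : 0 < r ^ 2 := by positivity
  obtain ⟨x, rfl⟩ : ∃ x, X = r ^ 2 * x := ⟨X / r ^ 2, by field_simp⟩
  have g4 : 100 * H ≤ x := le_of_mul_le_mul_left (by linarith) r2
  have g6 : (20 * r - 1) * x ≤ 20 * Y := le_of_mul_le_mul_left (by linarith) r2
  have g7 : 20 * Y ≤ (20 * r + 1) * x := le_of_mul_le_mul_left (by linarith) r2
  have g3 : 2 * t ≤ (2 * r - 1) * r * x := le_of_mul_le_mul_left (by linarith) r0
  have g3' : (2 * r - 1) * r * x ≤ 2 * (t + 1) := le_of_mul_le_mul_left (by linarith) r0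
  have g1 : 2 * P ≤ (2 * r - 1) * x + 2 * H := le_of_mul_le_mul_left (by linarith) r0
  have x0 : 0 ≤ x := by linarith
  have rx : 10 * x ≤ r * x := mul_le_mul_of_nonneg_right hr x0
  have g5 : 2000 * Q ≤ 21 * x := le_of_mul_le_mul_left (by linarith) r0
  have rH : 10 * H ≤ r * H := mul_le_mul_of_nonneg_right hr (by linarith)
  have a1 : r * (100 * H) ≤ r * x := mul_le_mul_of_nonneg_left g4 r0.le
  have a2 : r * (2000 * Q) ≤ r * (21 * x) := mul_le_mul_of_nonneg_left g5 r0.le
  have a3 : (r - 1) * (20 * Y) ≤ (r - 1) * ((20 * r + 1) * x) :=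
    mul_le_mul_of_nonneg_left g7 (by linarith)
  exact ⟨by linarith, by linarith⟩

end Tab

open Tab

theorem count : CountS := by
  intro n h a U1 U2 hh ha h1 h2 hd
  refine ⟨?_, up hh h2⟩
  have hU : ∀ y ∈ U1 ∪ U2, y ≤ n := fun y hy => by
    rcases mem_union.1 hy with e | e
    · exact (mem_Icc.1 (h1 e)).2
    · exact (mem_Icc.1 (h2 e)).2
  have e0 : (hc n h a U1 U2).card =
      ∑ y ∈ U1, ((range y).filter (fun s => ¬ rk U1 y < a * (kJ U1 h (s / h) / a))).card +
      ∑ y ∈ U2, ((range y).filter (fun s => ¬ (s / h + 1) * h ≤ y)).card := by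
    unfold hc cl
    rw [filter_filter, h32.card_cells n (U1 ∪ U2) hU _ (fun x _ hx => hx.1), sum_union hd]
    congr 1
    · refine sum_congr rfl fun y hy => congrArg card (filter_congr fun s _ => ?_)
      have : y ∉ U2 := disjoint_left.1 hd hy
      simp [hy, this]
    · refine sum_congr rfl fun y hy => congrArg card (filter_congr fun s _ => ?_)
      have : y ∉ U1 := disjoint_right.1 hd hy
      simp [hy, this]
  have e1 : ∑ y ∈ U1, ((range y).filter (fun s => rk U1 y < a * (kJ U1 h (s / h) / a))).card =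
      h * ∑ J ∈ range (n / h), a * (kJ U1 h J / a) := by
    rw [sum_congr rfl fun y hy => blk hh (mem_Icc.1 (h1 hy)).2
      (fun J => rk U1 y < a * (kJ U1 h J / a))
      (fun J hJ => of_rk (hJ.trans_le (Nat.mul_div_le _ _))), ← mul_sum,
      swap U1 (range (n / h)) (fun y J => rk U1 y < a * (kJ U1 h J / a))]
    congr 1
    refine sum_congr rfl fun J _ => ?_
    rw [h32.rk_card U1 (fun i => i < a * (kJ U1 h J / a))]
    have hle : a * (kJ U1 h J / a) ≤ U1.card := (Nat.mul_div_le _ _).trans (kJ_le _ _ _)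
    have : (range U1.card).filter (fun i => i < a * (kJ U1 h J / a)) =
        range (a * (kJ U1 h J / a)) := by
      ext i
      simp only [mem_filter, mem_range]
      omega
    rw [this, card_range]
  have e2 : ∑ y ∈ U2, ((range y).filter (fun s => (s / h + 1) * h ≤ y)).card =
      h * ∑ J ∈ range (n / h), kJ U2 h J := by
    rw [sum_congr rfl fun y hy => blk hh (mem_Icc.1 (h2 hy)).2
      (fun J => (J + 1) * h ≤ y) (fun J hJ => hJ), ← mul_sum,
      swap U2 (range (n / h)) (fun y J => (J + 1) * h ≤ y)]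
    rfl
  have s1 : ∑ y ∈ U1, y =
      ∑ y ∈ U1, ((range y).filter (fun s => rk U1 y < a * (kJ U1 h (s / h) / a))).card +
      ∑ y ∈ U1, ((range y).filter (fun s => ¬ rk U1 y < a * (kJ U1 h (s / h) / a))).card := by
    rw [← sum_add_distrib]
    exact sum_congr rfl fun y _ => by rw [card_filter_add_card_filter_not, card_range]
  have s2 : ∑ y ∈ U2, y = ∑ y ∈ U2, ((range y).filter (fun s => (s / h + 1) * h ≤ y)).card +
      ∑ y ∈ U2, ((range y).filter (fun s => ¬ (s / h + 1) * h ≤ y)).card := by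
    rw [← sum_add_distrib]
    exact sum_congr rfl fun y _ => by rw [card_filter_add_card_filter_not, card_range]
  rw [e0, ← e1, ← e2]
  omega

theorem tab (ha : AntiS) : TabS := by
  intro n h a R z Nt N M T e U1 U2 hM he hn hR a0 ah c1 c2 c3 c4 hMe
  have hh : 0 < h := a0.trans_le ah
  have hc : U1.card ≤ n := by simpa using card_le_card hM.s1
  obtain ⟨b1, b2⟩ := ha (fun J => kJ U1 h J / a) R e (n / h)
    (fun i j hij => Nat.div_le_div_right (kJ_anti U1 h hij)) he
  simp only [← hMe] at b1 b2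
  have l1 := lo hh hM.s1
  have l2 := up hh hM.s1
  have e1 := hM.e1
  generalize ∑ y ∈ U1, y = t at l1 l2 e1
  have m1 : a * ∑ J ∈ range (n / h), kJ U1 h J / a ≤ ∑ J ∈ range (n / h), kJ U1 h J := by
    rw [mul_sum]
    exact sum_le_sum fun J _ => Nat.mul_div_le _ _
  have m2 : ∑ J ∈ range (n / h), kJ U1 h J ≤
      a * ∑ J ∈ range (n / h), kJ U1 h J / a + a * (n / h) := by
    have : a * (n / h) = ∑ _J ∈ range (n / h), a := by simp [mul_comm]
    rw [this, mul_sum, ← sum_add_distrib]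
    refine sum_le_sum fun J _ => ?_
    have := Nat.div_add_mod (kJ U1 h J) a
    have := Nat.mod_lt (kJ U1 h J) a0
    omega
  have m3 : a * (kJ U1 h 0 / a) ≤ n := (Nat.mul_div_le _ _).trans ((kJ_le _ _ _).trans hc)
  generalize ∑ J ∈ range (n / h), kJ U1 h J / a = Mt at b1 b2 m1 m2
  generalize ∑ J ∈ range (n / h), kJ U1 h J = S at l1 l2 m1 m2
  generalize kJ U1 h 0 / a = f at b1 b2 m3
  have m4 : R * h * (a * f) ≤ R * h * n := Nat.mul_le_mul_left _ m3
  have m5 : h * (a * Mt) ≤ h * S := Nat.mul_le_mul_left _ m1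
  have m6 : h * S ≤ h * (a * Mt + a * (n / h)) := Nat.mul_le_mul_left _ m2
  have m7 : a * (h * (n / h)) ≤ h * n := Nat.mul_le_mul ah (Nat.mul_div_le _ _)
  have m8 : h * U1.card ≤ h * n := Nat.mul_le_mul_left _ hc
  have m9 := Nat.mul_le_mul_left (h * a) b1
  have m10 := Nat.mul_le_mul_left (h * a) b2
  have f1 : R * (M * (h * a)) ≤ t + R * (h * n) := by linarith
  have f2 : t ≤ R * (M * (h * a)) + (R + 2) * (h * n) := by linarith
  have R0 : 0 < 2 * R := by omega
  have f3 : 2 * R * t ≤ (2 * R - 1) * (z * Nt) := e1 ▸ Nat.mul_div_le _ _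
  have f3' : (2 * R - 1) * (z * Nt) ≤ 2 * R * (t + 1) := by
    rw [e1]
    exact (Nat.lt_mul_div_succ _ R0).le
  have f5 : 100 * R * (N * (h * a)) ≤ z * N := by
    have := Nat.mul_le_mul_right N c2
    linarith
  have f6 : (20 * R - 1) * (z * Nt) ≤ 20 * R ^ 2 * (z * N) := by
    have := Nat.mul_le_mul_left z c3
    linarith
  have f7 : 20 * R ^ 2 * (z * N) ≤ (20 * R + 1) * (z * Nt) := by
    have := Nat.mul_le_mul_left z c4
    linarith
  have f4 : 100 * R ^ 2 * (h * n) ≤ z * Nt := by linarith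
  have hH : 1 ≤ h * n := Nat.mul_pos hh hn
  have N0 : 0 < N := by
    rcases Nat.eq_zero_or_pos N with rfl | h0
    · have p1 : 0 < 100 * R ^ 2 * (h * n) := by positivity
      have p2 : 0 < (20 * R - 1) * (z * Nt) := Nat.mul_pos (by omega) (by omega)
      simp only [mul_zero] at f6
      omega
    · exact h0
  obtain ⟨k, rfl⟩ : ∃ k, R = k + 1 := ⟨R - 1, by omega⟩
  rw [show 2 * (k + 1) - 1 = 2 * k + 1 by omega] at f3 f3'
  rw [show 20 * (k + 1) - 1 = 20 * k + 19 by omega] at f6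
  obtain ⟨g1, g2⟩ := arith (r := (k : ℝ) + 1) (P := (M * (h * a) : ℕ)) (Q := (N * (h * a) : ℕ))
    (t := t) (H := (h * n : ℕ)) (X := (z * Nt : ℕ)) (Y := (z * N : ℕ)) (by exact_mod_cast hR)
    (by exact_mod_cast hH) (by exact_mod_cast f1) (by exact_mod_cast f2)
    (by rw [show 2 * ((k : ℝ) + 1) - 1 = 2 * k + 1 by ring]; exact_mod_cast f3)
    (by rw [show 2 * ((k : ℝ) + 1) - 1 = 2 * k + 1 by ring]; exact_mod_cast f3')
    (by exact_mod_cast f4) (by exact_mod_cast f5)
    (by rw [show 20 * ((k : ℝ) + 1) - 1 = 20 * k + 19 by ring]; exact_mod_cast f6)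
    (by exact_mod_cast f7)
  rw [add_sub_cancel_right] at g2
  have g1' : M * (h * a) + N * (h * a) ≤ z * N := by exact_mod_cast g1
  have g2' : k * (z * N) + (k + 1) * (N * (h * a)) ≤ (k + 1) * (M * (h * a)) := by
    exact_mod_cast g2
  have d1 := Nat.mul_le_mul_right (h * a) (Nat.mul_div_le M N)
  have d2 := Nat.mul_le_mul_right ((k + 1) * (h * a)) (Nat.lt_mul_div_succ M N0).le
  rw [Nat.add_sub_cancel]
  exact ⟨Nat.le_of_mul_le_mul_left (by linarith) N0, Nat.le_of_mul_le_mul_left (by linarith) N0⟩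

end Pool.Agent.MP_f65396_co.h15n
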