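import Pool.Agent.MP_f65396_co.h15n.SpecB

/-! The distribution of the heights. -/

set_option autoImplicit false

namespace Pool.Agent.MP_f65396_co.h15n

open Finset

namespace Top

theorem num {n K q σ F d a p s w r x y τ : ℕ} (hK : 10000 ≤ K) (hn : 10000 * K ≤ n)
    (hq : q * K ≤ n + 1) (hσ : σ ≤ n + 1) (hF : 50 * n ≤ F * K) (hd : K * n ≤ d + q)
    (ha : 2 * (n + 1) * a ≤ d) (hp : p ≤ 4 + a) (hs : s ≤ p * n) (hw : w ≤ p + 6 + 2 * r)
    (hr : d ≤ s + (r + 6) * σ) (hx : x ≤ n) (hy : y ≤ n) (hτ : r ≤ τ) :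
    (q + 1) * w + 2 * x + y + 1 + F < F * τ := by
  have h1 : (r + 6) * σ ≤ (r + 6) * (n + 1) := Nat.mul_le_mul_left _ hσ
  have h2 : p * n ≤ (4 + a) * (n + 1) := Nat.mul_le_mul hp (by omega)
  have h3 : d ≤ 2 * (n + 1) * (r + 10) := by nlinarith
  have h4 : a ≤ r + 10 := Nat.le_of_mul_le_mul_left (ha.trans h3) (by omega)
  have h5 : q ≤ n + 1 := le_trans (Nat.le_mul_of_pos_right _ (by omega)) hq
  have h6 : K ≤ 2 * r + 22 := by
    by_contra c
    have := Nat.mul_le_mul_right n (show 2 * r + 23 ≤ K by omega)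
    nlinarith
  have h7 : 25 * (q + 1) ≤ F := Nat.le_of_mul_le_mul_right (c := K) (by nlinarith) (by omega)
  have h8 := Nat.mul_le_mul h7 (show w ≤ 4 * r by omega)
  have h9 := Nat.mul_le_mul_left F (show K ≤ 3 * r by omega)
  have h10 := Nat.mul_le_mul_left F (show 100 ≤ r by omega)
  have h11 := Nat.mul_le_mul_left F hτ
  nlinarith

theorem tot {V : Type} [DecidableEq V] {q : ℕ} {o : ℕ → V} {D : Finset (V × V)} (h : Ow q o D) :
    ∑ i ∈ range q, dout D (o i) = D.card := by
  rw [card_eq_sum_card_fiberwise (f := Prod.fst) (t := (range q).image o) fun p hp => ?_,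
    sum_image fun i hi j hj => h.inj i (mem_range.1 hi) j (mem_range.1 hj)]
  · rfl
  · obtain ⟨i, a, b, -⟩ := h.tl p hp
    exact mem_image.2 ⟨i, mem_range.2 a, b.symm⟩

/-- The prescribed parts. -/
def pre (σ : ℕ) (U : Finset ℕ) (A B : ℕ → Finset ℕ) : ℕ ⊕ Option ℕ → Finset ℕ
  | .inl i => {σ - 1 - 2 * i, σ - 2 - 2 * i} ∪ ({2 * i + 1, 2 * i + 2} \ U) ∪ A i
  | .inr none => U
  | .inr (some c) => B c

theorem mem {σ : ℕ} {U : Finset ℕ} {A B : ℕ → Finset ℕ} {i y : ℕ} : y ∈ pre σ U A B (.inl i) ↔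
    y = σ - 1 - 2 * i ∨ y = σ - 2 - 2 * i ∨ (y = 2 * i + 1 ∨ y = 2 * i + 2) ∧ y ∉ U ∨ y ∈ A i := by
  simp [pre]

theorem all {q b : ℕ} {p : ℕ ⊕ Option ℕ → Prop} :
    (∀ c ∈ (range q).disjSum (insertNone (range b)), p c) ↔
      (∀ i < q, p (.inl i)) ∧ p (.inr none) ∧ ∀ c < b, p (.inr (some c)) := by
  simp [Option.forall]

end Top

open h15n.Top in
theorem top (hs : SplitS) (ho : OwnS) : TopS := by
  intro V _ n K q b o D0 D1 U t A B g hU hU' hb h0 hT dA dAB dB hA hB ht
  obtain ⟨σ, hσ⟩ : ∃ σ, σ = 2 * (n / 2) + 1 := ⟨_, rfl⟩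
  rw [← hσ] at hT
  have k1 := g.hK
  have k2 := g.hn
  have k3 : q * 10000 ≤ n + 1 := (Nat.mul_le_mul_left q k1).trans g.qn
  have u : ∀ y ∈ U, 1 ≤ y ∧ y ≤ n / 2 := fun y hy => mem_Icc.1 (hU hy)
  have T : ∀ y, ((∃ i < q, y ∈ A i) ∨ ∃ c < b, y ∈ B c) ↔ ∃ z ∈ U, 2 * q < z ∧ σ - z = y :=
    fun y => by simpa [and_assoc] using Finset.ext_iff.1 hT y
  have T' : ∀ y, ((∃ i < q, y ∈ A i) ∨ ∃ c < b, y ∈ B c) →
      σ - y ∈ U ∧ n / 2 < y ∧ y + 2 * q < σ := fun y h => by
    obtain ⟨z, a, c, rfl⟩ := (T y).1 h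
    have := u z a
    exact ⟨by rwa [show σ - (σ - z) = z by omega], by omega, by omega⟩
  have TA := fun i hi y hy => T' y (.inl ⟨i, hi, hy⟩)
  have TB := fun i hi y hy => T' y (.inr ⟨i, hi, hy⟩)
  obtain ⟨c0, c1, c2, c3⟩ : ∃ c0 ∈ (range q).disjSum (insertNone (range b)), c0 ≠ .inr none ∧
      ∀ j, 1 ≤ j → Sum.inl j ≠ c0 := by
    rcases q.eq_zero_or_pos with z | z
    · exact ⟨.inr (some 0), by simpa using h0 z, by simp, by simp⟩
    · exact ⟨.inl 0, by simpa using z, by simp, fun j hj => by simp; omega⟩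
  have rg : ∀ c ∈ (range q).disjSum (insertNone (range b)), ∀ y ∈ pre σ U A B c, 1 ≤ y ∧ y < σ ∧
      ∃ d ∈ (range q).disjSum (insertNone (range b)), σ - y ∈ pre σ U A B d := by
    refine all.2 ⟨fun i hi y hy => ?_, fun y hy => ?_, fun c hc y hy => ?_⟩
    · by_cases z : σ - y ∈ U
      · have := u _ z
        have := TA i hi y
        rw [mem] at hy
        exact ⟨by omega, by omega, .inr none, by simp, z⟩
      · have := TA i hi y
        rw [mem] at hy
        exact ⟨by grind, by grind, .inl i, by simpa using hi, mem.2 (by grind)⟩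
    · have := u y hy
      refine ⟨by omega, by omega, ?_⟩
      by_cases z : 2 * q < y
      · obtain ⟨i, a, c⟩ | ⟨i, a, c⟩ := (T _).2 ⟨y, hy, z, rfl⟩
        · exact ⟨.inl i, by simpa using a, mem.2 (.inr (.inr (.inr c)))⟩
        · exact ⟨.inr (some i), by simpa using a, c⟩
      · exact ⟨.inl ((y - 1) / 2), by simp; omega, mem.2 (by omega)⟩
    · have := TB c hc y hy
      exact ⟨by omega, by omega, .inr none, by simp, this.1⟩
  have sm : ∀ c ∈ (range q).disjSum (insertNone (range b)),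
      ∑ y ∈ pre σ U A B c, y ≤ (pre σ U A B c).card * n := fun c hc =>
    sum_le_card_nsmul _ _ _ fun y hy => by have := (rg c hc y hy).2.1; omega
  have cd : ∀ i, (pre σ U A B (.inl i)).card ≤ 4 + (A i).card := fun i =>
    (card_union_le _ _).trans (Nat.add_le_add_right ((card_union_le _ _).trans
      (Nat.add_le_add card_le_two ((card_le_card sdiff_subset).trans card_le_two))) _)
  have d1 : ∀ i < q, Disjoint (pre σ U A B (.inl i)) U := fun i hi => disjoint_left.2 fun y a c => by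
    have := u y c
    have := TA i hi y
    rw [mem] at a
    grind
  have d2 : ∀ i < q, ∀ c < b, Disjoint (pre σ U A B (.inl i)) (B c) := fun i hi c hc =>
    disjoint_left.2 fun y a e => by
      have := TB c hc y e
      have := fun z => disjoint_left.1 (dAB i hi c hc) z e
      rw [mem] at a
      grind
  have d3 : ∀ c < b, Disjoint U (B c) := fun c hc => disjoint_left.2 fun y a e => by
    have := TB c hc y e
    have := u y a
    omega
  obtain ⟨W, w1, w2, w3, w4, w5⟩ := hs (ℕ ⊕ Option ℕ) n σ ((range q).disjSum (insertNone (range b)))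
    (· ≠ .inr none) (pre σ U A B)
    (Sum.elim (fun i => dout D1 (o i)) fun x => x.elim (∑ y ∈ U, y) t) c0 hσ c1 c2 rg
    (all.2 ⟨fun i hi => all.2 ⟨fun j hj e => disjoint_left.2 fun y a c => by
        have := TA i hi y
        have := TA j hj y
        have e' : i ≠ j := fun z => e (z ▸ rfl)
        have : y ∈ A i → y ∉ A j := fun z => disjoint_left.1 (dA i hi j hj e') z
        rw [mem] at a c
        grind, fun _ => d1 i hi, fun c hc _ => d2 i hi c hc⟩,
      all.2 ⟨fun i hi _ => (d1 i hi).symm, fun e => absurd rfl e, fun c hc _ => d3 c hc⟩,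
      fun c hc => all.2 ⟨fun i hi _ => (d2 i hi c hc).symm, fun _ => (d3 c hc).symm,
        fun d hd e => dB c hc d hd fun z => e (z ▸ rfl)⟩⟩)
    (by
      rw [sum_disjSum, sum_insertNone, ← g.tot, ← ht, ← tot g.ow, add_comm]
      rfl)
    (fun c _ z => by obtain rfl := not_not.1 z; rfl)
    (all.2 ⟨fun i hi _ => by
      have := sm (.inl i) (by simpa using hi)
      have := Nat.mul_le_mul_right n (cd i)
      have := hA i hi
      have := g.big i hi
      have := Nat.mul_le_mul_right n k1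
      change _ ≤ dout D1 (o i)
      have : σ ≤ n + 1 := by omega
      nlinarith, fun z => absurd rfl z, fun c hc _ => by
      have := sm (.inr (some c)) (by simpa using hc)
      have := hB c hc
      have : σ ≤ n + 1 := by omega
      change ∑ y ∈ B c, y ≤ (B c).card * n at *
      change ∑ y ∈ B c, y + _ ≤ t c
      nlinarith⟩)
    (by
      have a1 : ((range q).disjSum (insertNone (range b))).biUnion (pre σ U A B) ⊆
          (range (2 * q + 1) ∪ U) ∪ (range (2 * q + 1) ∪ U).image (σ - ·) := fun y hy => by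
        obtain ⟨c, hc, hy⟩ := mem_biUnion.1 hy
        have z := (rg c hc y hy).2.1
        have e : y ≤ 2 * q ∨ y ∈ U ∨ σ - y ≤ 2 * q ∨ σ - y ∈ U := by
          refine (all (p := fun c => y ∈ pre σ U A B c → _)).2
            ⟨fun i hi a => ?_, fun a => Or.inr (.inl a), fun c hc a => ?_⟩ c hc hy
          · have := TA i hi y
            rw [mem] at a
            grind
          · exact .inr (.inr (.inr (TB c hc y a).1))
        simp only [mem_union, mem_image, mem_range]
        rcases e with e | e | e | e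
        exacts [.inl (.inl (by omega)), .inl (.inr e), .inr ⟨σ - y, .inl (by omega), by omega⟩,
          .inr ⟨σ - y, .inr e, by omega⟩]
      have a2 := (card_le_card a1).trans (card_union_le _ _)
      have a3 := card_image_le (s := range (2 * q + 1) ∪ U) (f := (σ - ·))
      have a4 := card_union_le (range (2 * q + 1)) U
      have a5 := card_filter_le ((range q).disjSum (insertNone (range b))) (· ≠ .inr none)
      rw [card_disjSum, card_insertNone, card_range, card_range] at a5
      rw [card_range] at a4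
      omega)
  have wU : W (.inr none) = U := w4 _ (by simp) (by simp)
  have sub : ∀ c ∈ (range q).disjSum (insertNone (range b)), W c ⊆ Icc 1 n := fun c hc =>
    w1 ▸ subset_biUnion_of_mem W hc
  obtain ⟨s1, s2, s3⟩ := all.1 sub
  obtain ⟨x1, -, x3⟩ := all.1 w3
  obtain ⟨y1, -, y3⟩ := all.1 w5
  simp only [all] at w2
  obtain ⟨z1, ⟨-, -, z2⟩, z3⟩ := w2
  rw [wU] at z1 z2 s2
  refine ⟨fun c => W (.inr (some c)), fun c hc => ⟨s3 c hc, z2 c hc (by simp), (x3 c hc).2.1, ?_⟩,
    fun c hc d hd e => (z3 c hc).2.2 d hd (by simpa using e), fun φ arm l hF => ?_⟩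
  · obtain ⟨r, a1, a2, -⟩ := y3 c hc (by simp)
    have a3 : _ ≤ ((B c).card + 6 + 2 * r) * n := Nat.mul_le_mul_right n a1
    have := Nat.mul_le_mul_left r (show n ≤ σ by omega)
    have a4 : r * σ ≤ t c := (Nat.le_add_left _ _).trans a2
    linarith
  have ex : ∃ F, 50 * n ≤ F * K := ⟨50 * n, Nat.le_mul_of_pos_right _ (by omega)⟩
  have e : U ∪ (range b).biUnion (fun c => W (.inr (some c))) ∪
      (range q).biUnion (fun i => W (.inl i)) = Icc 1 n := by
    rw [← w1, ← wU]
    ext y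
    simp [Option.exists, or_comm, or_left_comm]
  obtain ⟨φ', arm', l', -⟩ := ho V n q n (n / 2) (Nat.find ex) _ D0 D1 φ arm o
    (fun i => W (.inl i)) (fun i => σ - 1 - 2 * i) l g.ow
    ⟨s1, fun i hi j hj e => (z1 i hi).1 j hj (by simpa using e),
      fun i hi => (x1 i hi).1 (mem.2 (.inl rfl)), fun j hj j1 y hy => by
        have a1 := (x1 j hj).2.2 (c3 j j1) y hy
        by_contra a2
        have a3 : (σ - y - 1) / 2 < j := by omega
        exact disjoint_left.1 ((z1 _ (a3.trans hj)).1 j hj (by simpa using a3.ne))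
          ((x1 _ (a3.trans hj)).1 (mem.2 (by omega))) hy,
      fun j hj i hi => by omega⟩
    (disjoint_left.2 fun p a c => by
      obtain ⟨i, i1, i2, -⟩ := g.ow.tl p c
      exact (g.d0 p a i i1).1 i2)
    (fun i hi => ⟨disjoint_union_left.2 ⟨((z1 i hi).2.1 (by simp)).symm,
      (disjoint_biUnion_left _ _ _).2 fun c hc =>
        ((z1 i hi).2.2 c (mem_range.1 hc) (by simp)).symm⟩, (x1 i hi).2.1⟩)
    (fun i hi => ⟨fun y hy => (mem_Icc.1 (s1 i hi hy)).2, fun s hs => by
      obtain ⟨x, hx, -⟩ := mem_image.1 hs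
      obtain ⟨a1, a2⟩ := mem_filter.1 hx
      have := g.d0 _ (l.bij.mapsTo a1) i hi
      exact (a2.elim this.1 this.2).elim⟩)
    (fun v _ => Nat.find_min' ex (hF v)) fun i hi => by
      obtain ⟨r, a1, -, a2, a3⟩ := y1 i hi (by simp)
      have a4 := card_le_card (subset_union_left.trans e.subset)
      have a5 := card_le_card (subset_union_right.trans e.subset)
      rw [Nat.card_Icc, Nat.add_sub_cancel] at a4 a5
      exact num k1 k2 g.qn (by omega) (Nat.find_spec ex) (g.big i hi) (hA i hi) (cd i)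
        (sm (.inl i) (by simpa using hi)) a1 a2 a4 a5 a3
  exact ⟨φ', arm', e ▸ l'⟩

end Pool.Agent.MP_f65396_co.h15n
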