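import Pool.Agent.MP_f65396_co.h15n.SpecA

/-! Edge colouring when the vertices of maximum degree are independent. -/

set_option autoImplicit false
set_option linter.unusedSectionVars false

namespace Pool.Agent.MP_f65396_co.h15n

open Finset

namespace Viz

variable {α β : Type} [DecidableEq α] [DecidableEq β] {en : β → Finset α}

/-- A proper colouring with colours in `K`. -/
def Pr (en : β → Finset α) (E : Finset β) (K : Finset ℕ) (c : β → ℕ) : Prop :=
  (∀ e ∈ E, c e ∈ K) ∧ ∀ e ∈ E, ∀ e' ∈ E, e ≠ e' → c e = c e' → Disjoint (en e) (en e')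

theorem mat {F : Finset β} {K : Finset ℕ} {c : β → ℕ} (h2 : ∀ e ∈ F, (en e).card = 2)
    (h : Pr en F K c) {T : Finset β} (hT : T ⊆ F) (a : ℕ) :
    ((T.filter fun f => c f = a).biUnion en).card = (T.filter fun f => c f = a).card * 2 := by
  rw [card_biUnion, sum_const_nat fun f hf => h2 f (hT (mem_filter.1 hf).1)]
  intro e he f hf n
  obtain ⟨e1, e2⟩ := mem_filter.1 he
  obtain ⟨f1, f2⟩ := mem_filter.1 hf
  exact h.2 e (hT e1) f (hT f1) n (e2.trans f2.symm)

theorem kempe (hk : KempeS) {F X : Finset β} {K : Finset ℕ} {c : β → ℕ} {u : β → α} {a b : ℕ}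
    (h2 : ∀ e ∈ F, (en e).card = 2) (h : Pr en F K c) (ha : a ∈ K) (hb : b ∈ K)
    (hu : Set.InjOn u X) (ho : Odd X.card) (hX : ∀ e ∈ X, ∀ f ∈ F, u e ∈ en f → c f ≠ a) :
    ∃ e ∈ X, ∃ c', Pr en F K c' ∧ (∀ f ∈ F, u e ∈ en f → c' f ≠ b) ∧
      (∀ e' ∈ X, e' ≠ e → ∀ f ∈ F, u e' ∈ en f → c' f ≠ a) ∧
      ∀ f i, i ≠ a → i ≠ b → c' f = i → c f = i := by
  by_cases h0 : ∃ e ∈ X, ∀ f ∈ F, u e ∈ en f → c f ≠ b
  · obtain ⟨e, e1, e2⟩ := h0
    exact ⟨e, e1, c, h, e2, fun e' q _ => hX e' q, fun _ _ _ _ q => q⟩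
  push Not at h0
  choose! g g1 g2 g3 using h0
  obtain ⟨cp, c1, c2⟩ := hk α β (F.filter fun f => c f = a ∨ c f = b) en
    fun e he => h2 e (mem_filter.1 he).1
  have c3 : ∀ e ∈ F, ∀ f ∈ F, c e = a ∨ c e = b → c f = a ∨ c f = b → ∀ w ∈ en e, w ∈ en f →
      cp e = cp f := fun e e1 f f1 e2 f2 w w1 w2 =>
    c1 e (mem_filter.2 ⟨e1, e2⟩) f (mem_filter.2 ⟨f1, f2⟩) (not_disjoint_iff.2 ⟨w, w1, w2⟩)
  obtain ⟨j, hj⟩ : ∃ j, Odd (X.filter fun e => cp (g e) = j).card := by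
    by_contra q
    push Not at q
    rw [card_eq_sum_card_image fun e => cp (g e)] at ho
    exact Nat.not_odd_iff_even.2 (even_sum _ fun j _ => Nat.not_odd_iff_even.1 (q j)) ho
  have two : (X.filter fun e => cp (g e) = j).card ≤ 2 := by
    have d := c2 j
    set T := (F.filter fun f => c f = a ∨ c f = b).filter fun e => cp e = j
    have hT : T ⊆ F := (filter_subset _ _).trans (filter_subset _ _)
    have d1 := mat h2 h hT a
    have d2 := mat h2 h hT b
    have d3 : T.card ≤ (T.filter fun f => c f = a).card + (T.filter fun f => c f = b).card := by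
      refine (card_le_card fun f hf => ?_).trans (card_union_le _ _)
      rw [← filter_or]
      exact mem_filter.2 ⟨hf, (mem_filter.1 (mem_filter.1 hf).1).2⟩
    have d4 := card_le_card (biUnion_subset_biUnion_of_subset_left en
      (filter_subset (fun f => c f = b) T))
    have d5 : Disjoint ((T.filter fun f => c f = a).biUnion en)
        ((X.filter fun e => cp (g e) = j).image u) := disjoint_left.2 fun w w1 w2 => by
      obtain ⟨f, f1, f2⟩ := mem_biUnion.1 w1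
      obtain ⟨e, e1, rfl⟩ := mem_image.1 w2
      exact hX e (mem_filter.1 e1).1 f (hT (mem_filter.1 f1).1) f2 (mem_filter.1 f1).2
    have d6 := card_le_card (union_subset (biUnion_subset_biUnion_of_subset_left en
      (filter_subset (fun f => c f = a) T))
      (t := (X.filter fun e => cp (g e) = j).image u) fun w hw => by
        obtain ⟨e, e1, rfl⟩ := mem_image.1 hw
        obtain ⟨e1, e2⟩ := mem_filter.1 e1
        exact mem_biUnion.2 ⟨g e, mem_filter.2 ⟨mem_filter.2 ⟨g1 e e1, .inr (g3 e e1)⟩, e2⟩,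
          g2 e e1⟩)
    rw [card_union_of_disjoint d5,
      card_image_of_injOn (hu.mono (coe_subset.2 (filter_subset _ _)))] at d6
    omega
  obtain ⟨e, he⟩ := card_eq_one.1 (show (X.filter fun e => cp (g e) = j).card = 1 by
    obtain ⟨t, ht⟩ := hj
    omega)
  obtain ⟨e1, e2⟩ := mem_filter.1 (he ▸ mem_singleton_self e)
  refine ⟨e, e1, fun f => if cp f = j then Equiv.swap a b (c f) else c f,
    ⟨fun f hf => ?_, fun f f1 f' f2 n q => ?_⟩, fun f f1 f2 q => ?_, fun e' q1 q2 f f1 f2 q => ?_,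
    fun f i i1 i2 q => ?_⟩
  · have := h.1 f hf
    grind
  · refine disjoint_left.2 fun w w1 w2 => ?_
    have d1 := fun z => disjoint_left.1 (h.2 f f1 f' f2 n z) w1 w2
    have d2 := fun y z => c3 f f1 f' f2 y z w w1 w2
    grind
  · have d1 := hX e e1 f f1 f2
    have d2 := fun z => c3 f f1 _ (g1 e e1) z (.inr (g3 e e1)) _ f2 (g2 e e1)
    grind
  · have d1 := hX e' q1 f f1 f2
    have d2 := fun z => c3 f f1 _ (g1 e' q1) z (.inr (g3 e' q1)) _ f2 (g2 e' q1)
    have d3 : cp (g e') ≠ j := fun z => q2 (mem_singleton.1 (he ▸ mem_filter.2 ⟨q1, z⟩))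
    grind
  · grind

theorem step (hk : KempeS) {F N : Finset β} {K : Finset ℕ} {c : β → ℕ} {u : β → α}
    {M : β → Finset ℕ} {e₀ : β} (h2 : ∀ e ∈ F, (en e).card = 2) (h : Pr en F K c)
    (hu : Set.InjOn u N) (hN : N.card ≤ K.card) (h0 : e₀ ∈ N)
    (hM : ∀ e ∈ N, M e ⊆ K ∧ (M e).card = (if e = e₀ then 1 else 2) ∧
      ∀ f ∈ F, u e ∈ en f → c f ∉ M e) :
    ∃ e ∈ N, ∃ i ∈ K, ∃ c', Pr en F K c' ∧ (∀ f ∈ F, u e ∈ en f → c' f ≠ i) ∧
      ∀ e' ∈ N, e' ≠ e → i ∉ M e' ∧ ∀ f ∈ F, u e' ∈ en f → c' f ∉ M e' := by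
  have s : ∑ i ∈ K, (N.filter fun e => i ∈ M e).card + 1 = N.card * 2 := by
    have s1 : ∑ i ∈ K, (N.filter fun e => i ∈ M e).card = ∑ e ∈ N, (M e).card := by
      simp only [card_filter]
      rw [sum_comm]
      refine sum_congr rfl fun e he => ?_
      rw [← card_filter, filter_mem_eq_inter, inter_eq_right.2 (hM e he).1]
    rw [s1, ← add_sum_erase _ _ h0, (hM _ h0).2.1, if_pos rfl, sum_const_nat (m := 2) fun e he => by
      rw [(hM e (mem_erase.1 he).2).2.1, if_neg (mem_erase.1 he).1]]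
    have := card_erase_add_one h0
    omega
  obtain ⟨a, ha, a1⟩ : ∃ a ∈ K, Odd (N.filter fun e => a ∈ M e).card := by
    by_contra q
    push Not at q
    obtain ⟨t, ht⟩ := even_sum _ fun j hj => Nat.not_odd_iff_even.1 (q j hj)
    omega
  obtain ⟨b, hb, b1⟩ : ∃ b ∈ K, (N.filter fun e => b ∈ M e).card < 2 := by
    by_contra q
    push Not at q
    have := card_nsmul_le_sum _ _ _ q
    rw [smul_eq_mul] at this
    omega
  by_cases b2 : (N.filter fun e => b ∈ M e).card = 1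
  · obtain ⟨e, he⟩ := card_eq_one.1 b2
    obtain ⟨e1, e2⟩ := mem_filter.1 (he ▸ mem_singleton_self e)
    exact ⟨e, e1, b, hb, c, h, fun f f1 f2 q => (hM e e1).2.2 f f1 f2 (q ▸ e2), fun e' q1 q2 =>
      ⟨fun z => q2 (mem_singleton.1 (he ▸ mem_filter.2 ⟨q1, z⟩)), (hM e' q1).2.2⟩⟩
  have b3 : ∀ e ∈ N, b ∉ M e := filter_eq_empty_iff.1 (card_eq_zero.1 (by omega))
  obtain ⟨e, e1, c', d1, d2, d3, d4⟩ := kempe hk h2 h ha hb
    (hu.mono (coe_subset.2 (filter_subset _ _))) a1 fun e he f f1 f2 q =>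
      (hM e (mem_filter.1 he).1).2.2 f f1 f2 (q ▸ (mem_filter.1 he).2)
  refine ⟨e, (mem_filter.1 e1).1, b, hb, c', d1, d2, fun e' q1 q2 => ⟨b3 e' q1, fun f f1 f2 q => ?_⟩⟩
  refine (hM e' q1).2.2 f f1 f2 (d4 f _ (fun z => ?_) (fun z => b3 e' q1 (z ▸ q)) rfl ▸ q)
  exact d3 e' (mem_filter.2 ⟨q1, z ▸ q⟩) q2 f f1 f2 z

theorem ext (hk : KempeS) {u : β → α} {v : α} (n : ℕ) : ∀ (F N : Finset β) (K : Finset ℕ)
    (c : β → ℕ) (M : β → Finset ℕ) (e₀ : β), N.card = n → (∀ e ∈ F, (en e).card = 2 ∧ v ∉ en e) →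
    Pr en F K c → Set.InjOn u N → N.card ≤ K.card → (∀ e ∈ N, en e = {v, u e} ∧ M e ⊆ K ∧
      (if e = e₀ then 1 else 2) ≤ (M e).card ∧ ∀ f ∈ F, u e ∈ en f → c f ∉ M e) →
    ∃ c', Pr en (F ∪ N) K c' := by
  induction n with
  | zero =>
    intro F N K c _ _ n _ h _ _ _
    rw [card_eq_zero.1 n, union_empty]
    exact ⟨c, h⟩
  | succ n ih =>
    intro F N K c M e₀ hn h2 h hu hN hM
    obtain ⟨e₁, h1, le⟩ : ∃ e₁ ∈ N, ∀ e ∈ N, (if e = e₁ then 1 else 2) ≤ (M e).card := by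
      by_cases q : e₀ ∈ N
      · exact ⟨e₀, q, fun e he => (hM e he).2.2.1⟩
      obtain ⟨e₁, q1⟩ := card_pos.1 (show 0 < N.card by omega)
      refine ⟨e₁, q1, fun e he => ?_⟩
      have := (hM e he).2.2.1
      grind
    choose! M' m1 m2 using fun e he => exists_subset_card_eq (le e he)
    obtain ⟨e, e1, i, hi, c', d1, d2, d3⟩ := step hk (fun e he => (h2 e he).1) h hu hN h1
      fun e he => ⟨(m1 e he).trans (hM e he).2.1, m2 e he,
        fun f f1 f2 q => (hM e he).2.2.2 f f1 f2 (m1 e he q)⟩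
    have k1 := card_erase_add_one e1
    have k2 := card_erase_add_one hi
    obtain ⟨c₂, p1, p2⟩ := ih (F.filter fun f => c' f ≠ i) (N.erase e) (K.erase i) c' M' e₁
      (by omega) (fun f hf => h2 f (mem_filter.1 hf).1)
      ⟨fun f hf => mem_erase.2 ⟨(mem_filter.1 hf).2, d1.1 f (mem_filter.1 hf).1⟩,
        fun f f1 f' f2 => d1.2 f (mem_filter.1 f1).1 f' (mem_filter.1 f2).1⟩
      (hu.mono (coe_subset.2 (erase_subset _ _))) (by omega) fun f hf => by
        obtain ⟨f1, f2⟩ := mem_erase.1 hf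
        exact ⟨(hM f f2).1, subset_erase.2 ⟨(m1 f f2).trans (hM f f2).2.1, (d3 f f2 f1).1⟩,
          (m2 f f2).ge, fun g hg => (d3 f f2 f1).2 g (mem_filter.1 hg).1⟩
    generalize hS : (F.filter fun f => c' f ≠ i) ∪ N.erase e = S at p1 p2
    have out : ∀ f ∈ F ∪ N, f ∉ S → f = e ∨ f ∈ F ∧ c' f = i := by grind
    have dj : ∀ f ∈ F, c' f = i → Disjoint (en e) (en f) := fun f f1 f2 => by
      rw [(hM e e1).1, disjoint_insert_left, disjoint_singleton_left]
      exact ⟨(h2 f f1).2, fun z => d2 f f1 z f2⟩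
    refine ⟨fun f => if f ∈ S then c₂ f else i, fun f _ => ?_, fun f f1 f' f2 ne q => ?_⟩
    · have := p1 f
      grind
    by_cases a : f ∈ S <;> by_cases b : f' ∈ S <;> simp only [a, b, if_true, if_false] at q
    · exact p2 f a f' b ne q
    · exact absurd q (mem_erase.1 (p1 f a)).1
    · exact absurd q.symm (mem_erase.1 (p1 f' b)).1
    obtain rfl | ⟨a1, a2⟩ := out f f1 a <;> obtain rfl | ⟨b1, b2⟩ := out f' f2 b
    exacts [absurd rfl ne, dj _ b1 b2, (dj _ a1 a2).symm, d1.2 f a1 f' b1 ne (a2.trans b2.symm)]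

end Viz

theorem viz (hk : KempeS) : VizS := by
  intro α β _ _ E en k C
  induction E using Finset.strongInduction with
  | H E ih =>
  intro h2 hs hd hc hi
  obtain rfl | ⟨e₀, h0⟩ := E.eq_empty_or_nonempty
  · exact ⟨fun _ => 0, by simp, by simp⟩
  obtain ⟨v, ⟨e₁, v1, v2⟩, hv⟩ : ∃ v, (∃ e ∈ E, v ∈ en e) ∧
      ∀ e ∈ E, v ∈ en e → ∀ u ∈ en e, u ≠ v → ¬C u := by
    by_cases q : ∃ v, C v ∧ ∃ e ∈ E, v ∈ en e
    · obtain ⟨v, a, b⟩ := q
      exact ⟨v, b, fun e e1 e2 u u1 u2 z => u2 (hi e e1 u u1 v e2 z a)⟩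
    · obtain ⟨v, a⟩ := card_pos.1 ((h2 e₀ h0).symm ▸ two_pos : 0 < (en e₀).card)
      exact ⟨v, ⟨e₀, h0, a⟩, fun e e1 _ u u1 _ z => q ⟨u, z, e, e1, u1⟩⟩
  have sub : E.filter (fun e => v ∉ en e) ⊆ E := filter_subset _ _
  have le := fun w => card_le_card (filter_subset_filter (fun e => w ∈ en e) sub)
  obtain ⟨c, c1, c2⟩ := ih (E.filter fun e => v ∉ en e)
    (filter_ssubset.2 ⟨e₁, v1, not_not.2 v2⟩) (fun e he => h2 e (sub he))
    (fun e he f hf => hs e (sub he) f (sub hf)) (fun w => (le w).trans (hd w))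
    (fun w hw => (le w).trans_lt (hc w hw)) fun e he => hi e (sub he)
  have ex : ∀ e, ∃ u, e ∈ E.filter (fun e => v ∈ en e) → u ≠ v ∧ en e = {v, u} := fun e => by
    by_cases he : e ∈ E.filter fun e => v ∈ en e
    · obtain ⟨e1, e2⟩ := mem_filter.1 he
      obtain ⟨u, hu⟩ := card_eq_one.1 (show ((en e).erase v).card = 1 by
        rw [card_erase_of_mem e2, h2 e e1])
      exact ⟨u, fun _ => ⟨(mem_erase.1 (hu ▸ mem_singleton_self u)).1, by
        rw [← hu, insert_erase e2]⟩⟩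
    · exact ⟨v, fun z => absurd z he⟩
  choose u hu using ex
  obtain ⟨c', p1, p2⟩ := Viz.ext hk (u := u) (v := v) _ (E.filter fun e => v ∉ en e)
    (E.filter fun e => v ∈ en e) (range k) c
    (fun e => range k \ ((E.filter fun e => v ∉ en e).filter fun f => u e ∈ en f).image c) e₀ rfl
    (fun e he => ⟨h2 e (sub he), (mem_filter.1 he).2⟩) ⟨fun e he => mem_range.2 (c1 e he), c2⟩
    (fun e he f hf q => hs e (mem_filter.1 he).1 f (mem_filter.1 hf).1
      (by rw [(hu e he).2, (hu f hf).2, q])) (by rw [card_range]; exact hd v) fun e he => by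
      obtain ⟨e1, e2⟩ := mem_filter.1 he
      have u1 : u e ∈ en e := by simp [(hu e he).2]
      refine ⟨(hu e he).2, sdiff_subset, ?_, fun f f1 f2 q =>
        (mem_sdiff.1 q).2 (mem_image_of_mem _ (mem_filter.2 ⟨f1, f2⟩))⟩
      have a1 := hc _ (hv e e1 e2 _ u1 (hu e he).1)
      have a2 := card_lt_card ((ssubset_iff_of_subset
        (filter_subset_filter (fun f => u e ∈ en f) sub)).2 ⟨e, mem_filter.2 ⟨e1, u1⟩,
          fun z => (mem_filter.1 (mem_filter.1 z).1).2 e2⟩)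
      have a3 := le_card_sdiff
        (((E.filter fun e => v ∉ en e).filter fun f => u e ∈ en f).image c) (range k)
      have a4 := card_image_le (f := c)
        (s := (E.filter fun e => v ∉ en e).filter fun f => u e ∈ en f)
      rw [card_range] at a3
      split_ifs <;> omega
  rw [union_comm, filter_union_filter_not_eq] at p1 p2
  exact ⟨c', fun e he => mem_range.1 (p1 e he), p2⟩

end Pool.Agent.MP_f65396_co.h15n
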