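import Pool.Agent.MP_f65396_co.h15n.SpecB

/-! The wrap-around schedule of the tokens. -/

set_option autoImplicit false

namespace Pool.Agent.MP_f65396_co.h15n

open Finset
open Pool.Agent.MP_f65396_co.h32 (cnt_mod_ge cnt_mod_le)

namespace Wrap

theorem sortk {α : Type} (key : α → ℕ) (d : α) (T : Finset α) :
    ∃ tk : ℕ → α, (∀ x < T.card, tk x ∈ T) ∧ (∀ x < T.card, ∀ y < T.card, tk x = tk y → x = y) ∧
      (∀ t ∈ T, ∃ x < T.card, tk x = t) ∧
      ∀ x y, x ≤ y → y < T.card → key (tk x) ≤ key (tk y) := by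
  classical
  induction T using Finset.induction_on_max_value key with
  | empty => exact ⟨fun _ => d, by simp⟩
  | insert a s ha hm ih =>
    obtain ⟨tk, h1, h2, h3, h4⟩ := ih
    rw [card_insert_of_notMem ha]
    refine ⟨fun x => if x < s.card then tk x else a, fun x _ => ?_, fun x hx y hy e => ?_,
      fun t ht => ?_, fun x y hxy _ => ?_⟩
    · beta_reduce
      split_ifs with c
      · exact mem_insert_of_mem (h1 x c)
      · exact mem_insert_self _ _
    · beta_reduce at e
      split_ifs at e with c c' c'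
      · exact h2 x c y c' e
      · exact absurd (e ▸ h1 x c) ha
      · exact absurd (e ▸ h1 y c') ha
      · omega
    · rcases mem_insert.1 ht with rfl | ht
      · exact ⟨s.card, Nat.lt_succ_self _, if_neg (lt_irrefl _)⟩
      · obtain ⟨x, hx, e⟩ := h3 t ht
        exact ⟨x, Nat.lt_succ_of_lt hx, (if_pos hx).trans e⟩
    · beta_reduce
      split_ifs with c c' c'
      · exact h4 x y hxy c'
      · exact hm _ (h1 x c)
      · omega
      · exact le_rfl

theorem blocks (m : ℕ → ℕ) (P : Finset ℕ) : ∃ pre : ℕ → ℕ, ∀ f : ℕ → ℕ,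
    ∑ x ∈ range (∑ J ∈ P, m J), f x = ∑ J ∈ P, ∑ i ∈ range (m J), f (pre J + i) := by
  induction P using Finset.induction_on with
  | empty => exact ⟨id, by simp⟩
  | insert a s ha ih =>
    obtain ⟨pre, h⟩ := ih
    refine ⟨fun J => if J = a then ∑ J ∈ s, m J else pre J, fun f => ?_⟩
    rw [sum_insert ha, sum_insert ha, add_comm (m a), sum_range_add, h, add_comm]
    simp only [if_true]
    congr 1
    refine sum_congr rfl fun J hJ => ?_
    rw [if_neg (ne_of_mem_of_not_mem hJ ha)]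

theorem gap {B : ℕ → ℕ} (hB : Monotone B) {μ : ℕ}
    (h : ∀ w, ∃ F : Finset ℕ, μ ≤ F.card ∧ ∀ x ∈ F, B x = w) (x y : ℕ) :
    (B y - B x - 1) * μ ≤ y - x - 1 := by
  rw [← Nat.card_Ioo, ← Nat.card_Ioo, ← smul_eq_mul]
  refine (card_nsmul_le_sum _ (fun w => ((Ioo x y).filter fun z => B z = w).card) _
    fun w hw => ?_).trans ?_
  · obtain ⟨F, h1, h2⟩ := h w
    refine h1.trans (card_le_card fun z hz => mem_filter.2 ⟨mem_Ioo.2 ⟨?_, ?_⟩, h2 z hz⟩)
    · exact hB.reflect_lt (by rw [h2 z hz]; exact (mem_Ioo.1 hw).1)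
    · exact hB.reflect_lt (by rw [h2 z hz]; exact (mem_Ioo.1 hw).2)
  · rw [sum_card_fiberwise_eq_card_filter]
    exact card_filter_le _ _

end Wrap

open Wrap in
theorem wrap : WrapS := by
  intro V _ S r b rm g β μ P m v0 hβ hg hμ β0 hr hc hm
  obtain ⟨key, hkey⟩ : ∃ key : (Σ _ : V, ℕ) → ℕ, ∀ t, key t = (b t.1 + t.2 * g) % β :=
    ⟨_, fun _ => rfl⟩
  obtain ⟨tk, h1, h2, h3, h4⟩ := sortk key ⟨v0, 0⟩ (S.sigma fun u => range (r u))
  have hN : (S.sigma fun u => range (r u)).card = ∑ v ∈ S, r v := by simp [card_sigma]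
  rw [hN] at h1 h2 h3 h4
  generalize ∑ v ∈ S, r v = N at *
  simp only [mem_sigma, mem_range] at h1 h3
  have kl : ∀ t, key t < β := fun t => hkey t ▸ Nat.mod_lt _ β0
  have fib : ∀ c < β, μ ≤ ((range N).filter fun x => key (tk x) = c).card := fun c h => by
    refine (hc c h).trans (card_le_card_of_surjOn (fun x => (tk x).1) fun u hu => ?_)
    obtain ⟨a1, j, a2, a3⟩ := mem_filter.1 (mem_coe.1 hu)
    obtain ⟨x, hx, e⟩ := h3 ⟨u, j⟩ ⟨a1, a2⟩
    exact ⟨x, mem_coe.2 (mem_filter.2 ⟨mem_range.2 hx, by rw [e, hkey]; exact a3⟩),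
      congrArg Sigma.fst e⟩
  have N0 : 0 < N := by
    have := (hμ.trans (fib 0 β0)).trans (card_filter_le _ _)
    rwa [card_range] at this
  have ml : ∀ x, x % N < N := fun x => Nat.mod_lt _ N0
  obtain ⟨B, hB⟩ : ∃ B : ℕ → ℕ, ∀ x, B x = key (tk (x % N)) + β * (x / N) := ⟨_, fun _ => rfl⟩
  have Bm : ∀ x, B x % β = key (tk (x % N)) := fun x => by
    rw [hB, Nat.add_mul_mod_self_left, Nat.mod_eq_of_lt (kl _)]
  have Bd : ∀ x, B x / β = x / N := fun x => by
    rw [hB, Nat.add_mul_div_left _ _ β0, Nat.div_eq_of_lt (kl _), zero_add]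
  have mono : Monotone B := fun x y hxy => by
    rw [hB, hB]
    rcases (Nat.div_le_div_right (c := N) hxy).eq_or_lt with e | e
    · have a1 := Nat.div_add_mod x N
      have a2 := Nat.div_add_mod y N
      rw [e] at a1 ⊢
      exact Nat.add_le_add_right (h4 _ _ (by omega) (ml y)) _
    · have a1 : β * (x / N + 1) ≤ β * (y / N) := Nat.mul_le_mul_left _ e
      have a2 := kl (tk (x % N))
      rw [mul_add] at a1
      omega
  have G := gap mono (μ := μ) fun w => ⟨((range N).filter fun x => key (tk x) = w % β).image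
      fun x => x + N * (w / β), by
      rw [card_image_of_injective _ (add_left_injective _)]
      exact fib _ (Nat.mod_lt _ β0), fun z hz => by
      obtain ⟨x, hx, rfl⟩ := mem_image.1 hz
      obtain ⟨a1, a2⟩ := mem_filter.1 hx
      rw [mem_range] at a1
      rw [hB, Nat.add_mul_mod_self_left, Nat.mod_eq_of_lt a1, a2, Nat.add_mul_div_left _ _ N0,
        Nat.div_eq_of_lt a1, zero_add, Nat.mod_add_div]⟩
  have Bg : ∀ x, B x ≡ b (tk (x % N)).1 [MOD g] := fun x => by
    have a1 : B x ≡ b (tk (x % N)).1 + (tk (x % N)).2 * g [MOD β] := (Bm x).trans (hkey _)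
    exact (a1.of_dvd ⟨rm, by rw [hβ, mul_comm]⟩).trans (Nat.add_mul_mod_self_right _ _ _)
  have inj : ∀ x y, x ≤ y → y < x + (g - 1) * μ → (tk (x % N)).1 = (tk (y % N)).1 → x = y :=
    fun x y hxy hy e => by
    have a1 : (B y - B x - 1) * μ < (g - 1) * μ := (G x y).trans_lt (by omega)
    have a2 := Nat.lt_of_mul_lt_mul_right a1
    have a3 := mono hxy
    have a4 : B x ≡ B y [MOD g] := (Bg x).trans (e ▸ (Bg y).symm)
    have a5 : B y - B x = 0 :=
      Nat.eq_zero_of_dvd_of_lt ((Nat.modEq_iff_dvd' a3).1 a4) (by omega)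
    have a6 : B x = B y := by omega
    have a7 : x / N = y / N := by rw [← Bd, ← Bd, a6]
    have a8 : key (tk (x % N)) = key (tk (y % N)) := by rw [← Bm, ← Bm, a6]
    obtain ⟨b1, b2⟩ := h1 _ (ml x)
    obtain ⟨b3, b4⟩ := h1 _ (ml y)
    have a9 : (tk (x % N)).2 = (tk (y % N)).2 := by
      rw [hkey, hkey, e, hβ] at a8
      exact (Nat.ModEq.mul_right_cancel' (by omega)
        (Nat.ModEq.add_left_cancel' _ a8)).eq_of_lt_of_lt (b2.trans_le (hr _ b1))
        (b4.trans_le (hr _ b3))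
    have a10 := h2 _ (ml x) _ (ml y) (Sigma.ext e (heq_of_eq a9))
    rw [← Nat.div_add_mod x N, ← Nat.div_add_mod y N, a7, a10]
  obtain ⟨pre, hpre⟩ := blocks m P
  have inj' : ∀ J ∈ P, ∀ i < m J, ∀ j < m J,
      (tk ((pre J + i) % N)).1 = (tk ((pre J + j) % N)).1 → i = j := fun J hJ i hi j hj e => by
    have := hm J hJ
    rcases le_total i j with c | c
    · have := inj _ _ (by omega) (by omega) e
      omega
    · have := inj _ _ (by omega) (by omega) e.symm
      omega
  refine ⟨fun J i => (tk ((pre J + i) % N)).1, fun J hJ i hi => ⟨(h1 _ (ml _)).1, inj' J hJ i hi⟩,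
    fun u hu => ?_, fun J _ => ⟨(Icc (B (pre J)) (B (pre J + m J))).image (· % β), ?_,
      fun i hi => ⟨B (pre J + i) % β, mem_image_of_mem _
        (mem_Icc.2 ⟨mono (by omega), mono (by omega)⟩),
        _, (h1 _ (ml _)).2, ((Bm _).trans (hkey _)).symm⟩⟩⟩
  · have c1 : ((range N).filter fun y => (tk y).1 = u).card = r u := by
      rw [← card_range (r u)]
      refine card_bij (fun y _ => (tk y).2) (fun y hy => ?_) (fun y hy z hz e => ?_) fun j hj => ?_
      · obtain ⟨a1, a2⟩ := mem_filter.1 hy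
        exact mem_range.2 (a2 ▸ (h1 y (mem_range.1 a1)).2)
      · obtain ⟨a1, a2⟩ := mem_filter.1 hy
        obtain ⟨a3, a4⟩ := mem_filter.1 hz
        exact h2 _ (mem_range.1 a1) _ (mem_range.1 a3) (Sigma.ext (a2.trans a4.symm) (heq_of_eq e))
      · obtain ⟨x, hx, e⟩ := h3 ⟨u, j⟩ ⟨hu, mem_range.1 hj⟩
        exact ⟨x, mem_filter.2 ⟨mem_range.2 hx, congrArg Sigma.fst e⟩, by rw [e]⟩
    have c2 : (P.filter fun J => ∃ i < m J, (tk ((pre J + i) % N)).1 = u).card =
        ∑ y ∈ (range N).filter fun y => (tk y).1 = u,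
          ((range (∑ J ∈ P, m J)).filter fun x => x % N = y).card := by
      rw [sum_card_fiberwise_eq_card_filter, card_filter, card_filter, hpre]
      refine sum_congr rfl fun J hJ => ?_
      simp only [mem_filter, mem_range, ml, true_and]
      split_ifs with c
      · obtain ⟨i, hi, e⟩ := c
        rw [sum_eq_single_of_mem i (mem_range.2 hi), if_pos e]
        exact fun j hj ne => if_neg fun e' => ne (inj' J hJ j (mem_range.1 hj) i hi (e'.trans e.symm))
      · exact (sum_eq_zero fun i hi => if_neg fun e => c ⟨i, mem_range.1 hi, e⟩).symm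
    rw [c2, ← c1, ← smul_eq_mul, ← smul_eq_mul]
    exact ⟨card_nsmul_le_sum _ _ _ fun y hy => cnt_mod_ge _ (mem_range.1 (mem_filter.1 hy).1),
      sum_le_card_nsmul _ _ _ fun y hy => cnt_mod_le _ (mem_range.1 (mem_filter.1 hy).1)⟩
  · refine card_image_le.trans ?_
    have a1 : (B (pre J + m J) - B (pre J) - 1) * μ ≤ m J := (G _ _).trans (by omega)
    have a2 := (Nat.le_div_iff_mul_le hμ).2 a1
    rw [Nat.card_Icc]
    omega

end Pool.Agent.MP_f65396_co.h15n
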