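import Pool.Agent.MP_f65396_co.h15n.Wire
import Pool.Agent.MP_f65396_co.h15n.Many
import Pool.Agent.MP_f65396_co.h15n.Viz
import Pool.Agent.MP_f65396_co.h15n.Kempe
import Pool.Agent.MP_f65396_co.h15n.Swap
import Pool.Agent.MP_f65396_co.h15n.Chern
import Pool.Agent.MP_f65396_co.h15n.Hand
import Pool.Agent.MP_f65396_co.h15n.Hak
import Pool.Agent.MP_f65396_co.h15n.Split
import Pool.Agent.MP_f65396_co.h15n.Pick
import Pool.Agent.MP_f65396_co.h15n.Own
import Pool.Agent.MP_f65396_co.h15n.Two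
import Pool.Agent.MP_f65396_co.h15n.Ord
import Pool.Agent.MP_f65396_co.h15n.Glue
import Pool.Agent.MP_f65396_co.h15n.Label
import Pool.Agent.MP_f65396_co.h15n.Star
import Pool.Agent.MP_f65396_co.h15n.Wrap
import Pool.Agent.MP_f65396_co.h15n.Block
import Pool.Agent.MP_f65396_co.h15n.Top
import Pool.Agent.MP_f65396_co.h15n.Plan
import Pool.Agent.MP_f65396_co.h15n.Fa
import Pool.Agent.MP_f65396_co.h15n.Fb
import Pool.Agent.MP_f65396_co.h15n.Few
import Pool.Agent.MP_f65396_co.h15n.Ori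
import Pool.Agent.MP_f65396_co.h15n.Tab
import Pool.Agent.MP_f65396_co.h15n.Load
import Pool.Agent.MP_f65396_co.h15n.Ctr
import Pool.Agent.MP_f65396_co.h15n.Irr
import Pool.Agent.MP_f65396_co.h15n.Slot
import Pool.Agent.MP_f65396_co.h15n.Rest

/-! Graphs without a nearly complete subgraph decompose into ascending star forests. -/

set_option autoImplicit false

namespace Pool.Agent.MP_f65396_co.h15n

open Finset

theorem main0 (k : ℕ) (hk : 1 ≤ k) : ∃ n0, ∀ (V : Type) [Fintype V] [DecidableEq V]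
    (G : SimpleGraph V) [DecidableRel G.Adj] (n : ℕ), n0 ≤ n →
    G.edgeSet.ncard = n * (n + 1) / 2 → (∀ S : Finset V, k * ein G S ≤ (k - 1) * n * S.card) →
    Dec0 G n :=
  have t := top splitS (own swap)
  wire ord cardS finS num (ori hak cardS)
    (many (planM t) (label chern) (ctrS (tab anti) wrap load) (star (shift chern))
      (irr (hand greedy)) (rest (slot swap anti) count) (block (viz kempe) (eqz kempe)) glue free)
    (few ord (fa (med pick) (own swap) (two swap) (planA t))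
      (fb pick (med pick) (own swap) (two swap) (planB t))) k hk

lemma ein_eq {V : Type} [Fintype V] [DecidableEq V] (G : SimpleGraph V) [DecidableRel G.Adj]
    (S : Finset V) : ein G S = 2 * {e ∈ G.edgeSet | ∀ v ∈ e, v ∈ S}.ncard := by
  let H : SimpleGraph V :=
    { Adj := fun u v => G.Adj u v ∧ u ∈ S ∧ v ∈ S
      symm := ⟨fun u v e => ⟨e.1.symm, e.2.2, e.2.1⟩⟩
      loopless := ⟨fun u e => e.1.ne rfl⟩ }
  have e1 : {e ∈ G.edgeSet | ∀ v ∈ e, v ∈ S} = H.edgeSet := by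
    ext e
    induction e using Sym2.ind with
    | h u v => simp [H]
  rw [e1, ← SimpleGraph.coe_edgeFinset, Set.ncard_coe_finset, ← H.sum_degrees_eq_twice_card_edges,
    ein, card_eq_sum_card_fiberwise (f := Prod.fst) (t := univ) fun _ _ => mem_univ _]
  refine sum_congr rfl fun u _ => ?_
  rw [← SimpleGraph.card_neighborFinset_eq_degree]
  refine card_bij (fun p _ => p.2) (fun p hp => ?_) (fun p hp q hq e => ?_) fun v hv => ?_
  · obtain ⟨a, rfl⟩ := mem_filter.1 hp
    obtain ⟨b, c⟩ := mem_filter.1 a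
    exact (H.mem_neighborFinset _ _).2 ⟨c, mem_product.1 b⟩
  · exact Prod.ext ((mem_filter.1 hp).2.trans (mem_filter.1 hq).2.symm) e
  · obtain ⟨a, b⟩ := (H.mem_neighborFinset _ _).1 hv
    exact ⟨(u, v), mem_filter.2 ⟨mem_filter.2 ⟨mem_product.2 b, a⟩, rfl⟩, rfl⟩

theorem main (ε : ℝ) (hε : 0 < ε) : ∃ n0 : ℕ, ∀ (V : Type) [Fintype V] (G : SimpleGraph V)
    (n : ℕ), n0 ≤ n → G.edgeSet.ncard = n * (n + 1) / 2 →
    (∀ S : Finset V, 2 * ({e ∈ G.edgeSet | ∀ v ∈ e, v ∈ S}.ncard : ℝ) ≤ (1 - ε) * n * S.card) →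
    Dec0 G n := by
  classical
  obtain ⟨j, hj⟩ := exists_nat_one_div_lt hε
  obtain ⟨n0, h0⟩ := main0 (j + 1) (by omega)
  refine ⟨n0, fun V _ G n hn hE hS => h0 V G n hn hE fun S => ?_⟩
  have a1 := hS S
  have a2 : (0 : ℝ) < j + 1 := by positivity
  have a3 : (0 : ℝ) ≤ n * S.card := by positivity
  rw [div_lt_iff₀ a2] at hj
  rw [ein_eq, Nat.add_sub_cancel]
  have a4 : ((j + 1 : ℝ)) * (2 * ({e ∈ G.edgeSet | ∀ v ∈ e, v ∈ S}.ncard : ℝ)) ≤
      j * n * S.card := by
    refine (mul_le_mul_of_nonneg_left a1 a2.le).trans ?_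
    nlinarith
  exact_mod_cast a4

end Pool.Agent.MP_f65396_co.h15n
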