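import Pool.Agent.MP_f65396_co.h15n.SpecB

/-! The orientation in the case of many vertices of medium degree. -/

set_option autoImplicit false

namespace Pool.Agent.MP_f65396_co.h15n

open Finset

namespace Ori

variable {V : Type} [Fintype V] [DecidableEq V] {G : SimpleGraph V} [DecidableRel G.Adj]
  {D : Finset (V × V)}

omit [Fintype V] in
theorem ein_in (h : Orn G D) (S : Finset V) :
    ein G S ≤ 2 * ∑ v ∈ S, (D.filter (fun p => p.2 = v)).card := by
  rw [sum_card_fiberwise_eq_card_filter, two_mul]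
  refine le_trans (card_le_card (t := D.filter (fun p => p.2 ∈ S) ∪
    (D.filter (fun p => p.2 ∈ S)).image Prod.swap) fun p hp => ?_)
    ((card_union_le _ _).trans (Nat.add_le_add_left card_image_le _))
  obtain ⟨a, b⟩ := mem_filter.1 hp
  rw [mem_product] at a
  rcases h.cov _ _ b with e | e
  · exact mem_union_left _ (mem_filter.2 ⟨e, a.2⟩)
  · exact mem_union_right _ (mem_image.2 ⟨_, mem_filter.2 ⟨e, a.1⟩, rfl⟩)

theorem ein_deg (S : Finset V) : ein G S ≤ ∑ v ∈ S, G.degree v := by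
  refine le_trans (card_le_card (t := S.biUnion fun v => {v} ×ˢ G.neighborFinset v)
    fun p hp => ?_) (card_biUnion_le.trans (sum_le_sum fun v _ => by simp))
  obtain ⟨a, b⟩ := mem_filter.1 hp
  exact mem_biUnion.2 ⟨p.1, (mem_product.1 a).1, by simpa using b⟩

omit [Fintype V] in
theorem tot_le (v : V) : dtot D v ≤ dout D v + (D.filter (fun p => p.2 = v)).card := by
  rw [dtot, filter_or]
  exact card_union_le _ _

theorem ar1 {n K T x d o c : ℕ} (hT : T + 1 = K ^ 2) (hn : 4 * K ^ 3 ≤ n) (h1 : n < K * d)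
    (h2 : x ≤ d) (h3 : d ≤ o + c) (h4 : c ≤ (T * (2 * x) + d) / (2 * (T + 1)) + 1) :
    n ≤ 4 * K ^ 3 * o := by
  have a := Nat.mul_div_le (T * (2 * x) + d) (2 * (T + 1))
  generalize (T * (2 * x) + d) / (2 * (T + 1)) = q at a h4
  have b : T * x ≤ T * d := Nat.mul_le_mul_left _ h2
  have e : (T + 1) * d ≤ (T + 1) * (o + q + 1) := Nat.mul_le_mul_left _ (by omega)
  have f : d ≤ 2 * (T + 1) * (o + 1) := by nlinarith
  have g : K * d ≤ 2 * K ^ 3 * (o + 1) := by
    refine (Nat.mul_le_mul_left K f).trans (le_of_eq ?_)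
    rw [hT]
    ring
  generalize K ^ 3 = m at hn g ⊢
  rcases Nat.eq_zero_or_pos o with rfl | p
  · omega
  · nlinarith

theorem ar2 {n j K T x d c : ℕ} (hK : K = 10000 * (j + 1)) (hT : T + 1 = K ^ 2) (hn : K ≤ n)
    (h1 : d ≤ K * n) (h2 : x ≤ j * n / (2 * (j + 1)) + 1)
    (h4 : c ≤ (T * (2 * x) + d) / (2 * (T + 1)) + 1) : 4 * (j + 1) * c ≤ (2 * j + 1) * n := by
  have a := Nat.mul_div_le (T * (2 * x) + d) (2 * (T + 1))
  generalize (T * (2 * x) + d) / (2 * (T + 1)) = q at a h4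
  have b := Nat.mul_div_le (j * n) (2 * (j + 1))
  generalize j * n / (2 * (j + 1)) = y at b h2
  have e : K * (2 * K * q) ≤ K * (2 * K * x + n) := by
    have : K * (2 * K * x + n) = (T + 1) * (2 * x) + K * n := by rw [hT]; ring
    rw [this, show K * (2 * K * q) = 2 * (T + 1) * q by rw [hT]; ring]
    nlinarith
  have f := Nat.le_of_mul_le_mul_left e (by omega)
  have g : (j + 1) * x ≤ (j + 1) * (y + 1) := Nat.mul_le_mul_left _ h2
  have i : (j + 1) * c ≤ (j + 1) * (q + 1) := Nat.mul_le_mul_left _ h4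
  subst hK
  nlinarith

end Ori

theorem ori (hh : HakS) (hc : CardS) : OriS := by
  intro V _ _ G _ n h k K Sh hp h1 h2 h3 h4 h5
  obtain ⟨j, rfl⟩ : ∃ j, k = j + 1 := ⟨k - 1, by have := hp.hk; omega⟩
  have hK := hp.hK
  have k0 : 4 ≤ K := by omega
  obtain ⟨T, hT⟩ : ∃ T, T + 1 = K ^ 2 := ⟨K ^ 2 - 1, Nat.sub_add_cancel (Nat.one_le_pow _ _ (by omega))⟩
  have n1 : K ^ 4 ≤ n := (Nat.pow_le_pow_right (by omega) (by omega)).trans
    (hp.hh.trans ((Nat.le_self_pow (by omega) h).trans hp.h1))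
  have n2 : 4 * K ^ 3 ≤ n :=
    le_trans (by rw [pow_succ' K 3]; exact Nat.mul_le_mul_right _ k0) n1
  have n3 : K ≤ n := (Nat.le_self_pow (by omega) K).trans n1
  obtain ⟨D1, o1, x1⟩ := hh V G (fun _ => j * n / (2 * (j + 1)) + 1) fun S => by
    have a := h1 S
    have b := Nat.lt_mul_div_succ (j * n) (show 0 < 2 * (j + 1) by omega)
    rw [Nat.add_sub_cancel] at a
    rw [sum_const, smul_eq_mul]
    refine Nat.le_of_mul_le_mul_left (a.trans ?_) (Nat.succ_pos j)
    refine (Nat.mul_le_mul_right _ b.le).trans (le_of_eq ?_)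
    ring
  obtain ⟨D2, o2, x2⟩ := hh V G (fun v => (T * (2 * (D1.filter (fun p => p.2 = v)).card) +
      G.degree v) / (2 * (T + 1)) + 1) fun S => by
    refine Nat.le_of_mul_le_mul_left ?_ (Nat.succ_pos T)
    rw [← mul_assoc, mul_comm _ 2, mul_sum]
    refine le_trans ?_ (sum_le_sum fun v _ => (Nat.lt_mul_div_succ _ (by omega)).le)
    rw [sum_add_distrib, ← mul_sum, ← mul_sum, Nat.succ_mul]
    exact Nat.add_le_add (Nat.mul_le_mul_left _ (Ori.ein_in o1 S)) (Ori.ein_deg S)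
  obtain ⟨D, hD⟩ : ∃ D : Finset (V × V), ∀ u v, (u, v) ∈ D ↔ G.Adj u v ∧
      (((u, v) ∈ D2 ∧ (u ∈ Sh ↔ v ∈ Sh)) ∨ (u ∈ Sh ∧ v ∉ Sh)) :=
    ⟨univ.filter fun p => G.Adj p.1 p.2 ∧ ((p ∈ D2 ∧ (p.1 ∈ Sh ↔ p.2 ∈ Sh)) ∨
      (p.1 ∈ Sh ∧ p.2 ∉ Sh)), fun u v => by simp⟩
  have o : Orn G D := by
    refine ⟨fun p hp => ((hD p.1 p.2).1 hp).1, fun u v a => ?_, fun u v a b => ?_⟩
    · have := o2.cov u v a
      have := a.symm
      rw [hD, hD]
      tauto
    · have := o2.asy u v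
      rw [hD] at a b
      tauto
  obtain ⟨c1, c2⟩ := hc V G D o
  have s : ∀ w ∈ Sh, (D.filter (fun p => p.2 = w)).card ≤ (D2.filter (fun p => p.2 = w)).card :=
    fun w hw => card_le_card fun p hp => by
      obtain ⟨a, rfl⟩ := mem_filter.1 hp
      have := ((hD p.1 p.2).1 a).2
      exact mem_filter.2 ⟨by tauto, rfl⟩
  refine ⟨D, o, o.asy, fun p hp a => ?_, fun u hu => ⟨?_, ?_⟩, fun w => ?_, fun v hv => ?_, h4,
    c1 ▸ h5⟩
  · have := ((hD p.1 p.2).1 hp).2
    tauto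
  · refine Ori.ar1 hT n2 ((h3 u).1 hu) ?_ (c2 u ▸ Ori.tot_le u) ((s u hu).trans (x2 u))
    rw [← (hc V G D1 o1).2 u]
    exact card_le_card (monotone_filter_right _ fun p _ => Or.inr)
  · refine le_trans ?_ (h2 u)
    rw [← c2 u]
    exact card_le_card (monotone_filter_right _ fun p _ => Or.inl)
  · rw [show 2 * (j + 1) - 1 = 2 * j + 1 by omega]
    by_cases hw : w ∈ Sh
    · exact Ori.ar2 hK hT n3 (h2 w) (x1 w) ((card_le_card
        (monotone_filter_right _ fun p _ => And.left)).trans ((s w hw).trans (x2 w)))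
    · have a : (D.filter (fun p => p.2 = w ∧ p.1 ∈ Sh)).card ≤ G.degree w := by
        rw [← c2 w]
        exact card_le_card (monotone_filter_right _ fun p _ e => Or.inr e.1)
      have b := not_lt.1 (mt (h3 w).2 hw)
      have c := Nat.mul_le_mul_left (j + 1) a
      subst hK
      nlinarith
  · rw [c2]
    exact not_lt.1 (mt (h3 v).2 hv)

end Pool.Agent.MP_f65396_co.h15n
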