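import Pool.Agent.MP_f65396_co.h32.Asm
import Mathlib.Combinatorics.SimpleGraph.Finite
import Mathlib.Analysis.SpecialFunctions.Exp

/-! Statements of the general tools for graphs without a nearly complete subgraph. -/

set_option autoImplicit false

namespace Pool.Agent.MP_f65396_co.h15n

open Finset
open Pool.Agent.MP_f65396_co.h32 (cells rk)

/-- The cells with height in `U`. -/
def cl (n : ℕ) (U : Finset ℕ) : Finset (ℕ × ℕ) := (cells n).filter (fun x => x.1 ∈ U)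

/-- A labelling of the cells with height in `U` by the arcs of `D`. -/
structure Lab {V : Type} (n : ℕ) (U : Finset ℕ) (D : Finset (V × V)) (φ : ℕ × ℕ → V × V)
    (arm : ℕ → ℕ) : Prop where
  bij : Set.BijOn φ (cl n U) D
  am : ∀ y ∈ U, arm y ∈ U
  e4 : ∀ x ∈ cl n U, ∀ y ∈ cl n U, x.2 = y.2 → (arm x.1 = arm y.1 ↔ (φ x).1 = (φ y).1)
  e5 : ∀ x ∈ cl n U, ∀ y ∈ cl n U, x.2 = y.2 → (φ x).2 ≠ (φ y).1
  e6 : ∀ x ∈ cl n U, ∀ y ∈ cl n U, x.2 = y.2 → (φ x).2 = (φ y).2 → x = y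

/-- The depths at which `v` is used. -/
def ud {V : Type} [DecidableEq V] (n : ℕ) (U : Finset ℕ) (φ : ℕ × ℕ → V × V) (v : V) :
    Finset ℕ := ((cl n U).filter (fun x => (φ x).1 = v ∨ (φ x).2 = v)).image Prod.snd

/-- The number of arcs leaving `u`. -/
def dout {V : Type} [DecidableEq V] (D : Finset (V × V)) (u : V) : ℕ :=
  (D.filter (fun p => p.1 = u)).card

/-- The number of arcs at `v`. -/
def dtot {V : Type} [DecidableEq V] (D : Finset (V × V)) (v : V) : ℕ :=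
  (D.filter (fun p => p.1 = v ∨ p.2 = v)).card

/-- `D` is an orientation of `G`. -/
structure Orn {V : Type} (G : SimpleGraph V) (D : Finset (V × V)) : Prop where
  adj : ∀ p ∈ D, G.Adj p.1 p.2
  cov : ∀ u v, G.Adj u v → (u, v) ∈ D ∨ (v, u) ∈ D
  asy : ∀ u v, (u, v) ∈ D → (v, u) ∉ D

/-- Twice the number of edges inside `S`. -/
def ein {V : Type} (G : SimpleGraph V) [DecidableRel G.Adj] (S : Finset V) : ℕ :=
  ((S ×ˢ S).filter (fun p => G.Adj p.1 p.2)).card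

/-- An ascending decomposition into star forests. -/
def Dec0 {V : Type} (G : SimpleGraph V) (n : ℕ) : Prop :=
  ∃ H : Fin n → SimpleGraph V,
    (⨆ i, H i) = G ∧
    Pairwise (fun i j => Disjoint (H i).edgeSet (H j).edgeSet) ∧
    (∀ i : Fin n, (H i).edgeSet.ncard = i.val + 1) ∧
    (∀ i j : Fin n, j.val = i.val + 1 →
      ∃ f : V → V, Function.Injective f ∧
        ∀ u v : V, (H i).Adj u v → (H j).Adj (f u) (f v)) ∧
    ∀ (i : Fin n) (u v : V), (H i).Adj u v →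
      (∀ w : V, (H i).Adj u w → w = v) ∨ ∀ w : V, (H i).Adj v w → w = u

/-- The owners `o 0, …, o (Q - 1)` and their arcs. -/
structure Ow {V : Type} (Q : ℕ) (o : ℕ → V) (D : Finset (V × V)) : Prop where
  inj : ∀ i < Q, ∀ j < Q, o i = o j → i = j
  tl : ∀ p ∈ D, ∃ i < Q, p.1 = o i ∧ ∀ j < Q, p.2 = o j → i < j

/-- The heights of the owners, with decreasing top heights. -/
structure Hts (n Q : ℕ) (W : ℕ → Finset ℕ) (η : ℕ → ℕ) : Prop where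
  sub : ∀ i < Q, W i ⊆ Icc 1 n
  dj : ∀ i < Q, ∀ j < Q, i ≠ j → Disjoint (W i) (W j)
  top : ∀ i < Q, η i ∈ W i
  le : ∀ j < Q, 1 ≤ j → ∀ y ∈ W j, y ≤ η j
  gap : ∀ j < Q, ∀ i < j, η j + 2 * (j - i) ≤ η i

/-- The size of the parameters. -/
structure Par (n h k K : ℕ) : Prop where
  hk : 1 ≤ k
  hK : K = 10000 * k
  hh : K ^ 60 ≤ h
  h1 : h ^ 4 ≤ n
  h2 : n ≤ 16 * h ^ 4
  ex : (8 * n ^ 3 * K ^ 14 : ℝ) < Real.exp (h / (160 * K ^ 2))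

/-- Independent uniform choices meeting all tests. -/
def ChernS : Prop := ∀ (ι τ : Type) [DecidableEq ι] (I : Finset ι) (N : ι → ℕ) (T : Finset τ)
    (f : τ → ι → ℕ → ℝ) (l D : ℝ), (∀ i ∈ I, 0 < N i) →
  (∀ t ∈ T, ∀ i ∈ I, ∀ x < N i, 0 ≤ f t i x ∧ f t i x ≤ 1) → 0 < l → l ≤ 1 →
  2 * (T.card : ℝ) < Real.exp (l * D) →
  ∃ ω : ι → ℕ, (∀ i ∈ I, ω i < N i) ∧ ∀ t ∈ T,
    |∑ i ∈ I, f t i (ω i) - ∑ i ∈ I, (∑ x ∈ range (N i), f t i x) / N i| ≤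
      l * ∑ i ∈ I, (∑ x ∈ range (N i), f t i x) / N i + D

/-- Placing objects into cells without conflicts. -/
def SwapS : Prop := ∀ (α β γ δ V : Type) [DecidableEq α] [DecidableEq β] [DecidableEq γ]
    [DecidableEq δ] [DecidableEq V] (X : Finset α) (E : Finset β) (gx : α → γ) (ge : β → γ)
    (κ : α → δ) (en : β → Finset V) (busy : V → δ → Prop) [∀ v s, Decidable (busy v s)]
    (μ : γ → ℕ) (Δ c ν : ℕ) (_e0 : β),
  (∀ g, (X.filter (fun x => gx x = g)).card = (E.filter (fun e => ge e = g)).card) →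
  (∀ y ∈ X, ∀ g, (X.filter (fun x => gx x = g ∧ x ≠ y ∧ κ x = κ y)).card ≤ μ g) →
  (∀ y ∈ X, (X.filter (fun x => x ≠ y ∧ κ x = κ y)).card ≤ c) →
  (∀ e ∈ E, (E.filter (fun e' => e' ≠ e ∧ ¬ Disjoint (en e') (en e))).card ≤ Δ) →
  (∀ e ∈ E, ∀ g, (E.filter (fun e' => ge e' = g ∧ e' ≠ e ∧ ¬ Disjoint (en e') (en e))).card ≤ ν) →
  (∀ e ∈ E, ∀ y ∈ X, gx y = ge e →
    (X.filter (fun x => gx x = ge e ∧ ∃ v ∈ en e, busy v (κ x))).card + Δ * μ (ge e) +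
      (E.filter (fun e' => ge e' = ge e ∧ ∃ v ∈ en e', busy v (κ y))).card + c * ν +
      μ (ge e) + 1 < (X.filter (fun x => gx x = ge e)).card) →
  ∃ ψ : α → β, Set.BijOn ψ X E ∧ (∀ x ∈ X, ge (ψ x) = gx x ∧ ∀ v ∈ en (ψ x), ¬ busy v (κ x)) ∧
    ∀ x ∈ X, ∀ y ∈ X, x ≠ y → κ x = κ y → Disjoint (en (ψ x)) (en (ψ y))

/-- Greedy choice from lists. -/
def GreedyS : Prop := ∀ (ι C : Type) [DecidableEq ι] [DecidableEq C] (I : Finset ι)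
    (L : ι → Finset C) (bad : ι → C → ι → C → Prop) [∀ i c j d, Decidable (bad i c j d)]
    (wt : ι → ι → ℕ) (_c0 : C), (∀ i c j d, bad i c j d → bad j d i c) →
  (∀ i ∈ I, ∀ j ∈ I, i ≠ j → ∀ d, ((L i).filter (fun c => bad i c j d)).card ≤ wt i j) →
  (∀ i ∈ I, ∑ j ∈ I.erase i, wt i j < (L i).card) →
  ∃ f : ι → C, (∀ i ∈ I, f i ∈ L i) ∧ ∀ i ∈ I, ∀ j ∈ I, i ≠ j → ¬ bad i (f i) j (f j)

/-- Centres and private leaves for the irregular cells. -/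
def HandS : Prop := ∀ (α γ V : Type) [DecidableEq α] [DecidableEq γ] [DecidableEq V]
    (H : Finset α) (blk : α → ℕ) (key : α → γ) (Cn : ℕ → Finset V) (Lf : V → ℕ → Finset V)
    (hb hk I x : ℕ) (_v0 : V),
  (∀ a ∈ H, ∀ b ∈ H, key a = key b → blk a = blk b) →
  (∀ J, ((H.filter (fun a => blk a = J)).image key).card ≤ hb) →
  (∀ g, (H.filter (fun a => key a = g)).card ≤ hk) → (H.image key).card ≤ I →
  (∀ a ∈ H, hb * x + I < (Cn (blk a)).card * x) →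
  (∀ a ∈ H, ∀ u ∈ Cn (blk a), x * hk + hb + hb * hk < (Lf u (blk a)).card) →
  ∃ tl hd : α → V, (∀ a ∈ H, tl a ∈ Cn (blk a) ∧ hd a ∈ Lf (tl a) (blk a)) ∧
    (∀ a ∈ H, ∀ b ∈ H, tl a = tl b → hd a = hd b → a = b) ∧
    ∀ a ∈ H, ∀ b ∈ H, blk a = blk b →
      (key a = key b ↔ tl a = tl b) ∧ hd a ≠ tl b ∧ (hd a = hd b → a = b)

/-- Connected components of a finite set of edges. -/
def KempeS : Prop := ∀ (α β : Type) [DecidableEq α] [DecidableEq β] (F : Finset β)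
    (en : β → Finset α), (∀ e ∈ F, (en e).card = 2) →
  ∃ cp : β → ℕ, (∀ e ∈ F, ∀ e' ∈ F, ¬ Disjoint (en e) (en e') → cp e = cp e') ∧
    ∀ i, ((F.filter (fun e => cp e = i)).biUnion en).card ≤ (F.filter (fun e => cp e = i)).card + 1

/-- A proper edge colouring with `k` colours. -/
structure Prp {α β : Type} (E : Finset β) (en : β → Finset α) (k : ℕ) (c : β → ℕ) : Prop where
  lt : ∀ e ∈ E, c e < k
  dj : ∀ e ∈ E, ∀ e' ∈ E, e ≠ e' → c e = c e' → Disjoint (en e) (en e')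

/-- Equal colour classes. -/
def EqS : Prop := ∀ (α β : Type) [DecidableEq α] [DecidableEq β] (E : Finset β)
    (en : β → Finset α) (k y : ℕ) (c : β → ℕ), (∀ e ∈ E, (en e).card = 2) → Prp E en k c →
  E.card = k * y → ∃ c', Prp E en k c' ∧ ∀ t < k, (E.filter (fun e => c' e = t)).card = y

/-- Edge colouring when the vertices of degree `k` are independent. -/
def VizS : Prop := ∀ (α β : Type) [DecidableEq α] [DecidableEq β] (E : Finset β)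
    (en : β → Finset α) (k : ℕ) (C : α → Prop), (∀ e ∈ E, (en e).card = 2) →
  (∀ e ∈ E, ∀ e' ∈ E, en e = en e' → e = e') →
  (∀ v, (E.filter (fun e => v ∈ en e)).card ≤ k) →
  (∀ v, ¬ C v → (E.filter (fun e => v ∈ en e)).card < k) →
  (∀ e ∈ E, ∀ u ∈ en e, ∀ v ∈ en e, C u → C v → u = v) → ∃ c, Prp E en k c

/-- Orientations with bounded in-degrees. -/
def HakS : Prop := ∀ (V : Type) [Fintype V] [DecidableEq V] (G : SimpleGraph V)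
    [DecidableRel G.Adj] (cap : V → ℕ), (∀ S : Finset V, ein G S ≤ 2 * ∑ v ∈ S, cap v) →
  ∃ D, Orn G D ∧ ∀ v, (D.filter (fun p => p.2 = v)).card ≤ cap v

/-- Classes of heights with prescribed sums and prescribed parts. -/
def SplitS : Prop := ∀ (ι : Type) [DecidableEq ι] (n σ : ℕ) (C : Finset ι) (big : ι → Prop)
    [DecidablePred big] (pre : ι → Finset ℕ) (t : ι → ℕ) (c0 : ι), σ = 2 * (n / 2) + 1 →
  c0 ∈ C → big c0 → (∀ c ∈ C, ∀ y ∈ pre c, 1 ≤ y ∧ y < σ ∧ ∃ d ∈ C, σ - y ∈ pre d) →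
  (∀ c ∈ C, ∀ d ∈ C, c ≠ d → Disjoint (pre c) (pre d)) →
  ∑ c ∈ C, t c = n * (n + 1) / 2 →
  (∀ c ∈ C, ¬ big c → ∑ y ∈ pre c, y = t c) → (∀ c ∈ C, big c → ∑ y ∈ pre c, y + 7 * σ ≤ t c) →
  2 * ((C.biUnion pre).card + 3 + 4 * (C.filter big).card) + 4 < σ →
  ∃ W : ι → Finset ℕ, C.biUnion W = Icc 1 n ∧
    (∀ c ∈ C, ∀ d ∈ C, c ≠ d → Disjoint (W c) (W d)) ∧
    (∀ c ∈ C, pre c ⊆ W c ∧ ∑ y ∈ W c, y = t c ∧ (c ≠ c0 → ∀ y ∈ W c, y < σ)) ∧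
    (∀ c ∈ C, ¬ big c → W c = pre c) ∧
    ∀ c ∈ C, big c → ∃ q, (W c).card ≤ (pre c).card + 6 + 2 * q ∧
      ∑ y ∈ pre c, y + q * σ ≤ t c ∧ t c ≤ ∑ y ∈ pre c, y + (q + 6) * σ ∧
      q ≤ ((W c).filter (fun y => n / 2 ≤ y)).card

/-- Distinct numbers in `[a, 2 a)` with a prescribed sum. -/
def PickS : Prop := ∀ (a x J : ℕ) (B : Finset ℕ), 4 * a ≤ x → x ≤ J * a →
  100 * (B.card + J + 1) ≤ a → ∃ S ⊆ Ico a (2 * a), Disjoint S B ∧ ∑ y ∈ S, y = x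

/-- The heights of few owners of medium degree. -/
def MedS : Prop := ∀ (n Q Y J T : ℕ) (d : ℕ → ℕ), (∀ j < Q, 2 * Y ≤ d j ∧ d j ≤ J * (Y / 4)) →
  100 * (Q * J + J + 2) ≤ Y / 4 → 8 * Q + 8 ≤ Y → Y ≤ n →
  ∃ (W : ℕ → Finset ℕ) (η : ℕ → ℕ), Hts n Q W η ∧ ∀ j < Q, ∑ y ∈ W j, y = d j ∧ T ∉ W j ∧
    (∀ y ∈ W j, Y / 4 ≤ y ∧ y ≤ Y) ∧ 2 ≤ (W j).card ∧ (W j).card ≤ J

/-- Adding the stars of the owners to a labelling. -/
def OwnS : Prop := ∀ (V : Type) [DecidableEq V] (n Q Y0 Y1 F : ℕ) (U : Finset ℕ)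
    (D0 D1 : Finset (V × V)) (φ0 : ℕ × ℕ → V × V) (arm0 : ℕ → ℕ) (o : ℕ → V)
    (W : ℕ → Finset ℕ) (η : ℕ → ℕ), Lab n U D0 φ0 arm0 → Ow Q o D1 → Hts n Q W η →
  Disjoint D0 D1 → (∀ i < Q, Disjoint U (W i) ∧ ∑ y ∈ W i, y = dout D1 (o i)) →
  (∀ i < Q, (∀ y ∈ W i, y ≤ Y0) ∧ ∀ s ∈ ud n U φ0 (o i), Y0 ≤ s) →
  (∀ v, (∀ i < Q, o i ≠ v) → F ≤ (range Y1 \ ud n U φ0 v).card) →
  (∀ i < Q, (Q + 1) * (W i).card + 2 * U.card + ((range Q).biUnion W).card + 1 + F <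
    F * ((W i).filter (fun y => Y1 ≤ y)).card) →
  ∃ φ arm, Lab n (U ∪ (range Q).biUnion W) (D0 ∪ D1) φ arm ∧ (∀ x ∈ cl n U, φ x = φ0 x) ∧
    ∀ i < Q, ∀ x ∈ cl n (W i), φ x ∈ D1 ∧ (φ x).1 = o i

/-- Adding single edges to a labelling. -/
def TwoS : Prop := ∀ (V : Type) [DecidableEq V] (n Δ : ℕ) (U U2 : Finset ℕ)
    (D0 L : Finset (V × V)) (φ0 : ℕ × ℕ → V × V) (arm0 : ℕ → ℕ) (Bz : V → Finset ℕ),
  Lab n U D0 φ0 arm0 → U2 ⊆ Icc 1 n → Disjoint U U2 → Disjoint D0 L → (∀ p ∈ L, p.1 ≠ p.2) →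
  ∑ y ∈ U2, y = L.card → (∀ v, dtot L v ≤ Δ) →
  (∀ p ∈ L, ud n U φ0 p.1 ⊆ Bz p.1 ∧ ud n U φ0 p.2 ⊆ Bz p.2) →
  ((U2.card ≤ 1 ∧ ∀ p ∈ L, Bz p.1 = ∅ ∧ Bz p.2 = ∅) ∨ ∀ p ∈ L, ∀ s,
    ((Bz p.1).card + (Bz p.2).card) * U2.card +
      (L.filter (fun p' => s ∈ Bz p'.1 ∨ s ∈ Bz p'.2)).card + 4 * Δ * (U2.card - 1) + U2.card <
      L.card) →
  ∃ φ arm, Lab n (U ∪ U2) (D0 ∪ L) φ arm ∧ (∀ x ∈ cl n U, φ x = φ0 x) ∧
    ∀ x ∈ cl n U2, φ x ∈ L ∧ x.2 ∉ Bz (φ x).1 ∧ x.2 ∉ Bz (φ x).2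

/-- Orienting the edges at a set of owners. -/
def OrdS : Prop := ∀ (V : Type) [Fintype V] [DecidableEq V] (G : SimpleGraph V)
    [DecidableRel G.Adj] (O : Finset V) (_v0 : V),
  ∃ (o : ℕ → V) (Dm L : Finset (V × V)), Orn G (Dm ∪ L) ∧ Ow O.card o Dm ∧
    (∀ v, v ∈ O ↔ ∃ i < O.card, o i = v) ∧ (∀ p ∈ L, p.1 ∉ O ∧ p.2 ∉ O) ∧
    (∀ u ∈ O, dout Dm u ≤ G.degree u ∧ G.degree u ≤ dout Dm u + O.card) ∧
    ∀ v ∉ O, dtot L v = ((G.neighborFinset v) \ O).card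

/-- The number of arcs of an orientation. -/
def CardS : Prop := ∀ (V : Type) [Fintype V] [DecidableEq V] (G : SimpleGraph V)
    [DecidableRel G.Adj] (D : Finset (V × V)), Orn G D →
  D.card = G.edgeSet.ncard ∧ ∀ v, dtot D v = G.degree v

/-- From the labelling to the decomposition. -/
def FinS : Prop := ∀ (V : Type) [Fintype V] (G : SimpleGraph V) (n : ℕ) (D : Finset (V × V))
    (φ : ℕ × ℕ → V × V) (arm : ℕ → ℕ), Orn G D → Lab n (Icc 1 n) D φ arm → Dec0 G n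

/-- Large `n`. -/
def NumS : Prop := ∀ k, 1 ≤ k → ∃ n0, ∀ n, n0 ≤ n → ∃ h, Par n h k (10000 * k)

/-- Sums of an antitone function along a residue class. -/
def AntiS : Prop := ∀ (f : ℕ → ℕ) (R c Λ : ℕ), Antitone f → c < R →
  R * ∑ J ∈ (range Λ).filter (fun J => J % R = c), f J ≤ ∑ J ∈ range Λ, f J + R * f 0 ∧
    ∑ J ∈ range Λ, f J ≤ R * ∑ J ∈ (range Λ).filter (fun J => J % R = c), f J + R * f 0

/-- Random cyclic shifts. -/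
def ShiftS : Prop := ∀ (V : Type) [DecidableEq V] (Sh Wt : Finset V) (X : V → Finset V)
    (lab : V → ℕ → ℕ) (Ls : Finset ℕ) (l D : ℝ), 0 < l → l ≤ 1 →
  2 * ((Wt.card : ℝ) * Ls.card) < Real.exp (l * D) →
  ∃ pos : V → V → ℕ, (∀ u ∈ Sh, Set.BijOn (pos u) (X u) (range (X u).card : Finset ℕ)) ∧
    ∀ w ∈ Wt, ∀ J ∈ Ls,
      ((Sh.filter (fun u => w ∈ X u ∧ lab u (pos u w) = J)).card : ℝ) ≤
        (1 + l) * ∑ u ∈ Sh.filter (fun u => w ∈ X u),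
          (((range (X u).card).filter (fun i => lab u i = J)).card : ℝ) / (X u).card + D

end Pool.Agent.MP_f65396_co.h15n
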