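import Pool.Agent.MP_f65396_co.h15n.SpecA

/-! Statements of the main steps for graphs without a nearly complete subgraph. -/

set_option autoImplicit false

namespace Pool.Agent.MP_f65396_co.h15n

open Finset
open Pool.Agent.MP_f65396_co.h32 (cells rk)

/-- The vertices of huge degree with their arcs `D1`; the other arcs are `D0`. -/
structure HG {V : Type} [DecidableEq V] (n K q : ℕ) (o : ℕ → V) (D0 D1 : Finset (V × V)) :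
    Prop where
  ow : Ow q o D1
  d0 : ∀ p ∈ D0, ∀ i < q, p.1 ≠ o i ∧ p.2 ≠ o i
  big : ∀ i < q, K * n ≤ dout D1 (o i) + q
  qn : q * K ≤ n + 1
  tot : D0.card + D1.card = n * (n + 1) / 2
  hK : 10000 ≤ K
  hn : 10000 * K ≤ n

/-- A labelling on `U` with enough free depths extends to all heights. -/
def Ext {V : Type} [DecidableEq V] (n K : ℕ) (U : Finset ℕ) (D0 D : Finset (V × V)) : Prop :=
  ∀ φ arm, Lab n U D0 φ arm → (∀ v, 50 * n ≤ (range (n / 2) \ ud n U φ v).card * K) →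
    ∃ φ' arm', Lab n (Icc 1 n) D φ' arm'

/-- The distribution of the heights. -/
def TopS : Prop := ∀ (V : Type) [DecidableEq V] (n K q b : ℕ) (o : ℕ → V)
    (D0 D1 : Finset (V × V)) (U : Finset ℕ) (t : ℕ → ℕ) (A B : ℕ → Finset ℕ),
  HG n K q o D0 D1 → U ⊆ Icc 1 (n / 2) → 100 * U.card ≤ n → b ≤ 2 → (q = 0 → 0 < b) →
  (range q).biUnion A ∪ (range b).biUnion B =
    (U.filter (fun y => 2 * q < y)).image (fun y => 2 * (n / 2) + 1 - y) →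
  (∀ i < q, ∀ j < q, i ≠ j → Disjoint (A i) (A j)) → (∀ i < q, ∀ c < b, Disjoint (A i) (B c)) →
  (∀ c < b, ∀ d < b, c ≠ d → Disjoint (B c) (B d)) →
  (∀ i < q, 2 * (n + 1) * (A i).card ≤ dout D1 (o i)) →
  (∀ c < b, ((B c).card + 7) * (n + 1) ≤ t c) → ∑ y ∈ U, y + ∑ c ∈ range b, t c = D0.card →
  ∃ W : ℕ → Finset ℕ, (∀ c < b, W c ⊆ Icc 1 n ∧ Disjoint U (W c) ∧ ∑ y ∈ W c, y = t c ∧
      (W c).card * n ≤ ((B c).card + 6) * n + 2 * t c) ∧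
    (∀ c < b, ∀ d < b, c ≠ d → Disjoint (W c) (W d)) ∧
    Ext n K (U ∪ (range b).biUnion W) D0 (D0 ∪ D1)

/-- Two large classes. -/
def PlanMS : Prop := ∀ (V : Type) [DecidableEq V] (n K q t1 t2 : ℕ) (o : ℕ → V)
    (D0 D1 : Finset (V × V)), HG n K q o D0 D1 → t1 + t2 = D0.card → 7 * (n + 1) ≤ t1 →
  7 * (n + 1) ≤ t2 → ∃ U1 U2 : Finset ℕ, U1 ⊆ Icc 1 n ∧ U2 ⊆ Icc 1 n ∧ Disjoint U1 U2 ∧
    ∑ y ∈ U1, y = t1 ∧ ∑ y ∈ U2, y = t2 ∧ U1.card * n ≤ 6 * n + 2 * t1 ∧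
    U2.card * n ≤ 6 * n + 2 * t2 ∧ Ext n K (U1 ∪ U2) D0 (D0 ∪ D1)

/-- Prescribed heights and one large class. -/
def PlanAS : Prop := ∀ (V : Type) [DecidableEq V] (n K q t : ℕ) (o : ℕ → V)
    (D0 D1 : Finset (V × V)) (U : Finset ℕ), HG n K q o D0 D1 → U ⊆ Icc 1 (n / 2) →
  100 * U.card ≤ n → ∑ y ∈ U, y + t = D0.card → (U.card + 7) * (n + 1) ≤ t →
  ∃ U2 : Finset ℕ, U2 ⊆ Icc 1 n ∧ Disjoint U U2 ∧ ∑ y ∈ U2, y = t ∧
    U2.card * n ≤ (U.card + 6) * n + 2 * t ∧ Ext n K (U ∪ U2) D0 (D0 ∪ D1)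

/-- Prescribed heights only. -/
def PlanBS : Prop := ∀ (V : Type) [DecidableEq V] (n K q : ℕ) (o : ℕ → V)
    (D0 D1 : Finset (V × V)) (U : Finset ℕ), HG n K q o D0 D1 → U ⊆ Icc 1 (n / 2) →
  100 * U.card ≤ n → ∑ y ∈ U, y = D0.card → Ext n K U D0 (D0 ∪ D1)

/-- Few owners of medium degree and single edges. -/
structure FD {V : Type} [DecidableEq V] (n h K Q Y : ℕ) (o : ℕ → V) (Dm L : Finset (V × V)) :
    Prop where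
  ow : Ow Q o Dm
  av : ∀ p ∈ L, p.1 ≠ p.2 ∧ ∀ i < Q, p.1 ≠ o i ∧ p.2 ≠ o i
  lo : ∀ j < Q, 2 * Y ≤ dout Dm (o j) ∧ dout Dm (o j) ≤ K * n
  hQ : Q ≤ K ^ 21 * h + 1
  y1 : n ≤ 200 * K * Y
  y2 : 4 * K * Y ≤ n
  dl : ∀ v, K * dtot L v ≤ n

/-- Few owners, many single edges. -/
def FaS : Prop := ∀ (V : Type) [DecidableEq V] (n h k K q Q Y : ℕ) (oh o : ℕ → V)
    (Dm L D1 : Finset (V × V)), Par n h k K → HG n K q oh (Dm ∪ L) D1 → FD n h K Q Y o Dm L →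
  K ^ 25 * h * n ≤ L.card → ∃ φ arm, Lab n (Icc 1 n) (Dm ∪ L ∪ D1) φ arm

/-- Few owners, few single edges. -/
def FbS : Prop := ∀ (V : Type) [DecidableEq V] (n h k K q Q Y : ℕ) (oh o : ℕ → V)
    (Dm L D1 : Finset (V × V)), Par n h k K → HG n K q oh (Dm ∪ L) D1 → FD n h K Q Y o Dm L →
  L.card < K ^ 25 * h * n →
  (n / 2 ≤ L.card ∨ ∀ v, 8 * dtot L v ≤ Y ∨ dtot L v + 2 * (K ^ 26 * h) + 1 < L.card) →
  ∃ φ arm, Lab n (Icc 1 n) (Dm ∪ L ∪ D1) φ arm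

/-- The case of few vertices of medium degree. -/
def FewS : Prop := ∀ (V : Type) [Fintype V] [DecidableEq V] (G : SimpleGraph V)
    [DecidableRel G.Adj] (n h k K q : ℕ) (oh : ℕ → V) (D1 : Finset (V × V)), Par n h k K →
  (∀ D0, Orn G D0 → HG n K q oh D0 D1) → (∀ v, G.degree v ≤ K * n) →
  (univ.filter (fun v => n < K * G.degree v)).card < K ^ 21 * h →
  ∃ D0 φ arm, Orn G D0 ∧ Lab n (Icc 1 n) (D0 ∪ D1) φ arm

/-- The orientation in the case of many vertices of medium degree. -/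
structure M0 {V : Type} [DecidableEq V] (n h k K : ℕ) (Sh : Finset V) (D : Finset (V × V)) :
    Prop where
  asy : ∀ u v, (u, v) ∈ D → (v, u) ∉ D
  hd : ∀ p ∈ D, p.2 ∈ Sh → p.1 ∈ Sh
  o1 : ∀ u ∈ Sh, n ≤ 4 * K ^ 3 * dout D u ∧ dout D u ≤ K * n
  i1 : ∀ w, 4 * k * (D.filter (fun p => p.2 = w ∧ p.1 ∈ Sh)).card ≤ (2 * k - 1) * n
  lw : ∀ v ∉ Sh, K * dtot D v ≤ n
  many : K ^ 21 * h ≤ Sh.card
  tot : D.card ≤ n * (n + 1) / 2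

/-- The orientation exists. -/
def OriS : Prop := ∀ (V : Type) [Fintype V] [DecidableEq V] (G : SimpleGraph V)
    [DecidableRel G.Adj] (n h k K : ℕ) (Sh : Finset V), Par n h k K →
  (∀ S : Finset V, k * ein G S ≤ (k - 1) * n * S.card) → (∀ v, G.degree v ≤ K * n) →
  (∀ v, v ∈ Sh ↔ n < K * G.degree v) → K ^ 21 * h ≤ Sh.card →
  G.edgeSet.ncard ≤ n * (n + 1) / 2 → ∃ D, Orn G D ∧ M0 n h k K Sh D

/-- The derived constants and the numbers of tokens. -/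
structure Pm {V : Type} [DecidableEq V] (n K R z a g β : ℕ) (Sh : Finset V)
    (D : Finset (V × V)) (r : V → ℕ) : Prop where
  hR : R = 4 * K ^ 2
  hz : z = n / (16 * K ^ 5)
  ha : a = K ^ 6
  hg : g = K ^ 5
  hβ : β = 32 * K ^ 6 * g
  r1 : ∀ u ∈ Sh, 1 ≤ r u ∧ r u ≤ 32 * K ^ 6
  r2 : ∀ u ∈ Sh, R * (z * r u) ≤ (R - 10) * dout D u ∧ (R - 11) * dout D u ≤ R * (z * r u)

/-- The vertex `u` has a token in the bucket `c`. -/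
def tok {V : Type} (g β : ℕ) (r b : V → ℕ) (u : V) (c : ℕ) : Prop :=
  ∃ j < r u, (b u + j * g) % β = c

instance {V : Type} (g β : ℕ) (r b : V → ℕ) (u : V) (c : ℕ) : Decidable (tok g β r b u c) := by
  unfold tok
  infer_instance

/-- The random classes `ρ` and buckets `b`. -/
structure M1 {V : Type} [DecidableEq V] (n h K R g β : ℕ) (Sh : Finset V) (D : Finset (V × V))
    (r ρ b : V → ℕ) : Prop where
  lt : ∀ v, ρ v < R ∧ b v < β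
  t1 : ∀ w e c, ∑ u ∈ Sh.filter (fun u => (u, w) ∈ D ∧ ρ u = e ∧ tok g β r b u c), (1 / r u : ℝ) ≤
    (1 + 1 / (40 * R)) * (D.filter (fun p => p.2 = w ∧ p.1 ∈ Sh)).card / (R * β) + h
  t2 : ∀ e < R, ∀ c < β, (20 * R - 1) * ∑ u ∈ Sh, r u ≤
    20 * R ^ 2 * β * (Sh.filter (fun u => ρ u = e ∧ tok g β r b u c)).card
  t3 : ∀ e < R, (20 * R - 1) * ∑ u ∈ Sh, r u ≤ 20 * R ^ 2 * ∑ u ∈ Sh.filter (fun u => ρ u = e), r u ∧
    20 * R ^ 2 * ∑ u ∈ Sh.filter (fun u => ρ u = e), r u ≤ (20 * R + 1) * ∑ u ∈ Sh, r u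
  t4 : ∀ u ∈ Sh, ∀ e < R, dout D u ≤ 2 * R * (D.filter (fun p => p.1 = u ∧ ρ p.2 = e)).card ∧
    R * (D.filter (fun p => p.1 = u ∧ ρ p.2 = e)).card ≤ 2 * dout D u
  t5 : ∀ e, R * K * (D.filter (fun p => p.1 ∉ Sh ∧ (ρ p.1 = e ∨ ρ p.2 = e))).card ≤
    4 * K * (D.filter (fun p => p.1 ∉ Sh)).card + R * h * n
  t6 : ∀ w e, R * (D.filter (fun p => p.2 = w ∧ p.1 ∈ Sh ∧ ρ p.1 = e)).card ≤ 2 * n + R * h

/-- The classes and buckets exist. -/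
def LabelS : Prop := ∀ (V : Type) [DecidableEq V] (n h k K R z a g β : ℕ) (Sh : Finset V)
    (D : Finset (V × V)) (r : V → ℕ), Par n h k K → M0 n h k K Sh D → Pm n K R z a g β Sh D r →
  ∃ ρ b, M1 n h K R g β Sh D r ρ b

/-- The number of heights in `U` that are full in the block `J`. -/
def kJ (U : Finset ℕ) (h J : ℕ) : ℕ := (U.filter (fun y => (J + 1) * h ≤ y)).card

/-- The two classes of heights. -/
structure MU (n R z Nt T : ℕ) (U1 U2 : Finset ℕ) : Prop where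
  s1 : U1 ⊆ Icc 1 n
  s2 : U2 ⊆ Icc 1 n
  dj : Disjoint U1 U2
  tot : ∑ y ∈ U1, y + ∑ y ∈ U2, y = T
  e1 : ∑ y ∈ U1, y = (2 * R - 1) * (z * Nt) / (2 * R)
  c1 : U1.card * n ≤ 6 * n + 2 * ∑ y ∈ U1, y
  c2 : U2.card * n ≤ 6 * n + 2 * ∑ y ∈ U2, y

/-- The number of uses of a token. -/
def TabS : Prop := ∀ (n h a R z Nt N M T e : ℕ) (U1 U2 : Finset ℕ), MU n R z Nt T U1 U2 → e < R →
  0 < n → 10 ≤ R → 0 < a → a ≤ h → 100 * R ^ 2 * h * n ≤ z * Nt → 100 * R * h * a ≤ z →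
  (20 * R - 1) * Nt ≤ 20 * R ^ 2 * N → 20 * R ^ 2 * N ≤ (20 * R + 1) * Nt →
  M = ∑ J ∈ (range (n / h)).filter (fun J => J % R = e), kJ U1 h J / a →
  (M / N + 1) * (h * a) ≤ z ∧ (R - 1) * z ≤ R * (M / N * (h * a))

/-- The wrap-around schedule of the tokens. -/
def WrapS : Prop := ∀ (V : Type) [DecidableEq V] (S : Finset V) (r b : V → ℕ)
    (rm g β μ : ℕ) (P : Finset ℕ) (m : ℕ → ℕ) (_v0 : V), β = rm * g → 2 ≤ g → 1 ≤ μ → 0 < β →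
  (∀ u ∈ S, r u ≤ rm) → (∀ c < β, μ ≤ (S.filter (fun u => tok g β r b u c)).card) →
  (∀ J ∈ P, m J ≤ (g - 1) * μ) →
  ∃ ctr : ℕ → ℕ → V, (∀ J ∈ P, ∀ i < m J, ctr J i ∈ S ∧ ∀ j < m J, ctr J i = ctr J j → i = j) ∧
    (∀ u ∈ S, r u * ((∑ J ∈ P, m J) / ∑ v ∈ S, r v) ≤
        (P.filter (fun J => ∃ i < m J, ctr J i = u)).card ∧
      (P.filter (fun J => ∃ i < m J, ctr J i = u)).card ≤
        r u * ((∑ J ∈ P, m J) / ∑ v ∈ S, r v + 1)) ∧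
    ∀ J ∈ P, ∃ Bs : Finset ℕ, Bs.card ≤ m J / μ + 2 ∧ ∀ i < m J, ∃ c ∈ Bs, tok g β r b (ctr J i) c

/-- The expected load of a leaf. -/
def LoadS : Prop := ∀ (n h k K R z a g β Nt m μ I : ℕ), Par n h k K → R = 4 * K ^ 2 →
  z = n / (16 * K ^ 5) → a = K ^ 6 → g = K ^ 5 → β = 32 * K ^ 6 * g → K ^ 21 * h ≤ Nt →
  μ = ((20 * R - 1) * Nt + (20 * R ^ 2 * β - 1)) / (20 * R ^ 2 * β) →
  m * a * n ≤ 6 * n + 2 * (z * Nt) → 4 * k * I ≤ (2 * k - 1) * n →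
  1 ≤ μ ∧ m ≤ (g - 1) * μ ∧ 100 * R ^ 2 * h * n ≤ z * Nt ∧ 100 * R * h * a ≤ z ∧ a ≤ h ∧
    (h * a / z : ℝ) * ((m / μ + 2 : ℕ) * ((1 + 1 / (40 * R)) * I / (R * β) + h)) ≤
      (1 - 2 / (5 * k)) * h

/-- The centres of the complete stars of the blocks. -/
structure M2 {V : Type} [DecidableEq V] (n h k R z a : ℕ) (Sh : Finset V) (D : Finset (V × V))
    (r ρ : V → ℕ) (U1 : Finset ℕ) (ctr : ℕ → ℕ → V) : Prop where
  c1 : ∀ J < n / h, ∀ i < kJ U1 h J / a, ctr J i ∈ Sh ∧ ρ (ctr J i) = J % R ∧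
    ∀ j < kJ U1 h J / a, ctr J i = ctr J j → i = j
  c2 : ∀ u ∈ Sh,
    ((range (n / h)).filter (fun J => ∃ i < kJ U1 h J / a, ctr J i = u)).card * (h * a) ≤
      z * r u ∧ (R - 1) * (z * r u) ≤
      R * (((range (n / h)).filter (fun J => ∃ i < kJ U1 h J / a, ctr J i = u)).card * (h * a))
  c3 : ∀ w, ∀ J < n / h, ∑ u ∈ Sh.filter (fun u => (u, w) ∈ D ∧ ∃ i < kJ U1 h J / a, ctr J i = u),
    (h * a / (z * r u) : ℝ) ≤ (1 - 2 / (5 * k)) * h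

/-- The centres exist. -/
def CtrS : Prop := ∀ (V : Type) [DecidableEq V] (n h k K R z a g β : ℕ) (Sh : Finset V)
    (D : Finset (V × V)) (r ρ b : V → ℕ) (U1 U2 : Finset ℕ), Par n h k K → M0 n h k K Sh D →
  Pm n K R z a g β Sh D r → M1 n h K R g β Sh D r ρ b →
  MU n R z (∑ u ∈ Sh, r u) D.card U1 U2 → ∃ ctr, M2 n h k R z a Sh D r ρ U1 ctr

/-- The arcs of the complete stars, with block and column. -/
structure M3 {V : Type} [DecidableEq V] (n h k K R a : ℕ) (D : Finset (V × V)) (ρ : V → ℕ)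
    (U1 : Finset ℕ) (ctr : ℕ → ℕ → V) (Ds : Finset (V × V)) (blk col : V × V → ℕ) : Prop where
  s1 : Ds ⊆ D
  s2 : ∀ p ∈ Ds, blk p < n / h ∧ col p < a * (kJ U1 h (blk p) / a) ∧
    p.1 = ctr (blk p) (col p / a) ∧ ρ p.2 ≠ blk p % R
  s3 : ∀ J < n / h, ∀ c < a * (kJ U1 h J / a),
    (Ds.filter (fun p => blk p = J ∧ col p = c)).card = h
  s4 : ∀ w J, 3 * k * (Ds.filter (fun p => blk p = J ∧ p.2 = w)).card ≤ (3 * k - 1) * h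
  s5 : ∀ v, K * dtot (D \ Ds) v ≤ 4 * n

/-- The arcs of the complete stars exist. -/
def StarS : Prop := ∀ (V : Type) [DecidableEq V] (n h k K R z a g β : ℕ) (Sh : Finset V)
    (D : Finset (V × V)) (r ρ b : V → ℕ) (U1 : Finset ℕ) (ctr : ℕ → ℕ → V), Par n h k K →
  M0 n h k K Sh D → Pm n K R z a g β Sh D r → M1 n h K R g β Sh D r ρ b →
  M2 n h k R z a Sh D r ρ U1 ctr → ∃ Ds blk col, M3 n h k K R a D ρ U1 ctr Ds blk col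

/-- The irregular cells. -/
def hc (n h a : ℕ) (U1 U2 : Finset ℕ) : Finset (ℕ × ℕ) :=
  (cl n (U1 ∪ U2)).filter (fun x => (x.1 ∈ U1 ∧ a * (kJ U1 h (x.2 / h) / a) ≤ rk U1 x.1) ∨
    (x.1 ∈ U2 ∧ x.1 < (x.2 / h + 1) * h))

/-- The arm of a height. -/
def ky (a : ℕ) (U1 : Finset ℕ) (y : ℕ) : ℕ × ℕ := if y ∈ U1 then (rk U1 y / a, 0) else (y, 1)

/-- The arcs of the irregular cells. -/
structure M4 {V : Type} (n h R a : ℕ) (D : Finset (V × V)) (ρ : V → ℕ) (U1 U2 : Finset ℕ)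
    (ctr : ℕ → ℕ → V) (ψ : ℕ × ℕ → V × V) : Prop where
  p1 : ∀ x ∈ hc n h a U1 U2, ψ x ∈ D ∧ ρ (ψ x).1 = x.2 / h % R ∧ ρ (ψ x).2 = x.2 / h % R ∧
    ∀ i < kJ U1 h (x.2 / h) / a, ctr (x.2 / h) i ≠ (ψ x).1 ∧ ctr (x.2 / h) i ≠ (ψ x).2
  p2 : Set.InjOn ψ (hc n h a U1 U2)
  p3 : ∀ x ∈ hc n h a U1 U2, ∀ y ∈ hc n h a U1 U2, x.2 = y.2 →
    (ky a U1 x.1 = ky a U1 y.1 ↔ (ψ x).1 = (ψ y).1) ∧ (ψ x).2 ≠ (ψ y).1 ∧
      ((ψ x).2 = (ψ y).2 → x = y)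

/-- The arcs of the irregular cells exist. -/
def IrrS : Prop := ∀ (V : Type) [DecidableEq V] (n h k K R z a g β : ℕ) (Sh : Finset V)
    (D : Finset (V × V)) (r ρ b : V → ℕ) (U1 U2 : Finset ℕ) (ctr : ℕ → ℕ → V), Par n h k K →
  M0 n h k K Sh D → Pm n K R z a g β Sh D r → M1 n h K R g β Sh D r ρ b →
  MU n R z (∑ u ∈ Sh, r u) D.card U1 U2 → ∃ ψ, M4 n h R a D ρ U1 U2 ctr ψ

/-- Blocks for the single edges. -/
def SlotS : Prop := ∀ (V : Type) [DecidableEq V] (L : Finset (V × V)) (ρ : V → ℕ)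
    (h R Λ y Δ tc : ℕ) (k : ℕ → ℕ) (_v0 : V), Antitone k → 0 < R → 0 < y →
  L.card = h * ∑ J ∈ range Λ, k J → (∀ v, dtot L v ≤ Δ) →
  (∀ e, (L.filter (fun p => ρ p.1 = e ∨ ρ p.2 = e)).card ≤ tc) →
  2 * (L.card / R + h * k 0) + tc + (4 * Δ + 1) * (h * k 0 / y) + 1 < L.card →
  ∃ bl : V × V → ℕ, (∀ p ∈ L, bl p < Λ ∧ ρ p.1 ≠ bl p % R ∧ ρ p.2 ≠ bl p % R) ∧
    (∀ J < Λ, (L.filter (fun p => bl p = J)).card = h * k J) ∧
    ∀ v J, (L.filter (fun p => bl p = J ∧ (p.1 = v ∨ p.2 = v))).card ≤ y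

/-- The count of the cells. -/
def CountS : Prop := ∀ (n h a : ℕ) (U1 U2 : Finset ℕ), 0 < h → 0 < a → U1 ⊆ Icc 1 n →
  U2 ⊆ Icc 1 n → Disjoint U1 U2 →
  ∑ y ∈ U1, y + ∑ y ∈ U2, y = h * ∑ J ∈ range (n / h), a * (kJ U1 h J / a) +
    (hc n h a U1 U2).card + h * ∑ J ∈ range (n / h), kJ U2 h J ∧
  ∑ y ∈ U2, y ≤ h * ∑ J ∈ range (n / h), kJ U2 h J + h * U2.card

/-- The single edges with their blocks. -/
structure M5 {V : Type} [DecidableEq V] (n h k R : ℕ) (ρ : V → ℕ) (U2 : Finset ℕ)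
    (L : Finset (V × V)) (bl : V × V → ℕ) : Prop where
  l1 : ∀ p ∈ L, bl p < n / h ∧ ρ p.1 ≠ bl p % R ∧ ρ p.2 ≠ bl p % R
  l2 : ∀ J < n / h, (L.filter (fun p => bl p = J)).card = h * kJ U2 h J
  l3 : ∀ v J, 30 * k * (L.filter (fun p => bl p = J ∧ (p.1 = v ∨ p.2 = v))).card ≤ h

/-- The blocks of the single edges exist. -/
def RestS : Prop := ∀ (V : Type) [DecidableEq V] (n h k K R z a g β : ℕ) (Sh : Finset V)
    (D : Finset (V × V)) (r ρ b : V → ℕ) (U1 U2 : Finset ℕ) (ctr : ℕ → ℕ → V)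
    (Ds : Finset (V × V)) (blk col : V × V → ℕ) (ψ : ℕ × ℕ → V × V), Par n h k K →
  M0 n h k K Sh D → Pm n K R z a g β Sh D r → M1 n h K R g β Sh D r ρ b →
  MU n R z (∑ u ∈ Sh, r u) D.card U1 U2 → M2 n h k R z a Sh D r ρ U1 ctr →
  M3 n h k K R a D ρ U1 ctr Ds blk col → M4 n h R a D ρ U1 U2 ctr ψ →
  ∃ bl, M5 n h k R ρ U2 (D \ (Ds ∪ (hc n h a U1 U2).image ψ)) bl

/-- The colours inside the blocks. -/
structure M6 {V : Type} (h Λ : ℕ) (kk : ℕ → ℕ) (Ds L : Finset (V × V))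
    (blk col bl dp : V × V → ℕ) : Prop where
  d1 : (∀ p ∈ Ds, dp p < h) ∧ ∀ p ∈ L, dp p < h
  d2 : ∀ p ∈ Ds, ∀ p' ∈ Ds, blk p = blk p' → dp p = dp p' → (col p = col p' ∨ p.2 = p'.2) → p = p'
  d3 : ∀ p ∈ Ds, ∀ p' ∈ L, blk p = bl p' → dp p = dp p' → p.2 ≠ p'.1 ∧ p.2 ≠ p'.2
  d4 : ∀ p ∈ L, ∀ p' ∈ L, bl p = bl p' → dp p = dp p' → p ≠ p' →
    p.1 ≠ p'.1 ∧ p.1 ≠ p'.2 ∧ p.2 ≠ p'.2
  d5 : ∀ J < Λ, ∀ t < h, (L.filter (fun p => bl p = J ∧ dp p = t)).card = kk J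

/-- The colours exist. -/
def BlockS : Prop := ∀ (V : Type) [DecidableEq V] (h Λ : ℕ) (mc kk : ℕ → ℕ)
    (Ds L : Finset (V × V)) (blk col bl : V × V → ℕ), Disjoint Ds L →
  (∀ p ∈ Ds, blk p < Λ ∧ col p < mc (blk p)) →
  (∀ J < Λ, ∀ c < mc J, (Ds.filter (fun p => blk p = J ∧ col p = c)).card = h) →
  (∀ p ∈ Ds, ∀ p' ∈ Ds, blk p = blk p' → col p = col p' → p.1 = p'.1) →
  (∀ u v, (u, v) ∈ L → (v, u) ∉ L) → (∀ p ∈ L, bl p < Λ) →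
  (∀ J < Λ, (L.filter (fun p => bl p = J)).card = h * kk J) →
  (∀ v, ∀ J < Λ, (Ds.filter (fun p => blk p = J ∧ p.2 = v)).card +
    (L.filter (fun p => bl p = J ∧ (p.1 = v ∨ p.2 = v))).card < h) →
  ∃ dp, M6 h Λ kk Ds L blk col bl dp

/-- The labelling in the main case. -/
def GlueS : Prop := ∀ (V : Type) [DecidableEq V] (n h k K R z a : ℕ) (Sh : Finset V)
    (D : Finset (V × V)) (r ρ : V → ℕ) (U1 U2 : Finset ℕ) (ctr : ℕ → ℕ → V)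
    (Ds L : Finset (V × V)) (blk col bl dp : V × V → ℕ) (ψ : ℕ × ℕ → V × V), 0 < h → 0 < a →
  U1 ⊆ Icc 1 n → U2 ⊆ Icc 1 n → Disjoint U1 U2 → (∀ p ∈ D, p.1 ≠ p.2) →
  M2 n h k R z a Sh D r ρ U1 ctr → M3 n h k K R a D ρ U1 ctr Ds blk col →
  M4 n h R a D ρ U1 U2 ctr ψ → L = D \ (Ds ∪ (hc n h a U1 U2).image ψ) →
  M5 n h k R ρ U2 L bl → M6 h (n / h) (kJ U2 h) Ds L blk col bl dp →
  ∃ φ arm, Lab n (U1 ∪ U2) D φ arm ∧ ∀ x ∈ cl n (U1 ∪ U2), ∀ v, ρ v ≠ x.2 / h % R →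
    ((φ x).1 = v ∨ (φ x).2 = v) →
      (φ x ∈ Ds ∧ blk (φ x) = x.2 / h ∧ (φ x).2 = v) ∨ (φ x ∈ L ∧ bl (φ x) = x.2 / h)

/-- The free depths in the main case. -/
def FreeS : Prop := ∀ (V : Type) [DecidableEq V] (n h k K R : ℕ) (U : Finset ℕ)
    (D Ds L : Finset (V × V)) (blk bl : V × V → ℕ) (ρ : V → ℕ) (φ : ℕ × ℕ → V × V)
    (arm : ℕ → ℕ), Par n h k K → R = 4 * K ^ 2 → Lab n U D φ arm →
  (∀ w J, 3 * k * (Ds.filter (fun p => blk p = J ∧ p.2 = w)).card ≤ (3 * k - 1) * h) →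
  (∀ v J, 30 * k * (L.filter (fun p => bl p = J ∧ (p.1 = v ∨ p.2 = v))).card ≤ h) →
  (∀ x ∈ cl n U, ∀ v, ρ v ≠ x.2 / h % R → ((φ x).1 = v ∨ (φ x).2 = v) →
    (φ x ∈ Ds ∧ blk (φ x) = x.2 / h ∧ (φ x).2 = v) ∨ (φ x ∈ L ∧ bl (φ x) = x.2 / h)) →
  ∀ v, 50 * n ≤ (range (n / 2) \ ud n U φ v).card * K

/-- The case of many vertices of medium degree. -/
def ManyS : Prop := ∀ (V : Type) [DecidableEq V] (n h k K q : ℕ) (oh : ℕ → V) (Sh : Finset V)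
    (D D1 : Finset (V × V)), Par n h k K → HG n K q oh D D1 → M0 n h k K Sh D →
  ∃ φ arm, Lab n (Icc 1 n) (D ∪ D1) φ arm

end Pool.Agent.MP_f65396_co.h15n
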