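import Pool.Agent.MP_f65396_co.h15n.SpecA
import Mathlib.Data.Set.Card

/-! Adding single edges to a labelling. -/

set_option autoImplicit false

namespace Pool.Agent.MP_f65396_co.h15n

open Finset
open Pool.Agent.MP_f65396_co.h32 (cells mem_cells card_cells)

namespace Two

theorem mem_cl {n : ℕ} {U : Finset ℕ} {x : ℕ × ℕ} : x ∈ cl n U ↔ x ∈ cells n ∧ x.1 ∈ U :=
  mem_filter

theorem card_cl {n : ℕ} {U : Finset ℕ} (h : U ⊆ Icc 1 n) : (cl n U).card = ∑ y ∈ U, y := by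
  rw [cl, card_cells n U (fun y hy => (mem_Icc.1 (h hy)).2) _ fun _ _ k => k]
  exact sum_congr rfl fun y hy => by simp [hy]

theorem row {n : ℕ} {U : Finset ℕ} {y : ℕ × ℕ} (hy : y ∈ cl n U) (p : ℕ × ℕ → Prop)
    [DecidablePred p] (hp : ∀ x, p x → x ≠ y ∧ x.2 = y.2) :
    ((cl n U).filter p).card ≤ U.card - 1 := by
  rw [← card_erase_of_mem (mem_cl.1 hy).2]
  refine card_le_card_of_injOn Prod.fst (fun x hx => ?_) fun x hx z hz e => ?_
  · have := mem_filter.1 (mem_coe.1 hx)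
    exact mem_coe.2 (mem_erase.2 ⟨fun e => (hp x this.2).1 (Prod.ext e (hp x this.2).2),
      (mem_cl.1 this.1).2⟩)
  · exact Prod.ext e ((hp x (mem_filter.1 (mem_coe.1 hx)).2).2.trans
      (hp z (mem_filter.1 (mem_coe.1 hz)).2).2.symm)

variable {V : Type} [DecidableEq V]

theorem nb {L : Finset (V × V)} {Δ : ℕ} (h : ∀ v, dtot L v ≤ Δ) (e : V × V) (p : V × V → Prop)
    [DecidablePred p] (hp : ∀ x, p x → ¬ Disjoint ({x.1, x.2} : Finset V) {e.1, e.2}) :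
    (L.filter p).card ≤ 2 * Δ := by
  have := h e.1
  have := h e.2
  have k : L.filter p ⊆ L.filter (fun q => q.1 = e.1 ∨ q.2 = e.1) ∪
      L.filter fun q => q.1 = e.2 ∨ q.2 = e.2 := fun x hx => by
    have a := mem_filter.1 hx
    have b := hp x a.2
    simp only [disjoint_insert_left, disjoint_singleton_left, mem_insert, mem_singleton] at b
    simp only [mem_union, mem_filter]
    tauto
  have := (card_le_card k).trans (card_union_le _ _)
  unfold dtot at *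
  omega

theorem place (hs : SwapS) {n Δ : ℕ} {U : Finset ℕ} {L : Finset (V × V)} {Bz : V → Finset ℕ}
    (e0 : V × V) (hU : U ⊆ Icc 1 n) (hL : ∑ y ∈ U, y = L.card) (hΔ : ∀ v, dtot L v ≤ Δ)
    (h : (U.card ≤ 1 ∧ ∀ p ∈ L, Bz p.1 = ∅ ∧ Bz p.2 = ∅) ∨ ∀ p ∈ L, ∀ s,
      ((Bz p.1).card + (Bz p.2).card) * U.card +
        (L.filter (fun p' => s ∈ Bz p'.1 ∨ s ∈ Bz p'.2)).card + 4 * Δ * (U.card - 1) + U.card <
        L.card) :
    ∃ ψ : ℕ × ℕ → V × V, Set.BijOn ψ (cl n U) L ∧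
      (∀ x ∈ cl n U, x.2 ∉ Bz (ψ x).1 ∧ x.2 ∉ Bz (ψ x).2) ∧
      ∀ x ∈ cl n U, ∀ y ∈ cl n U, x ≠ y → x.2 = y.2 →
        Disjoint ({(ψ x).1, (ψ x).2} : Finset V) {(ψ y).1, (ψ y).2} := by
  have hc := (card_cl hU).trans hL
  rcases h with ⟨h1, h2⟩ | h
  · have : Nonempty (V × V) := ⟨e0⟩
    obtain ⟨ψ, k⟩ := (cl n U).finite_toSet.exists_bijOn_of_encard_eq (t := (L : Set (V × V)))
      (by rw [Set.encard_coe_eq_coe_finsetCard, Set.encard_coe_eq_coe_finsetCard, hc])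
    refine ⟨ψ, k, fun x hx => ?_, fun x hx y hy a b => absurd (Prod.ext
      (card_le_one.1 h1 _ (mem_cl.1 hx).2 _ (mem_cl.1 hy).2) b) a⟩
    have := h2 _ (k.mapsTo hx)
    simp [this.1, this.2]
  · obtain ⟨ψ, k1, k2, k3⟩ := hs _ _ Unit _ V (cl n U) L (fun _ => ()) (fun _ => ()) Prod.snd
      (fun p => {p.1, p.2}) (fun v s => s ∈ Bz v) (fun _ => U.card - 1) (2 * Δ) (U.card - 1)
      (2 * Δ) e0 (fun g => by simp [hc]) (fun y hy g => row hy _ fun x k => k.2)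
      (fun y hy => row hy _ fun x k => k) (fun e _ => nb hΔ e _ fun x k => k.2)
      (fun e _ g => nb hΔ e _ fun x k => k.2.2) fun e he y hy _ => by
        have a := h e he y.2
        have b : ((cl n U).filter fun x => () = () ∧
            ∃ v ∈ ({e.1, e.2} : Finset V), x.2 ∈ Bz v).card ≤
            ((Bz e.1).card + (Bz e.2).card) * U.card := by
          refine (card_le_card (t := U ×ˢ (Bz e.1 ∪ Bz e.2)) fun x hx => ?_).trans ?_
          · have := mem_filter.1 hx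
            simpa [(mem_cl.1 this.1).2] using this.2
          · rw [card_product, mul_comm]
            exact Nat.mul_le_mul_right _ (card_union_le _ _)
        have c : (L.filter fun e' => () = () ∧
            ∃ v ∈ ({e'.1, e'.2} : Finset V), y.2 ∈ Bz v).card =
            (L.filter (fun p' => y.2 ∈ Bz p'.1 ∨ y.2 ∈ Bz p'.2)).card := by simp
        have d : 0 < U.card := card_pos.2 ⟨_, (mem_cl.1 hy).2⟩
        have f : 4 * Δ * (U.card - 1) = 2 * Δ * (U.card - 1) + (U.card - 1) * (2 * Δ) := by ring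
        rw [filter_true_of_mem (s := cl n U) (p := fun _ => () = ()) fun _ _ => rfl, hc, c]
        omega
    exact ⟨ψ, k1, fun x hx => ⟨(k2 x hx).2 _ (by simp), (k2 x hx).2 _ (by simp)⟩, k3⟩

end Two

open Two in
theorem two (hs : SwapS) : TwoS := by
  intro V _ n Δ U U2 D0 L φ0 arm0 Bz h0 hU hd hD hl hL hΔ hB h
  obtain ⟨ψ, k1, k2, k3⟩ := place hs (φ0 0) hU hL hΔ h
  have nU : ∀ y ∈ U2, y ∉ U := fun y hy => disjoint_right.1 hd hy
  have cs : ∀ x ∈ cl n (U ∪ U2), (x ∈ cl n U ∧ x.1 ∈ U) ∨ (x ∈ cl n U2 ∧ x.1 ∉ U) := fun x hx =>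
    (mem_union.1 (mem_cl.1 hx).2).imp (fun a => ⟨mem_cl.2 ⟨(mem_cl.1 hx).1, a⟩, a⟩)
      fun a => ⟨mem_cl.2 ⟨(mem_cl.1 hx).1, a⟩, nU _ a⟩
  have cr : ∀ x ∈ cl n U, ∀ y ∈ cl n U2, x.2 = y.2 → ((φ0 x).1 ≠ (ψ y).1 ∧ (φ0 x).2 ≠ (ψ y).1) ∧
      (φ0 x).1 ≠ (ψ y).2 ∧ (φ0 x).2 ≠ (ψ y).2 := fun x hx y hy e => by
    have a := hB _ (k1.mapsTo hy)
    have b := k2 y hy
    rw [← e] at b
    exact ⟨not_or.1 fun k => b.1 (a.1 (mem_image_of_mem _ (mem_filter.2 ⟨hx, k⟩))),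
      not_or.1 fun k => b.2 (a.2 (mem_image_of_mem _ (mem_filter.2 ⟨hx, k⟩)))⟩
  have dj : ∀ x ∈ cl n U2, ∀ y ∈ cl n U2, x ≠ y → x.2 = y.2 →
      ((ψ x).1 ≠ (ψ y).1 ∧ (ψ x).1 ≠ (ψ y).2) ∧ (ψ x).2 ≠ (ψ y).1 ∧ (ψ x).2 ≠ (ψ y).2 :=
    fun x hx y hy a b => by
      simpa only [disjoint_insert_left, disjoint_singleton_left, mem_insert, mem_singleton, not_or]
        using k3 x hx y hy a b
  have e1 : ∀ x ∈ cl n U, (if x.1 ∈ U then φ0 x else ψ x) = φ0 x := fun x hx =>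
    if_pos (mem_cl.1 hx).2
  have e2 : ∀ x ∈ cl n U2, (if x.1 ∈ U then φ0 x else ψ x) = ψ x := fun x hx =>
    if_neg (nU _ (mem_cl.1 hx).2)
  refine ⟨fun x => if x.1 ∈ U then φ0 x else ψ x, fun y => if y ∈ U then arm0 y else y,
    ⟨?_, fun y hy => ?_, fun x hx y hy e => ?_, fun x hx y hy e => ?_, fun x hx y hy e => ?_⟩, e1,
    fun x hx => ?_⟩
  · have b1 := h0.bij.congr (f₂ := fun x => if x.1 ∈ U then φ0 x else ψ x) fun x hx => (e1 x hx).symm
    have b2 := k1.congr (f₂ := fun x => if x.1 ∈ U then φ0 x else ψ x) fun x hx => (e2 x hx).symm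
    have u : cl n (U ∪ U2) = cl n U ∪ cl n U2 := by
      ext x
      simp only [mem_cl, mem_union, and_or_left]
    rw [u, coe_union, coe_union]
    refine b1.union b2 ((Set.injOn_union (Set.disjoint_left.2 fun x a b =>
      nU _ (mem_cl.1 b).2 (mem_cl.1 a).2)).2 ⟨b1.injOn, b2.injOn, fun x a y b k => ?_⟩)
    exact disjoint_left.1 hD (b1.mapsTo a) (k ▸ b2.mapsTo b)
  · split_ifs with k
    exacts [mem_union_left _ (h0.am y k), hy]
  · rcases cs x hx with ⟨a, a'⟩ | ⟨a, a'⟩ <;> rcases cs y hy with ⟨b, b'⟩ | ⟨b, b'⟩ <;>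
      simp only [a', b', if_true, if_false]
    · exact h0.e4 x a y b e
    · exact iff_of_false (fun k => b' (k ▸ h0.am _ a')) (cr x a y b e).1.1
    · exact iff_of_false (fun k => a' (k ▸ h0.am _ b')) (cr y b x a e.symm).1.1.symm
    · exact ⟨fun k => by rw [Prod.ext k e], fun k => by
        by_contra c
        exact (dj x a y b (fun z => c (z ▸ rfl)) e).1.1 k⟩
  · rcases cs x hx with ⟨a, a'⟩ | ⟨a, a'⟩ <;> rcases cs y hy with ⟨b, b'⟩ | ⟨b, b'⟩ <;>
      simp only [a', b', if_true, if_false]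
    · exact h0.e5 x a y b e
    · exact (cr x a y b e).1.2
    · exact (cr y b x a e.symm).2.1.symm
    · by_cases c : x = y
      · exact c ▸ (hl _ (k1.mapsTo a)).symm
      · exact (dj x a y b c e).2.1
  · rcases cs x hx with ⟨a, a'⟩ | ⟨a, a'⟩ <;> rcases cs y hy with ⟨b, b'⟩ | ⟨b, b'⟩ <;>
      simp only [a', b', if_true, if_false]
    · exact h0.e6 x a y b e
    · exact fun k => absurd k (cr x a y b e).2.2
    · exact fun k => absurd k (cr y b x a e.symm).2.2.symm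
    · exact fun k => by_contra fun c => (dj x a y b c e).2.2 k
  · beta_reduce
    rw [e2 x hx]
    exact ⟨k1.mapsTo hx, k2 x hx⟩

end Pool.Agent.MP_f65396_co.h15n
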