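import Pool.Agent.MP_f65396_co.h15n.SpecB
import Mathlib.Combinatorics.SimpleGraph.DegreeSum

/-! The wiring of the steps for graphs without a nearly complete subgraph. -/

set_option autoImplicit false

namespace Pool.Agent.MP_f65396_co.h15n

open Finset

theorem wire (ord : OrdS) (cd : CardS) (fin : FinS) (num : NumS) (ori : OriS) (many : ManyS)
    (few : FewS) (k : ℕ) (hk : 1 ≤ k) : ∃ n0, ∀ (V : Type) [Fintype V] [DecidableEq V]
    (G : SimpleGraph V) [DecidableRel G.Adj] (n : ℕ), n0 ≤ n →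
    G.edgeSet.ncard = n * (n + 1) / 2 → (∀ S : Finset V, k * ein G S ≤ (k - 1) * n * S.card) →
    Dec0 G n := by
  obtain ⟨n0, h0⟩ := num k hk
  refine ⟨n0, fun V _ _ G _ n hn hE hS => ?_⟩
  obtain ⟨h, P⟩ := h0 n hn
  obtain ⟨K, hK⟩ : ∃ K, K = 10000 * k := ⟨_, rfl⟩
  rw [← hK] at P
  have k1 : 10000 ≤ K := by omega
  have n1 : 10000 * K ≤ n := by
    have a1 : K ^ 2 ≤ K ^ 60 := Nat.pow_le_pow_right (by omega) (by omega)
    have a2 : h ≤ h ^ 4 := Nat.le_self_pow (by omega) h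
    have a3 := P.hh
    have a4 := P.h1
    nlinarith
  have g2 := h32.gauss n
  obtain ⟨v0, -⟩ : ∃ v0 : V, True := by
    have : G.edgeSet.Nonempty := by
      rw [← Set.ncard_pos (Set.toFinite _), hE]
      have := Nat.mul_pos (show 0 < n by omega) (Nat.succ_pos n)
      rw [Nat.succ_eq_add_one] at this
      omega
    obtain ⟨e, -⟩ := this
    exact ⟨e.out.1, trivial⟩
  obtain ⟨O, hO⟩ : ∃ O : Finset V, ∀ v, v ∈ O ↔ K * n ≤ G.degree v :=
    ⟨univ.filter (fun v => K * n ≤ G.degree v), by simp⟩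
  have qn : O.card * K ≤ n + 1 := by
    have a1 : O.card * (K * n) ≤ ∑ v ∈ O, G.degree v := by
      rw [← smul_eq_mul, ← sum_const]
      exact sum_le_sum fun v hv => (hO v).1 hv
    have a2 : ∑ v ∈ O, G.degree v ≤ ∑ v, G.degree v :=
      sum_le_sum_of_subset (subset_univ _)
    rw [G.sum_degrees_eq_twice_card_edges, ← Set.ncard_coe_finset, SimpleGraph.coe_edgeFinset,
      hE, g2] at a2
    refine Nat.le_of_mul_le_mul_left (c := n) ?_ (by omega)
    calc n * (O.card * K) = O.card * (K * n) := by ring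
      _ ≤ _ := a1.trans a2
  obtain ⟨o, Dm, L, b1, b2, b3, b4, b5, -⟩ := ord V G O v0
  let G0 : SimpleGraph V :=
    { Adj := fun u v => G.Adj u v ∧ u ∉ O ∧ v ∉ O
      symm := ⟨fun u v e => ⟨e.1.symm, e.2.2, e.2.1⟩⟩
      loopless := ⟨fun u e => e.1.ne rfl⟩ }
  have tO : ∀ p ∈ Dm, p.1 ∈ O := fun p hp => by
    obtain ⟨i, hi, e, -⟩ := b2.tl p hp
    exact (b3 _).2 ⟨i, hi, e.symm⟩
  have orn : ∀ D0, Orn G0 D0 → Orn G (D0 ∪ Dm) := by
    intro D0 T
    refine ⟨fun p hp => ?_, fun u v e => ?_, fun u v h1 h2 => ?_⟩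
    · rcases mem_union.1 hp with c | c
      · exact (T.adj p c).1
      · exact b1.adj p (mem_union_left _ c)
    · by_cases c : u ∉ O ∧ v ∉ O
      · exact (T.cov u v ⟨e, c⟩).imp (mem_union_left _) (mem_union_left _)
      · refine (b1.cov u v e).imp (fun r => mem_union_right _ ?_) fun r => mem_union_right _ ?_
        · exact (mem_union.1 r).resolve_right fun r' => c (b4 _ r')
        · exact (mem_union.1 r).resolve_right fun r' => c (b4 _ r').symm
    · rcases mem_union.1 h1 with c | c <;> rcases mem_union.1 h2 with d | d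
      · exact T.asy u v c d
      · exact (T.adj _ c).2.2 (tO _ d)
      · exact (T.adj _ d).2.2 (tO _ c)
      · exact b1.asy u v (mem_union_left _ c) (mem_union_left _ d)
  have hg : ∀ D0, Orn G0 D0 → HG n K O.card o D0 Dm := by
    intro D0 T
    refine ⟨b2, fun p hp i hi => ?_, fun i hi => ?_, qn, ?_, k1, n1⟩
    · have c := (b3 (o i)).2 ⟨i, hi, rfl⟩
      exact ⟨fun e => (T.adj p hp).2.1 (e ▸ c), fun e => (T.adj p hp).2.2 (e ▸ c)⟩
    · have c := (b3 (o i)).2 ⟨i, hi, rfl⟩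
      exact ((hO _).1 c).trans (b5 _ c).2
    · rw [← hE, ← (cd V G _ (orn D0 T)).1, card_union_of_disjoint]
      exact disjoint_left.2 fun p h1 h2 => (T.adj p h1).2.1 (tO p h2)
  have le : G0 ≤ G := fun u v e => e.1
  have dg : ∀ v, G0.degree v ≤ K * n := by
    intro v
    by_cases c : v ∈ O
    · rw [(G0.degree_eq_zero_iff_notMem_support v).2 fun ⟨w, e⟩ => e.2.1 c]
      exact Nat.zero_le _
    · have a1 := SimpleGraph.degree_le_of_le (v := v) le
      have a2 := not_le.1 fun e => c ((hO v).2 e)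
      omega
  obtain ⟨D0, φ, arm, T, A⟩ : ∃ D0 φ arm, Orn G0 D0 ∧ Lab n (Icc 1 n) (D0 ∪ Dm) φ arm := by
    by_cases c : (univ.filter (fun v => n < K * G0.degree v)).card < K ^ 21 * h
    · exact few V G0 n h k K O.card o Dm P hg dg c
    · obtain ⟨D, T, M⟩ := ori V G0 n h k K (univ.filter (fun v => n < K * G0.degree v)) P
        (fun S => le_trans (Nat.mul_le_mul_left _ (card_le_card
          (monotone_filter_right _ fun p _ e => e.1))) (hS S)) dg (by simp) (not_lt.1 c)
        (hE ▸ Set.ncard_le_ncard (SimpleGraph.edgeSet_mono le) (Set.toFinite _))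
      obtain ⟨φ, arm, A⟩ := many V n h k K O.card o _ D Dm P (hg D T) M
      exact ⟨D, φ, arm, T, A⟩
  exact fin V G n _ φ arm (orn D0 T) A

end Pool.Agent.MP_f65396_co.h15n
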